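import Pool.Agent.VSp.Cover

set_option autoImplicit false

/-! M4. Residual finiteness and the first level. -/

namespace VSp

namespace First

section Perm

open scoped Classical in
/-- Partial labels on a finite set with a cyclic structure extend to permutations. -/
lemma exists_perm {S α : Type*} [Finite S] (σ : Equiv.Perm S) (lab : S → Option (α × Bool))
    (h : ∀ s x d d', lab s = some (x, d) → lab (σ s) = some (x, d') → d = d') (x : α) :
    ∃ P : Equiv.Perm S, ∀ s, (lab s = some (x, true) → P s = σ s) ∧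
      (lab s = some (x, false) → P (σ s) = s) := by
  have : Fintype S := Fintype.ofFinite S
  let m : S → S := fun a => if lab a = some (x, true) then σ a else σ⁻¹ a
  let D : Set S := {a | lab a = some (x, true) ∨ lab (σ⁻¹ a) = some (x, false)}
  have key : ∀ a b : S, lab a = some (x, true) → lab (σ⁻¹ b) = some (x, false) →
      σ a = σ⁻¹ b → False := by
    intro a b ha hb hab
    have h1 := h a x true false ha (by rw [hab]; exact hb)
    exact Bool.noConfusion h1
  have key2 : ∀ a : S, lab a = some (x, true) → lab (σ⁻¹ a) = some (x, false) → False := by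
    intro a ha hb
    have h2 : σ (σ⁻¹ a) = a := σ.apply_symm_apply a
    have h1 := h (σ⁻¹ a) x false true hb (by rw [h2]; exact ha)
    exact Bool.noConfusion h1
  have hinj : Set.InjOn m D := by
    intro a ha b hb hab
    by_cases h1 : lab a = some (x, true) <;> by_cases h2 : lab b = some (x, true)
    · simp only [m, if_pos h1, if_pos h2] at hab
      exact σ.injective hab
    · simp only [m, if_pos h1, if_neg h2] at hab
      exact (key a b h1 (hb.resolve_left h2) hab).elim
    · simp only [m, if_neg h1, if_pos h2] at hab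
      exact (key b a h2 (ha.resolve_left h1) hab.symm).elim
    · simp only [m, if_neg h1, if_neg h2] at hab
      exact (σ⁻¹).injective hab
  have hmaps : Set.MapsTo m D (Finset.univ : Finset S) := by
    intro a _; simp
  obtain ⟨g, hg⟩ := hmaps.exists_equiv_extend_of_card_eq (by simp) hinj
  refine ⟨g.trans (Equiv.subtypeUnivEquiv (by simp)), fun a => ⟨fun h => ?_, fun h => ?_⟩⟩
  · show ((g a : _) : S) = _
    rw [hg a (Or.inl h)]
    simp only [m, if_pos h]
  · have h4 : σ⁻¹ (σ a) = a := σ.symm_apply_apply a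
    have h3 : lab (σ⁻¹ (σ a)) = some (x, false) := by
      rw [h4]; exact h
    show ((g (σ a) : _) : S) = _
    rw [hg (σ a) (Or.inr h3)]
    have : lab (σ a) ≠ some (x, true) := fun h' => key2 (σ a) h' h3
    simp only [m, if_neg this, h4]

end Perm

section Act

variable {V : Type} {Γ : SimpleGraph V} (y : V) {K : Type} [Group K] (π₀ : RAAG Γ →* K)
  {S : Type} (γ : (K ⧸ ((lk Γ y).map π₀)) → Equiv.Perm S)

/-- The action of the letter `y`. -/
def permY : Equiv.Perm (K × S) where
  toFun p := (p.1, γ (p.1 : K ⧸ ((lk Γ y).map π₀)) p.2)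
  invFun p := (p.1, (γ (p.1 : K ⧸ ((lk Γ y).map π₀)))⁻¹ p.2)
  left_inv p := by simp
  right_inv p := by simp

/-- The action of another letter. -/
def permZ (S : Type) (c : K) : Equiv.Perm (K × S) where
  toFun p := (p.1 * c, p.2)
  invFun p := (p.1 * c⁻¹, p.2)
  left_inv p := by simp
  right_inv p := by simp

lemma permY_permZ (z : V) (hz : Γ.Adj y z) :
    permY y π₀ γ * permZ S (π₀ (of Γ z)) = permZ S (π₀ (of Γ z)) * permY y π₀ γ := by
  ext p
  · rfl
  · show (γ ((p.1 * π₀ (of Γ z) : K) : K ⧸ ((lk Γ y).map π₀))) p.2 =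
      (γ (p.1 : K ⧸ ((lk Γ y).map π₀))) p.2
    have : ((p.1 * π₀ (of Γ z) : K) : K ⧸ ((lk Γ y).map π₀)) =
        (p.1 : K ⧸ ((lk Γ y).map π₀)) := by
      rw [eq_comm, QuotientGroup.eq, inv_mul_cancel_left]
      exact ⟨_, Subgroup.subset_closure ⟨z, hz, rfl⟩, rfl⟩
    rw [this]

lemma permZ_permZ {c c' : K} (h : Commute c c') :
    permZ S c * permZ S c' = permZ S c' * permZ S c := by
  ext p
  · show p.1 * c' * c = p.1 * c * c'
    rw [mul_assoc, mul_assoc, h.eq]
  · rfl

open scoped Classical in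
/-- The action of a letter. -/
noncomputable def gen (z : V) : Equiv.Perm (K × S) :=
  if z = y then permY y π₀ γ else permZ S (π₀ (of Γ z))

lemma gen_comm (x z : V) (h : Γ.Adj x z) :
    gen y π₀ γ x * gen y π₀ γ z = gen y π₀ γ z * gen y π₀ γ x := by
  unfold gen
  by_cases hx : x = y
  · have hz : z ≠ y := fun hz => Γ.loopless.irrefl y (by rw [hx, hz] at h; exact h)
    rw [if_pos hx, if_neg hz]
    exact permY_permZ y π₀ γ z (hx ▸ h)
  · by_cases hz : z = y
    · rw [if_neg hx, if_pos hz]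
      exact (permY_permZ y π₀ γ x (hz ▸ h.symm)).symm
    · rw [if_neg hx, if_neg hz]
      exact permZ_permZ ((of_comm Γ h).map π₀)

/-- The right action of the RAAG on `K × S`. -/
noncomputable def T : RAAG Γ →* (Equiv.Perm (K × S))ᵐᵒᵖ :=
  lift (fun z => MulOpposite.op (gen y π₀ γ z)) (by
    intro x z h
    show MulOpposite.op _ * MulOpposite.op _ = MulOpposite.op _ * MulOpposite.op _
    rw [← MulOpposite.op_mul, ← MulOpposite.op_mul, gen_comm y π₀ γ x z h])

/-- The right action as a function. -/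
noncomputable def ra (g : RAAG Γ) (p : K × S) : K × S := (T y π₀ γ g).unop p

lemma ra_mul (g g' : RAAG Γ) (p : K × S) :
    ra y π₀ γ (g * g') p = ra y π₀ γ g' (ra y π₀ γ g p) := by
  unfold ra
  rw [map_mul, MulOpposite.unop_mul, Equiv.Perm.mul_apply]

lemma ra_one (p : K × S) : ra y π₀ γ 1 p = p := by
  unfold ra
  rw [map_one]; rfl

lemma ra_of_ne {z : V} (hz : z ≠ y) (p : K × S) :
    ra y π₀ γ (of Γ z) p = (p.1 * π₀ (of Γ z), p.2) := by
  unfold ra T
  rw [lift_of, MulOpposite.unop_op, gen, if_neg hz]; rfl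

lemma ra_of_eq (p : K × S) :
    ra y π₀ γ (of Γ y) p = (p.1, γ (p.1 : K ⧸ ((lk Γ y).map π₀)) p.2) := by
  unfold ra T
  rw [lift_of, MulOpposite.unop_op, gen, if_pos rfl]; rfl

lemma ra_inv_eq {g : RAAG Γ} {p q : K × S} (h : ra y π₀ γ g q = p) :
    ra y π₀ γ g⁻¹ p = q := by
  rw [← h, ← ra_mul, mul_inv_cancel, ra_one]

lemma ra_sub (g : RAAG Γ) (hg : g ∈ sub Γ {z | z ≠ y}) (p : K × S) :
    ra y π₀ γ g p = (p.1 * π₀ g, p.2) := by
  induction hg using Subgroup.closure_induction generalizing p with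
  | mem x hx =>
    obtain ⟨z, hz, rfl⟩ := hx
    exact ra_of_ne y π₀ γ hz p
  | one => rw [ra_one, map_one, mul_one]
  | mul a b _ _ ha hb => rw [ra_mul, ha, hb, map_mul, mul_assoc]
  | inv a _ ha =>
    apply ra_inv_eq
    rw [ha, map_inv]
    simp

lemma ra_y_inv (p : K × S) :
    ra y π₀ γ (of Γ y)⁻¹ p = (p.1, (γ (p.1 : K ⧸ ((lk Γ y).map π₀)))⁻¹ p.2) := by
  apply ra_inv_eq
  rw [ra_of_eq]
  simp

lemma lk_le (y : V) : lk Γ y ≤ sub Γ {z | z ≠ y} :=
  sub_mono fun _ hz h => Γ.loopless.irrefl y (h ▸ hz)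

/-- One step along the labelled path. -/
lemma ra_step (σ : Equiv.Perm S) (lab : S → Option ((K ⧸ ((lk Γ y).map π₀)) × Bool))
    (hγ : ∀ x s, (lab s = some (x, true) → γ x s = σ s) ∧
      (lab s = some (x, false) → γ x (σ s) = s)) (d : Bool) (k : K) (s : S)
    (h : lab s = some ((k : K ⧸ ((lk Γ y).map π₀)), d)) :
    ra y π₀ γ (sgn Γ y d) (k, s) = (k, σ s) := by
  cases d with
  | true =>
    show ra y π₀ γ (of Γ y) (k, s) = _
    rw [ra_of_eq]
    show (k, γ (k : K ⧸ ((lk Γ y).map π₀)) s) = _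
    rw [(hγ _ s).1 h]
  | false =>
    show ra y π₀ γ (of Γ y)⁻¹ (k, s) = _
    rw [ra_y_inv]
    show (k, (γ (k : K ⧸ ((lk Γ y).map π₀)))⁻¹ s) = _
    congr 1
    rw [Equiv.Perm.inv_eq_iff_eq, (hγ _ s).2 h]

end Act

section Ref

variable {V : Type} {Γ : SimpleGraph V}

/-- Residually finite. -/
def RF (G : Type) [Group G] : Prop :=
  ∀ g : G, g ≠ 1 → ∃ (K : Type) (_ : Group K) (_ : Finite K) (π : G →* K), π g ≠ 1

/-- The graph without the letter `y`. -/
abbrev del (Γ : SimpleGraph V) (y : V) : SimpleGraph {z : V // z ≠ y} :=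
  Γ.comap (Subtype.val : {z : V // z ≠ y} → V)

open scoped Classical in
/-- Delete the letter `y`. -/
noncomputable def rho (Γ : SimpleGraph V) (y : V) : RAAG Γ →* RAAG (del Γ y) :=
  lift (fun z => if h : z ≠ y then of (del Γ y) ⟨z, h⟩ else 1) (by
    intro a b hab
    by_cases ha : a ≠ y
    · by_cases hb : b ≠ y
      · rw [dif_pos ha, dif_pos hb]
        exact of_comm (del Γ y) hab
      · rw [dif_neg hb]; exact Commute.one_right _
    · rw [dif_neg ha]; exact Commute.one_left _)

lemma rho_of {y z : V} (h : z ≠ y) : rho Γ y (of Γ z) = of (del Γ y) ⟨z, h⟩ := by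
  unfold rho
  rw [lift_of, dif_pos h]

lemma rho_of_self (y : V) : rho Γ y (of Γ y) = 1 := by
  unfold rho
  rw [lift_of, dif_neg (by simp)]

/-- The inclusion. -/
def iota (Γ : SimpleGraph V) (y : V) : RAAG (del Γ y) →* RAAG Γ :=
  lift (fun z => of Γ z.1) (fun _ _ h => of_comm Γ h)

lemma iota_of {y : V} (z : {z : V // z ≠ y}) : iota Γ y (of (del Γ y) z) = of Γ z.1 :=
  lift_of _ _ _

lemma iota_rho {y : V} {g : RAAG Γ} (hg : g ∈ sub Γ {z | z ≠ y}) :
    iota Γ y (rho Γ y g) = g := by
  have h : Set.EqOn ((iota Γ y).comp (rho Γ y)) (MonoidHom.id (RAAG Γ))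
      (Subgroup.closure (of Γ '' {z | z ≠ y})) := by
    apply MonoidHom.eqOn_closure
    rintro _ ⟨z, hz, rfl⟩
    show iota Γ y (rho Γ y (of Γ z)) = of Γ z
    rw [rho_of hz, iota_of]
  exact h hg

lemma retr_rho_lk {y : V} {x : RAAG Γ} (hx : x ∈ lk Γ y) :
    retr (del Γ y) {z | Γ.Adj y z.1} (rho Γ y x) = rho Γ y x := by
  have h : Set.EqOn ((retr (del Γ y) {z | Γ.Adj y z.1}).comp (rho Γ y)) (rho Γ y)
      (Subgroup.closure (of Γ '' {z | Γ.Adj y z})) := by
    apply MonoidHom.eqOn_closure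
    rintro _ ⟨z, hz, rfl⟩
    have hzy : z ≠ y := fun h => Γ.loopless.irrefl y (h ▸ hz)
    show retr (del Γ y) {z | Γ.Adj y z.1} (rho Γ y (of Γ z)) = rho Γ y (of Γ z)
    rw [rho_of hzy, retr_of_mem (show (⟨z, hzy⟩ : {z : V // z ≠ y}) ∈ {z | Γ.Adj y z.1} from hz)]
  exact h hx

lemma mem_lk_of_retr {y : V} {u : RAAG Γ} (hu : u ∈ sub Γ {z | z ≠ y})
    (h : retr (del Γ y) {z | Γ.Adj y z.1} (rho Γ y u) = rho Γ y u) : u ∈ lk Γ y := by
  rw [retr_eq_self_iff] at h
  rw [← iota_rho hu]
  have h2 : sub (del Γ y) {z | Γ.Adj y z.1} ≤ (lk Γ y).comap (iota Γ y) := by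
    unfold sub
    rw [Subgroup.closure_le]
    rintro _ ⟨z, hz, rfl⟩
    show iota Γ y (of (del Γ y) z) ∈ lk Γ y
    rw [iota_of]
    exact Subgroup.subset_closure ⟨z.1, hz, rfl⟩
  exact h2 h

lemma sepLk1 {y : V} (hRF : RF (RAAG (del Γ y))) (u : RAAG Γ) (hu : u ∈ sub Γ {z | z ≠ y})
    (hu' : u ∉ lk Γ y) :
    ∃ (K : Type) (_ : Group K) (_ : Finite K) (π : RAAG Γ →* K), π (of Γ y) = 1 ∧
      π u ∉ (lk Γ y).map π := by
  have h1 : rho Γ y u * (retr (del Γ y) {z | Γ.Adj y z.1} (rho Γ y u))⁻¹ ≠ 1 := by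
    intro h
    exact hu' (mem_lk_of_retr hu (mul_inv_eq_one.mp h).symm)
  obtain ⟨K, hK, hfin, π, hπ⟩ := hRF _ h1
  refine ⟨K × K, inferInstance, inferInstance, (π.comp (rho Γ y)).prod
    ((π.comp (retr (del Γ y) {z | Γ.Adj y z.1})).comp (rho Γ y)), ?_, ?_⟩
  · simp only [MonoidHom.prod_apply, MonoidHom.comp_apply, rho_of_self, map_one]
    rfl
  · rintro ⟨x, hx, hxu⟩
    simp only [MonoidHom.prod_apply, MonoidHom.comp_apply, Prod.mk.injEq] at hxu
    rw [retr_rho_lk hx] at hxu
    apply hπ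
    rw [map_mul, map_inv, mul_inv_eq_one, ← hxu.1, ← hxu.2]

lemma sepLk {y : V} (hRF : RF (RAAG (del Γ y))) (U : List (RAAG Γ)) :
    ∃ (K : Type) (_ : Group K) (_ : Finite K) (π : RAAG Γ →* K), π (of Γ y) = 1 ∧
      ∀ u ∈ U, u ∈ sub Γ {z | z ≠ y} → u ∉ lk Γ y → π u ∉ (lk Γ y).map π := by
  induction U with
  | nil =>
    exact ⟨PUnit, inferInstance, inferInstance, 1, rfl, fun u hu => absurd hu List.not_mem_nil⟩
  | cons u U ih =>
    obtain ⟨K, hK, hfin, π, h1, h2⟩ := ih
    by_cases hu : u ∈ sub Γ {z | z ≠ y} ∧ u ∉ lk Γ y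
    · obtain ⟨K', hK', hfin', π', h1', h2'⟩ := sepLk1 hRF u hu.1 hu.2
      refine ⟨K × K', inferInstance, inferInstance, π.prod π', ?_, ?_⟩
      · rw [MonoidHom.prod_apply, h1, h1']; rfl
      · rintro w hw hws hwl ⟨x, hx, hxw⟩
        simp only [MonoidHom.prod_apply, Prod.mk.injEq] at hxw
        rcases List.mem_cons.mp hw with rfl | hw
        · exact h2' ⟨x, hx, hxw.2⟩
        · exact h2 w hw hws hwl ⟨x, hx, hxw.1⟩
    · refine ⟨K, hK, hfin, π, h1, fun w hw hws hwl => ?_⟩
      rcases List.mem_cons.mp hw with rfl | hw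
      · exact absurd ⟨hws, hwl⟩ hu
      · exact h2 w hw hws hwl

/-- The image of a Britton form is not trivial in a suitable finite quotient. -/
lemma resFin_britton {y : V} (hRF : RF (RAAG (del Γ y))) (g : RAAG Γ)
    (hg : g ∉ sub Γ {z | z ≠ y}) :
    ∃ (K : Type) (_ : Group K) (_ : Finite K) (π : RAAG Γ →* K), π g ≠ 1 := by
  classical
  obtain ⟨g₀, L, hg₀, hL, hmem, hchain, rfl⟩ := exists_britton_form y g hg
  obtain ⟨K, hK, hfin, π, hy, hsep⟩ := sepLk hRF (L.map Prod.snd)
  have hlen : 0 < L.length := List.length_pos_iff.mpr hL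
  let v : ℕ → RAAG Γ := fun i => g₀ * ((L.take i).map (fun p => sgn Γ y p.1 * p.2)).prod
  have hv0 : v 0 = g₀ := by simp [v]
  have hvs : ∀ (i : ℕ) (hi : i < L.length), v (i + 1) = v i * sgn Γ y (L[i]).1 * (L[i]).2 := by
    intro i hi
    simp only [v]
    rw [List.take_succ_eq_append_getElem hi, List.map_append, List.prod_append]
    simp [mul_assoc]
  have hvl : v L.length = g₀ * (L.map (fun p => sgn Γ y p.1 * p.2)).prod := by
    simp only [v]
    rw [List.take_length]
  clear_value v
  let lab : ZMod (L.length + 1) → Option ((K ⧸ ((lk Γ y).map π)) × Bool) := fun s =>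
    if h : s.val < L.length then
      some (((π (v s.val) : K) : K ⧸ ((lk Γ y).map π)), (L[s.val]).1) else none
  have hlab : ∀ (i : ℕ) (hi : i < L.length), lab (i : ZMod (L.length + 1)) =
      some (((π (v i) : K) : K ⧸ ((lk Γ y).map π)), (L[i]).1) := by
    intro i hi
    have h1 : ((i : ZMod (L.length + 1))).val = i := by
      rw [ZMod.val_natCast, Nat.mod_eq_of_lt (by omega)]
    simp only [lab, h1]
    rw [dif_pos hi]
  have hlabn : ∀ s, ¬ s.val < L.length → lab s = none := by
    intro s hs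
    simp only [lab]
    rw [dif_neg hs]
  clear_value lab
  have hπs : ∀ b, π (sgn Γ y b) = 1 := by
    intro b
    cases b
    · show π (of Γ y)⁻¹ = 1
      rw [map_inv, hy, inv_one]
    · exact hy
  have hred : ∀ s x d d', lab s = some (x, d) → lab (Equiv.addRight (1 : ZMod (L.length + 1)) s) =
      some (x, d') → d = d' := by
    intro s x d d' h1 h2
    rw [Equiv.coe_addRight] at h2
    have hi : s.val < L.length := by
      by_contra h
      rw [hlabn s h] at h1
      exact absurd h1 (by simp)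
    obtain ⟨i, hs⟩ : ∃ i : ℕ, i = s.val := ⟨_, rfl⟩
    have hs' : s = (i : ZMod (L.length + 1)) := by rw [hs, ZMod.natCast_zmod_val]
    rw [← hs] at hi
    subst hs'
    rw [hlab i hi, Option.some.injEq, Prod.mk.injEq] at h1
    have h3 : ((i : ZMod (L.length + 1)) + 1) = ((i + 1 : ℕ) : ZMod (L.length + 1)) := by
      push_cast; rfl
    beta_reduce at h2
    rw [h3] at h2
    by_cases hi' : i + 1 < L.length
    · rw [hlab (i + 1) hi', Option.some.injEq, Prod.mk.injEq] at h2
      by_contra hdd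
      have h4 : (L[i + 1]).1 = !(L[i]).1 := by
        rw [h1.2, h2.2]
        exact Bool.eq_not.mpr (Ne.symm hdd)
      have h5 := (List.isChain_iff_getElem.mp hchain) i hi' h4
      have h6 := hsep (L[i]).2 (List.mem_map.mpr ⟨L[i], List.getElem_mem hi, rfl⟩)
        (hmem _ (List.getElem_mem hi)) h5
      apply h6
      have h7 := QuotientGroup.eq.mp (h1.1.trans h2.1.symm)
      rw [hvs i hi, map_mul, map_mul, hπs, mul_one, inv_mul_cancel_left] at h7
      exact h7
    · exfalso
      have h4 : ((i + 1 : ℕ) : ZMod (L.length + 1)).val = i + 1 := by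
        rw [ZMod.val_natCast, Nat.mod_eq_of_lt (by omega)]
      rw [hlabn _ (by rw [h4]; exact hi')] at h2
      exact absurd h2 (by simp)
  choose P hP using exists_perm (Equiv.addRight (1 : ZMod (L.length + 1))) lab hred
  have track : ∀ i : ℕ, i ≤ L.length → ra y π P (v i) (1, 0) =
      (π (v i), (i : ZMod (L.length + 1))) := by
    intro i
    induction i with
    | zero =>
      intro _
      rw [hv0, ra_sub y π P g₀ hg₀, one_mul, Nat.cast_zero]
    | succ i ih =>
      intro hi
      rw [hvs i (by omega), ra_mul, ra_mul, ih (by omega),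
        ra_step y π P (Equiv.addRight 1) lab hP _ _ _ (hlab i (by omega)),
        ra_sub y π P _ (hmem _ (List.getElem_mem _)), map_mul, map_mul, hπs, mul_one,
        Equiv.coe_addRight]
      push_cast
      rfl
  have : Finite (Equiv.Perm (K × ZMod (L.length + 1))) := inferInstance
  refine ⟨(Equiv.Perm (K × ZMod (L.length + 1)))ᵐᵒᵖ, inferInstance,
    Finite.of_injective _ MulOpposite.unop_injective, T y π P, ?_⟩
  intro h
  have h1 := track L.length le_rfl
  have h2 : ra y π P (v L.length) (1, 0) = (1, 0) := by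
    unfold ra
    rw [hvl, h]
    rfl
  rw [h1, Prod.mk.injEq] at h2
  have h3 : ((L.length : ℕ) : ZMod (L.length + 1)).val = 0 := by
    rw [h2.2, ZMod.val_zero]
  rw [ZMod.val_natCast, Nat.mod_eq_of_lt (by omega)] at h3
  omega

lemma resFin_aux (n : ℕ) : ∀ {V : Type} [Finite V] (Γ : SimpleGraph V), Nat.card V = n →
    RF (RAAG Γ) := by
  induction n with
  | zero =>
    intro V _ Γ hV g hg
    exfalso
    have hE : IsEmpty V := by
      rcases Nat.card_eq_zero.mp hV with h | h
      · exact h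
      · exact absurd ‹Finite V› (not_finite_iff_infinite.mpr h)
    apply hg
    obtain ⟨w, rfl⟩ := wp_surj g
    cases w with
    | nil => exact wp_nil
    | cons p w => exact hE.elim p.1
  | succ n ih =>
    intro V _ Γ hV g hg
    classical
    have hne : Nonempty V := by
      by_contra h
      rw [not_nonempty_iff] at h
      rw [Nat.card_of_isEmpty] at hV
      omega
    obtain ⟨y⟩ := hne
    have hcard : Nat.card {z : V // z ≠ y} = n := by
      have h1 := Nat.card_congr (Equiv.sumCompl (fun z : V => z = y))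
      rw [Nat.card_sum, hV] at h1
      have h2 : Nat.card {z : V // z = y} = 1 := by
        rw [Nat.card_eq_one_iff_unique]
        exact ⟨⟨fun a b => Subtype.ext (a.2.trans b.2.symm)⟩, ⟨⟨y, rfl⟩⟩⟩
      have h3 : Nat.card {z : V // ¬ z = y} = Nat.card {z : V // z ≠ y} := rfl
      omega
    have hRF : RF (RAAG (del Γ y)) := ih (del Γ y) hcard
    by_cases hgs : g ∈ sub Γ {z | z ≠ y}
    · have h1 : rho Γ y g ≠ 1 := by
        intro h
        apply hg
        rw [← iota_rho hgs, h, map_one]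
      obtain ⟨K, hK, hfin, π, hπ⟩ := hRF _ h1
      exact ⟨K, hK, hfin, π.comp (rho Γ y), hπ⟩
    · exact resFin_britton hRF g hgs

end Ref

section Per

variable {G : Type*} [Group G] {α : Type*} (f : α → G) (a : List α)

/-- The periodic sequence of partial products. -/
def per (i : ℤ) : G :=
  (a.map f).prod ^ (i / a.length) * ((a.take (i % a.length).toNat).map f).prod

/-- The periodic sequence of letters. -/
def lt (ha : 0 < a.length) (i : ℤ) : α :=
  a[(i % a.length).toNat]'(by
    have h1 := Int.emod_lt_of_pos i (show (0 : ℤ) < a.length by exact_mod_cast ha)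
    have h2 := Int.emod_nonneg i (show (a.length : ℤ) ≠ 0 by exact_mod_cast ha.ne')
    omega)

lemma per_zero : per f a 0 = 1 := by
  simp [per]

lemma per_add (i k : ℤ) (ha : 0 < a.length) :
    per f a (i + a.length * k) = (a.map f).prod ^ k * per f a i := by
  unfold per
  rw [Int.add_mul_ediv_left _ _ (show (a.length : ℤ) ≠ 0 by exact_mod_cast ha.ne'),
    Int.add_mul_emod_self_left, add_comm, zpow_add, mul_assoc]

lemma lt_add (i k : ℤ) (ha : 0 < a.length) :
    lt a ha (i + a.length * k) = lt a ha i := by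
  unfold lt
  simp only [Int.add_mul_emod_self_left]

lemma per_succ (i : ℤ) (ha : 0 < a.length) :
    per f a (i + 1) = per f a i * f (lt a ha i) := by
  have hn : (0 : ℤ) < a.length := by exact_mod_cast ha
  have h1 := Int.emod_lt_of_pos i hn
  have h2 := Int.emod_nonneg i hn.ne'
  obtain ⟨r, hr⟩ : ∃ r : ℕ, (r : ℤ) = i % a.length := ⟨(i % a.length).toNat, by omega⟩
  have hi : i = r + a.length * (i / a.length) := by
    have := Int.emod_add_mul_ediv i a.length
    omega
  have hr' : r < a.length := by omega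
  set q := i / a.length with hq
  rw [hi, show (r : ℤ) + a.length * q + 1 = (r + 1) + a.length * q by ring, per_add _ _ _ _ ha,
    per_add _ _ _ _ ha, lt_add _ _ _ ha, mul_assoc]
  congr 1
  have h3 : (r : ℤ) % a.length = r := Int.emod_eq_of_lt (by omega) (by omega)
  have h4 : (r : ℤ) / a.length = 0 := Int.ediv_eq_zero_of_lt (by omega) (by omega)
  have h5 : per f a r = ((a.take r).map f).prod := by
    unfold per
    rw [h3, h4]
    simp
  have h6 : lt a ha r = a[r] := by
    unfold lt
    simp only [h3, Int.toNat_natCast]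
  have h7 : (((a.take (r + 1)).map f).prod : G) = ((a.take r).map f).prod * f a[r] := by
    rw [List.take_succ_eq_append_getElem hr', List.map_append, List.prod_append]
    simp
  rw [h5, h6, ← h7]
  by_cases hlast : r + 1 < a.length
  · unfold per
    have h8 : ((r : ℤ) + 1) % a.length = (r + 1 : ℕ) := by
      push_cast
      exact Int.emod_eq_of_lt (by omega) (by omega)
    have h9 : ((r : ℤ) + 1) / a.length = 0 := Int.ediv_eq_zero_of_lt (by omega) (by omega)
    rw [h8, h9]
    simp
  · have h8 : ((r : ℤ) + 1) = 0 + a.length * 1 := by omega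
    have h9 : r + 1 = a.length := by omega
    rw [h8, per_add _ _ _ _ ha, h9, List.take_length, per_zero]
    simp

lemma per_of_lt (r : ℕ) (hr : r ≤ a.length) (ha : 0 < a.length) :
    per f a r = ((a.take r).map f).prod := by
  rcases hr.lt_or_eq with hr | hr
  · unfold per
    have h3 : (r : ℤ) % a.length = r := Int.emod_eq_of_lt (by omega) (by omega)
    have h4 : (r : ℤ) / a.length = 0 := Int.ediv_eq_zero_of_lt (by omega) (by omega)
    rw [h3, h4]
    simp
  · rw [hr, List.take_length]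
    have h8 : ((a.length : ℕ) : ℤ) = 0 + a.length * 1 := by omega
    rw [h8, per_add _ _ _ _ ha, per_zero]
    simp

lemma lt_of_lt (r : ℕ) (hr : r < a.length) (ha : 0 < a.length) :
    lt a ha r = a[r] := by
  unfold lt
  have h3 : (r : ℤ) % a.length = r := Int.emod_eq_of_lt (by omega) (by omega)
  simp only [h3, Int.toNat_natCast]

/-- A segment of the periodic sequence of letters. -/
def seg (ha : 0 < a.length) (i : ℤ) (m : ℕ) : List α :=
  (List.range m).map (fun t : ℕ => lt a ha (i + t))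

lemma seg_add (ha : 0 < a.length) (i : ℤ) (m m' : ℕ) :
    seg a ha i (m + m') = seg a ha i m ++ seg a ha (i + m) m' := by
  unfold seg
  rw [List.range_add, List.map_append, List.map_map]
  congr 1
  apply List.map_congr_left
  intro t _
  simp only [Function.comp_apply]
  congr 1
  push_cast; ring

lemma seg_one (ha : 0 < a.length) (i : ℤ) : seg a ha i 1 = [lt a ha i] := by
  simp [seg]

lemma seg_prod (ha : 0 < a.length) (i : ℤ) (m : ℕ) :
    ((seg a ha i m).map f).prod = (per f a i)⁻¹ * per f a (i + m) := by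
  induction m with
  | zero => simp [seg]
  | succ m ih =>
    rw [seg_add, List.map_append, List.prod_append, ih, seg_one]
    push_cast
    rw [← add_assoc, per_succ f a _ ha]
    simp [mul_assoc]

lemma rotate_eq_seg (ha : 0 < a.length) (r : ℕ) :
    a.rotate r = seg a ha r a.length := by
  apply List.ext_getElem
  · simp [seg]
  · intro k h1 h2
    rw [List.getElem_rotate]
    unfold seg lt
    simp only [List.getElem_map, List.getElem_range]
    congr 1
    have h3 : ((r : ℤ) + k) % a.length = (((k + r) % a.length : ℕ) : ℤ) := by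
      push_cast
      rw [add_comm]
    rw [h3, Int.toNat_natCast]

end Per

section Cyc

variable {V : Type} {Γ : SimpleGraph V}

open scoped Classical in
lemma cyc_main (y : V) (n r : ℕ) (hr : 0 < r) (L : ℤ → V × Bool)
    (v : ℤ → RAAG Γ) (c : ℤ → ℤ) (A : RAAG Γ)
    (hL : ∀ i k, L (i + n * k) = L i)
    (hv : ∀ i, v (i + 1) = v i * sgn Γ (L i).1 (L i).2)
    (hvn : ∀ i k, v (i + n * k) = A ^ k * v i)
    (hc : ∀ i, c (i + 1) = c i + if (L i).1 = y then 1 else 0)
    (hcn : ∀ i k, c (i + n * k) = c i + r * k)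
    (hv0 : v 0 = 1) (hc0 : c 0 = 0)
    {K : Type} [Group K] [Finite K] (π₀ : RAAG Γ →* K) (hy : π₀ (of Γ y) = 1)
    (hgap : ∀ i j, i < j → (L i).1 = y → (L j).1 = y → (L j).2 = (!(L i).2) →
      (∀ k, i < k → k < j → (L k).1 ≠ y) → π₀ ((v (i + 1))⁻¹ * v j) ∉ (lk Γ y).map π₀) :
    ∃ (K' : Type) (_ : Group K') (_ : Finite K') (π : RAAG Γ →* K'), ∀ i j : ℤ,
      (L i).1 = y → (L j).1 = y →
      (π (if (L i).2 then v i else v (i + 1)))⁻¹ * π (if (L j).2 then v j else v (j + 1)) ∈
        (lk Γ y).map π → ∃ k : ℤ, j = i + n * k := by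
  -- monotonicity of the counting function
  have hmono : ∀ i (m : ℕ), c i ≤ c (i + m) := by
    intro i m
    induction m with
    | zero => simp
    | succ m ih =>
      push_cast
      rw [← add_assoc, hc]
      split_ifs <;> omega
  have hlt : ∀ i j, i < j → (L i).1 = y → c i < c j := by
    intro i j hij hi
    have h1 := hmono (i + 1) (j - (i + 1)).toNat
    have h2 : i + 1 + ((j - (i + 1)).toNat : ℤ) = j := by omega
    rw [h2, hc, if_pos hi] at h1
    omega
  have hinj : ∀ i j, (L i).1 = y → (L j).1 = y → c i = c j → i = j := by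
    intro i j hi hj hij
    rcases lt_trichotomy i j with h | h | h
    · have := hlt i j h hi; omega
    · exact h
    · have := hlt j i h hj; omega
  have hπs : ∀ b, π₀ (sgn Γ y b) = 1 := by
    intro b
    cases b
    · show π₀ (of Γ y)⁻¹ = 1
      rw [map_inv, hy, inv_one]
    · exact hy
  -- the order of `A`
  obtain ⟨l, hl0, hl⟩ : ∃ l : ℕ, 0 < l ∧ π₀ A ^ l = 1 :=
    ⟨orderOf (π₀ A), orderOf_pos _, pow_orderOf_eq_one _⟩
  have hM : 0 < r * l := Nat.mul_pos hr hl0
  have : NeZero (r * l) := ⟨hM.ne'⟩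
  -- equal classes
  have hcls : ∀ i j, (L i).1 = y → (L j).1 = y →
      ((c i : ℤ) : ZMod (r * l)) = ((c j : ℤ) : ZMod (r * l)) →
      ∃ k : ℤ, j = i + n * (l * k) := by
    intro i j hi hj hij
    rw [ZMod.intCast_eq_intCast_iff_dvd_sub] at hij
    obtain ⟨k, hk⟩ := hij
    refine ⟨k, hinj _ _ hj (by rw [hL]; exact hi) ?_⟩
    rw [hcn]
    push_cast at hk
    linear_combination hk
  have hπv : ∀ i k : ℤ, π₀ (v (i + n * (l * k))) = π₀ (v i) := by
    intro i k
    rw [hvn, map_mul, map_zpow, zpow_mul, zpow_natCast, hl, one_zpow, one_mul]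
  let lab : ZMod (r * l) → Option ((K ⧸ ((lk Γ y).map π₀)) × Bool) := fun s =>
    if h : ∃ i : ℤ, (L i).1 = y ∧ ((c i : ℤ) : ZMod (r * l)) = s then
      some (((π₀ (v h.choose) : K) : K ⧸ ((lk Γ y).map π₀)), (L h.choose).2) else none
  have hlab : ∀ i : ℤ, (L i).1 = y → lab ((c i : ℤ) : ZMod (r * l)) =
      some (((π₀ (v i) : K) : K ⧸ ((lk Γ y).map π₀)), (L i).2) := by
    intro i hi
    have hex : ∃ j : ℤ, (L j).1 = y ∧ ((c j : ℤ) : ZMod (r * l)) = ((c i : ℤ) : ZMod (r * l)) :=
      ⟨i, hi, rfl⟩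
    have h1 : lab ((c i : ℤ) : ZMod (r * l)) =
        some (((π₀ (v hex.choose) : K) : K ⧸ ((lk Γ y).map π₀)), (L hex.choose).2) := by
      simp only [lab]
      rw [dif_pos hex]
    rw [h1]
    obtain ⟨k, hk⟩ := hcls i hex.choose hi hex.choose_spec.1 hex.choose_spec.2.symm
    rw [hk, hπv, hL]
  have hlabs : ∀ s x d, lab s = some (x, d) → ∃ i : ℤ, (L i).1 = y ∧
      ((c i : ℤ) : ZMod (r * l)) = s ∧ ((π₀ (v i) : K) : K ⧸ ((lk Γ y).map π₀)) = x ∧
      (L i).2 = d := by
    intro s x d hs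
    by_cases h : ∃ i : ℤ, (L i).1 = y ∧ ((c i : ℤ) : ZMod (r * l)) = s
    · obtain ⟨i, hi, his⟩ := h
      rw [← his, hlab i hi, Option.some.injEq, Prod.mk.injEq] at hs
      exact ⟨i, hi, his, hs.1, hs.2⟩
    · simp only [lab] at hs
      rw [dif_neg h] at hs
      exact absurd hs (by simp)
  clear_value lab
  have hred : ∀ s x d d', lab s = some (x, d) → lab (Equiv.addRight (1 : ZMod (r * l)) s) =
      some (x, d') → d = d' := by
    intro s x d d' h1 h2
    rw [Equiv.coe_addRight] at h2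
    beta_reduce at h2
    obtain ⟨i, hi, his, hix, hid⟩ := hlabs s x d h1
    obtain ⟨j', hj', hjs, hjx, hjd⟩ := hlabs _ x d' h2
    rw [← his] at hjs
    have h3 : ((c j' : ℤ) : ZMod (r * l)) = ((c i + 1 : ℤ) : ZMod (r * l)) := by
      rw [hjs]; push_cast; rfl
    rw [ZMod.intCast_eq_intCast_iff_dvd_sub] at h3
    obtain ⟨k, hk⟩ := h3
    -- move `j'` next to `i`
    obtain ⟨j, hj⟩ : ∃ j, j = j' + n * (l * k) := ⟨_, rfl⟩
    have hcj : c j = c i + 1 := by
      rw [hj, hcn]
      push_cast at hk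
      linear_combination -hk
    have hLj : L j = L j' := by rw [hj, hL]
    have hπj : π₀ (v j) = π₀ (v j') := by rw [hj, hπv]
    rw [← hLj] at hj' hjd
    rw [← hπj] at hjx
    have hij : i < j := by
      by_contra hh
      have h4 := hmono j (i - j).toNat
      have h5 : j + ((i - j).toNat : ℤ) = i := by omega
      rw [h5] at h4
      omega
    have hno : ∀ k, i < k → k < j → (L k).1 ≠ y := by
      intro k hk1 hk2 hky
      have h4 := hlt i k hk1 hi
      have h5 := hlt k j hk2 hky
      omega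
    by_contra hdd
    have h6 := hgap i j hij hi hj' (by
      rw [hid, hjd]
      exact Bool.eq_not.mpr (Ne.symm hdd)) hno
    apply h6
    have h7 := QuotientGroup.eq.mp (hix.trans hjx.symm)
    have h8 : π₀ (v (i + 1)) = π₀ (v i) := by
      rw [hv, map_mul, hi, hπs, mul_one]
    rw [map_mul, map_inv, h8]
    exact h7
  choose P hP using exists_perm (Equiv.addRight (1 : ZMod (r * l))) lab hred
  have hstep : ∀ i : ℤ, ra y π₀ P (sgn Γ (L i).1 (L i).2) (π₀ (v i), ((c i : ℤ) : ZMod (r * l))) =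
      (π₀ (v (i + 1)), ((c (i + 1) : ℤ) : ZMod (r * l))) := by
    intro i
    by_cases hi : (L i).1 = y
    · rw [hi, ra_step y π₀ P (Equiv.addRight 1) lab hP _ _ _ (hlab i hi), hc, if_pos hi, hv,
        map_mul, hi, hπs, mul_one, Equiv.coe_addRight]
      push_cast
      rfl
    · have h1 : sgn Γ (L i).1 (L i).2 ∈ sub Γ {z | z ≠ y} := by
        have h2 : of Γ (L i).1 ∈ sub Γ {z | z ≠ y} := of_mem_sub hi
        cases h3 : (L i).2
        · exact Subgroup.inv_mem _ h2
        · exact h2
      rw [ra_sub y π₀ P _ h1, hc, if_neg hi, hv, map_mul, add_zero]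
  have hstep' : ∀ i : ℤ, ra y π₀ P (v i) (1, 0) = (π₀ (v i), ((c i : ℤ) : ZMod (r * l))) ↔
      ra y π₀ P (v (i + 1)) (1, 0) = (π₀ (v (i + 1)), ((c (i + 1) : ℤ) : ZMod (r * l))) := by
    intro i
    rw [← hstep i]
    conv_rhs => rw [hv, ra_mul]
    constructor
    · intro h; rw [h]
    · intro h
      exact (T y π₀ P (sgn Γ (L i).1 (L i).2)).unop.injective h
  have track : ∀ i : ℤ, ra y π₀ P (v i) (1, 0) = (π₀ (v i), ((c i : ℤ) : ZMod (r * l))) := by
    intro i
    induction i using Int.induction_on with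
    | zero => rw [hv0, hc0, ra_one, map_one, Int.cast_zero]
    | succ i ih => exact (hstep' i).mp ih
    | pred i ih =>
      rw [hstep' (-(i : ℤ) - 1)]
      rw [sub_add_cancel]
      exact ih
  have hfin : Finite (Equiv.Perm (K × ZMod (r * l))) := inferInstance
  refine ⟨(Equiv.Perm (K × ZMod (r * l)))ᵐᵒᵖ, inferInstance,
    Finite.of_injective _ MulOpposite.unop_injective, T y π₀ P, ?_⟩
  rintro i j hi hj ⟨x, hx, hxe⟩
  have hb : ∀ i, (L i).1 = y → ra y π₀ P (if (L i).2 then v i else v (i + 1)) (1, 0) =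
      (π₀ (v i), if (L i).2 then ((c i : ℤ) : ZMod (r * l)) else
        ((c i : ℤ) : ZMod (r * l)) + 1) := by
    intro i hi
    by_cases h : (L i).2 = true
    · rw [if_pos h, if_pos h]; exact track i
    · rw [if_neg h, if_neg h, track, hv, map_mul, hi, hπs, mul_one, hc, if_pos hi]
      push_cast
      rfl
  have h1 : T y π₀ P ((if (L i).2 then v i else v (i + 1)) * x) =
      T y π₀ P (if (L j).2 then v j else v (j + 1)) := by
    rw [map_mul, hxe, mul_inv_cancel_left]
  have h2 : ra y π₀ P ((if (L i).2 then v i else v (i + 1)) * x) (1, 0) =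
      ra y π₀ P (if (L j).2 then v j else v (j + 1)) (1, 0) := by
    unfold ra
    rw [h1]
  rw [ra_mul, hb i hi, hb j hj, ra_sub y π₀ P x (lk_le y hx), Prod.mk.injEq] at h2
  obtain ⟨h3, h4⟩ := h2
  have hX : ((π₀ (v i) : K) : K ⧸ ((lk Γ y).map π₀)) = ((π₀ (v j) : K) : K ⧸ ((lk Γ y).map π₀)) := by
    rw [QuotientGroup.eq, ← h3, inv_mul_cancel_left]
    exact ⟨x, hx, rfl⟩
  have hfin2 : ((c i : ℤ) : ZMod (r * l)) = ((c j : ℤ) : ZMod (r * l)) →
      ∃ k : ℤ, j = i + n * k := by
    intro h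
    obtain ⟨k, hk⟩ := hcls i j hi hj h
    exact ⟨l * k, hk⟩
  by_cases hdi : (L i).2 = true <;> by_cases hdj : (L j).2 = true
  · simp only [if_pos hdi, if_pos hdj] at h4
    exact hfin2 h4
  · simp only [if_pos hdi, if_neg hdj] at h4
    have h5 := hlab j hj
    have h6 := hlab i hi
    rw [h4, hX, hdi] at h6
    have h7 := hred _ _ _ _ h5 h6
    exact absurd h7 hdj
  · simp only [if_neg hdi, if_pos hdj] at h4
    have h5 := hlab i hi
    have h6 := hlab j hj
    rw [← h4, ← hX, hdj] at h6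
    have h7 := hred _ _ _ _ h5 h6
    exact absurd h7 hdi
  · simp only [if_neg hdi, if_neg hdj] at h4
    exact hfin2 (add_right_cancel h4)

/-- Separation of the crossings of one letter of a good word. -/
lemma sep_letter [Finite V] (a : List (V × Bool)) (ha : Good Γ a) (y : V)
    (hya : ∃ b, (y, b) ∈ a) :
    ∃ (K : Type) (_ : Group K) (_ : Finite K) (π : RAAG Γ →* K),
      ∀ (t t' : Fin a.length) (k : ℤ), (a.get t).1 = y →
        hp π (π (wp Γ a ^ k * bs Γ a t)) (a.get t).1 = hp π (π (bs Γ a t')) (a.get t').1 →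
          t = t' := by
  classical
  have hn : 0 < a.length := List.length_pos_iff.mpr ha.ne
  let f : V × Bool → RAAG Γ := fun p => sgn Γ p.1 p.2
  let g : V × Bool → Multiplicative ℤ := fun p =>
    Multiplicative.ofAdd (if p.1 = y then (1 : ℤ) else 0)
  have hwp : (a.map f).prod = wp Γ a := rfl
  obtain ⟨r, hr0, hr⟩ : ∃ r : ℕ, 0 < r ∧ (a.map g).prod = Multiplicative.ofAdd (r : ℤ) := by
    have key : ∀ w : List (V × Bool), ∃ r : ℕ, ((∃ b, (y, b) ∈ w) → 0 < r) ∧
        (w.map g).prod = Multiplicative.ofAdd (r : ℤ) := by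
      intro w
      induction w with
      | nil => exact ⟨0, fun ⟨b, hb⟩ => absurd hb List.not_mem_nil, rfl⟩
      | cons p w ih =>
        obtain ⟨r, hr1, hr2⟩ := ih
        by_cases hp : p.1 = y
        · refine ⟨r + 1, fun _ => Nat.succ_pos r, ?_⟩
          rw [List.map_cons, List.prod_cons, hr2]
          show Multiplicative.ofAdd _ * _ = _
          rw [if_pos hp, ← ofAdd_add]
          congr 1
          push_cast; ring
        · refine ⟨r, ?_, ?_⟩
          · rintro ⟨b, hb⟩
            rcases List.mem_cons.mp hb with h | h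
            · exact absurd (by rw [← h]) hp
            · exact hr1 ⟨b, h⟩
          · rw [List.map_cons, List.prod_cons, hr2]
            show Multiplicative.ofAdd _ * _ = _
            rw [if_neg hp, ← ofAdd_add, zero_add]
    obtain ⟨r, h1, h2⟩ := key a
    exact ⟨r, h1 hya, h2⟩
  let L : ℤ → V × Bool := lt a hn
  let v : ℤ → RAAG Γ := per f a
  let c : ℤ → ℤ := fun i => Multiplicative.toAdd (per g a i)
  -- finite set of gaps
  obtain ⟨K, hK, hfin, π₀, hy, hsep⟩ := sepLk (Γ := Γ) (y := y) (resFin_aux _ (del Γ y) rfl)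
    ((List.range a.length).flatMap fun i : ℕ => (List.range (2 * a.length + 1)).map fun j : ℕ =>
      (v ((i : ℤ) + 1))⁻¹ * v (j : ℤ))
  have hgap : ∀ i j, i < j → (L i).1 = y → (L j).1 = y → (L j).2 = (!(L i).2) →
      (∀ k, i < k → k < j → (L k).1 ≠ y) → π₀ ((v (i + 1))⁻¹ * v j) ∉ (lk Γ y).map π₀ := by
    intro i j hij hi hj hd hno
    have hn' : (0 : ℤ) < a.length := by exact_mod_cast hn
    have he1 := Int.emod_lt_of_pos i hn'
    have he2 := Int.emod_nonneg i hn'.ne'
    obtain ⟨i₀, hi₀⟩ : ∃ i₀ : ℕ, (i₀ : ℤ) = i % a.length := ⟨(i % a.length).toNat, by omega⟩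
    obtain ⟨q, hq⟩ : ∃ q, q = i / a.length := ⟨_, rfl⟩
    have hi' : i = i₀ + a.length * q := by
      have := Int.emod_add_mul_ediv i a.length
      rw [hi₀, hq]
      omega
    have hjn : j < i + a.length := by
      by_contra hh
      rcases (not_lt.mp hh).eq_or_lt with h | h
      · have h1 : L j = L i := by
          rw [← h, show i + (a.length : ℤ) = i + a.length * 1 by ring]
          exact lt_add a i 1 hn
        rw [h1] at hd
        exact absurd hd (by simp)
      · apply hno (i + a.length) (by omega) h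
        rw [show i + (a.length : ℤ) = i + a.length * 1 by ring,
          show L (i + a.length * 1) = L i from lt_add a i 1 hn]
        exact hi
    obtain ⟨m, hm⟩ : ∃ m : ℕ, (m : ℤ) = j - i - 1 := ⟨(j - i - 1).toNat, by omega⟩
    obtain ⟨m', hm'⟩ : ∃ m' : ℕ, (m' : ℤ) = i + a.length - j - 1 :=
      ⟨(i + a.length - j - 1).toNat, by omega⟩
    have hj' : j = (i₀ + 1 + m : ℕ) + a.length * q := by
      push_cast
      omega
    have hlen : a.length = 1 + (m + (1 + m')) := by omega
    have hrot : a.rotate i₀ = L i₀ :: (seg a hn (i₀ + 1) m ++ L (i₀ + 1 + m : ℕ) ::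
        seg a hn (i₀ + 1 + m + 1) m') := by
      rw [rotate_eq_seg a hn i₀]
      conv_lhs => rw [hlen]
      rw [seg_add, seg_add, seg_add, seg_one, seg_one]
      push_cast
      rfl
    have hLi : L i₀ = L i := by rw [hi']; exact (lt_add a i₀ q hn).symm
    have hLj : L (i₀ + 1 + m : ℕ) = L j := by
      rw [hj']; exact (lt_add a _ q hn).symm
    have hu : ∀ p ∈ seg a hn (i₀ + 1) m, p.1 ≠ y := by
      intro p hp
      unfold seg at hp
      obtain ⟨t, ht, rfl⟩ := List.mem_map.mp hp
      rw [List.mem_range] at ht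
      have h1 := hno (i + 1 + t) (by omega) (by omega)
      have h2 : L (i + 1 + t) = lt a hn ((i₀ : ℤ) + 1 + t) := by
        rw [show i + 1 + (t : ℤ) = (i₀ + 1 + t) + a.length * q by omega]
        exact lt_add a _ q hn
      rw [h2] at h1
      exact h1
    have hwpu : wp Γ (seg a hn (i₀ + 1) m) = (v ((i₀ : ℤ) + 1))⁻¹ * v (i₀ + 1 + m : ℕ) := by
      have := seg_prod f a hn (i₀ + 1) m
      push_cast
      exact this
    have hv1 : (v (i + 1))⁻¹ * v j = (v ((i₀ : ℤ) + 1))⁻¹ * v (i₀ + 1 + m : ℕ) := by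
      have h1 : v (i + 1) = wp Γ a ^ q * v ((i₀ : ℤ) + 1) := by
        rw [show i + 1 = ((i₀ : ℤ) + 1) + a.length * q by omega]
        exact per_add f a _ q hn
      have h2 : v j = wp Γ a ^ q * v (i₀ + 1 + m : ℕ) := by
        rw [hj']
        exact per_add f a _ q hn
      rw [h1, h2]
      group
    have hcyc := ha.cyc y (L i).2 (seg a hn (i₀ + 1) m) (seg a hn (i₀ + 1 + m + 1) m') ⟨i₀, by
      rw [hrot, hLi, hLj]
      have h1 : L i = (y, (L i).2) := by rw [← hi]
      have h2 : L j = (y, !(L i).2) := by rw [← hd, ← hj]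
      rw [← h1, ← h2]⟩ hu
    rw [hv1]
    apply hsep
    · rw [List.mem_flatMap]
      refine ⟨i₀, List.mem_range.mpr (by omega), List.mem_map.mpr ⟨i₀ + 1 + m,
        List.mem_range.mpr (by omega), rfl⟩⟩
    · rw [← hwpu]
      exact wp_mem_sub _ _ hu
    · rw [← hwpu]
      exact hcyc
  obtain ⟨K', hK', hfin', π, hπ⟩ := cyc_main y a.length r hr0 L v c (wp Γ a)
    (fun i k => lt_add a i k hn) (fun i => per_succ f a i hn)
    (fun i k => per_add f a i k hn)
    (by
      intro i
      show Multiplicative.toAdd (per g a (i + 1)) = _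
      rw [per_succ g a i hn]
      rfl)
    (by
      intro i k
      show Multiplicative.toAdd (per g a (i + a.length * k)) = _
      rw [per_add g a i k hn, hr]
      show (k • (r : ℤ)) + c i = _
      rw [smul_eq_mul]; ring)
    (per_zero f a) (by
      show Multiplicative.toAdd (per g a 0) = 0
      rw [per_zero]; rfl) π₀ hy hgap
  refine ⟨K', hK', hfin', π, ?_⟩
  intro t t' k hty h
  have h1 : (a.get t).1 = (a.get t').1 := congrArg Sigma.fst h
  have hbs : ∀ t : Fin a.length, bs Γ a t = if (L t).2 then v t else v (t + 1) := by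
    intro t
    unfold bs
    have h2 : L t = a.get t := lt_of_lt a t.1 t.2 hn
    rw [h2]
    split_ifs
    · exact (per_of_lt f a t.1 t.2.le hn).symm
    · have h3 := (per_of_lt f a (t.1 + 1) t.2 hn).symm
      push_cast at h3
      exact h3
  have hbs' : wp Γ a ^ k * bs Γ a t =
      if (L ((t : ℤ) + a.length * k)).2 then v ((t : ℤ) + a.length * k)
        else v ((t : ℤ) + a.length * k + 1) := by
    rw [hbs]
    have h2 : L ((t : ℤ) + a.length * k) = L t := lt_add a t k hn
    rw [h2]
    split_ifs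
    · exact (per_add f a t k hn).symm
    · have h3 := (per_add f a (t + 1) k hn).symm
      rw [show (t : ℤ) + 1 + a.length * k = (t : ℤ) + a.length * k + 1 by ring] at h3
      exact h3
  have hLt : ∀ t : Fin a.length, L t = a.get t := fun t => lt_of_lt a t.1 t.2 hn
  rw [← h1, hty, hp_eq_iff, hbs', hbs t'] at h
  obtain ⟨q, hq⟩ := hπ _ _ (by
    rw [show L ((t : ℤ) + a.length * k) = L t from lt_add a t k hn, hLt]; exact hty)
    (by rw [hLt, ← h1]; exact hty) h
  have h2 : (t : ℤ) + a.length * (k + q) = t' := by rw [hq]; ring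
  have h3 : ((t : ℤ) + a.length * (k + q)) % a.length = (t' : ℤ) % a.length := by rw [h2]
  rw [Int.add_mul_emod_self_left, Int.emod_eq_of_lt (by omega) (by have := t.2; omega),
    Int.emod_eq_of_lt (by omega) (by have := t'.2; omega)] at h3
  exact Fin.ext (by exact_mod_cast h3)

/-- Combine finitely many finite quotients. -/
lemma combine {ι : Type*} (l : List ι) (P : ι → ∀ (K : Type) [Group K], (RAAG Γ →* K) → Prop)
    (hP : ∀ i ∈ l, ∃ (K : Type) (_ : Group K) (_ : Finite K) (π : RAAG Γ →* K), P i K π)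
    (hmono : ∀ (i : ι) (K K' : Type) [Group K] [Group K'] (π : RAAG Γ →* K)
      (π' : RAAG Γ →* K') (θ : K' →* K), θ.comp π' = π → P i K π → P i K' π') :
    ∃ (K : Type) (_ : Group K) (_ : Finite K) (π : RAAG Γ →* K), ∀ i ∈ l, P i K π := by
  induction l with
  | nil => exact ⟨PUnit, inferInstance, inferInstance, 1, fun u hu => absurd hu List.not_mem_nil⟩
  | cons i l ih =>
    obtain ⟨K, hK, hfin, π, h⟩ := ih (fun j hj => hP j (List.mem_cons_of_mem _ hj))
    obtain ⟨K', hK', hfin', π', h'⟩ := hP i List.mem_cons_self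
    refine ⟨K × K', inferInstance, inferInstance, π.prod π', fun j hj => ?_⟩
    rcases List.mem_cons.mp hj with rfl | hj
    · exact hmono j K' (K × K') π' _ (MonoidHom.snd K K') (MonoidHom.snd_comp_prod _ _) h'
    · exact hmono j K (K × K') π _ (MonoidHom.fst K K') (MonoidHom.fst_comp_prod _ _) (h j hj)

lemma hp_mono {K K' : Type} [Group K] [Group K'] (π : RAAG Γ →* K) (π' : RAAG Γ →* K')
    (θ : K' →* K) (hθ : θ.comp π' = π) (z z' : V) (g g' : RAAG Γ)
    (h : hp π' (π' g) z = hp π' (π' g') z') : hp π (π g) z = hp π (π g') z' := by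
  have h1 : z = z' := congrArg Sigma.fst h
  subst h1
  rw [hp_eq_iff] at h ⊢
  obtain ⟨x, hx, hxe⟩ := h
  refine ⟨x, hx, ?_⟩
  rw [← hθ, MonoidHom.comp_apply, MonoidHom.comp_apply, MonoidHom.comp_apply, hxe, map_mul,
    map_inv]

end Cyc

end First

variable {V : Type} {Γ : SimpleGraph V}

/-- Finitely generated RAAGs are residually finite. -/
theorem resFin [Finite V] (g : RAAG Γ) (hg : g ≠ 1) :
    ∃ (K : Type) (_ : Group K) (_ : Finite K) (π : RAAG Γ →* K), π g ≠ 1 :=
  First.resFin_aux (Nat.card V) Γ rfl g hg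

theorem first_level [Finite V] (F : List (List (V × Bool))) (hF : ∀ a ∈ F, Good Γ a) :
    ∃ (K : Type) (_ : Group K) (_ : Finite K) (π : RAAG Γ →* K), ∀ a ∈ F, Sep π a := by
  obtain ⟨K, hK, hfin, π, h⟩ := First.combine (Γ := Γ)
    (ι := List (V × Bool) × V)
    (F.flatMap fun a : List (V × Bool) => a.map fun p : V × Bool => (a, p.1))
    (fun (q : List (V × Bool) × V) K _ π => ∀ (t t' : Fin q.1.length) (k : ℤ), (q.1.get t).1 = q.2 →
        hp π (π (wp Γ q.1 ^ k * bs Γ q.1 t)) (q.1.get t).1 =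
          hp π (π (bs Γ q.1 t')) (q.1.get t').1 → t = t')
    (by
      intro q hq
      rw [List.mem_flatMap] at hq
      obtain ⟨a, ha, hq⟩ := hq
      obtain ⟨p, hp, rfl⟩ := List.mem_map.mp hq
      exact First.sep_letter a (hF a ha) p.1 ⟨p.2, hp⟩)
    (by
      intro q K K' _ _ π π' θ hθ h t t' k ht hh
      exact h t t' k ht (First.hp_mono π π' θ hθ _ _ _ _ hh))
  refine ⟨K, hK, hfin, π, fun a ha t t' k hh => ?_⟩
  exact h (a, (a.get t).1) (List.mem_flatMap.mpr ⟨a, ha, List.mem_map.mpr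
    ⟨a.get t, List.get_mem a t, rfl⟩⟩) t t' k rfl hh

end VSp
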