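import Pool.Agent.VSp.Raag

set_option autoImplicit false

/-! M3. Every nontrivial element is conjugate to a product of commuting good words. -/

namespace VSp

universe u

variable {V : Type u} {Γ : SimpleGraph V}

lemma commute_sgn {x y : V} (h : Γ.Adj x y) (b b' : Bool) :
    Commute (sgn Γ x b) (sgn Γ y b') := by
  have h1 := of_comm Γ h
  cases b <;> cases b'
  · exact h1.inv_inv
  · exact h1.inv_left
  · exact h1.inv_right
  · exact h1

/-- A word can be split along two commuting sets of letters. -/
lemma wp_filter_mul (P : V × Bool → Prop) [DecidablePred P] : ∀ w : List (V × Bool),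
    (∀ p ∈ w, ∀ q ∈ w, P p → ¬ P q → Γ.Adj p.1 q.1) →
    wp Γ w = wp Γ (w.filter P) * wp Γ (w.filter fun p => ¬ P p) := by
  intro w
  induction w with
  | nil =>
    intro _
    simp [wp_nil]
  | cons p w ih =>
    intro h
    have ih' := ih fun a ha b hb => h a (List.mem_cons_of_mem _ ha) b (List.mem_cons_of_mem _ hb)
    by_cases hp : P p
    · rw [List.filter_cons_of_pos (by simpa using hp), List.filter_cons_of_neg (by simpa using hp),
        wp_cons, wp_cons, ih', mul_assoc]
    · rw [List.filter_cons_of_neg (by simpa using hp), List.filter_cons_of_pos (by simpa using hp),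
        wp_cons, wp_cons, ih']
      have hc : ∀ v : List (V × Bool), (∀ q ∈ v, Γ.Adj q.1 p.1) →
          Commute (sgn Γ p.1 p.2) (wp Γ v) := by
        intro v
        induction v with
        | nil =>
          intro _
          rw [wp_nil]
          exact Commute.one_right _
        | cons q v ihv =>
          intro hv
          rw [wp_cons]
          exact (commute_sgn (hv q List.mem_cons_self).symm _ _).mul_right
            (ihv fun q' hq' => hv q' (List.mem_cons_of_mem _ hq'))
      have hc' := hc (w.filter P) fun q hq => by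
        rw [List.mem_filter] at hq
        exact h q (List.mem_cons_of_mem _ hq.1) p List.mem_cons_self (by simpa using hq.2) hp
      rw [← mul_assoc, hc'.eq, mul_assoc]

/-- The support of a word. -/
def spt (w : List (V × Bool)) : Set V := {x | ∃ b, (x, b) ∈ w}

lemma fst_mem_spt {w : List (V × Bool)} {p : V × Bool} (h : p ∈ w) : p.1 ∈ spt w := ⟨p.2, h⟩

/-- Shortest among the conjugates by its own letters. -/
def MinConj (Γ : SimpleGraph V) (w : List (V × Bool)) : Prop :=
  ∀ (w' : List (V × Bool)) (x : RAAG Γ), spt w' ⊆ spt w → x ∈ sub Γ (spt w) →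
    wp Γ w' = x * wp Γ w * x⁻¹ → w.length ≤ w'.length

lemma spt_mono {w w' : List (V × Bool)} (h : ∀ p ∈ w, p ∈ w') : spt w ⊆ spt w' :=
  fun _ ⟨b, hb⟩ => ⟨b, h _ hb⟩

lemma exists_good_aux : ∀ (n : ℕ) (w : List (V × Bool)), w.length ≤ n → MinConj Γ w →
    ∃ as : List (List (V × Bool)), (∀ a ∈ as, Good Γ a) ∧ (∀ a ∈ as, ∀ p ∈ a, p ∈ w) ∧
      as.Pairwise (fun a b => ∀ p ∈ a, ∀ q ∈ b, Γ.Adj p.1 q.1) ∧
      wp Γ w = (as.map (wp Γ)).prod := by
  classical
  intro n
  induction n with
  | zero =>
    intro w hw _
    have : w = [] := List.length_eq_zero_iff.1 (Nat.le_zero.1 hw)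
    subst this
    exact ⟨[], by simp, by simp, List.Pairwise.nil, by simp [wp_nil]⟩
  | succ n ih =>
    intro w hw hmin
    rcases w with _ | ⟨p₀, w₀⟩
    · exact ⟨[], by simp, by simp, List.Pairwise.nil, by simp [wp_nil]⟩
    set w := p₀ :: w₀ with hwdef
    have hp₀ : p₀ ∈ w := List.mem_cons_self
    set rw' : V → V → Prop := fun x y => (∃ b, (y, b) ∈ w) ∧ ¬ Γ.Adj x y with hrw
    set C : Set V := {y | Relation.ReflTransGen rw' p₀.1 y} with hC
    set P : V × Bool → Prop := fun p => p.1 ∈ C with hP
    set a := w.filter P with ha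
    set b := w.filter (fun p => ¬ P p) with hb
    have hmema : ∀ p, p ∈ a ↔ p ∈ w ∧ p.1 ∈ C := by
      intro p
      rw [ha, List.mem_filter]
      simp [hP]
    have hmemb : ∀ p, p ∈ b ↔ p ∈ w ∧ p.1 ∉ C := by
      intro p
      rw [hb, List.mem_filter]
      simp [hP]
    have hadj : ∀ p ∈ w, ∀ q ∈ w, P p → ¬ P q → Γ.Adj p.1 q.1 := by
      intro p _ q hq hp hqn
      by_contra hna
      exact hqn (Relation.ReflTransGen.tail hp ⟨⟨q.2, hq⟩, hna⟩)
    have hadj' : ∀ p ∈ a, ∀ q ∈ b, Γ.Adj p.1 q.1 := by
      intro p hp q hq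
      rw [hmema] at hp
      rw [hmemb] at hq
      exact hadj p hp.1 q hq.1 hp.2 hq.2
    have hsplit : wp Γ w = wp Γ a * wp Γ b := wp_filter_mul P w hadj
    have hpa : p₀ ∈ a := (hmema p₀).2 ⟨hp₀, Relation.ReflTransGen.refl⟩
    have hlen : a.length + b.length = w.length := by
      have h1 := List.length_eq_length_filter_add (l := w) (fun p => decide (P p))
      have h2 : (w.filter fun p => !decide (P p)) = b := by
        rw [hb]
        refine List.filter_congr fun p _ => ?_
        simp
      rw [h2] at h1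
      exact h1.symm
    have hsa : spt a ⊆ spt w := spt_mono fun p hp => ((hmema p).1 hp).1
    have hsb : spt b ⊆ spt w := spt_mono fun p hp => ((hmemb p).1 hp).1
    have hcomm : ∀ g g' : RAAG Γ, g ∈ sub Γ (spt a) → g' ∈ sub Γ (spt b) → Commute g g' := by
      intro g g' hg hg'
      refine commute_sub (L := spt a) (L' := spt b) ?_ g g' hg hg'
      rintro x ⟨c, hx⟩ y ⟨d, hy⟩
      exact hadj' _ hx _ hy
    have hwa : wp Γ a ∈ sub Γ (spt a) := wp_mem_sub _ _ fun p hp => fst_mem_spt hp
    have hwb : wp Γ b ∈ sub Γ (spt b) := wp_mem_sub _ _ fun p hp => fst_mem_spt hp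
    have hmina : MinConj Γ a := by
      intro w' x hs hx he
      have h1 := hmin (w' ++ b) x (by
        rintro y ⟨c, hy⟩
        rcases List.mem_append.1 hy with h | h
        · exact hsa (hs ⟨c, h⟩)
        · exact hsb ⟨c, h⟩) (sub_mono hsa hx) (by
        rw [wp_append, he, hsplit, mul_assoc (x * wp Γ a), ← (hcomm x⁻¹ (wp Γ b)
          (inv_mem hx) hwb).symm.eq]
        group)
      rw [List.length_append] at h1
      omega
    have hminb : MinConj Γ b := by
      intro w' x hs hx he
      have h1 := hmin (a ++ w') x (by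
        rintro y ⟨c, hy⟩
        rcases List.mem_append.1 hy with h | h
        · exact hsa ⟨c, h⟩
        · exact hsb (hs ⟨c, h⟩)) (sub_mono hsb hx) (by
        rw [wp_append, he, hsplit, ← mul_assoc x (wp Γ a), ← (hcomm (wp Γ a) x hwa hx).eq]
        group)
      rw [List.length_append] at h1
      omega
    have hgood : Good Γ a := by
      refine ⟨List.ne_nil_of_mem hpa, ?_, ?_⟩
      · -- connectedness
        have key : ∀ y, Relation.ReflTransGen rw' p₀.1 y → (∃ c, (y, c) ∈ a) ∧
            Relation.ReflTransGen (fun x y => (∃ c, (y, c) ∈ a) ∧ ¬ Γ.Adj x y) p₀.1 y ∧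
            Relation.ReflTransGen (fun x y => (∃ c, (y, c) ∈ a) ∧ ¬ Γ.Adj x y) y p₀.1 := by
          intro y hy
          induction hy with
          | refl => exact ⟨⟨p₀.2, hpa⟩, Relation.ReflTransGen.refl, Relation.ReflTransGen.refl⟩
          | @tail y z hy hyz ihy =>
            obtain ⟨h1, h2, h3⟩ := ihy
            obtain ⟨⟨c, hc⟩, hna⟩ := hyz
            have hza : (z, c) ∈ a :=
              (hmema _).2 ⟨hc, Relation.ReflTransGen.tail hy ⟨⟨c, hc⟩, hna⟩⟩
            exact ⟨⟨c, hza⟩, h2.tail ⟨⟨c, hza⟩, hna⟩,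
              Relation.ReflTransGen.head ⟨h1, fun h => hna h.symm⟩ h3⟩
        intro p hp q hq
        have h1 := key p.1 ((hmema p).1 hp).2
        have h2 := key q.1 ((hmema q).1 hq).2
        exact h1.2.2.trans h2.2.1
      · -- cyclically reduced
        intro y e u v hrot hu hlk
        obtain ⟨k, hk⟩ := hrot
        have hk' : a.rotate k = (y, e) :: (u ++ (y, !e) :: v) := hk
        set s := a.take (k % a.length) with hs
        set t := a.drop (k % a.length) with ht
        have hrot' : a.rotate k = t ++ s := List.rotate_eq_drop_append_take_mod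
        have hast : a = s ++ t := (List.take_append_drop _ _).symm
        have hperm : ∀ p, p ∈ (y, e) :: (u ++ (y, !e) :: v) → p ∈ a := by
          intro p hp
          rw [← hk'] at hp
          exact List.mem_rotate.1 hp
        have hws : wp Γ s ∈ sub Γ (spt a) := wp_mem_sub _ _ fun p hp =>
          fst_mem_spt (List.mem_of_mem_take hp)
        have hcy : Commute (of Γ y) (wp Γ u) := commute_of_lk y _ hlk
        have hsg : sgn Γ y e * wp Γ u * sgn Γ y (!e) = wp Γ u := by
          cases e
          · show (of Γ y)⁻¹ * wp Γ u * of Γ y = wp Γ u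
            rw [hcy.inv_left.eq]
            group
          · show of Γ y * wp Γ u * (of Γ y)⁻¹ = wp Γ u
            rw [hcy.eq]
            group
        have h1 := hmina (u ++ v) (wp Γ s)⁻¹ (spt_mono fun p hp => hperm p (by
          rcases List.mem_append.1 hp with h | h
          · exact List.mem_cons_of_mem _ (List.mem_append_left _ h)
          · exact List.mem_cons_of_mem _ (List.mem_append_right _ (List.mem_cons_of_mem _ h))))
          (inv_mem hws) (by
          have h2 : wp Γ (t ++ s) = wp Γ ((y, e) :: (u ++ (y, !e) :: v)) := by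
            rw [← hrot', hk']
          rw [wp_append, wp_cons, wp_append, wp_cons] at h2
          rw [wp_append]
          have h3 : wp Γ a = wp Γ s * wp Γ t := by
            conv_lhs => rw [hast]
            rw [wp_append]
          rw [h3, inv_inv]
          calc wp Γ u * wp Γ v = (sgn Γ y e * wp Γ u * sgn Γ y (!e)) * wp Γ v := by rw [hsg]
            _ = sgn Γ y e * (wp Γ u * (sgn Γ y (!e) * wp Γ v)) := by group
            _ = wp Γ t * wp Γ s := h2.symm
            _ = _ := by group)
        have h4 : a.length = u.length + v.length + 2 := by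
          rw [← List.length_rotate a k, hk']
          simp
          omega
        rw [List.length_append] at h1
        omega
    obtain ⟨as, h1, h2, h3, h4⟩ := ih b (by
      have : 0 < a.length := List.length_pos_of_mem hpa
      omega) hminb
    refine ⟨a :: as, ?_, ?_, ?_, ?_⟩
    · intro c hc
      rcases List.mem_cons.1 hc with rfl | hc
      · exact hgood
      · exact h1 c hc
    · intro c hc p hp
      rcases List.mem_cons.1 hc with rfl | hc
      · exact ((hmema p).1 hp).1
      · exact ((hmemb p).1 (h2 c hc p hp)).1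
    · exact List.Pairwise.cons (fun c hc p hp q hq => hadj' p hp q (h2 c hc q hq)) h3
    · rw [hsplit, h4, List.map_cons, List.prod_cons]

theorem exists_good (g : RAAG Γ) (hg : g ≠ 1) :
    ∃ (x : RAAG Γ) (as : List (List (V × Bool))), as ≠ [] ∧ (∀ a ∈ as, Good Γ a) ∧
      as.Pairwise (fun a b => ∀ p ∈ a, ∀ q ∈ b, Γ.Adj p.1 q.1) ∧
      g = x * (as.map (wp Γ)).prod * x⁻¹ := by
  classical
  -- a shortest word of a conjugate
  have hex : ∃ n, ∃ (w : List (V × Bool)) (x : RAAG Γ), w.length = n ∧ g = x * wp Γ w * x⁻¹ := by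
    obtain ⟨w, hw⟩ := wp_surj g
    exact ⟨w.length, w, 1, rfl, by rw [hw]; group⟩
  obtain ⟨w, x, hw, hx⟩ := Nat.find_spec hex
  have hmin : MinConj Γ w := by
    intro w' z _ _ hz
    rw [hw]
    refine Nat.find_min' hex ⟨w', x * z⁻¹, rfl, ?_⟩
    rw [hz, hx]
    group
  obtain ⟨as, h1, _, h3, h4⟩ := exists_good_aux w.length w le_rfl hmin
  refine ⟨x, as, ?_, h1, h3, by rw [← h4]; exact hx⟩
  rintro rfl
  rw [List.map_nil, List.prod_nil] at h4
  rw [h4] at hx
  exact hg (by rw [hx]; group)

end VSp
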