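import Pool.Agent.VSp.Cover
import Pool.Agent.VSp.First
import Pool.Agent.VSp.Good
import Pool.Agent.Helper29.VRC.Facts

set_option autoImplicit false

/-! M10. Closure properties of virtually special groups; induced actions; (VRC). -/

namespace VSp

universe u v

variable {G : Type u} [Group G]

lemma exists_fin_iso {V : Type v} [Finite V] (Γ : SimpleGraph V) :
    ∃ (n : ℕ) (Γ' : SimpleGraph (Fin n)), Nonempty (RAAG Γ ≃* RAAG Γ') := by
  obtain ⟨n, ⟨e⟩⟩ := Finite.exists_equiv_fin V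
  exact ⟨n, Γ.comap e.symm, ⟨mapIso (SimpleGraph.Iso.comap e.symm Γ).symm⟩⟩

lemma VirtSpecial.mk_of_finite {V : Type v} [Finite V] (Γ : SimpleGraph V) (N : Subgroup G)
    (hN : N.FiniteIndex) (f : N →* RAAG Γ) (hf : Function.Injective f) : VirtSpecial G := by
  obtain ⟨n, Γ', ⟨e⟩⟩ := exists_fin_iso Γ
  exact ⟨N, hN, n, Γ', e.toMonoidHom.comp f, e.injective.comp hf⟩

theorem virtSpecial_RAAG {V : Type v} [Finite V] (Γ : SimpleGraph V) : VirtSpecial (RAAG Γ) :=
  VirtSpecial.mk_of_finite Γ ⊤ inferInstance (Subgroup.subtype ⊤) Subtype.val_injective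

theorem VirtSpecial.of_injective {H : Type v} [Group H] (hG : VirtSpecial G) (f : H →* G)
    (hf : Function.Injective f) : VirtSpecial H := by
  obtain ⟨N, hN, n, Γ, g, hg⟩ := hG
  refine ⟨N.comap f, Pool.Agent.Helper29.finiteIndex_comap f N hN, n, Γ,
    g.comp ((f.comp (N.comap f).subtype).codRestrict N (fun x => x.2)), ?_⟩
  intro x y h
  have h1 := hg h
  exact Subtype.ext (hf (congrArg Subtype.val h1))

/-- If a finite-index subgroup embeds in a virtually special group. -/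
theorem VirtSpecial.of_finiteIndex {H : Type v} [Group H] (hH : VirtSpecial H) (N : Subgroup G)
    (hN : N.FiniteIndex) (f : N →* H) (hf : Function.Injective f) : VirtSpecial G := by
  obtain ⟨M, hM, n, Γ, g, hg⟩ := hH.of_injective f hf
  refine ⟨M.map N.subtype, Pool.Agent.Helper29.finiteIndex_map_subtype N hN M hM, n, Γ,
    g.comp (M.equivMapOfInjective N.subtype N.subtype_injective).symm.toMonoidHom, ?_⟩
  exact hg.comp (M.equivMapOfInjective N.subtype N.subtype_injective).symm.injective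

section Join

variable {ι : Type} (n : ι → Type) (Γ : ∀ i, SimpleGraph (n i))

/-- The join of a family of graphs. -/
def joinG : SimpleGraph (Σ i, n i) where
  Adj a b := a.1 ≠ b.1 ∨ ∃ (i : ι) (x y : n i), a = ⟨i, x⟩ ∧ b = ⟨i, y⟩ ∧ (Γ i).Adj x y
  symm := ⟨by
    rintro a b (h | ⟨i, x, y, ha, hb, h⟩)
    · exact Or.inl h.symm
    · exact Or.inr ⟨i, y, x, hb, ha, h.symm⟩⟩
  loopless := ⟨by
    rintro a (h | ⟨i, x, y, ha, hb, h⟩)
    · exact h rfl
    · rw [ha] at hb
      have := eq_of_heq (Sigma.mk.inj hb).2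
      exact (Γ i).loopless.irrefl x (by rw [this]; exact this ▸ h)⟩

/-- Inclusion of a factor. -/
def joinInc (i : ι) : RAAG (Γ i) →* RAAG (joinG n Γ) :=
  lift (fun x => of (joinG n Γ) ⟨i, x⟩) (fun x y h =>
    of_comm (joinG n Γ) (Or.inr ⟨i, x, y, rfl, rfl, h⟩))

open Classical in
/-- Projection to a factor. -/
noncomputable def joinPr (i : ι) : RAAG (joinG n Γ) →* RAAG (Γ i) :=
  lift (fun a => if h : a.1 = i then of (Γ i) (h ▸ a.2) else 1) (by
    rintro ⟨j, a⟩ ⟨k, b⟩ h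
    rcases h with h | ⟨l, x, y, ha, hb, h⟩
    · by_cases h1 : j = i
      · have h2 : k ≠ i := fun h2 => h (h1.trans h2.symm)
        simp [h2]
      · simp [h1]
    · obtain ⟨rfl, ha⟩ := Sigma.mk.inj ha
      obtain ⟨rfl, hb⟩ := Sigma.mk.inj hb
      obtain rfl := eq_of_heq ha
      obtain rfl := eq_of_heq hb
      by_cases h1 : k = i
      · subst h1
        simpa using of_comm (Γ k) h
      · simp [h1])

lemma joinPr_inc_same (i : ι) (x : RAAG (Γ i)) : joinPr n Γ i (joinInc n Γ i x) = x := by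
  have : (joinPr n Γ i).comp (joinInc n Γ i) = MonoidHom.id _ := by
    apply hom_ext
    intro x
    simp [joinPr, joinInc]
  exact DFunLike.congr_fun this x

lemma joinPr_inc_ne (i j : ι) (h : i ≠ j) (x : RAAG (Γ i)) :
    joinPr n Γ j (joinInc n Γ i x) = 1 := by
  have : (joinPr n Γ j).comp (joinInc n Γ i) = 1 := by
    apply hom_ext
    intro x
    simp [joinPr, joinInc, h]
  exact DFunLike.congr_fun this x

lemma joinInc_comm (i j : ι) (h : i ≠ j) (x : RAAG (Γ i)) (y : RAAG (Γ j)) :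
    Commute (joinInc n Γ i x) (joinInc n Γ j y) := by
  apply commute_sub (L := {a | a.1 = i}) (L' := {a | a.1 = j})
  · intro a ha b hb
    refine Or.inl ?_
    rw [Set.mem_ofPred_eq] at ha hb
    rw [ha, hb]
    exact h
  · obtain ⟨w, rfl⟩ := wp_surj x
    rw [map_wp]
    apply Subgroup.list_prod_mem
    intro g hg
    rw [List.mem_map] at hg
    obtain ⟨⟨z, b⟩, _, rfl⟩ := hg
    have h1 : joinInc n Γ i (of (Γ i) z) ∈ sub (joinG n Γ) {a | a.1 = i} := by
      simp only [joinInc, lift_of]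
      exact Subgroup.subset_closure ⟨⟨i, z⟩, rfl, rfl⟩
    cases b
    · exact Subgroup.inv_mem _ h1
    · exact h1
  · obtain ⟨w, rfl⟩ := wp_surj y
    rw [map_wp]
    apply Subgroup.list_prod_mem
    intro g hg
    rw [List.mem_map] at hg
    obtain ⟨⟨z, b⟩, _, rfl⟩ := hg
    have h1 : joinInc n Γ j (of (Γ j) z) ∈ sub (joinG n Γ) {a | a.1 = j} := by
      simp only [joinInc, lift_of]
      exact Subgroup.subset_closure ⟨⟨j, z⟩, rfl, rfl⟩
    cases b
    · exact Subgroup.inv_mem _ h1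
    · exact h1

theorem join_embedding [Finite ι] :
    ∃ f : (∀ i, RAAG (Γ i)) →* RAAG (joinG n Γ), Function.Injective f := by
  classical
  have := Fintype.ofFinite ι
  have hc : Pairwise fun i j => ∀ (x : RAAG (Γ i)) (y : RAAG (Γ j)),
      Commute (joinInc n Γ i x) (joinInc n Γ j y) := fun i j h x y => joinInc_comm n Γ i j h x y
  refine ⟨MonoidHom.noncommPiCoprod (joinInc n Γ) hc, ?_⟩
  have key : ∀ i, (joinPr n Γ i).comp (MonoidHom.noncommPiCoprod (joinInc n Γ) hc) =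
      Pi.evalMonoidHom _ i := by
    intro i
    apply MonoidHom.pi_ext
    intro j x
    rw [MonoidHom.comp_apply, MonoidHom.noncommPiCoprod_mulSingle]
    by_cases h : j = i
    · subst h
      rw [joinPr_inc_same]
      simp
    · rw [joinPr_inc_ne n Γ j i h]
      simp [Pi.mulSingle_eq_of_ne (Ne.symm h)]
  intro x y h
  funext i
  have h1 := DFunLike.congr_fun (key i) x
  have h2 := DFunLike.congr_fun (key i) y
  rw [MonoidHom.comp_apply, h, ← MonoidHom.comp_apply, h2] at h1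
  exact h1.symm

end Join

theorem VirtSpecial.pi {ι : Type} [Finite ι] (H : ι → Type v) [∀ i, Group (H i)]
    (h : ∀ i, VirtSpecial (H i)) : VirtSpecial (∀ i, H i) := by
  choose N hN n Γ f hf using h
  obtain ⟨g, hg⟩ := join_embedding (fun i => Fin (n i)) Γ
  let M : Subgroup (∀ i, H i) := ⨅ i, (N i).comap (Pi.evalMonoidHom H i)
  have hM : M.FiniteIndex := by
    apply Subgroup.finiteIndex_iInf
    intro i
    exact Pool.Agent.Helper29.finiteIndex_comap _ _ (hN i)
  have hmem : ∀ x ∈ M, ∀ i, x i ∈ N i := by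
    intro x hx i
    exact (Subgroup.mem_iInf.mp hx) i
  let q : M →* ∀ i, RAAG (Γ i) :=
    { toFun := fun x i => f i ⟨x.1 i, hmem x.1 x.2 i⟩
      map_one' := by
        funext i
        exact map_one (f i)
      map_mul' := by
        intro x y
        funext i
        exact map_mul (f i) ⟨x.1 i, hmem x.1 x.2 i⟩ ⟨y.1 i, hmem y.1 y.2 i⟩ }
  refine VirtSpecial.mk_of_finite (joinG (fun i => Fin (n i)) Γ) M hM (g.comp q) (hg.comp ?_)
  intro x y hxy
  apply Subtype.ext
  funext i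
  have h1 : f i ⟨x.1 i, hmem x.1 x.2 i⟩ = f i ⟨y.1 i, hmem y.1 y.2 i⟩ := congrFun hxy i
  exact congrArg Subtype.val (hf i h1)

theorem virtSpecial_semidirect {V : Type v} [Finite V] (Γ : SimpleGraph V) (Q : Type u) [Group Q]
    [Finite Q] (α : Q →* MulAut (RAAG Γ)) : VirtSpecial (RAAG Γ ⋊[α] Q) := by
  have hr : ∀ x : (SemidirectProduct.rightHom : RAAG Γ ⋊[α] Q →* Q).ker,
      (x : RAAG Γ ⋊[α] Q).right = 1 := fun x => x.2
  refine VirtSpecial.mk_of_finite Γ (SemidirectProduct.rightHom : RAAG Γ ⋊[α] Q →* Q).ker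
    inferInstance
    { toFun := fun x => (x : RAAG Γ ⋊[α] Q).left
      map_one' := rfl
      map_mul' := fun x y => by
        show (x : RAAG Γ ⋊[α] Q).left * (α (x : RAAG Γ ⋊[α] Q).right)
          (y : RAAG Γ ⋊[α] Q).left = _
        rw [hr x, map_one]
        rfl } ?_
  intro x y h
  apply Subtype.ext
  ext
  · exact h
  · rw [hr x, hr y]

section EqGsec

variable {X : Type u} {R : Type v} [Group R]

lemma EqG_apply {σ : Equiv.Perm (X × R)} (hσ : σ ∈ EqG X R) (x : X) (b : R) :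
    σ (x, b) = ((σ (x, 1)).1, (σ (x, 1)).2 * b) := by
  have := hσ x 1 b
  rwa [one_mul] at this

/-- The action on the base. -/
def EqGbase (X : Type u) (R : Type v) [Group R] : EqG X R →* Equiv.Perm X where
  toFun σ :=
    { toFun := fun x => ((σ : Equiv.Perm (X × R)) (x, 1)).1
      invFun := fun x => (((σ⁻¹ : EqG X R) : Equiv.Perm (X × R)) (x, 1)).1
      left_inv := fun x => by
        show (((σ⁻¹ : EqG X R) : Equiv.Perm (X × R)) (((σ : Equiv.Perm (X × R)) (x, 1)).1, 1)).1 = x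
        have h1 := EqG_apply (σ⁻¹ : EqG X R).2 ((σ : Equiv.Perm (X × R)) (x, 1)).1
          ((σ : Equiv.Perm (X × R)) (x, 1)).2
        rw [Prod.mk.eta] at h1
        have h2 : ((σ⁻¹ : EqG X R) : Equiv.Perm (X × R)) ((σ : Equiv.Perm (X × R)) (x, 1)) = (x, 1) :=
          (σ : Equiv.Perm (X × R)).symm_apply_apply _
        rw [h2] at h1
        exact (congrArg Prod.fst h1).symm
      right_inv := fun x => by
        show ((σ : Equiv.Perm (X × R)) ((((σ⁻¹ : EqG X R) : Equiv.Perm (X × R)) (x, 1)).1, 1)).1 = x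
        have h1 := EqG_apply σ.2 (((σ⁻¹ : EqG X R) : Equiv.Perm (X × R)) (x, 1)).1
          (((σ⁻¹ : EqG X R) : Equiv.Perm (X × R)) (x, 1)).2
        rw [Prod.mk.eta] at h1
        have h2 : (σ : Equiv.Perm (X × R)) (((σ⁻¹ : EqG X R) : Equiv.Perm (X × R)) (x, 1)) = (x, 1) :=
          (σ : Equiv.Perm (X × R)).apply_symm_apply _
        rw [h2] at h1
        exact (congrArg Prod.fst h1).symm }
  map_one' := rfl
  map_mul' σ τ := by
    ext x
    show ((σ : Equiv.Perm (X × R)) ((τ : Equiv.Perm (X × R)) (x, 1))).1 =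
      ((σ : Equiv.Perm (X × R)) (((τ : Equiv.Perm (X × R)) (x, 1)).1, 1)).1
    have h1 := EqG_apply σ.2 ((τ : Equiv.Perm (X × R)) (x, 1)).1 ((τ : Equiv.Perm (X × R)) (x, 1)).2
    rw [Prod.mk.eta] at h1
    rw [h1]

@[simp] lemma EqGbase_apply (σ : EqG X R) (x : X) :
    EqGbase X R σ x = ((σ : Equiv.Perm (X × R)) (x, 1)).1 := rfl

end EqGsec

theorem virtSpecial_EqG (X : Type u) [Finite X] (R : Type v) [Group R] (hR : VirtSpecial R) :
    VirtSpecial (EqG X R) := by
  obtain ⟨m, ⟨e⟩⟩ := Finite.exists_equiv_fin X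
  have h1 : VirtSpecial (Fin m → R) := VirtSpecial.pi (fun _ : Fin m => R) (fun _ => hR)
  have hb : ∀ (σ : (EqGbase X R).ker) (x : X), (((σ : EqG X R) : Equiv.Perm (X × R)) (x, 1)).1 = x := by
    intro σ x
    have := DFunLike.congr_fun (MonoidHom.mem_ker.mp σ.2) x
    simpa using this
  refine h1.of_finiteIndex (EqGbase X R).ker inferInstance
    { toFun := fun σ i => (((σ : EqG X R) : Equiv.Perm (X × R)) (e.symm i, 1)).2
      map_one' := rfl
      map_mul' := fun σ τ => by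
        funext i
        show (((σ : EqG X R) : Equiv.Perm (X × R)) (((τ : EqG X R) : Equiv.Perm (X × R)) (e.symm i, 1))).2 =
          (((σ : EqG X R) : Equiv.Perm (X × R)) (e.symm i, 1)).2 *
            (((τ : EqG X R) : Equiv.Perm (X × R)) (e.symm i, 1)).2
        have h2 := EqG_apply (σ : EqG X R).2 (((τ : EqG X R) : Equiv.Perm (X × R)) (e.symm i, 1)).1
          (((τ : EqG X R) : Equiv.Perm (X × R)) (e.symm i, 1)).2
        rw [Prod.mk.eta, hb τ] at h2
        exact congrArg Prod.snd h2 } ?_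
  intro σ τ h
  apply Subtype.ext
  apply Subtype.ext
  ext1 ⟨x, r⟩
  have h3 := congrFun h (e x)
  have h3' : (((σ : EqG X R) : Equiv.Perm (X × R)) (x, 1)).2 =
      (((τ : EqG X R) : Equiv.Perm (X × R)) (x, 1)).2 := by
    simpa using h3
  rw [EqG_apply (σ : EqG X R).2, EqG_apply (τ : EqG X R).2, hb, hb, h3']

/-- The induced homomorphism into the wreath product. -/
theorem exists_induced (N : Subgroup G) [N.Normal] {R : Type v} [Group R] (f : N →* R) :
    ∃ Φ : G →* EqG (G ⧸ N) R,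
      (∀ (g : G) (x : G ⧸ N) (a : R), ((Φ g : Equiv.Perm _) (x, a)).1 = g • x) ∧
      (∀ (n : G) (_ : n ∈ N) (g : G) (h : g⁻¹ * n * g ∈ N),
        IsConj (f ⟨g⁻¹ * n * g, h⟩) ((Φ n : Equiv.Perm _) ((g : G ⧸ N), 1)).2) ∧
      (Function.Injective f → Function.Injective Φ) := by
  let s : G ⧸ N → G := fun x => x.out
  have hs : ∀ x, (s x : G ⧸ N) = x := fun x => QuotientGroup.out_eq' x
  have hmem : ∀ (g : G) (x : G ⧸ N), (s (g • x))⁻¹ * g * s x ∈ N := by
    intro g x
    have h1 : ((s (g • x) : G) : G ⧸ N) = ((g * s x : G) : G ⧸ N) := by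
      rw [hs]
      have h2 : ((g * s x : G) : G ⧸ N) = g • ((s x : G) : G ⧸ N) := rfl
      rw [h2, hs]
    have h3 := QuotientGroup.eq.mp h1
    rwa [← mul_assoc] at h3
  let c : G → (G ⧸ N) → N := fun g x => ⟨(s (g • x))⁻¹ * g * s x, hmem g x⟩
  have hc : ∀ g h x, c (g * h) x = c g (h • x) * c h x := by
    intro g h x
    apply Subtype.ext
    show (s ((g * h) • x))⁻¹ * (g * h) * s x =
      ((s (g • h • x))⁻¹ * g * s (h • x)) * ((s (h • x))⁻¹ * h * s x)
    rw [mul_smul]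
    group
  have hc1 : ∀ x, c 1 x = 1 := by
    intro x
    apply Subtype.ext
    show (s ((1 : G) • x))⁻¹ * 1 * s x = 1
    rw [one_smul]
    group
  let Φ₀ : G → Equiv.Perm ((G ⧸ N) × R) := fun g =>
    { toFun := fun z => (g • z.1, f (c g z.1) * z.2)
      invFun := fun z => (g⁻¹ • z.1, f (c g⁻¹ z.1) * z.2)
      left_inv := fun z => by
        ext
        · exact inv_smul_smul g z.1
        · show f (c g⁻¹ (g • z.1)) * (f (c g z.1) * z.2) = z.2
          rw [← mul_assoc, ← map_mul, ← hc, inv_mul_cancel, hc1, map_one, one_mul]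
      right_inv := fun z => by
        ext
        · exact smul_inv_smul g z.1
        · show f (c g (g⁻¹ • z.1)) * (f (c g⁻¹ z.1) * z.2) = z.2
          rw [← mul_assoc, ← map_mul, ← hc, mul_inv_cancel, hc1, map_one, one_mul] }
  have hΦ₀ : ∀ g x a, Φ₀ g (x, a) = (g • x, f (c g x) * a) := fun _ _ _ => rfl
  have hE : ∀ g, Φ₀ g ∈ EqG (G ⧸ N) R := by
    intro g x a b
    rw [hΦ₀, hΦ₀, mul_assoc]
  let Φ : G →* EqG (G ⧸ N) R :=
    { toFun := fun g => ⟨Φ₀ g, hE g⟩
      map_one' := by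
        apply Subtype.ext
        ext1 ⟨x, a⟩
        show Φ₀ 1 (x, a) = (x, a)
        rw [hΦ₀, one_smul, hc1, map_one, one_mul]
      map_mul' := fun g h => by
        apply Subtype.ext
        ext1 ⟨x, a⟩
        show Φ₀ (g * h) (x, a) = Φ₀ g (Φ₀ h (x, a))
        rw [hΦ₀, hΦ₀, hΦ₀, mul_smul, hc, map_mul, mul_assoc] }
  have hΦ : ∀ g x a, (Φ g : Equiv.Perm ((G ⧸ N) × R)) (x, a) = (g • x, f (c g x) * a) := fun _ _ _ => rfl
  have hfix : ∀ n ∈ N, ∀ g : G, n • (g : G ⧸ N) = (g : G ⧸ N) := by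
    intro n hn g
    show ((n * g : G) : G ⧸ N) = (g : G ⧸ N)
    rw [QuotientGroup.eq, mul_inv_rev]
    have := Subgroup.Normal.conj_mem (inferInstance : N.Normal) n⁻¹ (N.inv_mem hn) g⁻¹
    simpa [mul_assoc] using this
  refine ⟨Φ, fun g x a => rfl, ?_, ?_⟩
  · intro n hn g h
    rw [hΦ, mul_one]
    have h1 : ((s (g : G ⧸ N) : G) : G ⧸ N) = (g : G ⧸ N) := hs _
    have h2 : g⁻¹ * s (g : G ⧸ N) ∈ N := QuotientGroup.eq.mp h1.symm
    have h3 : c n (g : G ⧸ N) = (⟨g⁻¹ * s (g : G ⧸ N), h2⟩ : N)⁻¹ * ⟨g⁻¹ * n * g, h⟩ *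
        ⟨g⁻¹ * s (g : G ⧸ N), h2⟩ := by
      apply Subtype.ext
      show (s (n • (g : G ⧸ N)))⁻¹ * n * s (g : G ⧸ N) = (g⁻¹ * s (g : G ⧸ N))⁻¹ *
        (g⁻¹ * n * g) * (g⁻¹ * s (g : G ⧸ N))
      rw [hfix n hn]
      group
    rw [h3, map_mul, map_mul, map_inv, isConj_iff]
    exact ⟨(f ⟨g⁻¹ * s (g : G ⧸ N), h2⟩)⁻¹, by rw [inv_inv]⟩
  · intro hf
    rw [injective_iff_map_eq_one]
    intro g hg
    have h0 : ∀ x a, (Φ g : Equiv.Perm ((G ⧸ N) × R)) (x, a) = (x, a) := by
      intro x a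
      rw [hg]
      rfl
    have h1 := h0 ((1 : G) : G ⧸ N) 1
    rw [hΦ] at h1
    have h2 : g • ((1 : G) : G ⧸ N) = ((1 : G) : G ⧸ N) := congrArg Prod.fst h1
    have h3 : f (c g ((1 : G) : G ⧸ N)) * 1 = 1 := congrArg Prod.snd h1
    rw [mul_one] at h3
    have h4 : c g ((1 : G) : G ⧸ N) = 1 := (injective_iff_map_eq_one f).mp hf _ h3
    have h5 : (s (g • ((1 : G) : G ⧸ N)))⁻¹ * g * s ((1 : G) : G ⧸ N) = 1 :=
      congrArg Subtype.val h4
    rw [h2] at h5
    have h6 : g = s ((1 : G) : G ⧸ N) * ((s ((1 : G) : G ⧸ N))⁻¹ * g * s ((1 : G) : G ⧸ N)) *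
        (s ((1 : G) : G ⧸ N))⁻¹ := by group
    rw [h6, h5]
    group

/-- A normal finite-index subgroup with an injection into a RAAG. -/
theorem VirtSpecial.exists_normal (hG : VirtSpecial G) :
    ∃ N : Subgroup G, N.Normal ∧ N.FiniteIndex ∧ ∃ (n : ℕ) (Γ : SimpleGraph (Fin n))
      (f : N →* RAAG Γ), Function.Injective f := by
  obtain ⟨N, hN, n, Γ, f, hf⟩ := hG
  exact ⟨N.normalCore, inferInstance, inferInstance, n, Γ,
    f.comp (Subgroup.inclusion N.normalCore_le),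
    hf.comp (Subgroup.inclusion_injective N.normalCore_le)⟩

section VRC

variable {V : Type v} {Γ : SimpleGraph V} {K : Type u} [Group K] (π : RAAG Γ →* K)

lemma mem_cr (k : K) (w : List (V × Bool)) (p : HV π × Bool) (hp' : p ∈ cr π k w) :
    ∃ (w₁ w₂ : List (V × Bool)) (z : V) (b : Bool), w = w₁ ++ (z, b) :: w₂ ∧
      p = (hp π (k * π (wp Γ w₁) * cond b 1 (π (of Γ z))⁻¹) z, b) := by
  induction w generalizing k with
  | nil => simp [cr] at hp'
  | cons q w ih =>
    obtain ⟨z, b⟩ := q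
    rw [cr_cons, List.mem_cons] at hp'
    rcases hp' with rfl | hp'
    · refine ⟨[], w, z, b, rfl, ?_⟩
      rw [wp_nil, map_one, mul_one]
      cases b
      · rfl
      · simp
    · obtain ⟨w₁, w₂, z', b', rfl, rfl⟩ := ih _ hp'
      refine ⟨(z, b) :: w₁, w₂, z', b', rfl, ?_⟩
      rw [wp_cons, map_mul, mul_assoc k]

lemma mem_cr_bs (a : List (V × Bool)) (p : HV π × Bool) (hp' : p ∈ cr π 1 a) :
    ∃ t : Fin a.length, p = (hp π (π (bs Γ a t)) (a.get t).1, (a.get t).2) := by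
  obtain ⟨w₁, w₂, z, b, rfl, rfl⟩ := mem_cr π 1 a p hp'
  have hlt : w₁.length < (w₁ ++ (z, b) :: w₂).length := by simp
  refine ⟨⟨w₁.length, hlt⟩, ?_⟩
  have h1 : (w₁ ++ (z, b) :: w₂).get ⟨w₁.length, hlt⟩ = (z, b) := by simp
  rw [bs, h1]
  cases b
  · have h2 : (w₁ ++ (z, false) :: w₂).take (w₁.length + 1) = w₁ ++ [(z, false)] := by
      rw [List.take_append]
      simp
    simp only [h2, wp_append, wp_cons, wp_nil, sgn, cond, one_mul, mul_one]
    simp
  · simp

lemma bs_mem_cr (a : List (V × Bool)) (t : Fin a.length) :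
    (hp π (π (bs Γ a t)) (a.get t).1, (a.get t).2) ∈ cr π 1 a := by
  have h : a = a.take t ++ (a.get t) :: a.drop (t + 1) := by
    simp
  have h0 : cr π 1 a = cr π 1 (a.take t) ++ cr π (1 * π (wp Γ (a.take t)))
      ((a.get t) :: a.drop (t + 1)) := by
    rw [← cr_append, ← h]
  rw [h0, List.mem_append]
  refine Or.inr ?_
  have h1 : a.get t = ((a.get t).1, (a.get t).2) := rfl
  rw [h1, cr_cons, List.mem_cons]
  refine Or.inl ?_
  rw [bs]
  have h2 : a.take (t + 1) = a.take t ++ [a.get t] := by simp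
  cases h3 : (a.get t).2
  · simp only [h2, wp_append, wp_cons, wp_nil, sgn, h3, cond, one_mul, mul_one]
    simp
  · simp

lemma cv_pow (g : RAAG Γ) (k : ℕ) (h : HV π) :
    cv π (g ^ k) h = ∑ j ∈ Finset.range k, cv π g ((π (g ^ j))⁻¹ • h) := by
  induction k with
  | zero => simp [cv_one]
  | succ k ih =>
    rw [pow_succ, cv_mul, ih, Finset.sum_range_succ]

/-- With separated positions, powers of `a` have a nonzero crossing vector. -/
lemma cv_pow_ne_zero (a : List (V × Bool)) (ha : Sep π a) (t : Fin a.length) (k : ℕ)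
    (hk : 0 < k) : cv π (wp Γ a ^ k) (hp π (π (bs Γ a t)) (a.get t).1) ≠ 0 := by
  classical
  set h := hp π (π (bs Γ a t)) (a.get t).1 with hh
  set ε : ℤ := cond (a.get t).2 1 (-1) with hε
  have hε2 : ε * ε = 1 := by
    rw [hε]; cases (a.get t).2 <;> rfl
  have hterm : ∀ j : ℕ, ∀ p ∈ cr π 1 a, p.1 = (π (wp Γ a ^ j))⁻¹ • h →
      cond p.2 (1 : ℤ) (-1) = ε := by
    intro j p hp' hp2
    obtain ⟨i, rfl⟩ := mem_cr_bs π a p hp'
    have h1 : t = i := by
      apply ha t i (-(j : ℤ))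
      show _ = (hp π (π (bs Γ a i)) (a.get i).1, (a.get i).2).1
      rw [hp2, hh, ← map_inv, smul_hp, ← map_mul, zpow_neg, zpow_natCast]
    rw [hε, h1]
  have hnn : ∀ j : ℕ, 0 ≤ ε * cv π (wp Γ a) ((π (wp Γ a ^ j))⁻¹ • h) := by
    intro j
    rw [cv_wp, ← List.sum_map_mul_left]
    apply List.sum_nonneg
    intro x hx
    rw [List.mem_map] at hx
    obtain ⟨p, hp', rfl⟩ := hx
    by_cases hp2 : p.1 = (π (wp Γ a ^ j))⁻¹ • h
    · rw [if_pos hp2, hterm j p hp' hp2, hε2]
      exact zero_le_one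
    · rw [if_neg hp2, mul_zero]
  have hpos : 0 < ε * cv π (wp Γ a) ((π (wp Γ a ^ 0))⁻¹ • h) := by
    have hh0 : (π (wp Γ a ^ 0))⁻¹ • h = h := by
      rw [pow_zero, map_one, inv_one, one_smul]
    have h1 : (1 : ℤ) ≤ ε * cv π (wp Γ a) ((π (wp Γ a ^ 0))⁻¹ • h) := by
      rw [cv_wp, ← List.sum_map_mul_left]
      apply List.single_le_sum
      · intro x hx
        rw [List.mem_map] at hx
        obtain ⟨p, hp', rfl⟩ := hx
        by_cases hp2 : p.1 = (π (wp Γ a ^ 0))⁻¹ • h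
        · rw [if_pos hp2, hterm 0 p hp' hp2, hε2]
          exact zero_le_one
        · rw [if_neg hp2, mul_zero]
      · rw [List.mem_map]
        refine ⟨_, bs_mem_cr π a t, ?_⟩
        rw [hh0, if_pos hh.symm, ← hε, hε2]
    exact lt_of_lt_of_le zero_lt_one h1
  intro h0
  rw [cv_pow] at h0
  have h3 : 0 < ∑ j ∈ Finset.range k, ε * cv π (wp Γ a) ((π (wp Γ a ^ j))⁻¹ • h) := by
    apply Finset.sum_pos'
    · intro j _; exact hnn j
    · exact ⟨0, Finset.mem_range.mpr hk, hpos⟩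
  rw [← Finset.mul_sum, h0, mul_zero] at h3
  exact lt_irrefl _ h3

lemma cv_sub_eq_zero (L : Set V) (x : RAAG Γ) (hx : x ∈ sub Γ L) :
    ∀ h : HV π, h.1 ∉ L → cv π x h = 0 := by
  classical
  induction hx using Subgroup.closure_induction with
  | mem x hx =>
    obtain ⟨z, hz, rfl⟩ := hx
    intro h hh
    rw [cv_of, Pi.single_eq_of_ne]
    rintro rfl
    exact hh hz
  | one => intro h _; rw [cv_one]; rfl
  | mul x y _ _ hx hy =>
    intro h hh
    rw [cv_mul, hx h hh, hy ((π x)⁻¹ • h) (by rwa [smul_fst]), add_zero]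
  | inv x _ hx =>
    intro h hh
    rw [cv_inv, hx (π x • h) (by rwa [smul_fst]), neg_zero]

end VRC

/-- Nontrivial elements of a RAAG survive in a virtual homomorphism to the integers. -/
theorem raag_VS {V : Type} [Finite V] {Γ : SimpleGraph V} (g : RAAG Γ) (hg : g ≠ 1) :
    Pool.Agent.Helper29.VS g := by
  obtain ⟨x, as, has, hgood, hpw, rfl⟩ := exists_good g hg
  obtain ⟨a, l, rfl⟩ := List.exists_cons_of_ne_nil has
  obtain ⟨K, hK, hKf, π, hsep⟩ := first_level [a] (by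
    intro b hb
    rw [List.mem_singleton] at hb
    rw [hb]
    exact hgood a List.mem_cons_self)
  have ha : Good Γ a := hgood a List.mem_cons_self
  have hlen : 0 < a.length := List.length_pos_iff.mpr ha.ne
  let t : Fin a.length := ⟨0, hlen⟩
  set h : HV π := hp π (π (bs Γ a t)) (a.get t).1 with hh
  rw [List.pairwise_cons] at hpw
  set r : RAAG Γ := (l.map (wp Γ)).prod with hr
  -- letters of `a` and of the other words
  let L : Set V := {y | ∃ p ∈ a, p.1 = y}
  let L' : Set V := {y | ∃ b ∈ l, ∃ p ∈ b, p.1 = y}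
  have hLL' : ∀ y ∈ L, ∀ z ∈ L', Γ.Adj y z := by
    rintro _ ⟨p, hp', rfl⟩ _ ⟨b, hb, q, hq, rfl⟩
    exact hpw.1 b hb p hp' q hq
  have haL : wp Γ a ∈ sub Γ L := wp_mem_sub L a (fun p hp' => ⟨p, hp', rfl⟩)
  have hrL : r ∈ sub Γ L' := by
    apply Subgroup.list_prod_mem
    intro y hy
    rw [List.mem_map] at hy
    obtain ⟨b, hb, rfl⟩ := hy
    exact wp_mem_sub L' b (fun p hp' => ⟨b, hb, p, hp', rfl⟩)
  have hcomm : Commute (wp Γ a) r := commute_sub hLL' _ _ haL hrL
  have hprod : ((a :: l).map (wp Γ)).prod = wp Γ a * r := by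
    rw [List.map_cons, List.prod_cons]
  rw [hprod]
  have hker : (π.ker).FiniteIndex := Subgroup.finiteIndex_ker π
  have hpi : ∀ u : π.ker, π (x⁻¹ * u * x) = 1 := by
    intro u
    rw [map_mul, map_mul, MonoidHom.mem_ker.mp u.2, mul_one, ← map_mul, inv_mul_cancel, map_one]
  let k := Nat.card K
  have hk : 0 < k := Nat.card_pos
  have hpow : ∀ u : K, u ^ k = 1 := fun u => pow_card_eq_one'
  refine ⟨π.ker, hker,
    { toFun := fun u => Multiplicative.ofAdd (cv π (x⁻¹ * u * x) h)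
      map_one' := by
        show Multiplicative.ofAdd (cv π (x⁻¹ * 1 * x) h) = 1
        rw [mul_one, inv_mul_cancel, cv_one]
        rfl
      map_mul' := fun u v => by
        show Multiplicative.ofAdd (cv π (x⁻¹ * (u * v) * x) h) = _
        have h1 : x⁻¹ * ((u : RAAG Γ) * v) * x = (x⁻¹ * u * x) * (x⁻¹ * v * x) := by group
        rw [h1, cv_mul, hpi, inv_one, one_smul]
        rfl }, k, hk, ?_, ?_⟩
  · rw [MonoidHom.mem_ker, map_pow, hpow]
  · intro h0
    have h1 : cv π (x⁻¹ * (x * (wp Γ a * r) * x⁻¹) ^ k * x) h = 0 :=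
      congrArg Multiplicative.toAdd h0
    have h2 : x⁻¹ * (x * (wp Γ a * r) * x⁻¹) ^ k * x = wp Γ a ^ k * r ^ k := by
      rw [conj_pow, ← hcomm.mul_pow]
      group
    rw [h2, cv_mul] at h1
    have hnot : ∀ h' : HV π, h'.1 = (a.get t).1 → h'.1 ∉ L' := by
      intro h' hh' hmem
      rw [hh'] at hmem
      exact Γ.loopless.irrefl _ (hLL' _ ⟨a.get t, List.get_mem a t, rfl⟩ _ hmem)
    rw [cv_sub_eq_zero π L' (r ^ k) (Subgroup.pow_mem _ hrL k) _ (hnot _ rfl), add_zero] at h1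
    exact cv_pow_ne_zero π a (hsep a (List.mem_singleton.mpr rfl)) t k hk h1

/-- Virtually special groups have (VRC). -/
theorem VirtSpecial.vrc (hG : VirtSpecial G) : Pool.Agent.Helper29.VRC G := by
  obtain ⟨N, hN, hNf, n, Γ, f, hf⟩ := hG.exists_normal
  intro g
  by_cases hg : IsOfFinOrder g
  · have : Finite (G ⧸ N) := Subgroup.finite_quotient_of_finiteIndex
    refine Pool.Agent.Helper29.isVirtualRetract_of_finite (QuotientGroup.mk' N) ?_
    intro k hk
    rw [QuotientGroup.mk'_apply, QuotientGroup.eq_one_iff] at hk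
    by_contra hne
    have h1 : f ⟨g ^ k, hk⟩ ≠ 1 := by
      intro h1
      apply hne
      have h2 := (injective_iff_map_eq_one f).mp hf _ h1
      exact congrArg Subtype.val h2
    obtain ⟨m, hm, hgm⟩ := isOfFinOrder_iff_pow_eq_one.mp hg
    apply pow_ne_one _ h1 m hm
    rw [← map_pow]
    have h2 : (⟨g ^ k, hk⟩ : N) ^ m = 1 := by
      apply Subtype.ext
      show (g ^ k) ^ m = 1
      rw [← zpow_natCast, ← zpow_mul, mul_comm, zpow_mul, zpow_natCast, hgm, one_zpow]
    rw [h2, map_one]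
  · have hidx : N.index ≠ 0 := hNf.index_ne_zero
    have hmem : g ^ N.index ∈ N := Subgroup.pow_index_mem N g
    have h1 : f ⟨g ^ N.index, hmem⟩ ≠ 1 := by
      intro h1
      have h2 := (injective_iff_map_eq_one f).mp hf _ h1
      have h3 : g ^ N.index = 1 := congrArg Subtype.val h2
      exact hg (isOfFinOrder_iff_pow_eq_one.mpr ⟨N.index, Nat.pos_of_ne_zero hidx, h3⟩)
    exact (Pool.Agent.Helper29.VS.of_hom N f N.index (Nat.pos_of_ne_zero hidx) hmem
      (raag_VS _ h1)).isVirtualRetract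

end VSp
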