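import Pool.Agent.VSp.Parab
import Pool.Agent.VSp.Closure

set_option autoImplicit false

/-! M15. Parabolic position of a cyclic subgroup in a virtually special group. -/

namespace VSp

universe u

namespace Pos

/-- Vertices of the join of `k` copies. -/
def PV (k n : ℕ) : Type := Fin k × Fin n

instance (k n : ℕ) : Finite (PV k n) := inferInstanceAs (Finite (Fin k × Fin n))

instance (k n : ℕ) : MulAction (Equiv.Perm (Fin k)) (PV k n) where
  smul σ p := (σ p.1, p.2)
  one_smul _ := rfl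
  mul_smul _ _ _ := rfl

theorem smul_def' {k n : ℕ} (σ : Equiv.Perm (Fin k)) (p : PV k n) : σ • p = (σ p.1, p.2) := rfl

/-- The join of `k` copies of a graph. -/
def PG (k : ℕ) {n : ℕ} (Γ : SimpleGraph (Fin n)) : SimpleGraph (PV k n) where
  Adj a b := a.1 ≠ b.1 ∨ (a.1 = b.1 ∧ Γ.Adj a.2 b.2)
  symm := ⟨fun _ _ h => h.imp Ne.symm fun h => ⟨h.1.symm, h.2.symm⟩⟩
  loopless := ⟨fun a h => h.elim (fun h => h rfl) fun h => Γ.loopless.irrefl a.2 h.2⟩

instance (k : ℕ) {n : ℕ} (Γ : SimpleGraph (Fin n)) : GraphAct (Equiv.Perm (Fin k)) (PG k Γ) where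
  adj := by
    rintro q a b (h | h)
    · exact Or.inl fun h' => h (q.injective h')
    · exact Or.inr ⟨congrArg q h.1, h.2⟩

variable (k : ℕ) {n : ℕ} (Γ : SimpleGraph (Fin n))

/-- Inclusion of a copy. -/
def inc (i : Fin k) : RAAG Γ →* RAAG (PG k Γ) :=
  lift (fun a => of (PG k Γ) (i, a)) fun _ _ h => of_comm _ (Or.inr ⟨rfl, h⟩)

theorem inc_of (i : Fin k) (a : Fin n) : inc k Γ i (of Γ a) = of (PG k Γ) (i, a) := lift_of _ _ _

open Classical in
/-- Projection to a copy. -/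
noncomputable def prj (i : Fin k) : RAAG (PG k Γ) →* RAAG Γ :=
  lift (fun p => if p.1 = i then of Γ p.2 else 1) (by
    rintro a b (h | h)
    · by_cases ha : a.1 = i
      · rw [if_neg (fun hb : b.1 = i => h (ha.trans hb.symm))]
        exact Commute.one_right _
      · rw [if_neg ha]
        exact Commute.one_left _
    · by_cases ha : a.1 = i
      · rw [if_pos ha, if_pos (h.1.symm.trans ha)]
        exact of_comm Γ h.2
      · rw [if_neg ha]
        exact Commute.one_left _)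

theorem prj_of_eq (i : Fin k) (a : Fin n) : prj k Γ i (of (PG k Γ) (i, a)) = of Γ a := by
  unfold prj
  rw [lift_of]
  exact if_pos rfl

theorem prj_of_ne {i j : Fin k} (h : j ≠ i) (a : Fin n) :
    prj k Γ i (of (PG k Γ) (j, a)) = 1 := by
  unfold prj
  rw [lift_of]
  exact if_neg h

theorem prj_inc (i : Fin k) (g : RAAG Γ) : prj k Γ i (inc k Γ i g) = g := by
  have : (prj k Γ i).comp (inc k Γ i) = MonoidHom.id _ := hom_ext fun x => by
    rw [MonoidHom.comp_apply, inc_of, prj_of_eq]; rfl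
  exact DFunLike.congr_fun this g

theorem prj_inc_ne {i j : Fin k} (h : j ≠ i) (g : RAAG Γ) : prj k Γ i (inc k Γ j g) = 1 := by
  have : (prj k Γ i).comp (inc k Γ j) = 1 := hom_ext fun x => by
    rw [MonoidHom.comp_apply, inc_of, prj_of_ne k Γ h]; rfl
  exact DFunLike.congr_fun this g

theorem inc_mem (i : Fin k) (g : RAAG Γ) : inc k Γ i g ∈ sub (PG k Γ) {p | p.1 = i} := by
  have h : sub Γ Set.univ ≤ (sub (PG k Γ) {p | p.1 = i}).comap (inc k Γ i) := by
    rw [sub, Subgroup.closure_le]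
    rintro _ ⟨a, _, rfl⟩
    show inc k Γ i (of Γ a) ∈ sub (PG k Γ) {p : PV k n | p.1 = i}
    rw [inc_of]
    exact of_mem_sub (L := {p : PV k n | p.1 = i}) rfl
  have h2 : g ∈ sub Γ Set.univ := by
    obtain ⟨w, rfl⟩ := wp_surj g
    exact wp_mem_sub _ _ fun _ _ => trivial
  exact h h2

theorem inc_comm : Pairwise fun i j : Fin k => ∀ x y, Commute (inc k Γ i x) (inc k Γ j y) := by
  intro i j hij x y
  exact commute_sub (fun a ha b hb => Or.inl fun h => hij (ha.symm.trans (h.trans hb))) _ _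
    (inc_mem k Γ i x) (inc_mem k Γ j y)

/-- The product map. -/
noncomputable def P : (Fin k → RAAG Γ) →* RAAG (PG k Γ) :=
  MonoidHom.noncommPiCoprod (inc k Γ) (inc_comm k Γ)

theorem prj_P (i : Fin k) (v : Fin k → RAAG Γ) : prj k Γ i (P k Γ v) = v i := by
  have h : (prj k Γ i).comp (P k Γ) = Pi.evalMonoidHom (fun _ => RAAG Γ) i := by
    apply MonoidHom.pi_ext
    intro j x
    rw [MonoidHom.comp_apply, P, MonoidHom.noncommPiCoprod_mulSingle, Pi.evalMonoidHom_apply]
    by_cases hj : j = i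
    · subst hj
      rw [prj_inc, Pi.mulSingle_eq_same]
    · rw [prj_inc_ne k Γ hj, Pi.mulSingle_eq_of_ne (Ne.symm hj)]
  exact DFunLike.congr_fun h v

theorem P_prj (g : RAAG (PG k Γ)) : P k Γ (fun i => prj k Γ i g) = g := by
  have h : (P k Γ).comp (MonoidHom.pi fun i => prj k Γ i) =
      MonoidHom.id _ := hom_ext fun x => by
    obtain ⟨j, a⟩ := x
    rw [MonoidHom.comp_apply]
    have : (MonoidHom.pi fun i => prj k Γ i) (of (PG k Γ) (j, a))
        = Pi.mulSingle (M := fun _ => RAAG Γ) j (of Γ a) := by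
      funext i
      show prj k Γ i (of (PG k Γ) (j, a)) = _
      by_cases hj : j = i
      · subst hj
        rw [prj_of_eq, Pi.mulSingle_eq_same]
      · rw [prj_of_ne k Γ hj, Pi.mulSingle_eq_of_ne (Ne.symm hj)]
    rw [this, P, MonoidHom.noncommPiCoprod_mulSingle, inc_of]
    rfl
  exact DFunLike.congr_fun h g

theorem prj_ext {g g' : RAAG (PG k Γ)} (h : ∀ i, prj k Γ i g = prj k Γ i g') : g = g' := by
  rw [← P_prj k Γ g, ← P_prj k Γ g']
  congr 1
  funext i
  exact h i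

theorem prj_act (σ : Equiv.Perm (Fin k)) (i : Fin k) (g : RAAG (PG k Γ)) :
    prj k Γ i (actHom (Equiv.Perm (Fin k)) (PG k Γ) σ g) = prj k Γ (σ⁻¹ i) g := by
  have h : (prj k Γ i).comp (actHom (Equiv.Perm (Fin k)) (PG k Γ) σ).toMonoidHom
      = prj k Γ (σ⁻¹ i) := hom_ext fun x => by
    obtain ⟨j, a⟩ := x
    rw [MonoidHom.comp_apply]
    show prj k Γ i (actHom (Equiv.Perm (Fin k)) (PG k Γ) σ (of (PG k Γ) (j, a))) = _
    rw [actHom_of, smul_def']
    show prj k Γ i (of (PG k Γ) (σ j, a)) = _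
    by_cases hj : σ j = i
    · subst hj
      have h1 : σ⁻¹ (σ j) = j := σ.symm_apply_apply j
      rw [prj_of_eq, h1, prj_of_eq]
    · rw [prj_of_ne k Γ hj, prj_of_ne]
      intro h
      apply hj
      rw [h]
      exact σ.apply_symm_apply i
  exact DFunLike.congr_fun h g

theorem mem_sub_iff (O : Set (Fin k)) (L : Set (Fin n)) (g : RAAG (PG k Γ)) :
    g ∈ sub (PG k Γ) {p | p.1 ∈ O → p.2 ∈ L} ↔ ∀ i ∈ O, prj k Γ i g ∈ sub Γ L := by
  constructor
  · intro h i hi
    have h2 : sub (PG k Γ) {p | p.1 ∈ O → p.2 ∈ L} ≤ (sub Γ L).comap (prj k Γ i) := by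
      rw [sub, Subgroup.closure_le]
      rintro _ ⟨⟨j, a⟩, ha, rfl⟩
      show prj k Γ i (of (PG k Γ) (j, a)) ∈ sub Γ L
      by_cases hj : j = i
      · subst hj
        rw [prj_of_eq]
        exact of_mem_sub (ha hi)
      · rw [prj_of_ne k Γ hj]
        exact one_mem _
    exact h2 h
  · intro h
    rw [← P_prj k Γ g]
    have hall : ∀ (v : Fin k → RAAG Γ), (∀ i ∈ O, v i ∈ sub Γ L) →
        P k Γ v ∈ sub (PG k Γ) {p | p.1 ∈ O → p.2 ∈ L} := by
      intro v hv
      rw [P, MonoidHom.noncommPiCoprod, MonoidHom.coe_mk, OneHom.coe_mk]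
      refine Subgroup.noncommProd_mem _ (f := fun i => inc k Γ i (v i)) _ ?_
      intro i _
      by_cases hi : i ∈ O
      · have h2 : sub Γ L ≤ (sub (PG k Γ) {p | p.1 ∈ O → p.2 ∈ L}).comap (inc k Γ i) := by
          rw [sub, Subgroup.closure_le]
          rintro _ ⟨a, ha, rfl⟩
          show inc k Γ i (of Γ a) ∈ sub (PG k Γ) {p : PV k n | p.1 ∈ O → p.2 ∈ L}
          rw [inc_of]
          exact of_mem_sub (L := {p : PV k n | p.1 ∈ O → p.2 ∈ L}) (fun _ => ha)
        exact h2 (hv i hi)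
      · refine sub_mono ?_ (inc_mem k Γ i (v i))
        intro p hp hp'
        exact absurd (hp ▸ hp') hi
    exact hall _ h

end Pos

/-- The base coordinate. -/
theorem position_base {E : Type u} [Group E] (hE : VirtSpecial E) (c : E) :
    ∃ (N : Subgroup E) (_ : N.Normal) (_ : N.FiniteIndex) (n : ℕ) (Γ : SimpleGraph (Fin n))
      (f : N →* RAAG Γ) (L : Set (Fin n)), Function.Injective f ∧
      ∀ x : N, f x ∈ sub Γ L ↔ (x : E) ∈ Subgroup.zpowers c := by
  obtain ⟨N, hN, hfin, n, Γ, f, hf⟩ := hE.exists_normal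
  by_cases hc : IsOfFinOrder c
  · refine ⟨N, hN, hfin, n, Γ, f, ∅, hf, fun x => ?_⟩
    rw [sub, Set.image_empty, Subgroup.closure_empty, Subgroup.mem_bot, map_eq_one_iff f hf]
    constructor
    · rintro rfl
      exact one_mem _
    · rintro ⟨i, hi⟩
      by_contra hx1
      have hfx : f x ≠ 1 := fun h => hx1 ((map_eq_one_iff f hf).1 h)
      have hox : IsOfFinOrder (x : E) := by
        have hi' : c ^ i = (x : E) := hi
        rw [← hi']
        exact hc.zpow
      obtain ⟨m, hm, hxm⟩ := isOfFinOrder_iff_pow_eq_one.1 hox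
      refine pow_ne_one (f x) hfx m hm ?_
      rw [← map_pow, map_eq_one_iff f hf]
      exact Subtype.ext hxm
  · have : Finite (E ⧸ N) := Subgroup.finite_quotient_of_finiteIndex
    set m := orderOf (QuotientGroup.mk c : E ⧸ N) with hm
    have hmpos : 0 < m := orderOf_pos _
    have hcN : ∀ i : ℤ, c ^ i ∈ N ↔ (m : ℤ) ∣ i := by
      intro i
      rw [hm, orderOf_dvd_iff_zpow_eq_one, ← QuotientGroup.mk_zpow, QuotientGroup.eq_one_iff]
    have hcm : c ^ m ∈ N := by
      have := (hcN m).2 dvd_rfl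
      rwa [zpow_natCast] at this
    have hg : f ⟨c ^ m, hcm⟩ ≠ 1 := by
      intro h
      rw [map_eq_one_iff f hf] at h
      apply hc
      rw [isOfFinOrder_iff_pow_eq_one]
      exact ⟨m, hmpos, congrArg Subtype.val h⟩
    obtain ⟨N1, hN1, n', Γ', f1, L, hf1, hL⟩ := parabolic _ hg
    set N3 : Subgroup E := (N1.comap f).map N.subtype with hN3
    have hfi3 : N3.FiniteIndex := by
      constructor
      rw [hN3, Subgroup.index_map_subtype]
      have h1 : (N1.comap f).index ≠ 0 := by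
        rw [Subgroup.index_comap]
        exact (inferInstance : (N1.subgroupOf f.range).FiniteIndex).index_ne_zero
      exact Nat.mul_ne_zero h1 hfin.index_ne_zero
    have hx : ∀ x : N3.normalCore, ∃ h : (x : E) ∈ N, f ⟨x, h⟩ ∈ N1 := by
      intro x
      have := N3.normalCore_le x.2
      obtain ⟨y, hy, hyx⟩ := this
      have hyN : (x : E) ∈ N := by rw [← hyx]; exact y.2
      refine ⟨hyN, ?_⟩
      have : (⟨x, hyN⟩ : N) = y := Subtype.ext hyx.symm
      rw [this]
      exact hy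
    let f2 : N3.normalCore →* RAAG Γ' :=
      { toFun := fun x => f1 ⟨f ⟨x, (hx x).1⟩, (hx x).2⟩
        map_one' := by
          rw [← map_one f1]
          congr 1
          apply Subtype.ext
          exact map_one f
        map_mul' := fun x y => by
          rw [← map_mul f1]
          congr 1
          apply Subtype.ext
          exact map_mul f ⟨x, (hx x).1⟩ ⟨y, (hx y).1⟩ }
    refine ⟨N3.normalCore, inferInstance, inferInstance, n', Γ', f2, L, ?_, ?_⟩
    · intro x y hxy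
      have h1 := hf1 hxy
      have h2 := hf (congrArg Subtype.val h1)
      exact Subtype.ext (congrArg (fun z : N => (z : E)) h2)
    · intro x
      have h1 := hL ⟨f ⟨x, (hx x).1⟩, (hx x).2⟩
      show f1 ⟨f ⟨x, (hx x).1⟩, (hx x).2⟩ ∈ sub Γ' L ↔ _
      rw [h1]
      constructor
      · rintro ⟨i, hi⟩
        have h3 : f (⟨c ^ m, hcm⟩ ^ i) = f ⟨x, (hx x).1⟩ := by
          rw [map_zpow]; exact hi
        have h4 := congrArg (fun z : N => (z : E)) (hf h3)
        refine ⟨m * i, ?_⟩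
        show c ^ ((m : ℤ) * i) = x
        rw [zpow_mul, zpow_natCast]
        exact h4
      · rintro ⟨i, hi⟩
        have hi' : c ^ i = (x : E) := hi
        have h5 : (m : ℤ) ∣ i := (hcN i).1 (by rw [hi']; exact (hx x).1)
        obtain ⟨j, rfl⟩ := h5
        refine ⟨j, ?_⟩
        show f ⟨c ^ m, hcm⟩ ^ j = f ⟨x, (hx x).1⟩
        rw [← map_zpow]
        congr 1
        apply Subtype.ext
        show (c ^ m) ^ j = (x : E)
        rw [← hi', zpow_mul, zpow_natCast]

/-- The position theorem for an arbitrary element (also of finite order). -/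
theorem parabolic_position_all {E : Type u} [Group E] (hE : VirtSpecial E) (c : E) :
    ∃ (V : Type) (_ : Finite V) (Γ : SimpleGraph V) (Q : Type) (_ : Group Q) (_ : Finite Q)
      (_ : MulAction Q V) (_ : GraphAct Q Γ) (Φ : E →* RAAG Γ ⋊[actHom Q Γ] Q) (L : Set V)
      (Q₀ : Subgroup Q), Function.Injective Φ ∧ (∀ q ∈ Q₀, ∀ x ∈ L, q • x ∈ L) ∧
      ∀ e : E, ((Φ e).left ∈ sub Γ L ∧ (Φ e).right ∈ Q₀) ↔ e ∈ Subgroup.zpowers c := by
  classical
  obtain ⟨N, hN, hfin, n, Γ, f, L, hf, hL⟩ := position_base hE c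
  have : Finite (E ⧸ N) := Subgroup.finite_quotient_of_finiteIndex
  obtain ⟨k, ⟨ε⟩⟩ := Finite.exists_equiv_fin (E ⧸ N)
  have hs : ∀ x : E ⧸ N, ∃ g : E, (QuotientGroup.mk g : E ⧸ N) = x ∧
      ((∃ j : ℤ, x = QuotientGroup.mk (c ^ j)) → g ∈ Subgroup.zpowers c) := by
    intro x
    by_cases h : ∃ j : ℤ, x = QuotientGroup.mk (c ^ j)
    · obtain ⟨j, hj⟩ := h
      exact ⟨c ^ j, hj.symm, fun _ => ⟨j, rfl⟩⟩
    · obtain ⟨g, hg⟩ := QuotientGroup.mk_surjective x
      exact ⟨g, hg, fun h' => absurd h' h⟩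
  choose s hs1 hs2 using hs
  have hmem : ∀ (e : E) (x : E ⧸ N), (s x)⁻¹ * e * s (e⁻¹ • x) ∈ N := by
    intro e x
    rw [← QuotientGroup.eq_one_iff, QuotientGroup.mk_mul, QuotientGroup.mk_mul,
      QuotientGroup.mk_inv, hs1, hs1]
    have : e⁻¹ • x = (QuotientGroup.mk e : E ⧸ N)⁻¹ * x := by
      obtain ⟨g, rfl⟩ := QuotientGroup.mk_surjective x
      rfl
    rw [this]
    group
  let nn : E → E ⧸ N → N := fun e x => ⟨(s x)⁻¹ * e * s (e⁻¹ • x), hmem e x⟩
  have hnn : ∀ e e' x, nn (e * e') x = nn e x * nn e' (e⁻¹ • x) := by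
    intro e e' x
    apply Subtype.ext
    show (s x)⁻¹ * (e * e') * s ((e * e')⁻¹ • x)
      = ((s x)⁻¹ * e * s (e⁻¹ • x)) * ((s (e⁻¹ • x))⁻¹ * e' * s (e'⁻¹ • e⁻¹ • x))
    rw [mul_inv_rev, mul_smul]
    group
  let ρ : E →* Equiv.Perm (Fin k) :=
    { toFun := fun e => ε.permCongr (MulAction.toPerm e)
      map_one' := by
        ext i
        simp
      map_mul' := fun e e' => by
        ext i
        simp [mul_smul] }
  have hρ : ∀ e i, ρ e i = ε (e • ε.symm i) := fun e i => rfl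
  have hρi : ∀ e i, ε.symm ((ρ e)⁻¹ i) = e⁻¹ • ε.symm i := by
    intro e i
    rw [← map_inv, hρ, Equiv.symm_apply_apply]
  let v : E → Fin k → RAAG Γ := fun e i => f (nn e (ε.symm i))
  let Φ : E →* RAAG (Pos.PG k Γ) ⋊[actHom (Equiv.Perm (Fin k)) (Pos.PG k Γ)]
      Equiv.Perm (Fin k) := MonoidHom.mk' (fun e => ⟨Pos.P k Γ (v e), ρ e⟩) (by
    intro e e'
    refine SemidirectProduct.ext ?_ ?_
    · rw [SemidirectProduct.mul_left]
      apply Pos.prj_ext
      intro i
      show Pos.prj k Γ i (Pos.P k Γ (v (e * e'))) = Pos.prj k Γ i (Pos.P k Γ (v e) *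
        actHom (Equiv.Perm (Fin k)) (Pos.PG k Γ) (ρ e) (Pos.P k Γ (v e')))
      rw [map_mul, Pos.prj_act, Pos.prj_P, Pos.prj_P, Pos.prj_P]
      show f (nn (e * e') (ε.symm i)) = f (nn e (ε.symm i)) * f (nn e' (ε.symm ((ρ e)⁻¹ i)))
      rw [hρi, hnn, map_mul]
    · rw [SemidirectProduct.mul_right]
      exact map_mul ρ e e')
  set O : Set (Fin k) := {i | ∃ j : ℤ, ε.symm i = QuotientGroup.mk (c ^ j)} with hO
  have hleft : ∀ e, (Φ e).left ∈ sub (Pos.PG k Γ) {p : Pos.PV k n | p.1 ∈ O → p.2 ∈ L} ↔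
      ∀ i ∈ O, ((nn e (ε.symm i) : N) : E) ∈ Subgroup.zpowers c := by
    intro e
    rw [Pos.mem_sub_iff]
    refine forall_congr' fun i => forall_congr' fun hi => ?_
    rw [← hL]
    show Pos.prj k Γ i (Pos.P k Γ (v e)) ∈ _ ↔ _
    rw [Pos.prj_P]
  have hsmul : ∀ (e g : E), e • (QuotientGroup.mk g : E ⧸ N) = QuotientGroup.mk (e * g) :=
    fun _ _ => rfl
  refine ⟨Pos.PV k n, inferInstance, Pos.PG k Γ, Equiv.Perm (Fin k), inferInstance, inferInstance,
    inferInstance, inferInstance, Φ, {p | p.1 ∈ O → p.2 ∈ L}, Subgroup.zpowers (ρ c), ?_, ?_, ?_⟩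
  · rw [injective_iff_map_eq_one]
    intro e he
    have h1 : ρ e = 1 := congrArg SemidirectProduct.right he
    have h2 : Pos.P k Γ (v e) = 1 := congrArg SemidirectProduct.left he
    have h3 : e⁻¹ • (QuotientGroup.mk 1 : E ⧸ N) = QuotientGroup.mk 1 := by
      have := hρi e (ε (QuotientGroup.mk 1))
      rw [h1, inv_one, Equiv.Perm.one_apply, Equiv.symm_apply_apply] at this
      exact this.symm
    have h4 : v e (ε (QuotientGroup.mk 1)) = 1 := by
      rw [← Pos.prj_P k Γ (ε (QuotientGroup.mk 1)) (v e), h2, map_one]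
    have h5 : nn e (QuotientGroup.mk 1) = 1 := by
      have : f (nn e (ε.symm (ε (QuotientGroup.mk 1)))) = 1 := h4
      rw [Equiv.symm_apply_apply, map_eq_one_iff f hf] at this
      exact this
    have h6 : (s (QuotientGroup.mk 1))⁻¹ * e * s (e⁻¹ • QuotientGroup.mk 1) = 1 :=
      congrArg Subtype.val h5
    rw [h3] at h6
    have h7 := congrArg (fun z => s (QuotientGroup.mk 1) * z * (s (QuotientGroup.mk 1))⁻¹) h6
    simpa [mul_assoc] using h7
  · rintro q ⟨j, rfl⟩ x hx hq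
    apply hx
    obtain ⟨i, hi⟩ := hq
    refine ⟨-j + i, ?_⟩
    have h1 : ε.symm (((ρ c) ^ j) x.1) = c ^ j • ε.symm x.1 := by
      rw [← map_zpow, hρ, Equiv.symm_apply_apply]
    have h2 : ε.symm (((ρ c) ^ j) x.1) = QuotientGroup.mk (c ^ i) := hi
    rw [h1] at h2
    rw [zpow_add, ← hsmul, ← h2, smul_smul, ← zpow_add, neg_add_cancel, zpow_zero, one_smul]
  · intro e
    rw [hleft]
    constructor
    · rintro ⟨h1, ⟨j, hj⟩⟩
      have hj' : ρ (c ^ j) = ρ e := by rw [map_zpow]; exact hj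
      have h2 : e • (QuotientGroup.mk 1 : E ⧸ N) = QuotientGroup.mk (c ^ j) := by
        have h3 := congrArg (fun σ : Equiv.Perm (Fin k) => ε.symm (σ (ε (QuotientGroup.mk 1)))) hj'
        simp only [hρ, Equiv.symm_apply_apply] at h3
        rw [← h3, hsmul, mul_one]
      have h3 : e⁻¹ • (QuotientGroup.mk (c ^ j) : E ⧸ N) = QuotientGroup.mk 1 := by
        rw [← h2, inv_smul_smul]
      have h4 := h1 (ε (QuotientGroup.mk (c ^ j))) ⟨j, by rw [Equiv.symm_apply_apply]⟩
      rw [Equiv.symm_apply_apply] at h4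
      have h5 : (s (QuotientGroup.mk (c ^ j)))⁻¹ * e * s (e⁻¹ • QuotientGroup.mk (c ^ j))
          ∈ Subgroup.zpowers c := h4
      rw [h3] at h5
      have h6 := hs2 (QuotientGroup.mk (c ^ j)) ⟨j, rfl⟩
      have h7 := hs2 (QuotientGroup.mk 1) ⟨0, by rw [zpow_zero]⟩
      have h8 := mul_mem (mul_mem h6 h5) (inv_mem h7)
      simpa [mul_assoc] using h8
    · rintro ⟨j, rfl⟩
      refine ⟨?_, ⟨j, ?_⟩⟩
      · rintro i ⟨m, hm⟩
        show (s (ε.symm i))⁻¹ * c ^ j * s ((c ^ j)⁻¹ • ε.symm i) ∈ Subgroup.zpowers c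
        refine mul_mem (mul_mem (inv_mem (hs2 _ ⟨m, hm⟩)) ⟨j, rfl⟩) (hs2 _ ⟨-j + m, ?_⟩)
        rw [hm, zpow_add, ← hsmul, zpow_neg]
      · show ρ c ^ j = ρ (c ^ j)
        rw [map_zpow]

theorem parabolic_position {E : Type u} [Group E] (hE : VirtSpecial E) (c : E)
    (_ : c = 1 ∨ ¬ IsOfFinOrder c) :
    ∃ (V : Type) (_ : Finite V) (Γ : SimpleGraph V) (Q : Type) (_ : Group Q) (_ : Finite Q)
      (_ : MulAction Q V) (_ : GraphAct Q Γ) (Φ : E →* RAAG Γ ⋊[actHom Q Γ] Q) (L : Set V)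
      (Q₀ : Subgroup Q), Function.Injective Φ ∧ (∀ q ∈ Q₀, ∀ x ∈ L, q • x ∈ L) ∧
      ∀ e : E, ((Φ e).left ∈ sub Γ L ∧ (Φ e).right ∈ Q₀) ↔ e ∈ Subgroup.zpowers c :=
  parabolic_position_all hE c

end VSp
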