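import Pool.Agent.VSp.MatchFin
import Pool.Agent.VSp.Position

set_option autoImplicit false

/-! M16. The centraliser extension and the final theorem. -/

namespace VSp

open Monoid

universe u v

/-- The letter permutations in `Q₀` preserve `⟨L⟩`. -/
lemma actHom_mem_sub {V : Type} {Γ : SimpleGraph V} {Q : Type} [Group Q] [MulAction Q V]
    [GraphAct Q Γ] {L : Set V} {Q₀ : Subgroup Q} (hL : ∀ q ∈ Q₀, ∀ x ∈ L, q • x ∈ L) {q : Q}
    (hq : q ∈ Q₀) {g : RAAG Γ} (hg : g ∈ sub Γ L) : actHom Q Γ q g ∈ sub Γ L := by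
  have h : sub Γ L ≤ (sub Γ L).comap (actHom Q Γ q).toMonoidHom := by
    unfold sub
    rw [Subgroup.closure_le]
    rintro _ ⟨x, hx, rfl⟩
    show actHom Q Γ q (of Γ x) ∈ sub Γ L
    rw [actHom_of]
    exact Subgroup.subset_closure ⟨_, hL q hq x hx, rfl⟩
  exact h hg

/-- The subgroup `⟨L⟩ ⋊ Q₀`. -/
def Bsub {V : Type} (Γ : SimpleGraph V) (Q : Type) [Group Q] [MulAction Q V] [GraphAct Q Γ]
    (L : Set V) (Q₀ : Subgroup Q) (hL : ∀ q ∈ Q₀, ∀ x ∈ L, q • x ∈ L) :
    Subgroup (RAAG Γ ⋊[actHom Q Γ] Q) where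
  carrier := {x | x.left ∈ sub Γ L ∧ x.right ∈ Q₀}
  one_mem' := ⟨Subgroup.one_mem _, Subgroup.one_mem _⟩
  mul_mem' := by
    rintro a b ⟨ha, ha'⟩ ⟨hb, hb'⟩
    refine ⟨?_, Q₀.mul_mem ha' hb'⟩
    rw [SemidirectProduct.mul_left]
    refine Subgroup.mul_mem _ ha ?_
    exact actHom_mem_sub hL ha' hb
  inv_mem' := by
    rintro a ⟨ha, ha'⟩
    refine ⟨?_, Q₀.inv_mem ha'⟩
    rw [SemidirectProduct.inv_left]
    exact actHom_mem_sub hL (Q₀.inv_mem ha') (Subgroup.inv_mem _ ha)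

section Cent

variable {V : Type} (Γ : SimpleGraph V) (Q : Type) [Group Q] [MulAction Q V] [GraphAct Q Γ]
  (L : Set V) (Q₀ : Subgroup Q)

/-- The graph with the new letters `t_s`. -/
def CG : SimpleGraph (V ⊕ Q ⧸ Q₀) where
  Adj a b :=
    match a, b with
    | .inl x, .inl y => Γ.Adj x y
    | .inl x, .inr s => ∃ q : Q, (q : Q ⧸ Q₀) = s ∧ q⁻¹ • x ∈ L
    | .inr s, .inl x => ∃ q : Q, (q : Q ⧸ Q₀) = s ∧ q⁻¹ • x ∈ L
    | .inr _, .inr _ => False
  symm := ⟨by
    rintro (x | s) (y | s') h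
    · exact (show Γ.Adj x y from h).symm
    · exact h
    · exact h
    · exact h⟩
  loopless := ⟨by
    rintro (x | s) h
    · exact Γ.loopless.irrefl x h
    · exact h⟩

instance : GraphAct Q (CG Γ Q L Q₀) where
  adj := by
    rintro q (x | s) (y | s') h
    · exact GraphAct.adj (Γ := Γ) q x y h
    · obtain ⟨q', h1, h2⟩ := h
      refine ⟨q * q', ?_, ?_⟩
      · rw [← h1]; rfl
      · rw [mul_inv_rev, mul_smul, inv_smul_smul]
        exact h2
    · obtain ⟨q', h1, h2⟩ := h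
      refine ⟨q * q', ?_, ?_⟩
      · rw [← h1]; rfl
      · rw [mul_inv_rev, mul_smul, inv_smul_smul]
        exact h2
    · exact h

/-- The inclusion of the old letters. -/
def cinc : RAAG Γ →* RAAG (CG Γ Q L Q₀) :=
  lift (fun x => of _ (Sum.inl x)) (fun _ _ h => of_comm (CG Γ Q L Q₀) h)

omit [GraphAct Q Γ] in
@[simp] lemma cinc_of (x : V) : cinc Γ Q L Q₀ (of Γ x) = of _ (Sum.inl x) := lift_of _ _ _

/-- The inclusion of `Ω`. -/
def cj : (RAAG Γ ⋊[actHom Q Γ] Q) →* RAAG (CG Γ Q L Q₀) ⋊[actHom Q (CG Γ Q L Q₀)] Q :=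
  SemidirectProduct.map (cinc Γ Q L Q₀) (MonoidHom.id Q) (by
    intro q
    apply hom_ext
    intro x
    show cinc Γ Q L Q₀ (actHom Q Γ q (of Γ x)) = actHom Q _ q (cinc Γ Q L Q₀ (of Γ x))
    rw [actHom_of, cinc_of, cinc_of, actHom_of]
    rfl)

variable {Q L Q₀} (hL : ∀ q ∈ Q₀, ∀ x ∈ L, q • x ∈ L)

lemma t_comm (b : RAAG Γ ⋊[actHom Q Γ] Q) (hb : b ∈ Bsub Γ Q L Q₀ hL) :
    (HNNExtension.t : HNNExtension (RAAG Γ ⋊[actHom Q Γ] Q) (Bsub Γ Q L Q₀ hL)
      (Bsub Γ Q L Q₀ hL) (MulEquiv.refl _)) * HNNExtension.of b =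
      HNNExtension.of b * HNNExtension.t :=
  HNNExtension.t_mul_of (φ := MulEquiv.refl (Bsub Γ Q L Q₀ hL)) ⟨b, hb⟩

/-- The images of the new letters. -/
def ct (s : Q ⧸ Q₀) : HNNExtension (RAAG Γ ⋊[actHom Q Γ] Q) (Bsub Γ Q L Q₀ hL) (Bsub Γ Q L Q₀ hL)
        (MulEquiv.refl _) :=
  Quotient.liftOn' s (fun q => HNNExtension.of (SemidirectProduct.inr q) * HNNExtension.t *
    (HNNExtension.of (SemidirectProduct.inr q))⁻¹) (by
      intro q q' h
      have h1 : q⁻¹ * q' ∈ Q₀ := QuotientGroup.leftRel_apply.mp h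
      have h2 : (SemidirectProduct.inr (q⁻¹ * q') : RAAG Γ ⋊[actHom Q Γ] Q) ∈
          Bsub Γ Q L Q₀ hL := ⟨Subgroup.one_mem _, h1⟩
      have h3 := t_comm Γ hL _ h2
      have h4 : (SemidirectProduct.inr q' : RAAG Γ ⋊[actHom Q Γ] Q) =
          SemidirectProduct.inr q * SemidirectProduct.inr (q⁻¹ * q') := by
        rw [← map_mul, mul_inv_cancel_left]
      rw [h4, map_mul, mul_assoc _ _ HNNExtension.t, ← h3]
      group)

lemma ct_mk (q : Q) : ct Γ hL (q : Q ⧸ Q₀) = HNNExtension.of (SemidirectProduct.inr q) *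
    HNNExtension.t * (HNNExtension.of (SemidirectProduct.inr q))⁻¹ := rfl

lemma ct_smul (q : Q) (s : Q ⧸ Q₀) : ct Γ hL (q • s) = HNNExtension.of (SemidirectProduct.inr q) *
    ct Γ hL s * (HNNExtension.of (SemidirectProduct.inr q))⁻¹ := by
  obtain ⟨q', rfl⟩ := QuotientGroup.mk_surjective s
  have h : q • (q' : Q ⧸ Q₀) = ((q * q' : Q) : Q ⧸ Q₀) := rfl
  rw [h, ct_mk, ct_mk, map_mul, map_mul]
  group

/-- The letter map to the HNN extension. -/
def cl : V ⊕ Q ⧸ Q₀ → HNNExtension (RAAG Γ ⋊[actHom Q Γ] Q) (Bsub Γ Q L Q₀ hL)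
    (Bsub Γ Q L Q₀ hL) (MulEquiv.refl _) :=
  Sum.elim (fun x => HNNExtension.of (SemidirectProduct.inl (of Γ x))) (ct Γ hL)

lemma cl_smul (q : Q) (a : V ⊕ Q ⧸ Q₀) : cl Γ hL (q • a) =
    HNNExtension.of (SemidirectProduct.inr q) * cl Γ hL a *
      (HNNExtension.of (SemidirectProduct.inr q))⁻¹ := by
  rcases a with x | s
  · show HNNExtension.of (SemidirectProduct.inl (of Γ (q • x))) = _ *
      HNNExtension.of (SemidirectProduct.inl (of Γ x)) * _
    rw [← map_inv, ← map_mul, ← map_mul, ← map_inv, ← SemidirectProduct.inl_aut, actHom_of]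
  · exact ct_smul Γ hL q s

lemma ct_comm (x : V) (s : Q ⧸ Q₀) (h : ∃ q : Q, (q : Q ⧸ Q₀) = s ∧ q⁻¹ • x ∈ L) :
    Commute (cl Γ hL (Sum.inl x)) (ct Γ hL s) := by
  obtain ⟨q, rfl, h⟩ := h
  have h1 := cl_smul Γ hL q (Sum.inl (q⁻¹ • x))
  rw [Sum.smul_inl, smul_inv_smul] at h1
  rw [h1, ct_mk]
  have h2 : Commute (cl Γ hL (Sum.inl (q⁻¹ • x))) HNNExtension.t :=
    (t_comm Γ hL (SemidirectProduct.inl (of Γ (q⁻¹ • x)))
      ⟨of_mem_sub h, Subgroup.one_mem _⟩).symm
  exact (Commute.conj_iff _).2 h2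

/-- The map from the new RAAG. -/
def cf : RAAG (CG Γ Q L Q₀) →* HNNExtension (RAAG Γ ⋊[actHom Q Γ] Q) (Bsub Γ Q L Q₀ hL)
    (Bsub Γ Q L Q₀ hL) (MulEquiv.refl _) :=
  lift (cl Γ hL) (by
    rintro (x | s) (y | s') h
    · have h' : Γ.Adj x y := h
      exact ((of_comm Γ h').map SemidirectProduct.inl).map HNNExtension.of
    · exact ct_comm Γ hL x s' h
    · exact (ct_comm Γ hL y s h).symm
    · exact absurd h (fun h => h))

@[simp] lemma cf_of (a : V ⊕ Q ⧸ Q₀) : cf Γ hL (of _ a) = cl Γ hL a := lift_of _ _ _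

/-- The map to the HNN extension. -/
def cp : RAAG (CG Γ Q L Q₀) ⋊[actHom Q (CG Γ Q L Q₀)] Q →*
    HNNExtension (RAAG Γ ⋊[actHom Q Γ] Q) (Bsub Γ Q L Q₀ hL)
      (Bsub Γ Q L Q₀ hL) (MulEquiv.refl _) :=
  SemidirectProduct.lift (cf Γ hL) (HNNExtension.of.comp SemidirectProduct.inr) (by
    intro q
    apply hom_ext
    intro a
    show cf Γ hL (actHom Q _ q (of _ a)) = HNNExtension.of (SemidirectProduct.inr q) *
      cf Γ hL (of _ a) * (HNNExtension.of (SemidirectProduct.inr q))⁻¹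
    rw [actHom_of, cf_of, cf_of, cl_smul])

lemma cp_cj (x : RAAG Γ ⋊[actHom Q Γ] Q) : cp Γ hL (cj Γ Q L Q₀ x) = HNNExtension.of x := by
  have h : (cp Γ hL).comp (cj Γ Q L Q₀) = HNNExtension.of := by
    apply SemidirectProduct.hom_ext
    · apply hom_ext
      intro x
      show cp Γ hL (cj Γ Q L Q₀ (SemidirectProduct.inl (of Γ x))) =
        HNNExtension.of (SemidirectProduct.inl (of Γ x))
      rw [cj, SemidirectProduct.map_inl, cinc_of, cp, SemidirectProduct.lift_inl, cf_of]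
      rfl
    · ext q
      show cp Γ hL (cj Γ Q L Q₀ (SemidirectProduct.inr q)) = _
      rw [cj, SemidirectProduct.map_inr, cp, SemidirectProduct.lift_inr]
      rfl
  exact DFunLike.congr_fun h x

end Cent

/-- The centraliser extension `S` of `Ω = A(Γ) ⋊ Q` over `B`: it is virtually special and maps to
the HNN extension. -/
theorem centraliser_extension {V : Type} [Finite V] (Γ : SimpleGraph V) (Q : Type) [Group Q]
    [Finite Q] [MulAction Q V] [GraphAct Q Γ] (L : Set V) (Q₀ : Subgroup Q)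
    (hL : ∀ q ∈ Q₀, ∀ x ∈ L, q • x ∈ L) :
    ∃ (S : Type) (_ : Group S) (_ : VirtSpecial S) (j : (RAAG Γ ⋊[actHom Q Γ] Q) →* S) (t : S)
      (p : S →* HNNExtension (RAAG Γ ⋊[actHom Q Γ] Q) (Bsub Γ Q L Q₀ hL) (Bsub Γ Q L Q₀ hL)
        (MulEquiv.refl _)),
      (∀ b ∈ Bsub Γ Q L Q₀ hL, Commute t (j b)) ∧ (∀ x, p (j x) = HNNExtension.of x) ∧
      p t = HNNExtension.t := by
  refine ⟨RAAG (CG Γ Q L Q₀) ⋊[actHom Q (CG Γ Q L Q₀)] Q, inferInstance,
    virtSpecial_semidirect _ _ _, cj Γ Q L Q₀,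
    SemidirectProduct.inl (of _ (Sum.inr ((1 : Q) : Q ⧸ Q₀))), cp Γ hL, ?_, cp_cj Γ hL, ?_⟩
  · rintro b ⟨hb1, hb2⟩
    rw [← SemidirectProduct.inl_left_mul_inr_right b, map_mul]
    apply Commute.mul_right
    · rw [cj, SemidirectProduct.map_inl]
      apply Commute.map
      have h1 : b.left ∈ (Subgroup.centralizer
          {of (CG Γ Q L Q₀) (Sum.inr ((1 : Q) : Q ⧸ Q₀))}).comap (cinc Γ Q L Q₀) := by
        have h2 : sub Γ L ≤ (Subgroup.centralizer
            {of (CG Γ Q L Q₀) (Sum.inr ((1 : Q) : Q ⧸ Q₀))}).comap (cinc Γ Q L Q₀) := by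
          unfold sub
          rw [Subgroup.closure_le]
          rintro _ ⟨x, hx, rfl⟩
          show cinc Γ Q L Q₀ (of Γ x) ∈ Subgroup.centralizer _
          rw [Subgroup.mem_centralizer_singleton_iff, cinc_of]
          exact of_comm (CG Γ Q L Q₀) (show (CG Γ Q L Q₀).Adj (Sum.inl x) (Sum.inr _) from
            ⟨1, rfl, by simpa using hx⟩)
        exact h2 hb1
      exact (Subgroup.mem_centralizer_singleton_iff.1 h1).symm
    · rw [cj, SemidirectProduct.map_inr, MonoidHom.id_apply]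
      have h1 : (SemidirectProduct.inl (of (CG Γ Q L Q₀) (Sum.inr ((1 : Q) : Q ⧸ Q₀))) :
          RAAG (CG Γ Q L Q₀) ⋊[actHom Q (CG Γ Q L Q₀)] Q) =
          SemidirectProduct.inr b.right * SemidirectProduct.inl
            (of (CG Γ Q L Q₀) (Sum.inr ((1 : Q) : Q ⧸ Q₀))) *
            SemidirectProduct.inr b.right⁻¹ := by
        have h2 : b.right • ((1 : Q) : Q ⧸ Q₀) = ((1 : Q) : Q ⧸ Q₀) := by
          rw [MulAction.Quotient.smul_coe, smul_eq_mul, mul_one, eq_comm, QuotientGroup.eq,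
            inv_one, one_mul]
          exact hb2
        rw [← SemidirectProduct.inl_aut, actHom_of, Sum.smul_inr, h2]
      show _ * _ = _ * _
      rw [map_inv, eq_mul_inv_iff_mul_eq] at h1
      exact h1
  · rw [cp, SemidirectProduct.lift_inl, cf_of]
    show ct Γ hL ((1 : Q) : Q ⧸ Q₀) = _
    rw [ct_mk, map_one, map_one]
    group

section Amalg

variable {Ω : Type*} [Group Ω] (B : Subgroup Ω)

/-- Value of a list of syllables. -/
def hval (T : List (ℤˣ × Ω)) : HNNExtension Ω B B (MulEquiv.refl _) :=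
  (T.map (fun x => HNNExtension.t ^ (x.1 : ℤ) * HNNExtension.of x.2)).prod

/-- Reducedness of a list of syllables. -/
def hred (T : List (ℤˣ × Ω)) : Prop :=
  T.IsChain (fun a b => a.2 ∈ B → a.1 = b.1)

/-- Adding one syllable `t ^ n * g` with `n ≠ 0`. -/
lemma exists_syll (n : ℤ) (hn : n ≠ 0) (g : Ω) (T : List (ℤˣ × Ω)) (hT : hred B T)
    (hg : g ∉ B ∨ T = []) :
    ∃ T' : List (ℤˣ × Ω), hred B T' ∧ T' ≠ [] ∧
      hval B T' = HNNExtension.t ^ n * HNNExtension.of g * hval B T := by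
  obtain ⟨s, k, hk⟩ : ∃ (s : ℤˣ) (k : ℕ), n = (s : ℤ) * (k + 1) := by
    rcases lt_or_gt_of_ne hn with h | h
    · exact ⟨-1, (-n - 1).toNat, by simp; omega⟩
    · exact ⟨1, (n - 1).toNat, by simp; omega⟩
  subst hk
  clear hn
  suffices h : ∃ (x : Ω) (T' : List (ℤˣ × Ω)), hred B ((s, x) :: T') ∧
      hval B ((s, x) :: T') = HNNExtension.t ^ ((s : ℤ) * (k + 1)) * HNNExtension.of g *
        hval B T by
    obtain ⟨x, T', h1, h2⟩ := h
    exact ⟨_, h1, by simp, h2⟩
  induction k with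
  | zero =>
    refine ⟨g, T, ?_, ?_⟩
    · rcases T with _ | ⟨p, T⟩
      · exact List.isChain_singleton _
      · refine List.isChain_cons_cons.2 ⟨fun h => ?_, hT⟩
        rcases hg with hg | hg
        · exact absurd h hg
        · simp at hg
    · simp [hval]
  | succ k ih =>
    obtain ⟨x, T', h1, h3⟩ := ih
    refine ⟨1, (s, x) :: T', List.isChain_cons_cons.2 ⟨fun _ => rfl, h1⟩, ?_⟩
    have h4 : hval B ((s, 1) :: (s, x) :: T') =
        HNNExtension.t ^ (s : ℤ) * hval B ((s, x) :: T') := by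
      simp [hval]
    rw [h4, h3, ← mul_assoc, ← mul_assoc, ← zpow_add]
    congr 3
    push_cast
    ring

/-- Britton's lemma for `Ω *_B`. -/
lemma hval_notMem (g : Ω) (T : List (ℤˣ × Ω)) (hT : hred B T)
    (h : HNNExtension.of g * hval B T = 1) : T = [] := by
  let w : HNNExtension.NormalWord.ReducedWord Ω B B :=
    { head := g
      toList := T
      chain := by
        refine List.IsChain.imp ?_ hT
        intro a b hab h
        apply hab
        unfold HNNExtension.toSubgroup at h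
        split_ifs at h <;> exact h }
  have h1 : w.prod (MulEquiv.refl B) = 1 := h
  exact HNNExtension.ReducedWord.toList_eq_nil_of_mem_of_range (φ := MulEquiv.refl B) w
    ⟨1, by rw [h1, map_one]⟩

end Amalg

section Push

variable {ι : Type v} {C : Type*} [Group C] {G : ι → Type u} [∀ i, Group (G i)]
  {φ : ∀ i, C →* G i}

/-- Product of a word in the factors. -/
def pval (φ : ∀ i, C →* G i) (l : List (Σ i, G i)) : PushoutI φ :=
  (l.map (fun p => PushoutI.of p.1 p.2)).prod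

lemma exists_pval [Nonempty ι] (g : PushoutI φ) : ∃ l, pval φ l = g := by
  induction g using PushoutI.induction_on with
  | of i g => exact ⟨[⟨i, g⟩], by simp [pval]⟩
  | base h =>
    obtain ⟨i⟩ := (inferInstance : Nonempty ι)
    exact ⟨[⟨i, φ i h⟩], by simp [pval, PushoutI.of_apply_eq_base]⟩
  | mul x y hx hy =>
    obtain ⟨l, rfl⟩ := hx
    obtain ⟨l', rfl⟩ := hy
    exact ⟨l ++ l', by simp [pval]⟩

/-- A reduced expression of an element of the amalgam. -/
lemma exists_pred [Nonempty ι] (g : PushoutI φ) :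
    (∃ i a, g = PushoutI.of i a) ∨ ∃ l : List (Σ i, G i), l ≠ [] ∧ pval φ l = g ∧
      l.IsChain (fun p q => p.1 ≠ q.1) ∧ ∀ p ∈ l, p.2 ∉ (φ p.1).range := by
  classical
  have hex : ∃ n : ℕ, ∃ l : List (Σ i, G i), l.length = n ∧ pval φ l = g := by
    obtain ⟨l, hl⟩ := exists_pval g
    exact ⟨l.length, l, rfl, hl⟩
  obtain ⟨l, hlen, hx⟩ := Nat.find_spec hex
  have hmin : ∀ l' : List (Σ i, G i), pval φ l' = g → l.length ≤ l'.length := by
    intro l' hl'
    rw [hlen]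
    exact Nat.find_min' hex ⟨l', rfl, hl'⟩
  have hmerge : ∀ (l₁ l₂ : List (Σ i, G i)) (q q' : Σ i, G i), l = l₁ ++ q :: q' :: l₂ →
      q.1 ≠ q'.1 ∧ q.2 ∉ (φ q.1).range ∧ q'.2 ∉ (φ q'.1).range := by
    intro l₁ l₂ q q' hl
    obtain ⟨i, a⟩ := q
    obtain ⟨i', a'⟩ := q'
    refine ⟨?_, ?_, ?_⟩
    · intro h
      obtain rfl : i = i' := h
      have := hmin (l₁ ++ ⟨i, a * a'⟩ :: l₂) (by rw [← hx, hl]; simp [pval, mul_assoc])
      rw [hl] at this; simp at this
    · rintro ⟨b, hb⟩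
      have hb' : φ i b = a := hb
      have h1 : (PushoutI.of i a : PushoutI φ) = PushoutI.of i' (φ i' b) := by
        rw [← hb', PushoutI.of_apply_eq_base, PushoutI.of_apply_eq_base]
      have := hmin (l₁ ++ ⟨i', φ i' b * a'⟩ :: l₂) (by
        rw [← hx, hl]; simp [pval, h1, mul_assoc])
      rw [hl] at this; simp at this
    · rintro ⟨b, hb⟩
      have hb' : φ i' b = a' := hb
      have h1 : (PushoutI.of i' a' : PushoutI φ) = PushoutI.of i (φ i b) := by
        rw [← hb', PushoutI.of_apply_eq_base, PushoutI.of_apply_eq_base]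
      have := hmin (l₁ ++ ⟨i, a * φ i b⟩ :: l₂) (by
        rw [← hx, hl]; simp [pval, h1, mul_assoc])
      rw [hl] at this; simp at this
  rcases l with _ | ⟨q, _ | ⟨q', l⟩⟩
  · left
    obtain ⟨i⟩ := (inferInstance : Nonempty ι)
    exact ⟨i, 1, by rw [← hx]; simp [pval]⟩
  · left
    exact ⟨q.1, q.2, by rw [← hx]; simp [pval]⟩
  · right
    refine ⟨q :: q' :: l, by simp, hx, ?_, ?_⟩
    · rw [List.isChain_iff_forall_rel_of_append_cons_cons]
      intro a b l₁ l₂ h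
      exact (hmerge l₁ l₂ a b h).1
    · intro p hp
      obtain ⟨l₁, l₂, h⟩ := List.append_of_mem hp
      rcases l₂ with _ | ⟨p', l₂⟩
      · rcases List.eq_nil_or_concat l₁ with h1 | ⟨l₁', p'', h1⟩
        · subst h1
          simp at h
        · rw [h1] at h
          exact (hmerge l₁' [] p'' p (by rw [h]; simp)).2.2
      · exact (hmerge l₁ l₂ p p' h).2.1

end Push

/-- Image of a reduced word of the amalgam. -/
lemma exists_image {ι : Type v} {C : Type*} [Group C] {G : ι → Type u}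
    [∀ i, Group (G i)] (φ : ∀ i, C →* G i)
    {Ω : Type*} [Group Ω] (B : Subgroup Ω) (α : ∀ i, G i →* Ω)
    (hB : ∀ i g, α i g ∈ B ↔ g ∈ (φ i).range) (e : ι → ℤ) (he : Function.Injective e)
    (F : PushoutI φ →* HNNExtension Ω B B (MulEquiv.refl _))
    (hF : ∀ i g, F (PushoutI.of i g) =
      HNNExtension.t ^ e i * HNNExtension.of (α i g) * HNNExtension.t ^ (-e i))
    (l : List (Σ i, G i)) (p : Σ i, G i) (hc : (p :: l).IsChain (fun p q => p.1 ≠ q.1))
    (hr : ∀ q ∈ p :: l, q.2 ∉ (φ q.1).range) :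
    ∃ T : List (ℤˣ × Ω), hred B T ∧ (l ≠ [] → T ≠ []) ∧
      F (pval φ (p :: l)) = HNNExtension.t ^ e p.1 * HNNExtension.of (α p.1 p.2) * hval B T := by
  induction l generalizing p with
  | nil =>
    by_cases h0 : e p.1 = 0
    · refine ⟨[], List.isChain_nil, by simp, ?_⟩
      have : pval φ [p] = PushoutI.of p.1 p.2 := by simp [pval]
      rw [this, hF, h0]
      simp [hval]
    · obtain ⟨T, h1, _, h3⟩ := exists_syll B (-e p.1) (by simpa using h0) 1 [] List.isChain_nil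
        (Or.inr rfl)
      refine ⟨T, h1, by simp, ?_⟩
      have : pval φ [p] = PushoutI.of p.1 p.2 := by simp [pval]
      rw [this, hF, h3]
      simp [hval]
  | cons q l ih =>
    have hc' := List.isChain_cons_cons.1 hc
    obtain ⟨T, h1, _, h3⟩ := ih q hc'.2 (fun q' hq' => hr q' (List.mem_cons_of_mem _ hq'))
    have hq : α q.1 q.2 ∉ B := fun h => hr q (by simp) ((hB _ _).1 h)
    have hne : -e p.1 + e q.1 ≠ 0 := by
      intro h
      exact hc'.1 (he (by omega))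
    obtain ⟨T', h4, h5, h6⟩ := exists_syll B (-e p.1 + e q.1) hne (α q.1 q.2) T h1 (Or.inl hq)
    refine ⟨T', h4, fun _ => h5, ?_⟩
    have : pval φ (p :: q :: l) = PushoutI.of p.1 p.2 * pval φ (q :: l) := by simp [pval]
    rw [this, map_mul, hF, h3, h6, zpow_add]
    group

/-- The amalgam embeds in the centraliser extension. -/
theorem amalgam_injective {ι : Type v} [Nonempty ι] {C : Type*} [Group C] {G : ι → Type u}
    [∀ i, Group (G i)] (φ : ∀ i, C →* G i)
    {Ω : Type*} [Group Ω] (B : Subgroup Ω) (α : ∀ i, G i →* Ω)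
    (hα : ∀ i, Function.Injective (α i))
    (hB : ∀ i g, α i g ∈ B ↔ g ∈ (φ i).range) (e : ι → ℤ) (he : Function.Injective e)
    (F : PushoutI φ →* HNNExtension Ω B B (MulEquiv.refl _))
    (hF : ∀ i g, F (PushoutI.of i g) =
      HNNExtension.t ^ e i * HNNExtension.of (α i g) * HNNExtension.t ^ (-e i)) :
    Function.Injective F := by
  rw [injective_iff_map_eq_one]
  intro x hx
  rcases exists_pred x with ⟨i, a, rfl⟩ | ⟨l, hl, rfl, hc, hr⟩
  · rw [hF] at hx
    have h1 : (HNNExtension.of (α i a) : HNNExtension Ω B B (MulEquiv.refl _)) = 1 := by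
      have h2 : (HNNExtension.of (α i a) : HNNExtension Ω B B (MulEquiv.refl _)) =
          HNNExtension.t ^ (-e i) * (HNNExtension.t ^ e i * HNNExtension.of (α i a) *
            HNNExtension.t ^ (-e i)) * HNNExtension.t ^ (e i) := by group
      rw [h2, hx]
      group
    have h2 : α i a = 1 := HNNExtension.of_injective (MulEquiv.refl B) (by rw [h1, map_one])
    have h3 : a = 1 := hα i (by rw [h2, map_one])
    rw [h3, map_one]
  · exfalso
    rcases l with _ | ⟨p, l⟩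
    · exact hl rfl
    obtain ⟨T, h1, h2, h3⟩ := exists_image φ B α hB e he F hF l p hc hr
    have hp : α p.1 p.2 ∉ B := fun h => hr p (by simp) ((hB _ _).1 h)
    rw [h3] at hx
    by_cases h0 : e p.1 = 0
    · rw [h0, zpow_zero, one_mul] at hx
      have h4 := hval_notMem B _ _ h1 hx
      rw [h4] at hx
      have h5 : (HNNExtension.of (α p.1 p.2) : HNNExtension Ω B B (MulEquiv.refl _)) = 1 := by
        simpa [hval] using hx
      have h6 : α p.1 p.2 = 1 := HNNExtension.of_injective (MulEquiv.refl B)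
        (by rw [h5, map_one])
      exact hp (by rw [h6]; exact B.one_mem)
    · obtain ⟨T', h4, h5, h6⟩ := exists_syll B (e p.1) h0 (α p.1 p.2) T h1 (Or.inl hp)
      rw [← h6] at hx
      exact h5 (hval_notMem B 1 _ h4 (by rw [map_one, one_mul]; exact hx))

/-- Assembly from a common virtually special image. -/
lemma virtSpecial_pushout_aux {ι : Type} [Nonempty ι] [Finite ι] {C : Type v} [Group C]
    {G : ι → Type u} [∀ i, Group (G i)] (φ : ∀ i, C →* G i) (c : C)
    (hc : ∀ x, x ∈ Subgroup.zpowers c)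
    {E : Type*} [Group E] (hE : VirtSpecial E) (Ψ : ∀ i, G i →* E)
    (hΨ : ∀ i, Function.Injective (Ψ i)) (w : E) (hw : ∀ i, Ψ i (φ i c) = w) :
    VirtSpecial (PushoutI φ) := by
  classical
  obtain ⟨i₀⟩ := (inferInstance : Nonempty ι)
  obtain ⟨V, hV, Γ, Q, hQg, hQ, hact, hga, Φ, L, Q₀, hΦ, hL, hpos⟩ := parabolic_position_all hE w
  obtain ⟨S, hSg, hS, j, t, p, ht, hpj, hpt⟩ := centraliser_extension Γ Q L Q₀ hL
  obtain ⟨e₀, he₀⟩ := exists_injective_nat ι
  let e : ι → ℤ := fun i => (e₀ i : ℤ)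
  have he : Function.Injective e := fun i j h => he₀ (Nat.cast_injective (R := ℤ) h)
  let α : ∀ i, G i →* RAAG Γ ⋊[actHom Q Γ] Q := fun i => Φ.comp (Ψ i)
  have hα : ∀ i, Function.Injective (α i) := fun i => hΦ.comp (hΨ i)
  have hB : ∀ i g, α i g ∈ Bsub Γ Q L Q₀ hL ↔ g ∈ (φ i).range := by
    intro i g
    show ((Φ (Ψ i g)).left ∈ sub Γ L ∧ (Φ (Ψ i g)).right ∈ Q₀) ↔ _
    rw [hpos]
    constructor
    · rintro ⟨k, hk⟩
      refine ⟨c ^ k, hΨ i ?_⟩
      rw [map_zpow, map_zpow, hw]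
      exact hk
    · rintro ⟨x, rfl⟩
      obtain ⟨k, rfl⟩ := Subgroup.mem_zpowers_iff.1 (hc x)
      exact ⟨k, by show w ^ k = _; rw [map_zpow, map_zpow, hw]⟩
  have hcom : ∀ i x, α i (φ i x) = α i₀ (φ i₀ x) := by
    intro i x
    obtain ⟨k, rfl⟩ := Subgroup.mem_zpowers_iff.1 (hc x)
    have h1 : ∀ i, Ψ i (φ i (c ^ k)) = w ^ k := fun i => by rw [map_zpow, map_zpow, hw]
    show Φ (Ψ i _) = Φ (Ψ i₀ _)
    rw [h1, h1]
  let F' : PushoutI φ →* S := PushoutI.lift
    (fun i => (MulAut.conj (t ^ e i)).toMonoidHom.comp (j.comp (α i)))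
    ((j.comp (α i₀)).comp (φ i₀)) (by
      intro i
      ext x
      show t ^ e i * j (α i (φ i x)) * (t ^ e i)⁻¹ = j (α i₀ (φ i₀ x))
      have h1 : α i (φ i x) ∈ Bsub Γ Q L Q₀ hL := (hB i _).2 ⟨x, rfl⟩
      have h2 : Commute (t ^ e i) (j (α i (φ i x))) := (ht _ h1).zpow_left _
      rw [h2.eq, mul_inv_cancel_right, hcom])
  have hF' : ∀ i g, F' (PushoutI.of i g) = t ^ e i * j (α i g) * (t ^ e i)⁻¹ := by
    intro i g
    exact PushoutI.lift_of _ _ _ _
  have hinj : Function.Injective (p.comp F') := by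
    apply amalgam_injective φ (Bsub Γ Q L Q₀ hL) α hα hB e he
    intro i g
    rw [MonoidHom.comp_apply, hF', map_mul, map_mul, map_inv, map_zpow, hpt, hpj, zpow_neg]
  exact VirtSpecial.of_injective hS F' (Function.Injective.of_comp (f := p) (g := F') hinj)

/-- Virtually special groups are closed under amalgams over cyclic groups. -/
theorem virtSpecial_pushout {ι : Type} [Nonempty ι] [Finite ι] {C : Type v} [Group C] [IsCyclic C]
    {G : ι → Type u} [∀ i, Group (G i)] (φ : ∀ i, C →* G i)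
    (hφ : ∀ i, Function.Injective (φ i)) (hG : ∀ i, VirtSpecial (G i)) :
    VirtSpecial (PushoutI φ) := by
  classical
  obtain ⟨c, hc⟩ := IsCyclic.exists_generator (α := C)
  have hM : ∀ i₀ : ι, ∃ (W : Type) (_ : Group W) (_ : VirtSpecial W) (Φ : ∀ i, G i →* W),
      Function.Injective (Φ i₀) ∧ ∀ i j, Φ i (φ i c) = Φ j (φ j c) := by
    intro i₀
    by_cases h1 : IsOfFinOrder c
    · exact matching_fin G hG (fun i => φ i c) (orderOf c) h1.orderOf_pos
        (fun i => orderOf_injective (φ i) (hφ i) c) i₀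
    · exact matching G hG (fun i => φ i c) (fun i hi => h1 ((hφ i).isOfFinOrder_iff.mp hi)) i₀
  choose W hWg hW Φ hΦ hΦ' using hM
  obtain ⟨i₀⟩ := (inferInstance : Nonempty ι)
  refine virtSpecial_pushout_aux φ c hc (E := ∀ i, W i) (VirtSpecial.pi W hW)
    (fun i => MonoidHom.pi (fun k => Φ k i)) (fun i => ?_) (fun k => Φ k i₀ (φ i₀ c))
    (fun i => ?_)
  · intro x y hxy
    exact hΦ i (congrFun hxy i)
  · funext k
    exact hΦ' k i i₀

end VSp
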