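import Mathlib

set_option autoImplicit false

/-! Definitions for the proof that virtually special groups are closed under amalgams over
cyclic groups (MP_3982fc_al, third question). -/

namespace VSp

universe u v

section RAAG

variable {V : Type u}

/-- The commutation relators of a graph. -/
def rels (Γ : SimpleGraph V) : Set (FreeGroup V) :=
  {r | ∃ x y, Γ.Adj x y ∧
    r = FreeGroup.of x * FreeGroup.of y * (FreeGroup.of x)⁻¹ * (FreeGroup.of y)⁻¹}

/-- The right-angled Artin group of `Γ`: one generator for every vertex, adjacent vertices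
commute. -/
def RAAG (Γ : SimpleGraph V) : Type u := PresentedGroup (rels Γ)

instance (Γ : SimpleGraph V) : Group (RAAG Γ) := inferInstanceAs (Group (PresentedGroup (rels Γ)))

variable (Γ : SimpleGraph V)

/-- The generator `x`. -/
def of (x : V) : RAAG Γ := PresentedGroup.of x

lemma of_comm {x y : V} (h : Γ.Adj x y) : Commute (of Γ x) (of Γ y) := by
  have h1 : (PresentedGroup.mk (rels Γ)) (FreeGroup.of x * FreeGroup.of y *
      (FreeGroup.of x)⁻¹ * (FreeGroup.of y)⁻¹) = 1 :=
    (QuotientGroup.eq_one_iff _).2 (Subgroup.subset_normalClosure ⟨x, y, h, rfl⟩)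
  have h2 : of Γ x * of Γ y * (of Γ x)⁻¹ * (of Γ y)⁻¹ = 1 := by
    rw [map_mul, map_mul, map_mul, map_inv, map_inv] at h1
    exact h1
  show of Γ x * of Γ y = of Γ y * of Γ x
  have h3 := mul_inv_eq_one.mp h2
  exact mul_inv_eq_iff_eq_mul.mp h3

variable {Γ}

/-- The universal property. -/
def lift {G : Type v} [Group G] (f : V → G) (hf : ∀ x y, Γ.Adj x y → Commute (f x) (f y)) :
    RAAG Γ →* G :=
  PresentedGroup.toGroup (f := f) (by
    rintro r ⟨x, y, h, rfl⟩
    have := hf x y h
    simp only [map_mul, map_inv, FreeGroup.lift_apply_of]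
    rw [mul_inv_eq_one, mul_inv_eq_iff_eq_mul]
    exact this)

@[simp] lemma lift_of {G : Type v} [Group G] (f : V → G)
    (hf : ∀ x y, Γ.Adj x y → Commute (f x) (f y)) (x : V) : lift f hf (of Γ x) = f x :=
  PresentedGroup.toGroup.of _

lemma hom_ext {G : Type v} [Group G] {f g : RAAG Γ →* G}
    (h : ∀ x, f (of Γ x) = g (of Γ x)) : f = g :=
  PresentedGroup.ext h

variable (Γ)

/-- The generator or its inverse. -/
def sgn (x : V) (b : Bool) : RAAG Γ := cond b (of Γ x) (of Γ x)⁻¹

/-- The element represented by a word. -/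
def wp (w : List (V × Bool)) : RAAG Γ := (w.map fun p => sgn Γ p.1 p.2).prod

/-- The special subgroup generated by the letters in `L`. -/
def sub (L : Set V) : Subgroup (RAAG Γ) := Subgroup.closure (of Γ '' L)

/-- The subgroup generated by the letters commuting with `y` (not containing `y`). -/
def lk (y : V) : Subgroup (RAAG Γ) := sub Γ {z | Γ.Adj y z}

/-- Reduced word: no shorter word represents the same element. -/
def Red (w : List (V × Bool)) : Prop := ∀ w', wp Γ w' = wp Γ w → w.length ≤ w'.length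

variable {Γ}

/-- The isomorphism of RAAGs induced by a graph isomorphism. -/
def mapIso {W : Type v} {Δ : SimpleGraph W} (e : Γ ≃g Δ) : RAAG Γ ≃* RAAG Δ :=
  MonoidHom.toMulEquiv
    (lift (G := RAAG Δ) (fun x => of Δ (e x)) (fun _ _ h => of_comm Δ (e.map_adj_iff.2 h)))
    (lift (G := RAAG Γ) (fun x => of Γ (e.symm x))
      (fun _ _ h => of_comm Γ (e.symm.map_adj_iff.2 h)))
    (hom_ext fun x => by simp)
    (hom_ext fun x => by simp)

@[simp] lemma mapIso_of {W : Type v} {Δ : SimpleGraph W} (e : Γ ≃g Δ) (x : V) :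
    mapIso e (of Γ x) = of Δ (e x) :=
  lift_of (G := RAAG Δ) (fun x => of Δ (e x)) (fun _ _ h => of_comm Δ (e.map_adj_iff.2 h)) x

/-- A group acting on the vertices by graph automorphisms. -/
class GraphAct (Q : Type*) [Group Q] (Γ : SimpleGraph V) [MulAction Q V] : Prop where
  adj : ∀ (q : Q) (x y : V), Γ.Adj x y → Γ.Adj (q • x) (q • y)

/-- The graph automorphism given by a group element. -/
def actIso {Q : Type*} [Group Q] [MulAction Q V] [h : GraphAct Q Γ] (q : Q) : Γ ≃g Γ where
  toEquiv := MulAction.toPerm q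
  map_rel_iff' := by
    intro x y
    constructor
    · intro hxy
      have := h.adj q⁻¹ _ _ hxy
      simpa using this
    · intro hxy
      exact h.adj q _ _ hxy

/-- The action of `Q` on the RAAG by permutation of letters. -/
def actHom (Q : Type*) [Group Q] (Γ : SimpleGraph V) [MulAction Q V] [GraphAct Q Γ] :
    Q →* MulAut (RAAG Γ) where
  toFun q := mapIso (actIso q)
  map_one' := by
    ext x
    induction x using PresentedGroup.induction_on with
    | _ x => 
      have : (mapIso (actIso (Γ := Γ) (1 : Q))).toMonoidHom = MonoidHom.id _ :=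
        hom_ext fun y => by
          show mapIso (actIso (Γ := Γ) (1 : Q)) (of Γ y) = of Γ y
          rw [mapIso_of]
          show of Γ ((1 : Q) • y) = _
          rw [one_smul]
      exact DFunLike.congr_fun this _
  map_mul' q q' := by
    ext x
    have : (mapIso (actIso (Γ := Γ) (q * q'))).toMonoidHom =
        (mapIso (actIso (Γ := Γ) q)).toMonoidHom.comp (mapIso (actIso (Γ := Γ) q')).toMonoidHom :=
      hom_ext fun y => by
        show mapIso (actIso (Γ := Γ) (q * q')) (of Γ y) =
          mapIso (actIso (Γ := Γ) q) (mapIso (actIso (Γ := Γ) q') (of Γ y))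
        rw [mapIso_of, mapIso_of, mapIso_of]
        show of Γ ((q * q') • y) = of Γ (q • q' • y)
        rw [mul_smul]
    exact DFunLike.congr_fun this x

@[simp] lemma actHom_of (Q : Type*) [Group Q] [MulAction Q V] [GraphAct Q Γ] (q : Q) (x : V) :
    actHom Q Γ q (of Γ x) = of Γ (q • x) := mapIso_of _ _

end RAAG

/-- `G` is virtually special: some finite-index subgroup embeds in the right-angled Artin group
of a finite graph. -/
def VirtSpecial (G : Type u) [Group G] : Prop :=
  ∃ N : Subgroup G, N.FiniteIndex ∧ ∃ (n : ℕ) (Γ : SimpleGraph (Fin n)) (f : N →* RAAG Γ),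
    Function.Injective f

section Cover

variable {V : Type u} {Γ : SimpleGraph V} {K : Type v} [Group K] (π : RAAG Γ →* K)

/-- The letters of the cover: cosets of the images of the links. -/
def HV : Type (max u v) := Σ z : V, K ⧸ ((lk Γ z).map π)

/-- The letter `[k]_z`. -/
def hp (k : K) (z : V) : HV π := ⟨z, (k : K ⧸ ((lk Γ z).map π))⟩

/-- The graph of the cover. -/
def HG : SimpleGraph (HV π) where
  Adj a b := Γ.Adj a.1 b.1 ∧ ∃ k : K, hp π k a.1 = a ∧ hp π k b.1 = b
  symm := ⟨fun a b h => ⟨h.1.symm, h.2.imp fun _ hk => ⟨hk.2, hk.1⟩⟩⟩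
  loopless := ⟨fun a h => Γ.loopless.irrefl a.1 h.1⟩

instance : MulAction K (HV π) where
  smul k a := ⟨a.1, k • a.2⟩
  one_smul a := by
    show (⟨a.1, (1 : K) • a.2⟩ : HV π) = a
    rw [one_smul]; rfl
  mul_smul k k' a := by
    show (⟨a.1, (k * k') • a.2⟩ : HV π) = ⟨a.1, k • k' • a.2⟩
    rw [mul_smul]

@[simp] lemma smul_hp (k k' : K) (z : V) : k • hp π k' z = hp π (k * k') z := rfl

@[simp] lemma hp_fst (k : K) (z : V) : (hp π k z).1 = z := rfl

@[simp] lemma smul_fst (k : K) (a : HV π) : (k • a).1 = a.1 := rfl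

instance : GraphAct K (HG π) where
  adj := by
    rintro q a b ⟨h, k, h1, h2⟩
    refine ⟨h, q * k, ?_, ?_⟩
    · rw [smul_fst, ← smul_hp, h1]
    · rw [smul_fst, ← smul_hp, h2]

lemma hp_eq_iff (k k' : K) (z : V) : hp π k z = hp π k' z ↔ k⁻¹ * k' ∈ (lk Γ z).map π := by
  constructor
  · intro h
    have h1 : (k : K ⧸ ((lk Γ z).map π)) = k' := eq_of_heq (Sigma.mk.inj h).2
    exact QuotientGroup.eq.mp h1
  · intro h
    have h1 : (k : K ⧸ ((lk Γ z).map π)) = k' := QuotientGroup.eq.mpr h
    simp [hp, h1]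

/-- The cover embedding `ψ_π : A(Γ) → A(HG π) ⋊ K`. -/
def psi : RAAG Γ →* RAAG (HG π) ⋊[actHom K (HG π)] K :=
  lift (fun z => ⟨of (HG π) (hp π 1 z), π (of Γ z)⟩) (by
    intro x y h
    have hx : hp π (π (of Γ x)) y = hp π 1 y := by
      rw [hp_eq_iff, mul_one]
      exact Subgroup.inv_mem _ ⟨_, Subgroup.subset_closure ⟨x, h.symm, rfl⟩, rfl⟩
    have hy : hp π (π (of Γ y)) x = hp π 1 x := by
      rw [hp_eq_iff, mul_one]
      exact Subgroup.inv_mem _ ⟨_, Subgroup.subset_closure ⟨y, h, rfl⟩, rfl⟩
    have hc : Commute (of (HG π) (hp π 1 x)) (of (HG π) (hp π 1 y)) :=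
      of_comm _ ⟨h, 1, rfl, rfl⟩
    have hc2 : Commute (π (of Γ x)) (π (of Γ y)) := (of_comm Γ h).map π
    show (_ * _ : _ ⋊[_] _) = _ * _
    ext
    · simp only [SemidirectProduct.mul_left, actHom_of, smul_hp, mul_one, hx, hy]
      exact hc
    · simp only [SemidirectProduct.mul_right]
      exact hc2)

/-- The crossing word of a word, starting at `k`. -/
def cr : K → List (V × Bool) → List (HV π × Bool)
  | _, [] => []
  | k, (z, true) :: w => (hp π k z, true) :: cr (k * π (of Γ z)) w
  | k, (z, false) :: w =>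
      (hp π (k * (π (of Γ z))⁻¹) z, false) :: cr (k * (π (of Γ z))⁻¹) w

end Cover

section Level

/-- Abelianisation of a RAAG. -/
noncomputable def ab {W : Type u} (Δ : SimpleGraph W) : RAAG Δ →* Multiplicative (W → ℤ) :=
  haveI := Classical.decEq W
  lift (fun x => Multiplicative.ofAdd (Pi.single x 1)) (fun _ _ _ => Commute.all _ _)

variable {V : Type u} {Γ : SimpleGraph V} {K : Type v} [Group K] (π : RAAG Γ →* K)

/-- The crossing vector of an element. -/
noncomputable def cv (g : RAAG Γ) : HV π → ℤ := Multiplicative.toAdd (ab (HG π) (psi π g).left)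

/-- `K` acts on the vectors. -/
def vecAct (n : ℕ) : K →* MulAut (Multiplicative (HV π → ZMod n)) where
  toFun k :=
    { toFun := fun f => Multiplicative.ofAdd fun h => Multiplicative.toAdd f (k⁻¹ • h)
      invFun := fun f => Multiplicative.ofAdd fun h => Multiplicative.toAdd f (k • h)
      left_inv := fun f => by ext h; simp
      right_inv := fun f => by ext h; simp
      map_mul' := fun f g => rfl }
  map_one' := by ext f h; simp
  map_mul' k k' := by
    ext f h
    show Multiplicative.toAdd f ((k * k')⁻¹ • h) = Multiplicative.toAdd f (k'⁻¹ • k⁻¹ • h)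
    rw [mul_inv_rev, mul_smul]

/-- The next level: `g ↦ (crossing vector mod n, π g)`. -/
noncomputable def up (n : ℕ) :
    RAAG Γ →* Multiplicative (HV π → ZMod n) ⋊[vecAct π n] K :=
  haveI := Classical.decEq (HV π)
  lift (fun z => ⟨Multiplicative.ofAdd (Pi.single (hp π 1 z) 1), π (of Γ z)⟩) (by
    intro x y h
    have hx : hp π (π (of Γ x)) y = hp π 1 y := by
      rw [hp_eq_iff, mul_one]
      exact Subgroup.inv_mem _ ⟨_, Subgroup.subset_closure ⟨x, h.symm, rfl⟩, rfl⟩
    have hy : hp π (π (of Γ y)) x = hp π 1 x := by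
      rw [hp_eq_iff, mul_one]
      exact Subgroup.inv_mem _ ⟨_, Subgroup.subset_closure ⟨y, h, rfl⟩, rfl⟩
    have hs : ∀ (k : K) (a : HV π), vecAct π n k (Multiplicative.ofAdd (Pi.single a 1)) =
        Multiplicative.ofAdd (Pi.single (k • a) (1 : ZMod n)) := by
      intro k a
      apply Multiplicative.toAdd.injective
      funext b
      show (Pi.single a (1 : ZMod n) : HV π → ZMod n) (k⁻¹ • b) = _
      simp only [toAdd_ofAdd, Pi.single_apply, inv_smul_eq_iff]
    have hc2 : Commute (π (of Γ x)) (π (of Γ y)) := (of_comm Γ h).map π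
    show (_ * _ : _ ⋊[_] _) = _ * _
    ext
    · simp only [SemidirectProduct.mul_left, hs, smul_hp, mul_one, hx, hy]
      rw [mul_comm]
    · simp only [SemidirectProduct.mul_right]
      exact hc2)

end Level

section Good

variable {V : Type u} (Γ : SimpleGraph V)

/-- Good cyclic words: nonempty, support connected in the non-commutation graph, cyclically
reduced in the sense of one-letter pinches. -/
structure Good (a : List (V × Bool)) : Prop where
  ne : a ≠ []
  conn : ∀ p ∈ a, ∀ q ∈ a,
    Relation.ReflTransGen (fun x y => (∃ b, (y, b) ∈ a) ∧ ¬ Γ.Adj x y) p.1 q.1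
  cyc : ∀ (y : V) (e : Bool) (u v : List (V × Bool)),
    a ~r ((y, e) :: (u ++ (y, !e) :: v)) → (∀ p ∈ u, p.1 ≠ y) → wp Γ u ∉ lk Γ y

variable {Γ} in
/-- The base vertex of the `t`-th edge of the word `a`. -/
def bs (Γ : SimpleGraph V) (a : List (V × Bool)) (t : Fin a.length) : RAAG Γ :=
  if (a.get t).2 then wp Γ (a.take t) else wp Γ (a.take (t + 1))

variable {Γ} {K : Type v} [Group K] (π : RAAG Γ →* K)

/-- Different positions of `a` (mod powers of `a`) cross different letters. -/
def Sep (a : List (V × Bool)) : Prop :=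
  ∀ (t t' : Fin a.length) (k : ℤ),
    hp π (π (wp Γ a ^ k * bs Γ a t)) (a.get t).1 = hp π (π (bs Γ a t')) (a.get t').1 → t = t'

/-- Distinct letters: the loop `a ^ (order)` crosses pairwise distinct letters. -/
def DL (a : List (V × Bool)) : Prop :=
  ∀ (t t' : Fin a.length) (k : ℤ),
    hp π (π (wp Γ a ^ k * bs Γ a t)) (a.get t).1 = hp π (π (bs Γ a t')) (a.get t').1 →
      t = t' ∧ π (wp Γ a ^ k) = 1

end Good

section Equi

/-- The group of permutations of `X × R` commuting with right multiplication by `R`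
(the wreath product of `R` with the symmetric group of `X`). -/
def EqG (X R : Type*) [Group R] : Subgroup (Equiv.Perm (X × R)) where
  carrier := {σ | ∀ x a b, σ (x, a * b) = ((σ (x, a)).1, (σ (x, a)).2 * b)}
  one_mem' := fun _ _ _ => rfl
  mul_mem' := by
    intro σ τ hσ hτ x a b
    rw [Equiv.Perm.mul_apply, Equiv.Perm.mul_apply, hτ, hσ, Prod.mk.eta]
  inv_mem' := by
    intro σ hσ x a b
    have h : σ (σ⁻¹ (x, a)) = (x, a) := σ.apply_symm_apply _
    rw [Equiv.Perm.inv_eq_iff_eq, hσ, Prod.mk.eta, h]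

end Equi

end VSp
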