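import Pool.Agent.VSp.Raag

set_option autoImplicit false

/-! M2. The cover embedding `psi`, crossing words, crossing vectors, the next level `up`. -/

namespace VSp

universe u v

variable {V : Type u} {Γ : SimpleGraph V} {K : Type v} [Group K] (π : RAAG Γ →* K)

lemma psi_of (z : V) : psi π (of Γ z) = ⟨of (HG π) (hp π 1 z), π (of Γ z)⟩ := lift_of _ _ z

lemma psi_right (g : RAAG Γ) : (psi π g).right = π g := by
  have h : (SemidirectProduct.rightHom).comp (psi π) = π :=
    hom_ext fun z => by rw [MonoidHom.comp_apply, psi_of]; rfl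
  exact DFunLike.congr_fun h g

/-- Forget the cosets. -/
def forget : RAAG (HG π) →* RAAG Γ := lift (fun a => of Γ a.1) (fun _ _ h => of_comm Γ h.1)

lemma forget_of (a : HV π) : forget π (of (HG π) a) = of Γ a.1 := lift_of _ _ a

lemma forget_act (k : K) (x : RAAG (HG π)) : forget π (actHom K (HG π) k x) = forget π x := by
  have h : (forget π).comp (actHom K (HG π) k).toMonoidHom = forget π :=
    hom_ext fun a => by
      show forget π (actHom K (HG π) k (of (HG π) a)) = _
      rw [actHom_of, forget_of, forget_of]; rfl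
  exact DFunLike.congr_fun h x

lemma forget_psi (g : RAAG Γ) : forget π (psi π g).left = g := by
  let F : RAAG Γ →* RAAG Γ :=
    { toFun := fun g => forget π (psi π g).left
      map_one' := by rw [map_one]; exact map_one _
      map_mul' := fun g g' => by
        rw [map_mul, SemidirectProduct.mul_left, map_mul, forget_act] }
  have h : F = MonoidHom.id _ := hom_ext fun z => by
    show forget π (psi π (of Γ z)).left = of Γ z
    rw [psi_of]; exact forget_of π _
  exact DFunLike.congr_fun h g

theorem psi_injective : Function.Injective (psi π) := by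
  intro g g' h
  rw [← forget_psi π g, h, forget_psi]

lemma cr_append (k : K) (w w' : List (V × Bool)) :
    cr π k (w ++ w') = cr π k w ++ cr π (k * π (wp Γ w)) w' := by
  induction w generalizing k with
  | nil => simp [cr, wp_nil]
  | cons p w ih =>
    obtain ⟨z, b⟩ := p
    cases b
    · rw [List.cons_append]
      simp only [cr, ih, List.cons_append, wp_cons, map_mul, sgn, cond_false, map_inv, mul_assoc]
    · rw [List.cons_append]
      simp only [cr, ih, List.cons_append, wp_cons, map_mul, sgn, cond_true, mul_assoc]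

lemma cr_length (k : K) (w : List (V × Bool)) : (cr π k w).length = w.length := by
  induction w generalizing k with
  | nil => rfl
  | cons p w ih =>
    obtain ⟨z, b⟩ := p
    cases b
    · simp only [cr, List.length_cons, ih]
    · simp only [cr, List.length_cons, ih]

lemma cr_cons (k : K) (z : V) (b : Bool) (w : List (V × Bool)) :
    cr π k ((z, b) :: w) = (hp π (cond b k (k * (π (of Γ z))⁻¹)) z, b) ::
      cr π (k * π (sgn Γ z b)) w := by
  cases b
  · simp only [cr, cond_false, sgn, map_inv]
  · simp only [cr, cond_true, sgn]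

lemma act_wp_cr (k k' : K) (w : List (V × Bool)) :
    actHom K (HG π) k (wp (HG π) (cr π k' w)) = wp (HG π) (cr π (k * k') w) := by
  induction w generalizing k' with
  | nil => simp [cr, wp_nil]
  | cons p w ih =>
    obtain ⟨z, b⟩ := p
    cases b
    · simp only [cr, wp_cons, map_mul, ih, sgn, cond_false, map_inv, actHom_of, smul_hp, mul_assoc]
    · simp only [cr, wp_cons, map_mul, ih, sgn, cond_true, actHom_of, smul_hp, mul_assoc]

lemma psi_wp (w : List (V × Bool)) :
    psi π (wp Γ w) = ⟨wp (HG π) (cr π 1 w), π (wp Γ w)⟩ := by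
  induction w with
  | nil => simp only [cr, wp_nil, map_one]; rfl
  | cons p w ih =>
    obtain ⟨z, b⟩ := p
    rw [wp_cons, map_mul, ih]
    cases b
    · simp only [sgn, cond_false, map_inv, psi_of, cr, map_mul, wp_cons]
      apply SemidirectProduct.ext
      · rw [SemidirectProduct.mul_left, SemidirectProduct.inv_left,
          SemidirectProduct.inv_right, map_inv ((actHom K (HG π)) (π (of Γ z))⁻¹), actHom_of,
          smul_hp, act_wp_cr, mul_one]
        simp only [one_mul]
      · rfl
    · simp only [sgn, cond_true, psi_of, cr, map_mul, wp_cons]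
      apply SemidirectProduct.ext
      · rw [SemidirectProduct.mul_left, act_wp_cr, mul_one]
        simp only [one_mul]
      · rfl

lemma forget_wp_cr (k : K) (w : List (V × Bool)) :
    forget π (wp (HG π) (cr π k w)) = wp Γ w := by
  induction w generalizing k with
  | nil => simp only [cr, wp_nil, map_one]
  | cons p w ih =>
    obtain ⟨z, b⟩ := p
    cases b
    · simp only [cr, wp_cons, map_mul, ih, sgn, cond_false, map_inv, forget_of, hp_fst]
    · simp only [cr, wp_cons, map_mul, ih, sgn, cond_true, forget_of, hp_fst]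

lemma forget_wp (w : List (HV π × Bool)) :
    forget π (wp (HG π) w) = wp Γ (w.map fun p => (p.1.1, p.2)) := by
  induction w with
  | nil => simp only [List.map_nil, wp_nil, map_one]
  | cons p w ih =>
    obtain ⟨z, b⟩ := p
    cases b
    · simp only [List.map_cons, wp_cons, map_mul, ih, sgn, cond_false, map_inv, forget_of]
    · simp only [List.map_cons, wp_cons, map_mul, ih, sgn, cond_true, forget_of]

lemma cr_red (k : K) (w : List (V × Bool)) (h : Red Γ w) : Red (HG π) (cr π k w) := by
  intro w' hw'
  have h1 : wp Γ (w'.map fun p => (p.1.1, p.2)) = wp Γ w := by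
    rw [← forget_wp, hw', forget_wp_cr]
  have h2 := h _ h1
  rw [cr_length]
  simpa using h2

/-! crossing vectors -/

lemma ab_act (k : K) (x : RAAG (HG π)) (h : HV π) :
    Multiplicative.toAdd (ab (HG π) (actHom K (HG π) k x)) h =
      Multiplicative.toAdd (ab (HG π) x) (k⁻¹ • h) := by
  classical
  let A : Multiplicative (HV π → ℤ) →* Multiplicative ℤ :=
    { toFun := fun f => Multiplicative.ofAdd (Multiplicative.toAdd f h)
      map_one' := rfl
      map_mul' := fun _ _ => rfl }
  let B : Multiplicative (HV π → ℤ) →* Multiplicative ℤ :=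
    { toFun := fun f => Multiplicative.ofAdd (Multiplicative.toAdd f (k⁻¹ • h))
      map_one' := rfl
      map_mul' := fun _ _ => rfl }
  have e : A.comp ((ab (HG π)).comp (actHom K (HG π) k).toMonoidHom) = B.comp (ab (HG π)) :=
    hom_ext fun a => by
      show Multiplicative.ofAdd (Multiplicative.toAdd (ab (HG π) (actHom K (HG π) k
        (of (HG π) a))) h) = Multiplicative.ofAdd (Multiplicative.toAdd (ab (HG π)
        (of (HG π) a)) (k⁻¹ • h))
      rw [actHom_of]
      unfold ab
      rw [lift_of, lift_of]
      simp only [toAdd_ofAdd, Pi.single_apply, inv_smul_eq_iff]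
  exact Multiplicative.ofAdd.injective (DFunLike.congr_fun e x)

lemma cv_one : cv π 1 = 0 := by
  unfold cv
  rw [map_one, SemidirectProduct.one_left, map_one, toAdd_one]

open Classical in
lemma cv_of (z : V) : cv π (of Γ z) = Pi.single (hp π 1 z) 1 := by
  unfold cv
  rw [psi_of]
  unfold ab
  rw [lift_of, toAdd_ofAdd]

lemma cv_mul (g g' : RAAG Γ) (h : HV π) :
    cv π (g * g') h = cv π g h + cv π g' ((π g)⁻¹ • h) := by
  unfold cv
  rw [map_mul, SemidirectProduct.mul_left, map_mul, toAdd_mul, Pi.add_apply, ab_act, psi_right]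

lemma cv_inv (g : RAAG Γ) (h : HV π) : cv π g⁻¹ h = - cv π g (π g • h) := by
  have h1 := cv_mul π g g⁻¹ (π g • h)
  rw [mul_inv_cancel, cv_one, inv_smul_smul] at h1
  have h2 : (0 : HV π → ℤ) (π g • h) = 0 := rfl
  rw [h2] at h1
  linarith

open Classical in
/-- Crossing vector of one signed letter. -/
lemma cv_sgn (z : V) (b : Bool) : cv π (sgn Γ z b) =
    Pi.single (hp π (cond b 1 (π (of Γ z))⁻¹) z) (cond b 1 (-1)) := by
  cases b
  · simp only [sgn, cond_false]
    funext h
    rw [cv_inv, cv_of]
    simp only [Pi.single_apply]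
    have : π (of Γ z) • h = hp π 1 z ↔ h = hp π (π (of Γ z))⁻¹ z := by
      rw [smul_eq_iff_eq_inv_smul, smul_hp, mul_one]
    by_cases hh : h = hp π (π (of Γ z))⁻¹ z
    · rw [if_pos (this.2 hh), if_pos hh]
    · rw [if_neg (fun h' => hh (this.1 h')), if_neg hh, neg_zero]
  · simp only [sgn, cond_true]
    exact cv_of π z

open Classical in
lemma ab_wp_cr_aux (w : List (HV π × Bool)) (h : HV π) :
    Multiplicative.toAdd (ab (HG π) (wp (HG π) w)) h =
      (w.map fun p => if p.1 = h then cond p.2 (1 : ℤ) (-1) else 0).sum := by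
  induction w with
  | nil => rw [wp_nil, map_one]; rfl
  | cons p w ih =>
    obtain ⟨z, b⟩ := p
    have hof : ∀ z : HV π, Multiplicative.toAdd (ab (HG π) (of (HG π) z)) h =
        if z = h then 1 else 0 := by
      intro z
      unfold ab
      rw [lift_of, toAdd_ofAdd]
      by_cases hz : z = h
      · subst hz
        rw [if_pos rfl, Pi.single_eq_same]
      · rw [if_neg hz, Pi.single_eq_of_ne (fun h' => hz h'.symm)]
    rw [wp_cons, map_mul, toAdd_mul, Pi.add_apply, ih, List.map_cons, List.sum_cons]
    congr 1
    cases b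
    · simp only [sgn, cond_false, map_inv, toAdd_inv, Pi.neg_apply, hof]
      split_ifs <;> simp
    · simp only [sgn, cond_true, hof]

open Classical in
/-- Crossing vector of a word as a sum over its crossing word. -/
lemma cv_wp (w : List (V × Bool)) (h : HV π) :
    cv π (wp Γ w) h = ((cr π 1 w).map fun p => if p.1 = h then cond p.2 (1 : ℤ) (-1) else 0).sum := by
  unfold cv
  rw [psi_wp]
  exact ab_wp_cr_aux π _ h

lemma hp_lk (z : V) (x : RAAG Γ) (hx : x ∈ lk Γ z) (k : K) : hp π (k * π x) z = hp π k z := by
  symm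
  rw [hp_eq_iff, inv_mul_cancel_left]
  exact ⟨x, hx, rfl⟩

lemma cv_lk (z : V) (x : RAAG Γ) (hx : x ∈ lk Γ z) (h : HV π) (hne : cv π x h ≠ 0) :
    (HG π).Adj (hp π 1 z) h := by
  have key : ∀ (y : RAAG Γ) (_ : y ∈ lk Γ z) (h : HV π), cv π y h ≠ 0 →
      (HG π).Adj (hp π 1 z) h := by
    intro y hy
    refine Subgroup.closure_induction (p := fun y _ => ∀ h : HV π, cv π y h ≠ 0 →
      (HG π).Adj (hp π 1 z) h) ?_ ?_ ?_ ?_ hy
    · rintro _ ⟨w, hw, rfl⟩ h hne
      classical
      rw [cv_of, Pi.single_apply] at hne
      have : h = hp π 1 w := by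
        by_contra h'
        rw [if_neg h'] at hne
        exact hne rfl
      subst this
      exact ⟨hw, 1, rfl, rfl⟩
    · intro h hne
      rw [cv_one] at hne
      exact absurd rfl hne
    · intro a b ha hb iha ihb h hne
      rw [cv_mul] at hne
      by_cases h1 : cv π a h = 0
      · have h2 : cv π b ((π a)⁻¹ • h) ≠ 0 := by
          intro h2; rw [h1, h2] at hne; exact hne rfl
        have h3 := ihb _ h2
        have h4 := GraphAct.adj (Γ := HG π) (π a) _ _ h3
        rw [smul_inv_smul, smul_hp, mul_one] at h4
        have h5 := hp_lk π z a ha 1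
        rw [one_mul] at h5
        rwa [h5] at h4
      · exact iha _ h1
    · intro a ha iha h hne
      rw [cv_inv] at hne
      have h1 : cv π a (π a • h) ≠ 0 := by
        intro h1; rw [h1] at hne; exact hne neg_zero
      have h3 := iha _ h1
      have h4 := GraphAct.adj (Γ := HG π) (π a)⁻¹ _ _ h3
      rw [inv_smul_smul, smul_hp, mul_one] at h4
      have h5 := hp_lk π z a⁻¹ (inv_mem ha) 1
      rw [one_mul, map_inv] at h5
      rwa [h5] at h4
  exact key x hx h hne

open Classical in
lemma up_of_left (n : ℕ) (z : V) (h : HV π) :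
    Multiplicative.toAdd (up π n (of Γ z)).left h = if h = hp π 1 z then 1 else 0 := by
  unfold up
  rw [lift_of, toAdd_ofAdd]
  by_cases hz : h = hp π 1 z
  · subst hz
    rw [if_pos rfl, Pi.single_eq_same]
  · rw [if_neg hz, Pi.single_eq_of_ne hz]

lemma up_of_right (n : ℕ) (z : V) : (up π n (of Γ z)).right = π (of Γ z) := by
  unfold up
  rw [lift_of]

lemma up_right (n : ℕ) (g : RAAG Γ) : (up π n g).right = π g := by
  classical
  have h : (SemidirectProduct.rightHom).comp (up π n) = π :=
    hom_ext fun z => up_of_right π n z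
  exact DFunLike.congr_fun h g

lemma up_left (n : ℕ) (g : RAAG Γ) (h : HV π) :
    Multiplicative.toAdd (up π n g).left h = ((cv π g h : ℤ) : ZMod n) := by
  classical
  obtain ⟨w, rfl⟩ := wp_surj g
  have hmul : ∀ (a b : RAAG Γ) (h : HV π), Multiplicative.toAdd (up π n (a * b)).left h =
      Multiplicative.toAdd (up π n a).left h +
        Multiplicative.toAdd (up π n b).left ((π a)⁻¹ • h) := by
    intro a b h
    rw [map_mul, SemidirectProduct.mul_left, up_right]
    rfl
  have hsgn : ∀ (z : V) (b : Bool) (h : HV π),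
      Multiplicative.toAdd (up π n (sgn Γ z b)).left h = ((cv π (sgn Γ z b) h : ℤ) : ZMod n) := by
    intro z b h
    have hof : ∀ h : HV π, Multiplicative.toAdd (up π n (of Γ z)).left h =
        ((cv π (of Γ z) h : ℤ) : ZMod n) := by
      intro h
      rw [up_of_left, cv_of]
      simp only [Pi.single_apply]
      split_ifs <;> simp
    cases b
    · simp only [sgn, cond_false]
      have h1 := hmul (of Γ z) (of Γ z)⁻¹ (π (of Γ z) • h)
      rw [mul_inv_cancel, map_one, inv_smul_smul] at h1
      have h2 : Multiplicative.toAdd (1 : Multiplicative (HV π → ZMod n) ⋊[vecAct π n] K).left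
          (π (of Γ z) • h) = 0 := rfl
      rw [h2] at h1
      rw [cv_inv, Int.cast_neg, ← hof]
      exact eq_neg_of_add_eq_zero_right h1.symm
    · simp only [sgn, cond_true]
      exact hof h
  induction w generalizing h with
  | nil => rw [wp_nil, map_one, cv_one]; simp
  | cons p w ih =>
    obtain ⟨z, b⟩ := p
    rw [wp_cons, hmul, cv_mul, ih, hsgn, Int.cast_add]

lemma up_eq_one_iff (n : ℕ) (g : RAAG Γ) :
    up π n g = 1 ↔ π g = 1 ∧ ∀ h, ((cv π g h : ℤ) : ZMod n) = 0 := by
  constructor
  · intro h
    refine ⟨?_, fun h' => ?_⟩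
    · rw [← up_right π n g, h]; rfl
    · rw [← up_left, h]; rfl
  · rintro ⟨h1, h2⟩
    apply SemidirectProduct.ext
    · apply Multiplicative.toAdd.injective
      funext h
      rw [up_left, h2]; rfl
    · rw [up_right, h1]; rfl

/-- Two edges crossing the same letter at the next level. -/
theorem level_up (n : ℕ) (b b' : RAAG Γ) (z : V)
    (h : hp (up π n) (up π n b) z = hp (up π n) (up π n b') z) :
    hp π (π b) z = hp π (π b') z ∧
      ∀ h', ¬ (HG π).Adj (hp π (π b) z) h' →
        ((cv π b h' : ℤ) : ZMod n) = ((cv π b' h' : ℤ) : ZMod n) := by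
  rw [hp_eq_iff] at h
  obtain ⟨x, hx, hxe⟩ := h
  have hx1 : up π n b' = up π n b * up π n x := by rw [hxe, mul_inv_cancel_left]
  have hb' : up π n b' = up π n (b * x) := by rw [hx1, map_mul]
  have hπ : π b' = π (b * x) := by
    rw [← up_right π n b', hb', up_right]
  refine ⟨?_, fun h' hadj => ?_⟩
  · rw [hπ, map_mul, hp_lk π z x hx]
  · have h2 : ((cv π b' h' : ℤ) : ZMod n) = ((cv π (b * x) h' : ℤ) : ZMod n) := by
      rw [← up_left, hb', up_left]
    rw [h2, cv_mul]
    have h3 : cv π x ((π b)⁻¹ • h') = 0 := by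
      by_contra hne
      have h4 := cv_lk π z x hx _ hne
      have h5 := GraphAct.adj (Γ := HG π) (π b) _ _ h4
      rw [smul_inv_smul, smul_hp, mul_one] at h5
      exact hadj h5
    rw [h3, add_zero]

instance finite_HV [Finite V] [Finite K] : Finite (HV π) :=
  inferInstanceAs (Finite (Σ z : V, K ⧸ ((lk Γ z).map π)))

instance finite_up [Finite V] [Finite K] (n : ℕ) [NeZero n] :
    Finite (Multiplicative (HV π → ZMod n) ⋊[vecAct π n] K) := by
  have : Finite (Multiplicative (HV π → ZMod n)) :=
    inferInstanceAs (Finite (HV π → ZMod n))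
  exact Finite.of_equiv _ (SemidirectProduct.equivProd (φ := vecAct π n)).symm

end VSp
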