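import Pool.Agent.VSp.Raag

set_option autoImplicit false

/-! M7. Every RAAG embeds in the RAAG of the complement of a forest.
The vertices of the forest are the simple paths of the non-commutation graph; a letter `x` is
sent to the product of the simple paths ending in `x`. -/

namespace VSp

namespace Forest

universe u

/-- A retraction maps special subgroups into special subgroups. -/
lemma retr_mem_of_mem {V : Type u} {Γ : SimpleGraph V} (L M : Set V) (g : RAAG Γ)
    (hg : g ∈ sub Γ M) : retr Γ L g ∈ sub Γ (L ∩ M) := by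
  have h1 : sub Γ M ≤ (sub Γ (L ∩ M)).comap (retr Γ L) := by
    rw [sub, Subgroup.closure_le]
    rintro _ ⟨x, hx, rfl⟩
    by_cases hL : x ∈ L
    · show retr Γ L (of Γ x) ∈ sub Γ (L ∩ M)
      rw [retr_of_mem hL]
      exact of_mem_sub ⟨hL, hx⟩
    · show retr Γ L (of Γ x) ∈ sub Γ (L ∩ M)
      rw [retr_of_notMem hL]
      exact one_mem _
  exact h1 hg

lemma retr_retr {V : Type u} {Γ : SimpleGraph V} (L L' : Set V) (h : L ⊆ L') (g : RAAG Γ) :
    retr Γ L (retr Γ L' g) = retr Γ L g := by
  have : (retr Γ L).comp (retr Γ L') = retr Γ L := by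
    apply hom_ext
    intro x
    show retr Γ L (retr Γ L' (of Γ x)) = _
    by_cases hL' : x ∈ L'
    · rw [retr_of_mem hL']
    · rw [retr_of_notMem hL', map_one, retr_of_notMem (fun hx => hL' (h hx))]
  exact DFunLike.congr_fun this g

/-- Britton form inside a special subgroup. -/
lemma exists_form {V : Type u} {Γ : SimpleGraph V} (y : V) (L : Set V) (w : List (V × Bool))
    (hL : ∀ p ∈ w, p.1 ∈ L)
    (hnp : ∀ (w₁ : List (V × Bool)) (e : Bool) (u w₂ : List (V × Bool)),
      w = w₁ ++ (y, e) :: (u ++ (y, !e) :: w₂) → wp Γ u ∉ lk Γ y) :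
    ∃ (g₀ : RAAG Γ) (l : List (Bool × RAAG Γ)), g₀ ∈ sub Γ (L ∩ {z | z ≠ y}) ∧
      (l = [] → ∀ p ∈ w, p.1 ≠ y) ∧
      (∀ p ∈ l, p.2 ∈ sub Γ (L ∩ {z | z ≠ y})) ∧
      l.IsChain (fun p q => q.1 = !p.1 → p.2 ∉ lk Γ y) ∧
      wp Γ w = g₀ * (l.map (fun p => sgn Γ y p.1 * p.2)).prod ∧
      (∀ p ∈ l.head?, ∃ w₀ w₁, w = w₀ ++ (y, p.1) :: w₁ ∧ g₀ = wp Γ w₀ ∧ ∀ q ∈ w₀, q.1 ≠ y) := by
  induction w with
  | nil =>
    refine ⟨1, [], one_mem _, ?_, ?_, ?_, ?_, ?_⟩
    · intro _ p hp; simp at hp
    · intro p hp; simp at hp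
    · exact List.isChain_nil
    · simp [wp_nil]
    · intro p hp; simp at hp
  | cons a w ih =>
    obtain ⟨g₀, l, hg₀, hl0, hl, hch, hw, hhd⟩ := ih (fun p hp => hL p (List.mem_cons_of_mem _ hp))
      (fun w₁ e u w₂ h => hnp (a :: w₁) e u w₂ (by rw [h]; rfl))
    obtain ⟨x, b⟩ := a
    by_cases hx : x = y
    · subst hx
      refine ⟨1, (b, g₀) :: l, one_mem _, ?_, ?_, ?_, ?_, ?_⟩
      · intro h; simp at h
      · intro p hp
        rcases List.mem_cons.1 hp with rfl | hp
        · exact hg₀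
        · exact hl p hp
      · rw [List.isChain_cons]
        refine ⟨?_, hch⟩
        rintro ⟨c, u⟩ hp hcb
        obtain ⟨w₀, w₁, h1, h2, h3⟩ := hhd _ hp
        simp only at hcb h1 ⊢
        rw [h2]
        apply hnp [] b w₀ w₁
        rw [h1, hcb]
        rfl
      · rw [wp_cons, hw]
        simp [mul_assoc]
      · intro p hp
        simp only [List.head?_cons, Option.mem_def, Option.some.injEq] at hp
        subst hp
        exact ⟨[], w, rfl, wp_nil.symm, by simp⟩
    · refine ⟨sgn Γ x b * g₀, l, ?_, ?_, hl, hch, ?_, ?_⟩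
      · apply mul_mem _ hg₀
        have hxm : of Γ x ∈ sub Γ (L ∩ {z | z ≠ y}) :=
          of_mem_sub ⟨hL (x, b) List.mem_cons_self, hx⟩
        cases b
        · exact inv_mem hxm
        · exact hxm
      · intro h p hp
        rcases List.mem_cons.1 hp with rfl | hp
        · exact hx
        · exact hl0 h p hp
      · rw [wp_cons, hw, mul_assoc]
      · intro p hp
        obtain ⟨w₀, w₁, h1, h2, h3⟩ := hhd _ hp
        refine ⟨(x, b) :: w₀, w₁, ?_, ?_, ?_⟩
        · rw [h1]; rfl
        · rw [wp_cons, h2]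
        · intro q hq
          rcases List.mem_cons.1 hq with rfl | hq
          · exact hx
          · exact h3 q hq

variable {V : Type} (Γ : SimpleGraph V)

/-- Nonempty simple paths of the non-commutation graph, written backwards. -/
def T : Type := {l : List V // l ≠ [] ∧ l.Nodup ∧ l.IsChain (fun x y => ¬ Γ.Adj x y)}

instance [Finite V] : Finite (T Γ) := by
  classical
  have := Fintype.ofFinite V
  exact Finite.of_injective (fun p : T Γ => (⟨p.1, p.2.2.1⟩ : {l : List V // l.Nodup}))
    (fun p q h => Subtype.ext (Subtype.mk.inj h))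

/-- Paths which are not one-step extensions of each other commute. -/
def D : SimpleGraph (T Γ) where
  Adj p q := p ≠ q ∧ (∀ y, q.1 ≠ y :: p.1) ∧ (∀ y, p.1 ≠ y :: q.1)
  symm := ⟨fun _ _ h => ⟨h.1.symm, h.2.2, h.2.1⟩⟩
  loopless := ⟨fun _ h => h.1 rfl⟩

lemma compl_adj {p q : T Γ} (h : (D Γ)ᶜ.Adj p q) :
    (∃ y, q.1 = y :: p.1) ∨ (∃ y, p.1 = y :: q.1) := by
  rw [SimpleGraph.compl_adj] at h
  by_contra hc
  push Not at hc
  exact h.2 ⟨h.1, hc.1, hc.2⟩

lemma acyclic : ((D Γ)ᶜ).IsAcyclic := by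
  rw [SimpleGraph.isAcyclic_iff_forall_adj_isBridge]
  have key : ∀ (p q : T Γ) (y : V), q.1 = y :: p.1 →
      ¬ ((D Γ)ᶜ.deleteEdges {s(p, q)}).Reachable q p := by
    rintro p q y hq hr
    have hS : ∀ r s : T Γ, ((D Γ)ᶜ.deleteEdges {s(p, q)}).Reachable r s →
        q.1 <:+ r.1 → q.1 <:+ s.1 := by
      rintro r s ⟨w⟩
      induction w with
      | nil => exact id
      | @cons a b c hab w ih =>
        intro ha
        apply ih
        rw [SimpleGraph.deleteEdges_adj] at hab
        obtain ⟨h1, h2⟩ := hab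
        rcases compl_adj Γ h1 with ⟨z, hz⟩ | ⟨z, hz⟩
        · rw [hz]
          exact ha.trans (List.suffix_cons _ _)
        · rw [hz, List.suffix_cons_iff] at ha
          rcases ha with ha | ha
          · exfalso
            apply h2
            have haq : a = q := Subtype.ext (by rw [hz, ha])
            have hbp : b = p := by
              rw [hq] at ha
              exact Subtype.ext (List.cons.inj ha).2.symm
            subst haq hbp
            simp [Sym2.eq_swap]
          · exact ha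
    have h1 := hS q p hr List.suffix_rfl
    have h2 := h1.length_le
    rw [hq] at h2
    simp at h2
  intro p q hpq
  rw [SimpleGraph.isBridge_iff]
  rcases compl_adj Γ hpq with ⟨y, hy⟩ | ⟨y, hy⟩
  · intro h
    exact key p q y hy h.symm
  · intro h
    rw [Sym2.eq_swap] at h
    exact key q p y hy h

open Classical in
/-- The paths ending in `x`. -/
noncomputable def l [Finite V] (x : V) : List (T Γ) :=
  haveI := Fintype.ofFinite (T Γ)
  (Finset.univ.filter (fun p : T Γ => p.1.head? = some x)).toList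

lemma mem_l [Finite V] (x : V) (p : T Γ) : p ∈ l Γ x ↔ p.1.head? = some x := by
  classical
  simp [l]

lemma nodup_l [Finite V] (x : V) : (l Γ x).Nodup := Finset.nodup_toList _

lemma pairwise_l [Finite V] (x : V) : (l Γ x).Pairwise (D Γ).Adj := by
  have h := nodup_l Γ x
  rw [List.Nodup, List.pairwise_iff_forall_sublist] at h
  rw [List.pairwise_iff_forall_sublist]
  intro a b hab
  have ha : a ∈ l Γ x := hab.subset (by simp)
  have hb : b ∈ l Γ x := hab.subset (by simp)
  rw [mem_l] at ha hb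
  refine ⟨h hab, ?_, ?_⟩
  · intro y hy
    have hn := b.2.2.1
    rw [hy] at hb hn
    simp only [List.head?_cons, Option.some.injEq] at hb
    subst hb
    rw [List.nodup_cons] at hn
    exact hn.1 (List.mem_of_mem_head? ha)
  · intro y hy
    have hn := a.2.2.1
    rw [hy] at ha hn
    simp only [List.head?_cons, Option.some.injEq] at ha
    subst ha
    rw [List.nodup_cons] at hn
    exact hn.1 (List.mem_of_mem_head? hb)

lemma adj_l [Finite V] {x y : V} (hxy : Γ.Adj x y) : ∀ s ∈ l Γ x, ∀ t ∈ l Γ y,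
    (D Γ).Adj s t := by
  intro s hs t ht
  rw [mem_l] at hs ht
  refine ⟨?_, ?_, ?_⟩
  · rintro rfl
    rw [hs] at ht
    exact hxy.ne (Option.some.inj ht)
  · intro z hz
    have hc := t.2.2.2
    rw [hz] at ht hc
    simp only [List.head?_cons, Option.some.injEq] at ht
    subst ht
    rw [List.isChain_cons] at hc
    exact hc.1 x hs hxy.symm
  · intro z hz
    have hc := s.2.2.2
    rw [hz] at hs hc
    simp only [List.head?_cons, Option.some.injEq] at hs
    subst hs
    rw [List.isChain_cons] at hc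
    exact hc.1 y ht hxy

lemma disj_l [Finite V] {x y : V} (hxy : x ≠ y) : List.Disjoint (l Γ x) (l Γ y) := by
  intro s hs ht
  rw [mem_l] at hs ht
  rw [hs] at ht
  exact hxy (Option.some.inj ht)

/-- The embedding. -/
noncomputable def φ [Finite V] : RAAG Γ →* RAAG (D Γ) :=
  lift (fun x => ((l Γ x).map (of (D Γ))).prod) (by
    intro x y hxy
    apply Commute.list_prod_left
    intro a ha
    obtain ⟨s, hs, rfl⟩ := List.mem_map.1 ha
    apply Commute.list_prod_right
    intro b hb
    obtain ⟨t, ht, rfl⟩ := List.mem_map.1 hb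
    exact of_comm _ (adj_l Γ hxy s hs t ht))

lemma φ_of [Finite V] (x : V) : φ Γ (of Γ x) = ((l Γ x).map (of (D Γ))).prod := lift_of _ _ _

/-- Extensions of a path. -/
def Ext (c : T Γ) : Set (T Γ) := {p | c.1 <:+ p.1}

lemma retr_φ_of_notMem [Finite V] (c : T Γ) {x : V} (hx : x ∈ c.1.tail) :
    retr (D Γ) (Ext Γ c) (φ Γ (of Γ x)) = 1 := by
  rw [φ_of, map_list_prod, List.map_map]
  apply List.prod_eq_one
  intro a ha
  obtain ⟨s, hs, rfl⟩ := List.mem_map.1 ha
  rw [mem_l] at hs
  apply retr_of_notMem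
  rintro ⟨r, hr⟩
  have hn := s.2.2.1
  rw [← hr] at hs hn
  cases r with
  | nil =>
    simp only [List.nil_append] at hs hn
    obtain ⟨z, c', hc⟩ := List.exists_cons_of_ne_nil c.2.1
    rw [hc] at hs hn hx
    simp only [List.head?_cons, Option.some.injEq, List.tail_cons] at hs hx
    subst hs
    exact (List.nodup_cons.1 hn).1 hx
  | cons z r =>
    simp only [List.cons_append, List.head?_cons, Option.some.injEq] at hs hn
    subst hs
    exact (List.nodup_cons.1 hn).1 (List.mem_append_right _ (List.mem_of_mem_tail hx))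

lemma retr_φ_head [Finite V] (c : T Γ) {x : V} (hx : c.1.head? = some x) :
    retr (D Γ) (Ext Γ c) (φ Γ (of Γ x)) = of (D Γ) c := by
  classical
  have hmem : c ∈ l Γ x := (mem_l Γ x c).2 hx
  have hmem' := List.perm_cons_erase hmem
  have hnd := nodup_l Γ x
  have hprod : ((l Γ x).map (of (D Γ))).prod =
      of (D Γ) c * (((l Γ x).erase c).map (of (D Γ))).prod := by
    rw [← List.prod_cons, ← List.map_cons]
    apply (hmem'.map _).prod_eq'
    rw [List.pairwise_map]
    exact (pairwise_l Γ x).imp (fun h => of_comm _ h)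
  rw [φ_of, hprod, map_mul, retr_of_mem (show c ∈ Ext Γ c from List.suffix_rfl), map_list_prod,
    List.map_map, List.prod_eq_one, mul_one]
  intro a ha
  obtain ⟨s, hs, rfl⟩ := List.mem_map.1 ha
  rw [List.Nodup.mem_erase_iff hnd, mem_l] at hs
  apply retr_of_notMem
  rintro ⟨r, hr⟩
  have hn := s.2.2.1
  cases r with
  | nil =>
    exact hs.1 (Subtype.ext hr.symm)
  | cons z r =>
    rw [← hr] at hn
    have h2 := hs.2
    rw [← hr] at h2
    simp only [List.cons_append, List.head?_cons, Option.some.injEq] at h2 hn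
    subst h2
    exact (List.nodup_cons.1 hn).1 (List.mem_append_right _ (List.mem_of_mem_head? hx))

lemma retr_φ_mem [Finite V] (c : T Γ) (L : Set V) (hL : ∀ x ∈ L, c.1.head? ≠ some x) (g : RAAG Γ)
    (hg : g ∈ sub Γ L) : retr (D Γ) (Ext Γ c) (φ Γ g) ∈ sub (D Γ) {t | t ≠ c} := by
  have h1 : sub Γ L ≤ (sub (D Γ) {t | t ≠ c}).comap ((retr (D Γ) (Ext Γ c)).comp (φ Γ)) := by
    unfold sub
    rw [Subgroup.closure_le]
    rintro _ ⟨x, hx, rfl⟩
    show retr (D Γ) (Ext Γ c) (φ Γ (of Γ x)) ∈ sub (D Γ) {t | t ≠ c}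
    have h2 : φ Γ (of Γ x) ∈ sub (D Γ) {t | t ≠ c} := by
      rw [φ_of]
      apply Subgroup.list_prod_mem
      intro a ha
      obtain ⟨s, hs, rfl⟩ := List.mem_map.1 ha
      rw [mem_l] at hs
      apply of_mem_sub
      rintro rfl
      exact hL x hx hs
    exact sub_mono Set.inter_subset_right (retr_mem_of_mem _ _ _ h2)
  exact h1 hg

/-- The support claim. -/
lemma claim [Finite V] : ∀ (n : ℕ) (c : T Γ) (x : V), c.1.head? = some x →
    Nat.card V < c.1.length + n →
    ∀ g : RAAG Γ, g ∈ sub Γ {z | z ∉ c.1.tail} → g ∉ sub Γ {z | z ≠ x} →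
      retr (D Γ) (Ext Γ c) (φ Γ g) ∉ sub (D Γ) {t | t ≠ c} := by
  classical
  intro n
  induction n with
  | zero =>
    intro c x _ hc
    exfalso
    have := Fintype.ofFinite V
    rw [Nat.card_eq_fintype_card] at hc
    have := c.2.2.1.length_le_card
    omega
  | succ n ih =>
    intro c x hx hc g hg hgx
    obtain ⟨w, rfl, hw⟩ := exists_red g
    have hwL := (hw.mem_sub_iff _).1 hg
    obtain ⟨g₀, l, hg₀, hl0, hl, hch, hww, -⟩ := exists_form (Γ := Γ) x {z | z ∉ c.1.tail} w hwL
      (fun w₁ e u w₂ h => hw.no_pinch h)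
    have hne : l ≠ [] := by
      intro h
      exact hgx (wp_mem_sub _ _ (hl0 h))
    have hF : retr (D Γ) (Ext Γ c) (φ Γ (wp Γ w)) = retr (D Γ) (Ext Γ c) (φ Γ g₀) *
        ((l.map (fun p => (p.1, retr (D Γ) (Ext Γ c) (φ Γ p.2)))).map
          (fun p => sgn (D Γ) c p.1 * p.2)).prod := by
      rw [hww, map_mul, map_mul, map_list_prod, map_list_prod, List.map_map, List.map_map,
        List.map_map]
      congr 2
      apply List.map_congr_left
      rintro ⟨b, u⟩ -
      simp only [Function.comp_apply, map_mul]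
      congr 1
      have h1 := retr_φ_head Γ c hx
      cases b
      · show retr (D Γ) (Ext Γ c) (φ Γ (of Γ x)⁻¹) = (of (D Γ) c)⁻¹
        rw [map_inv, map_inv, h1]
      · exact h1
    rw [hF]
    have hmem : ∀ u ∈ sub Γ ({z | z ∉ c.1.tail} ∩ {z | z ≠ x}),
        retr (D Γ) (Ext Γ c) (φ Γ u) ∈ sub (D Γ) {t | t ≠ c} := by
      intro u hu
      apply retr_φ_mem Γ c _ _ u hu
      rintro z ⟨-, hz⟩ hz2
      rw [hx] at hz2
      exact hz (Option.some.inj hz2).symm
    apply britton c _ (hmem _ hg₀)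
    · intro h
      exact hne (List.map_eq_nil_iff.1 h)
    · intro p hp
      obtain ⟨q, hq, rfl⟩ := List.mem_map.1 hp
      exact hmem _ (hl q hq)
    · rw [List.isChain_map]
      apply hch.imp_of_mem_imp
      rintro ⟨b, u⟩ ⟨b', u'⟩ hp - hR hb
      have hu := hl _ hp
      simp only at hb hu hR ⊢
      have hulk := hR hb
      intro hcon
      -- a letter of `u` not commuting with `x`
      obtain ⟨v, hvu, hv⟩ := exists_red u
      rw [← hvu] at hulk hu hcon
      have hvL := (hv.mem_sub_iff _).1 hu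
      rw [lk, hv.mem_sub_iff] at hulk
      push Not at hulk
      obtain ⟨⟨z, b₁⟩, hzv, hz⟩ := hulk
      obtain ⟨hz1, hz2⟩ := hvL _ hzv
      simp only [Set.mem_ofPred_eq] at hz hz1 hz2
      obtain ⟨y, c', hyc⟩ := List.exists_cons_of_ne_nil c.2.1
      have hyx : y = x := by
        rw [hyc] at hx
        exact Option.some.inj hx
      subst hyx
      have hzc : z ∉ c.1 := by
        rw [hyc] at hz1 ⊢
        simp only [List.tail_cons] at hz1
        simp only [List.mem_cons, not_or]
        exact ⟨hz2, hz1⟩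
      let d : T Γ := ⟨z :: c.1, by simp, List.nodup_cons.2 ⟨hzc, c.2.2.1⟩, by
        rw [List.isChain_cons]
        refine ⟨?_, c.2.2.2⟩
        intro y' hy'
        rw [hx] at hy'
        cases hy'
        exact fun h => hz h.symm⟩
      have hd : d.1 = z :: c.1 := rfl
      have h3 := ih d z rfl (by rw [hd, List.length_cons]; omega) (wp Γ v) ?_ ?_
      · apply h3
        have h4 : Ext Γ d ⊆ Ext Γ c := by
          intro p hp
          exact (List.suffix_cons z c.1).trans hp
        rw [← retr_retr _ _ h4]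
        have h5 : lk (D Γ) c ≤ sub (D Γ) {t | t ≠ d} := by
          apply sub_mono
          rintro t ht rfl
          exact ht.2.1 z hd
        exact sub_mono Set.inter_subset_right (retr_mem_of_mem _ _ _ (h5 hcon))
      · apply wp_mem_sub
        intro p hp
        obtain ⟨h6, h7⟩ := hvL p hp
        rw [hd, List.tail_cons]
        intro hpc
        rw [hyc] at hpc h6
        rcases List.mem_cons.1 hpc with h8 | h8
        · exact h7 h8
        · exact h6 h8
      · intro h6
        exact (hv.mem_sub_iff _).1 h6 _ hzv rfl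

lemma φ_injective [Finite V] : Function.Injective (φ Γ) := by
  rw [injective_iff_map_eq_one]
  intro g hg
  obtain ⟨w, rfl, hw⟩ := exists_red g
  by_contra hne
  have hw0 : w ≠ [] := by
    rintro rfl
    exact hne wp_nil
  obtain ⟨⟨x, b⟩, w', rfl⟩ := List.exists_cons_of_ne_nil hw0
  let c : T Γ := ⟨[x], by simp, by simp, List.isChain_singleton _⟩
  have := claim Γ (Nat.card V) c x rfl (by
      show _ < [x].length + _
      simp) (wp Γ ((x, b) :: w')) (wp_mem_sub _ _ (by
      intro p hp
      show p.1 ∉ [x].tail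
      simp)) (hw.notMem ⟨b, List.mem_cons_self⟩)
  apply this
  rw [hg, map_one]
  exact one_mem _

end Forest

theorem forest_embedding {V : Type} [Finite V] (Γ : SimpleGraph V) :
    ∃ (T : Type) (_ : Finite T) (Δ : SimpleGraph T) (φ : RAAG Γ →* RAAG Δ) (l : V → List T),
      (Δᶜ).IsAcyclic ∧ Function.Injective φ ∧
      (∀ x, φ (of Γ x) = ((l x).map (of Δ)).prod) ∧
      (∀ x, (l x).Pairwise Δ.Adj) ∧
      (∀ x y, x ≠ y → List.Disjoint (l x) (l y)) ∧
      (∀ x y, Γ.Adj x y → ∀ s ∈ l x, ∀ t ∈ l y, Δ.Adj s t) :=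
  ⟨Forest.T Γ, inferInstance, Forest.D Γ, Forest.φ Γ, Forest.l Γ, Forest.acyclic Γ,
    Forest.φ_injective Γ, Forest.φ_of Γ, Forest.pairwise_l Γ, fun _ _ h => Forest.disj_l Γ h,
    fun _ _ h => Forest.adj_l Γ h⟩

end VSp
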