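import Pool.Agent.VSp.Raag
import Pool.Agent.VSp.Forest

set_option autoImplicit false

/-! M8. Products of distinct letters over a forest are conjugate; reversal. -/

namespace VSp

namespace Coxeter

/-- In an acyclic graph every nonempty finite set of vertices contains a vertex with at most one
neighbour in the set. -/
lemma exists_leaf {T : Type} (G : SimpleGraph T) (hG : G.IsAcyclic) (L : Set T) (hfin : L.Finite)
    (hne : L.Nonempty) : ∃ x ∈ L, ∀ y ∈ L, ∀ z ∈ L, G.Adj x y → G.Adj x z → y = z := by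
  have : Finite L := hfin
  have : Nonempty L := hne.to_subtype
  obtain ⟨u, v, p, hp, hmax⟩ :=
    SimpleGraph.Walk.exists_isPath_forall_isPath_length_le_length (G.induce L)
  have hA := hG.induce L
  have key : ∀ y : L, (G.induce L).Adj u y → y = p.snd := by
    intro y hy
    apply hA.eq_snd_of_adj_start hp hy
    by_contra hns
    have h1 := hmax _ _ (SimpleGraph.Walk.cons hy.symm p) (hp.cons hns)
    rw [SimpleGraph.Walk.length_cons] at h1
    omega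
  refine ⟨u, u.2, fun y hy z hz h1 h2 => ?_⟩
  have e1 := key ⟨y, hy⟩ h1
  have e2 := key ⟨z, hz⟩ h2
  rw [← e2] at e1
  exact congrArg Subtype.val e1

variable {T : Type} (Δ : SimpleGraph T)

lemma sgn_mem {L : Set T} {x : T} (b : Bool) (hx : x ∈ L) : sgn Δ x b ∈ sub Δ L := by
  cases b
  · exact inv_mem (of_mem_sub hx)
  · exact of_mem_sub hx

lemma sgn_comm {x y : T} (a b : Bool) (h : Δ.Adj x y) : Commute (sgn Δ x a) (sgn Δ y b) := by
  have h1 := of_comm Δ h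
  cases a <;> cases b
  · exact h1.inv_inv
  · exact h1.inv_left
  · exact h1.inv_right
  · exact h1

lemma sgn_comm_wp {x : T} (a : Bool) (w : List (T × Bool)) (h : ∀ p ∈ w, Δ.Adj x p.1) :
    Commute (sgn Δ x a) (wp Δ w) := by
  apply Commute.list_prod_right
  intro b hb
  obtain ⟨p, hp, rfl⟩ := List.mem_map.1 hb
  exact sgn_comm Δ _ _ (h p hp)

open Classical in
/-- The hom `z ^ c ↦ x ^ b z ^ c`, fixing the letters in `L`, killing all others. -/
noncomputable def ins (L : Set T) (x z : T) (b c : Bool)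
    (hx : ∀ y ∈ L, y ≠ z → Δ.Adj x y) : RAAG Δ →* RAAG Δ :=
  lift (fun y => if y ∈ L then (if y = z then
      (cond c (sgn Δ x b * of Δ z) (of Δ z * (sgn Δ x b)⁻¹)) else of Δ y) else 1) (by
    intro y w hyw
    by_cases hy : y ∈ L
    · by_cases hw : w ∈ L
      · rw [if_pos hy, if_pos hw]
        by_cases hyz : y = z
        · have hwz : w ≠ z := by
            rintro rfl
            exact hyw.ne hyz
          rw [if_pos hyz, if_neg hwz]
          subst hyz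
          have h1 : Commute (sgn Δ x b) (of Δ w) := sgn_comm Δ b true (hx w hw hwz)
          cases c
          · exact (of_comm Δ hyw).mul_left h1.inv_left
          · exact h1.mul_left (of_comm Δ hyw)
        · rw [if_neg hyz]
          by_cases hwz : w = z
          · rw [if_pos hwz]
            subst hwz
            have h1 : Commute (of Δ y) (sgn Δ x b) := (sgn_comm Δ b true (hx y hy hyz)).symm
            cases c
            · exact (of_comm Δ hyw).mul_right h1.inv_right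
            · exact h1.mul_right (of_comm Δ hyw)
          · rw [if_neg hwz]
            exact of_comm Δ hyw
      · rw [if_neg hw]
        exact Commute.one_right _
    · rw [if_neg hy]
      exact Commute.one_left _)

lemma ins_z (L : Set T) (x z : T) (b c : Bool) (hx : ∀ y ∈ L, y ≠ z → Δ.Adj x y) (hz : z ∈ L) :
    ins Δ L x z b c hx (sgn Δ z c) = sgn Δ x b * sgn Δ z c := by
  have h1 : ins Δ L x z b c hx (of Δ z) =
      cond c (sgn Δ x b * of Δ z) (of Δ z * (sgn Δ x b)⁻¹) := by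
    rw [ins, lift_of, if_pos hz, if_pos rfl]
  cases c
  · show ins Δ L x z b false hx (of Δ z)⁻¹ = sgn Δ x b * (of Δ z)⁻¹
    rw [map_inv, h1]
    simp
  · exact h1

lemma ins_of (L : Set T) (x z : T) (b c : Bool) (hx : ∀ y ∈ L, y ≠ z → Δ.Adj x y) {y : T}
    (hy : y ∈ L) (hyz : y ≠ z) (e : Bool) : ins Δ L x z b c hx (sgn Δ y e) = sgn Δ y e := by
  have h1 : ins Δ L x z b c hx (of Δ y) = of Δ y := by
    rw [ins, lift_of, if_pos hy, if_neg hyz]
  cases e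
  · show ins Δ L x z b c hx (of Δ y)⁻¹ = (of Δ y)⁻¹
    rw [map_inv, h1]
  · exact h1

lemma ins_wp (L : Set T) (x z : T) (b c : Bool) (hx : ∀ y ∈ L, y ≠ z → Δ.Adj x y)
    (w : List (T × Bool)) (hw : ∀ p ∈ w, p.1 ∈ L ∧ p.1 ≠ z) :
    ins Δ L x z b c hx (wp Δ w) = wp Δ w := by
  induction w with
  | nil => rw [wp_nil, map_one]
  | cons a w ih =>
    rw [wp_cons, map_mul, ih (fun p hp => hw p (List.mem_cons_of_mem _ hp)),
      ins_of Δ L x z b c hx (hw a List.mem_cons_self).1 (hw a List.mem_cons_self).2]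

lemma ins_mem (L : Set T) (x z : T) (b c : Bool) (hx : ∀ y ∈ L, y ≠ z → Δ.Adj x y) (M : Set T)
    (hM : L ⊆ M) (hxM : x ∈ M) (hzM : z ∈ M) (g : RAAG Δ) (hg : g ∈ sub Δ L) :
    ins Δ L x z b c hx g ∈ sub Δ M := by
  have h1 : sub Δ L ≤ (sub Δ M).comap (ins Δ L x z b c hx) := by
    rw [sub, Subgroup.closure_le]
    rintro _ ⟨y, hy, rfl⟩
    show ins Δ L x z b c hx (of Δ y) ∈ sub Δ M
    rw [ins, lift_of, if_pos hy]
    by_cases hyz : y = z
    · rw [if_pos hyz]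
      cases c
      · exact mul_mem (of_mem_sub hzM) (inv_mem (sgn_mem Δ b hxM))
      · exact mul_mem (sgn_mem Δ b hxM) (of_mem_sub hzM)
    · rw [if_neg hyz]
      exact of_mem_sub (hM hy)
  exact h1 hg

/-- Moving `x` in front of `z`. -/
lemma move [DecidableEq T] (x z : T) (b c : Bool) (l : List (T × Bool))
    (hn : (l.map Prod.fst).Nodup) (hxl : (x, b) ∈ l) (hzl : (z, c) ∈ l) (hxz : x ≠ z) (L : Set T)
    (hL : ∀ y, y ∈ L ↔ y ≠ x ∧ ∃ b, (y, b) ∈ l)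
    (hx : ∀ y ∈ L, y ≠ z → Δ.Adj x y) :
    ∃ u ∈ sub Δ {x | ∃ b, (x, b) ∈ l},
      ins Δ L x z b c hx (wp Δ (l.erase (x, b))) = u * wp Δ l * u⁻¹ := by
  have inj := List.inj_on_of_nodup_map hn
  have hnl := List.Nodup.of_map _ hn
  have f1 : ∀ p ∈ l, p ≠ (x, b) → p.1 ∈ L := by
    intro p hp hne
    rw [hL]
    exact ⟨fun h => hne (inj hp hxl h), p.2, hp⟩
  have f2 : ∀ p ∈ l, p ≠ (z, c) → p.1 ≠ z := fun p hp hne h => hne (inj hp hzl h)
  have hzL : z ∈ L := (hL z).2 ⟨hxz.symm, c, hzl⟩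
  obtain ⟨A, B, hAB⟩ := List.append_of_mem hzl
  have hxz2 : (x, b) ≠ (z, c) := fun h => hxz (congrArg Prod.fst h)
  have hor : (x, b) ∈ A ∨ (x, b) ∈ B := by
    rw [hAB] at hxl
    rcases List.mem_append.1 hxl with h | h
    · exact Or.inl h
    · rcases List.mem_cons.1 h with h | h
      · exact absurd h hxz2
      · exact Or.inr h
  rcases hor with h | h
  · obtain ⟨A₁, A₂, hA⟩ := List.append_of_mem h
    have hl : l = A₁ ++ (x, b) :: (A₂ ++ (z, c) :: B) := by rw [hAB, hA]; simp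
    have g1 : ∀ p ∈ A₁ ++ A₂ ++ B, p ∈ l ∧ p ≠ (x, b) ∧ p ≠ (z, c) := by
      rw [hl] at hnl ⊢
      intro p hp
      simp only [List.nodup_append, List.nodup_cons, List.mem_append, List.mem_cons] at hnl hp ⊢
      grind
    have g2 : ∀ p ∈ A₁ ++ A₂ ++ B, p.1 ∈ L ∧ p.1 ≠ z := fun p hp =>
      ⟨f1 p (g1 p hp).1 (g1 p hp).2.1, f2 p (g1 p hp).1 (g1 p hp).2.2⟩
    have he : l.erase (x, b) = A₁ ++ (A₂ ++ (z, c) :: B) := by
      rw [hl, List.erase_append_right, List.erase_cons_head]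
      intro hc
      exact (g1 (x, b) (by simp [hc])).2.1 rfl
    refine ⟨1, one_mem _, ?_⟩
    have hA₁ : ins Δ L x z b c hx (wp Δ A₁) = wp Δ A₁ :=
      ins_wp Δ L x z b c hx A₁ (fun p hp => g2 p (by simp [hp]))
    have hA₂ : ins Δ L x z b c hx (wp Δ A₂) = wp Δ A₂ :=
      ins_wp Δ L x z b c hx A₂ (fun p hp => g2 p (by simp [hp]))
    have hB : ins Δ L x z b c hx (wp Δ B) = wp Δ B :=
      ins_wp Δ L x z b c hx B (fun p hp => g2 p (by simp [hp]))
    have hcm : Commute (sgn Δ x b) (wp Δ A₂) := by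
      apply sgn_comm_wp
      intro p hp
      obtain ⟨h1, h2⟩ := g2 p (by simp [hp])
      exact hx _ h1 h2
    rw [he, hl]
    simp only [wp_append, wp_cons, map_mul, hA₁, hA₂, hB, ins_z Δ L x z b c hx hzL]
    rw [one_mul, inv_one, mul_one, ← mul_assoc (wp Δ A₂), ← mul_assoc (wp Δ A₂), ← hcm.eq]
    simp only [mul_assoc]
  · obtain ⟨B₁, B₂, hB⟩ := List.append_of_mem h
    have hl : l = (A ++ (z, c) :: B₁) ++ (x, b) :: B₂ := by rw [hAB, hB]; simp
    have g1 : ∀ p ∈ A ++ B₁ ++ B₂, p ∈ l ∧ p ≠ (x, b) ∧ p ≠ (z, c) := by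
      rw [hl] at hnl ⊢
      intro p hp
      simp only [List.nodup_append, List.nodup_cons, List.mem_append, List.mem_cons] at hnl hp ⊢
      grind
    have g2 : ∀ p ∈ A ++ B₁ ++ B₂, p.1 ∈ L ∧ p.1 ≠ z := fun p hp =>
      ⟨f1 p (g1 p hp).1 (g1 p hp).2.1, f2 p (g1 p hp).1 (g1 p hp).2.2⟩
    have he : l.erase (x, b) = (A ++ (z, c) :: B₁) ++ B₂ := by
      rw [hl, List.erase_append_right, List.erase_cons_head]
      intro hc
      rcases List.mem_append.1 hc with hc | hc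
      · exact (g1 (x, b) (by simp [hc])).2.1 rfl
      · rcases List.mem_cons.1 hc with hc | hc
        · exact hxz2 hc
        · exact (g1 (x, b) (by simp [hc])).2.1 rfl
    refine ⟨sgn Δ x b, sgn_mem Δ b ⟨b, hxl⟩, ?_⟩
    have hA : ins Δ L x z b c hx (wp Δ A) = wp Δ A :=
      ins_wp Δ L x z b c hx A (fun p hp => g2 p (by simp [hp]))
    have hB₁ : ins Δ L x z b c hx (wp Δ B₁) = wp Δ B₁ :=
      ins_wp Δ L x z b c hx B₁ (fun p hp => g2 p (by simp [hp]))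
    have hB₂ : ins Δ L x z b c hx (wp Δ B₂) = wp Δ B₂ :=
      ins_wp Δ L x z b c hx B₂ (fun p hp => g2 p (by simp [hp]))
    have hcA : Commute (sgn Δ x b) (wp Δ A) := by
      apply sgn_comm_wp
      intro p hp
      obtain ⟨h1, h2⟩ := g2 p (by simp [hp])
      exact hx _ h1 h2
    have hcB : Commute (sgn Δ x b) (wp Δ B₂) := by
      apply sgn_comm_wp
      intro p hp
      obtain ⟨h1, h2⟩ := g2 p (by simp [hp])
      exact hx _ h1 h2
    rw [he, hl]
    simp only [wp_append, wp_cons, map_mul, hA, hB₁, hB₂, ins_z Δ L x z b c hx hzL]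
    rw [hcB.eq, ← mul_assoc (sgn Δ x b) (wp Δ A * _), ← mul_assoc (sgn Δ x b) (wp Δ A), hcA.eq]
    simp only [mul_assoc, mul_inv_cancel, mul_one]

lemma coxeter_aux (hΔ : (Δᶜ).IsAcyclic) : ∀ (n : ℕ) (l₁ l₂ : List (T × Bool)), l₁.length = n →
    l₁.Perm l₂ → (l₁.map Prod.fst).Nodup →
    ∃ u ∈ sub Δ {x | ∃ b, (x, b) ∈ l₁}, wp Δ l₂ = u * wp Δ l₁ * u⁻¹ := by
  classical
  intro n
  induction n with
  | zero =>
    intro l₁ l₂ h0 hp _
    have h1 : l₁ = [] := List.length_eq_zero_iff.1 h0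
    subst h1
    have h2 : l₂ = [] := List.nil_perm.1 hp
    subst h2
    exact ⟨1, one_mem _, by simp⟩
  | succ n ih =>
    intro l₁ l₂ hlen hp hn
    have hfin : {x | ∃ b, (x, b) ∈ l₁}.Finite := by
      apply (l₁.map Prod.fst).finite_toSet.subset
      rintro x ⟨b, hb⟩
      exact List.mem_map.2 ⟨_, hb, rfl⟩
    have hne : {x | ∃ b, (x, b) ∈ l₁}.Nonempty := by
      obtain ⟨⟨x, b⟩, l', hl'⟩ := List.exists_cons_of_length_eq_add_one hlen
      exact ⟨x, b, by rw [hl']; exact List.mem_cons_self⟩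
    obtain ⟨x, ⟨b, hxb⟩, hx⟩ := exists_leaf _ hΔ _ hfin hne
    have hxb2 : (x, b) ∈ l₂ := hp.mem_iff.1 hxb
    have hn2 : (l₂.map Prod.fst).Nodup := (hp.map _).nodup_iff.1 hn
    have inj := List.inj_on_of_nodup_map hn
    have hnl := List.Nodup.of_map _ hn
    have hset : {x | ∃ b, (x, b) ∈ l₂} = {x | ∃ b, (x, b) ∈ l₁} := by
      ext y
      exact exists_congr fun b => hp.mem_iff.symm
    obtain ⟨u, hu, hu2⟩ := ih (l₁.erase (x, b)) (l₂.erase (x, b))
      (by rw [List.length_erase_of_mem hxb, hlen]; rfl) (hp.erase _)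
      (hn.sublist ((List.erase_sublist).map _))
    have hnx : ∀ p ∈ l₁.erase (x, b), p ∈ l₁ ∧ p.1 ≠ x := by
      intro p hp
      rw [hnl.mem_erase_iff] at hp
      exact ⟨hp.2, fun h => hp.1 (inj hp.2 hxb h)⟩
    by_cases hz : ∃ z c, (z, c) ∈ l₁ ∧ (Δᶜ).Adj x z
    · obtain ⟨z, c, hzc, hxz⟩ := hz
      let L : Set T := {y | y ≠ x ∧ ∃ b, (y, b) ∈ l₁}
      have hL : ∀ y, y ∈ L ↔ y ≠ x ∧ ∃ b, (y, b) ∈ l₁ := fun _ => Iff.rfl
      have hL2 : ∀ y, y ∈ L ↔ y ≠ x ∧ ∃ b, (y, b) ∈ l₂ := fun y =>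
        (hL y).trans (and_congr Iff.rfl (exists_congr fun b => hp.mem_iff))
      have hadj : ∀ y ∈ L, y ≠ z → Δ.Adj x y := by
        intro y hy hyz
        by_contra hc
        apply hyz
        refine hx y hy.2 z ⟨c, hzc⟩ ?_ hxz
        rw [SimpleGraph.compl_adj]
        exact ⟨hy.1.symm, hc⟩
      obtain ⟨u₁, hu₁, e₁⟩ := move Δ x z b c l₁ hn hxb hzc hxz.ne L hL hadj
      obtain ⟨u₂, hu₂, e₂⟩ := move Δ x z b c l₂ hn2 hxb2 (hp.mem_iff.1 hzc) hxz.ne L hL2 hadj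
      rw [hset] at hu₂
      have hu' : ins Δ L x z b c hadj u ∈ sub Δ {x | ∃ b, (x, b) ∈ l₁} := by
        apply ins_mem Δ L x z b c hadj _ (fun y hy => hy.2) ⟨b, hxb⟩ ⟨c, hzc⟩
        refine sub_mono ?_ hu
        rintro y ⟨d, hd⟩
        exact ⟨(hnx _ hd).2, d, (hnx _ hd).1⟩
      have e₃ := congrArg (ins Δ L x z b c hadj) hu2
      rw [map_mul, map_mul, map_inv, e₁, e₂] at e₃
      refine ⟨u₂⁻¹ * ins Δ L x z b c hadj u * u₁, mul_mem (mul_mem (inv_mem hu₂) hu') hu₁, ?_⟩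
      have e₄ : wp Δ l₂ = u₂⁻¹ * (u₂ * wp Δ l₂ * u₂⁻¹) * u₂ := by group
      rw [e₄, e₃]
      group
    · push Not at hz
      have hadj : ∀ p ∈ l₁, p.1 ≠ x → Δ.Adj x p.1 := by
        rintro ⟨y, c⟩ hy hyx
        by_contra hc
        exact hz y c hy ((SimpleGraph.compl_adj _ _ _).2 ⟨Ne.symm hyx, hc⟩)
      have hsplit : ∀ l : List (T × Bool), (x, b) ∈ l → (∀ p ∈ l, p ∈ l₁) → l.Nodup →
          wp Δ l = sgn Δ x b * wp Δ (l.erase (x, b)) := by
        intro l hl hsub hnd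
        obtain ⟨A, B, hAB⟩ := List.append_of_mem hl
        have hA : (x, b) ∉ A := by
          intro h
          rw [hAB, List.nodup_append] at hnd
          exact hnd.2.2 _ h _ List.mem_cons_self rfl
        rw [hAB, List.erase_append_right _ hA, List.erase_cons_head, wp_append, wp_append, wp_cons,
          ← mul_assoc, ← mul_assoc]
        congr 1
        apply Commute.eq
        apply Commute.symm
        apply sgn_comm_wp
        intro p hp
        have hpl : p ∈ l₁ := hsub p (by rw [hAB]; exact List.mem_append_left _ hp)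
        refine hadj p hpl ?_
        intro h
        apply hA
        rw [← inj hpl hxb h]
        exact hp
      have hcu : Commute (sgn Δ x b) u := by
        have hb : sgn Δ x b ∈ sub Δ {x} := sgn_mem Δ b rfl
        refine commute_sub ?_ _ _ hb hu
        rintro y rfl w ⟨d, hd⟩
        exact hadj _ (hnx _ hd).1 (hnx _ hd).2
      refine ⟨u, sub_mono ?_ hu, ?_⟩
      · rintro y ⟨d, hd⟩
        exact ⟨d, (hnx _ hd).1⟩
      · rw [hsplit l₁ hxb (fun p hp => hp) hnl,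
          hsplit l₂ hxb2 (fun p h => hp.mem_iff.2 h) (List.Nodup.of_map _ hn2), hu2,
          ← mul_assoc u, ← hcu.eq]
        simp only [mul_assoc]

end Coxeter

theorem coxeter_conj {T : Type} (Δ : SimpleGraph T) (hΔ : (Δᶜ).IsAcyclic)
    (l₁ l₂ : List (T × Bool)) (hp : l₁.Perm l₂) (hn : (l₁.map Prod.fst).Nodup) :
    ∃ u ∈ sub Δ {x | ∃ b, (x, b) ∈ l₁}, wp Δ l₂ = u * wp Δ l₁ * u⁻¹ :=
  Coxeter.coxeter_aux Δ hΔ _ l₁ l₂ rfl hp hn

namespace Coxeter

variable {T : Type} (Δ : SimpleGraph T)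

/-- Inversion of all letters. -/
def inv : RAAG Δ →* RAAG Δ :=
  lift (fun x => (of Δ x)⁻¹) (fun _ _ h => (of_comm Δ h).inv_inv)

lemma inv_of (x : T) : inv Δ (of Δ x) = (of Δ x)⁻¹ := lift_of _ _ _

lemma inv_inv : (inv Δ).comp (inv Δ) = MonoidHom.id _ :=
  hom_ext fun x => by
    rw [MonoidHom.comp_apply, inv_of, map_inv, inv_of, _root_.inv_inv]
    rfl

/-- Inversion of all letters, as an isomorphism. -/
def invEquiv : RAAG Δ ≃* RAAG Δ := MonoidHom.toMulEquiv (inv Δ) (inv Δ) (inv_inv Δ) (inv_inv Δ)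

lemma invEquiv_of (x : T) : invEquiv Δ (of Δ x) = (of Δ x)⁻¹ := inv_of Δ x

lemma invEquiv_wp (w : List (T × Bool)) :
    invEquiv Δ (wp Δ w) = wp Δ (w.map fun p => (p.1, !p.2)) := by
  induction w with
  | nil => rw [List.map_nil, wp_nil, map_one]
  | cons a w ih =>
    obtain ⟨x, b⟩ := a
    rw [List.map_cons, wp_cons, wp_cons, map_mul, ih]
    congr 1
    cases b
    · show invEquiv Δ (of Δ x)⁻¹ = of Δ x
      rw [map_inv, invEquiv_of, _root_.inv_inv]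
    · exact invEquiv_of Δ x

lemma inv_mem_sub (L : Set T) (g : RAAG Δ) (hg : g ∈ sub Δ L) : invEquiv Δ g ∈ sub Δ L := by
  have h1 : sub Δ L ≤ (sub Δ L).comap (inv Δ) := by
    nth_rw 1 [sub]
    rw [Subgroup.closure_le]
    rintro _ ⟨y, hy, rfl⟩
    show inv Δ (of Δ y) ∈ sub Δ L
    rw [inv_of]
    exact inv_mem (of_mem_sub hy)
  exact h1 hg

variable {V : Type} {Γ : SimpleGraph V} {Δ} (φ : RAAG Γ →* RAAG Δ) (l : V → List T)

/-- The image word. -/
def ex (v : List (V × Bool)) : List (T × Bool) :=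
  v.flatMap fun p => (l p.1).map fun t => (t, p.2)

lemma φ_sgn (hφ : ∀ x, φ (of Γ x) = ((l x).map (of Δ)).prod)
    (hp : ∀ x, (l x).Pairwise Δ.Adj) (x : V) (b : Bool) :
    φ (sgn Γ x b) = wp Δ ((l x).map fun t => (t, b)) := by
  cases b
  · show φ (of Γ x)⁻¹ = _
    rw [map_inv, hφ, List.prod_inv_reverse, List.map_map]
    show _ = (((l x).map fun t => (t, false)).map fun p => sgn Δ p.1 p.2).prod
    rw [List.map_map]
    apply List.Perm.prod_eq' (List.reverse_perm _)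
    rw [List.pairwise_reverse, List.pairwise_map]
    exact (hp x).imp fun h => ((of_comm Δ h).inv_inv).symm
  · show φ (of Γ x) = _
    rw [hφ]
    show _ = (((l x).map fun t => (t, true)).map fun p => sgn Δ p.1 p.2).prod
    rw [List.map_map]
    rfl

lemma φ_wp (hφ : ∀ x, φ (of Γ x) = ((l x).map (of Δ)).prod)
    (hp : ∀ x, (l x).Pairwise Δ.Adj) (v : List (V × Bool)) :
    φ (wp Γ v) = wp Δ (ex l v) := by
  induction v with
  | nil => rw [wp_nil, map_one, ex, List.flatMap_nil, wp_nil]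
  | cons a v ih =>
    rw [wp_cons, map_mul, ih, φ_sgn φ l hφ hp, ← wp_append]
    rfl

lemma nodup_ex (hp : ∀ x, (l x).Pairwise Δ.Adj)
    (hd : ∀ x y, x ≠ y → List.Disjoint (l x) (l y)) (v : List (V × Bool))
    (hv : (v.map Prod.fst).Nodup) : ((ex l v).map Prod.fst).Nodup := by
  have h1 : (ex l v).map Prod.fst = (v.map Prod.fst).flatMap l := by
    rw [ex, List.map_flatMap, List.flatMap_map]
    congr 1
    funext p
    rw [List.map_map]
    simp [Function.comp_def]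
  rw [h1, List.nodup_flatMap]
  refine ⟨fun x _ => (hp x).imp fun h => h.ne, ?_⟩
  exact hv.imp fun h => hd _ _ h

lemma one_step (hac : (Δᶜ).IsAcyclic) (hφ : ∀ x, φ (of Γ x) = ((l x).map (of Δ)).prod)
    (hp : ∀ x, (l x).Pairwise Δ.Adj)
    (hd : ∀ x y, x ≠ y → List.Disjoint (l x) (l y)) (v : List (V × Bool))
    (hv : (v.map Prod.fst).Nodup) :
    ∃ u ∈ sub Δ {t | ∃ p ∈ v, t ∈ l p.1},
      (φ (wp Γ v))⁻¹ = u * invEquiv Δ (φ (wp Γ v)) * u⁻¹ := by
  have hn := nodup_ex l hp hd v hv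
  obtain ⟨u, hu, hu2⟩ := coxeter_conj Δ hac ((ex l v).map fun p => (p.1, !p.2))
    (FreeGroup.invRev (ex l v)) (List.reverse_perm _).symm (by
      rw [List.map_map]
      exact hn)
  refine ⟨u, sub_mono ?_ hu, ?_⟩
  · rintro t ⟨b, hb⟩
    obtain ⟨⟨t', b'⟩, hb', he⟩ := List.mem_map.1 hb
    obtain ⟨p, hpv, hp2⟩ := List.mem_flatMap.1 hb'
    obtain ⟨t₂, ht₂, he2⟩ := List.mem_map.1 hp2
    cases he2
    cases he
    exact ⟨p, hpv, ht₂⟩
  · rw [φ_wp φ l hφ hp, invEquiv_wp, ← wp_invRev, hu2]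

lemma φ_mem (hφ : ∀ x, φ (of Γ x) = ((l x).map (of Δ)).prod)
    (hp : ∀ x, (l x).Pairwise Δ.Adj) (v : List (V × Bool)) :
    φ (wp Γ v) ∈ sub Δ {t | ∃ p ∈ v, t ∈ l p.1} := by
  rw [φ_wp φ l hφ hp]
  apply wp_mem_sub
  intro q hq
  obtain ⟨p, hpv, hp2⟩ := List.mem_flatMap.1 hq
  obtain ⟨t₂, ht₂, he2⟩ := List.mem_map.1 hp2
  cases he2
  exact ⟨p, hpv, ht₂⟩

lemma all_steps (hac : (Δᶜ).IsAcyclic) (hφ : ∀ x, φ (of Γ x) = ((l x).map (of Δ)).prod)
    (hp : ∀ x, (l x).Pairwise Δ.Adj)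
    (hd : ∀ x y, x ≠ y → List.Disjoint (l x) (l y))
    (hadj : ∀ x y, Γ.Adj x y → ∀ s ∈ l x, ∀ t ∈ l y, Δ.Adj s t) :
    ∀ vs : List (List (V × Bool) × ℤ), (∀ v ∈ vs, (v.1.map Prod.fst).Nodup) →
      vs.Pairwise (fun v v' => ∀ p ∈ v.1, ∀ q ∈ v'.1, Γ.Adj p.1 q.1) →
      φ ((vs.map (fun v => wp Γ v.1 ^ v.2)).prod) ∈ sub Δ {t | ∃ v ∈ vs, ∃ p ∈ v.1, t ∈ l p.1} ∧
      ∃ u ∈ sub Δ {t | ∃ v ∈ vs, ∃ p ∈ v.1, t ∈ l p.1},
        (φ ((vs.map (fun v => wp Γ v.1 ^ v.2)).prod))⁻¹ =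
          u * invEquiv Δ (φ ((vs.map (fun v => wp Γ v.1 ^ v.2)).prod)) * u⁻¹ := by
  intro vs
  induction vs with
  | nil =>
    intro _ _
    refine ⟨by rw [List.map_nil, List.prod_nil, map_one]; exact one_mem _, 1, one_mem _, ?_⟩
    rw [List.map_nil, List.prod_nil, map_one, map_one]
    simp
  | cons v vs ih =>
    intro hn hpw
    rw [List.pairwise_cons] at hpw
    obtain ⟨hmem, u, hu, hu2⟩ := ih (fun w hw => hn w (List.mem_cons_of_mem _ hw)) hpw.2
    obtain ⟨u₁, hu₁, hu₁2⟩ := one_step φ l hac hφ hp hd v.1 (hn v List.mem_cons_self)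
    have hmem₁ := φ_mem φ l hφ hp v.1
    rw [List.map_cons, List.prod_cons]
    set P := (vs.map (fun v => wp Γ v.1 ^ v.2)).prod with hP
    set A : Set T := {t | ∃ p ∈ v.1, t ∈ l p.1} with hA
    set B : Set T := {t | ∃ v ∈ vs, ∃ p ∈ v.1, t ∈ l p.1} with hB
    have hAC : A ⊆ {t | ∃ w ∈ v :: vs, ∃ p ∈ w.1, t ∈ l p.1} := by
      rintro t ⟨p, hp, ht⟩
      exact ⟨v, List.mem_cons_self, p, hp, ht⟩
    have hBC : B ⊆ {t | ∃ w ∈ v :: vs, ∃ p ∈ w.1, t ∈ l p.1} := by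
      rintro t ⟨w, hw, p, hp, ht⟩
      exact ⟨w, List.mem_cons_of_mem _ hw, p, hp, ht⟩
    have hAB : ∀ x ∈ A, ∀ y ∈ B, Δ.Adj x y := by
      rintro s ⟨p, hp, hs⟩ t ⟨w, hw, q, hq, ht⟩
      exact hadj _ _ (hpw.1 w hw p hp q hq) s hs t ht
    have hcomm : ∀ a ∈ sub Δ A, ∀ b ∈ sub Δ B, Commute a b := fun a ha b hb =>
      commute_sub hAB a b ha hb
    refine ⟨?_, u₁ * u, mul_mem (sub_mono hAC hu₁) (sub_mono hBC hu), ?_⟩
    · rw [map_mul, map_zpow]
      exact mul_mem (zpow_mem (sub_mono hAC hmem₁) _) (sub_mono hBC hmem)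
    · rw [map_mul, map_zpow, map_mul, map_zpow, mul_inv_rev, hu2, ← inv_zpow, hu₁2, conj_zpow]
      have c1 : Commute u₁ (u * invEquiv Δ (φ P) * u⁻¹) :=
        hcomm _ hu₁ _ (mul_mem (mul_mem hu (inv_mem_sub Δ _ _ hmem)) (inv_mem hu))
      have c2 : Commute (invEquiv Δ (φ (wp Γ v.1)) ^ v.2) (u * invEquiv Δ (φ P) * u⁻¹) :=
        hcomm _ (zpow_mem (inv_mem_sub Δ _ _ hmem₁) _) _
          (mul_mem (mul_mem hu (inv_mem_sub Δ _ _ hmem)) (inv_mem hu))
      have c3 : Commute (invEquiv Δ (φ (wp Γ v.1)) ^ v.2) u :=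
        hcomm _ (zpow_mem (inv_mem_sub Δ _ _ hmem₁) _) _ hu
      have c4 : Commute u₁ u := hcomm _ hu₁ _ hu
      set X := invEquiv Δ (φ (wp Γ v.1)) ^ v.2
      set Y := invEquiv Δ (φ P)
      have e1 : u * Y * u⁻¹ * (u₁ * X * u₁⁻¹) = u₁ * X * u₁⁻¹ * (u * Y * u⁻¹) :=
        (((c1.symm.mul_right c2.symm)).mul_right c1.symm.inv_right).eq
      have e2 : u₁ * X * u₁⁻¹ * (u * Y * u⁻¹) = u₁ * X * (u * Y * u⁻¹) * u₁⁻¹ := by
        rw [mul_assoc (u₁ * X), mul_assoc (u₁ * X), (c1.inv_left).eq]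
      rw [e1, e2]
      have e3 : u₁ * X * (u * Y * u⁻¹) * u₁⁻¹ = u₁ * (X * u) * Y * u⁻¹ * u₁⁻¹ := by
        simp only [mul_assoc]
      rw [e3, c3.eq]
      simp only [mul_assoc, mul_inv_rev]

end Coxeter

theorem reversal {V : Type} [Finite V] (Γ : SimpleGraph V) :
    ∃ (T : Type) (_ : Finite T) (Δ : SimpleGraph T) (φ : RAAG Γ →* RAAG Δ)
      (θ : RAAG Δ ≃* RAAG Δ), Function.Injective φ ∧ (∀ t, θ (of Δ t) = (of Δ t)⁻¹) ∧
      ∀ vs : List (List (V × Bool) × ℤ), (∀ v ∈ vs, (v.1.map Prod.fst).Nodup) →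
        vs.Pairwise (fun v v' => ∀ p ∈ v.1, ∀ q ∈ v'.1, Γ.Adj p.1 q.1) →
        IsConj (θ (φ ((vs.map (fun v => wp Γ v.1 ^ v.2)).prod)))
          (φ ((vs.map (fun v => wp Γ v.1 ^ v.2)).prod))⁻¹ := by
  obtain ⟨T, hT, Δ, φ, l, hac, hinj, hφ, hp, hd, hadj⟩ := forest_embedding Γ
  refine ⟨T, hT, Δ, φ, Coxeter.invEquiv Δ, hinj, Coxeter.invEquiv_of Δ, ?_⟩
  intro vs hn hpw
  obtain ⟨-, u, -, hu⟩ := Coxeter.all_steps φ l hac hφ hp hd hadj vs hn hpw
  exact isConj_iff.2 ⟨u, hu.symm⟩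

end VSp
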