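import Pool.Agent.VSp.Defs

set_option autoImplicit false

/-! M11. Two equivariant permutations with the same cycle types are conjugate. -/

namespace VSp

universe u v w

namespace Tp

variable {R : Type v} [Group R] {X : Type u}

lemma eq_apply {σ : Equiv.Perm (X × R)} (h : σ ∈ EqG X R) (x : X) (a : R) :
    σ (x, a) = ((σ (x, 1)).1, (σ (x, 1)).2 * a) := by
  have := h x 1 a
  rwa [one_mul] at this

/-- The induced permutation of the first coordinates. -/
def sh (σ : Equiv.Perm (X × R)) (k : ℤ) (x : X) : X := ((σ ^ k) (x, 1)).1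

/-- The cocycle. -/
def co (σ : Equiv.Perm (X × R)) (k : ℤ) (x : X) : R := ((σ ^ k) (x, 1)).2

lemma zpow_apply {σ : Equiv.Perm (X × R)} (h : σ ∈ EqG X R) (k : ℤ) (x : X) (a : R) :
    (σ ^ k) (x, a) = (sh σ k x, co σ k x * a) :=
  eq_apply (Subgroup.zpow_mem _ h k) x a

lemma sh_add {σ : Equiv.Perm (X × R)} (h : σ ∈ EqG X R) (k l : ℤ) (x : X) :
    sh σ (k + l) x = sh σ k (sh σ l x) := by
  have h1 : (σ ^ (k + l)) (x, 1) = (σ ^ k) ((σ ^ l) (x, 1)) := by
    rw [zpow_add, Equiv.Perm.mul_apply]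
  have h2 := zpow_apply h l x 1
  rw [h2, zpow_apply h k] at h1
  show ((σ ^ (k + l)) (x, 1)).1 = _
  rw [h1]

lemma sh_zero (σ : Equiv.Perm (X × R)) (x : X) : sh σ 0 x = x := by
  simp [sh]

lemma sh_neg {σ : Equiv.Perm (X × R)} (h : σ ∈ EqG X R) (k : ℤ) (x : X) :
    sh σ (-k) (sh σ k x) = x := by
  rw [← sh_add h, neg_add_cancel, sh_zero]

/-- The orbit relation. -/
def st (σ : Equiv.Perm (X × R)) (h : σ ∈ EqG X R) : Setoid X where
  r x y := ∃ k : ℤ, sh σ k x = y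
  iseqv :=
    { refl := fun x => ⟨0, sh_zero σ x⟩
      symm := by
        rintro x y ⟨k, rfl⟩
        exact ⟨-k, sh_neg h k x⟩
      trans := by
        rintro x y z ⟨k, rfl⟩ ⟨l, rfl⟩
        exact ⟨l + k, sh_add h l k x⟩ }

/-- The label of a point. -/
def lb (σ : Equiv.Perm (X × R)) (M : ℕ) (x : X) : R := ((σ ^ M) (x, 1)).2

section per

variable {σ : Equiv.Perm (X × R)} (h : σ ∈ EqG X R) {M : ℕ}
  (hc : ∀ (x : X) (k : ℤ), ((σ ^ k) (x, 1)).1 = x ↔ (M : ℤ) ∣ k)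

include h hc

lemma pow_M (x : X) (a : R) : (σ ^ (M : ℤ)) (x, a) = (x, lb σ M x * a) := by
  rw [zpow_apply h]
  have h1 : sh σ (M : ℤ) x = x := (hc x M).2 (dvd_refl _)
  rw [h1]
  have h2 : co σ (M : ℤ) x = lb σ M x := by
    simp [co, lb]
  rw [h2]

lemma pow_Mj (x : X) (a : R) (j : ℤ) :
    (σ ^ ((M : ℤ) * j)) (x, a) = (x, lb σ M x ^ j * a) := by
  induction j using Int.induction_on generalizing a with
  | zero => simp
  | succ j ih =>
    rw [mul_add, mul_one, zpow_add, Equiv.Perm.mul_apply, pow_M h hc, ih, zpow_add, zpow_one,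
      mul_assoc]
  | pred j ih =>
    rw [mul_sub, mul_one, zpow_sub, Equiv.Perm.mul_apply]
    have h1 : (σ ^ (M : ℤ))⁻¹ (x, a) = (x, (lb σ M x)⁻¹ * a) := by
      rw [Equiv.Perm.inv_eq_iff_eq, pow_M h hc, mul_inv_cancel_left]
    rw [h1, ih, zpow_sub, zpow_one, mul_assoc]

lemma lb_conj (k : ℤ) (x : X) : lb σ M (sh σ k x) * co σ k x = co σ k x * lb σ M x := by
  have h1 : (σ ^ (M : ℤ)) ((σ ^ k) (x, 1)) = (σ ^ k) ((σ ^ (M : ℤ)) (x, 1)) := by
    rw [← Equiv.Perm.mul_apply, ← Equiv.Perm.mul_apply, ← zpow_add, ← zpow_add, add_comm]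
  rw [zpow_apply h k, pow_M h hc, pow_M h hc, zpow_apply h k] at h1
  have h2 := congrArg Prod.snd h1
  simpa using h2

lemma cls_eq {x y : X} (hxy : (st σ h).r x y) :
    ConjClasses.mk (lb σ M x) = ConjClasses.mk (lb σ M y) := by
  obtain ⟨k, rfl⟩ := hxy
  rw [ConjClasses.mk_eq_mk_iff_isConj, isConj_iff]
  refine ⟨co σ k x, ?_⟩
  rw [← lb_conj h hc, mul_inv_cancel_right]

/-- The class of an orbit. -/
def oc (ω : Quotient (st σ h)) : ConjClasses R :=
  Quotient.lift (fun x => ConjClasses.mk (lb σ M x)) (fun _ _ hxy => cls_eq h hc hxy) ω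

lemma oc_mk (x : X) : oc h hc (Quotient.mk (st σ h) x) = ConjClasses.mk (lb σ M x) := rfl

lemma sh_inj {k l : ℤ} {x : X} (hkl : sh σ k x = sh σ l x) : (M : ℤ) ∣ k - l := by
  rw [← hc x]
  show sh σ (k - l) x = x
  have h1 : sh σ (-l + k) x = x := by
    rw [sh_add h, hkl, sh_neg h]
  rwa [neg_add_eq_sub] at h1

lemma card_eq [Finite X] (hM : 0 < M) (C : ConjClasses R) :
    Nat.card {x : X // ConjClasses.mk (lb σ M x) = C} =
      Nat.card {ω : Quotient (st σ h) // oc h hc ω = C} * M := by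
  have key : Function.Bijective (fun p : {ω : Quotient (st σ h) // oc h hc ω = C} × Fin M =>
      (⟨sh σ (p.2 : ℤ) (Quotient.out p.1.1), by
        have h1 : ConjClasses.mk (lb σ M (Quotient.out p.1.1)) = C := by
          rw [← oc_mk h hc, Quotient.out_eq]; exact p.1.2
        exact (cls_eq h hc ⟨_, rfl⟩).symm.trans h1⟩ : {x : X // ConjClasses.mk (lb σ M x) = C})) := by
    constructor
    · rintro ⟨⟨ω, hω⟩, i⟩ ⟨⟨ω', hω'⟩, j⟩ hij
      have h1 : sh σ (i : ℤ) (Quotient.out ω) = sh σ (j : ℤ) (Quotient.out ω') :=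
        congrArg Subtype.val hij
      have h2 : ω = ω' := by
        rw [← Quotient.out_eq ω, ← Quotient.out_eq ω']
        apply Quotient.sound
        exact (st σ h).iseqv.trans ⟨_, h1⟩ ((st σ h).iseqv.symm ⟨_, rfl⟩)
      subst h2
      have h3 := sh_inj h hc h1
      have h4 : i = j := by
        have hi := i.2
        have hj := j.2
        apply Fin.ext
        obtain ⟨t, ht⟩ := h3
        have h5 : t = 0 := by
          by_contra hne
          rcases lt_or_gt_of_ne hne with h6 | h6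
          · have : (M : ℤ) * t ≤ (M : ℤ) * (-1) :=
              mul_le_mul_of_nonneg_left (by omega) (by positivity)
            omega
          · have : (M : ℤ) * 1 ≤ (M : ℤ) * t :=
              mul_le_mul_of_nonneg_left (by omega) (by positivity)
            omega
        subst h5
        omega
      subst h4
      rfl
    · rintro ⟨x, hx⟩
      have h1 : (st σ h).r (Quotient.out (Quotient.mk (st σ h) x)) x :=
        Quotient.exact (Quotient.out_eq _)
      obtain ⟨k, hk⟩ := h1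
      have hMz : (0 : ℤ) < M := by exact_mod_cast hM
      have hk0 : 0 ≤ k % M := Int.emod_nonneg _ (ne_of_gt hMz)
      have hk1 : k % M < M := Int.emod_lt_of_pos _ hMz
      refine ⟨(⟨Quotient.mk (st σ h) x, by rw [oc_mk]; exact hx⟩,
        ⟨(k % M).toNat, by omega⟩), ?_⟩
      apply Subtype.ext
      show sh σ (((k % M).toNat : ℕ) : ℤ) (Quotient.out (Quotient.mk (st σ h) x)) = x
      rw [Int.toNat_of_nonneg hk0]
      have h3 : k = k % M + M * (k / M) := (Int.emod_add_mul_ediv k M).symm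
      rw [h3, sh_add h] at hk
      have h4 : sh σ (M * (k / M)) (Quotient.out (Quotient.mk (st σ h) x)) =
          Quotient.out (Quotient.mk (st σ h) x) := (hc _ _).2 (dvd_mul_right _ _)
      rw [h4] at hk
      exact hk
  have h9 := Nat.card_congr (Equiv.ofBijective _ key)
  rw [Nat.card_prod, Nat.card_fin] at h9
  exact h9.symm

end per

end Tp

open Tp in
theorem exists_intertwiner {R : Type v} [Group R] {X₁ : Type u} {X₂ : Type w} [Finite X₁]
    [Finite X₂] (σ₁ : Equiv.Perm (X₁ × R)) (h₁ : σ₁ ∈ EqG X₁ R)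
    (σ₂ : Equiv.Perm (X₂ × R)) (h₂ : σ₂ ∈ EqG X₂ R) (M : ℕ) (hM : 0 < M)
    (hc₁ : ∀ (x : X₁) (k : ℤ), ((σ₁ ^ k) (x, 1)).1 = x ↔ (M : ℤ) ∣ k)
    (hc₂ : ∀ (x : X₂) (k : ℤ), ((σ₂ ^ k) (x, 1)).1 = x ↔ (M : ℤ) ∣ k)
    (hcount : ∀ C : ConjClasses R,
      Nat.card {x : X₁ // ConjClasses.mk ((σ₁ ^ M) (x, 1)).2 = C} =
      Nat.card {x : X₂ // ConjClasses.mk ((σ₂ ^ M) (x, 1)).2 = C}) :
    ∃ Θ : X₁ × R ≃ X₂ × R, (∀ x a b, Θ (x, a * b) = ((Θ (x, a)).1, (Θ (x, a)).2 * b)) ∧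
      ∀ z, Θ (σ₁ z) = σ₂ (Θ z) := by
  classical
  -- bijection of orbits
  have hcard : ∀ C : ConjClasses R, Nat.card {ω : Quotient (st σ₁ h₁) // oc h₁ hc₁ ω = C} =
      Nat.card {ω : Quotient (st σ₂ h₂) // oc h₂ hc₂ ω = C} := by
    intro C
    have := hcount C
    rw [show Nat.card {x : X₁ // ConjClasses.mk ((σ₁ ^ M) (x, 1)).2 = C} = _ from
        card_eq h₁ hc₁ hM C,
      show Nat.card {x : X₂ // ConjClasses.mk ((σ₂ ^ M) (x, 1)).2 = C} = _ from
        card_eq h₂ hc₂ hM C] at this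
    exact Nat.eq_of_mul_eq_mul_right hM this
  have hfib : ∀ C : ConjClasses R, Nonempty ({ω : Quotient (st σ₁ h₁) // oc h₁ hc₁ ω = C} ≃
      {ω : Quotient (st σ₂ h₂) // oc h₂ hc₂ ω = C}) := fun C =>
    (Finite.card_eq).1 (hcard C)
  let f := fun C => Classical.choice (hfib C)
  let e : Quotient (st σ₁ h₁) ≃ Quotient (st σ₂ h₂) :=
    (Equiv.sigmaFiberEquiv (oc h₁ hc₁)).symm.trans
      ((Equiv.sigmaCongrRight f).trans (Equiv.sigmaFiberEquiv (oc h₂ hc₂)))
  have he : ∀ ω, oc h₂ hc₂ (e ω) = oc h₁ hc₁ ω := fun ω => (f (oc h₁ hc₁ ω) ⟨ω, rfl⟩).2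
  -- conjugators
  have hg : ∀ ω, ∃ g : R, g * lb σ₁ M (Quotient.out ω) = lb σ₂ M (Quotient.out (e ω)) * g := by
    intro ω
    have ha : oc h₁ hc₁ ω = ConjClasses.mk (lb σ₁ M (Quotient.out ω)) := by
      conv_lhs => rw [← Quotient.out_eq ω]
      rfl
    have hb : oc h₂ hc₂ (e ω) = ConjClasses.mk (lb σ₂ M (Quotient.out (e ω))) := by
      conv_lhs => rw [← Quotient.out_eq (e ω)]
      rfl
    have h := (ha.symm.trans (he ω).symm).trans hb
    rw [ConjClasses.mk_eq_mk_iff_isConj, isConj_iff] at h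
    obtain ⟨g, hg⟩ := h
    exact ⟨g, by rw [← hg, inv_mul_cancel_right]⟩
  choose g hg using hg
  have hgj : ∀ ω (j : ℤ), g ω * lb σ₁ M (Quotient.out ω) ^ j =
      lb σ₂ M (Quotient.out (e ω)) ^ j * g ω := by
    intro ω j
    have h1 : SemiconjBy (g ω) (lb σ₁ M (Quotient.out ω)) (lb σ₂ M (Quotient.out (e ω))) := hg ω
    exact h1.zpow_right j
  -- coordinates
  have hk : ∀ x : X₁, ∃ k : ℤ, sh σ₁ k (Quotient.out (Quotient.mk (st σ₁ h₁) x)) = x :=
    fun x => Quotient.exact (Quotient.out_eq (Quotient.mk (st σ₁ h₁) x))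
  choose k hk using hk
  let F : X₁ × R → X₂ × R := fun z =>
    (σ₂ ^ (k z.1)) (Quotient.out (e (Quotient.mk (st σ₁ h₁) z.1)),
      g (Quotient.mk (st σ₁ h₁) z.1) *
        ((co σ₁ (k z.1) (Quotient.out (Quotient.mk (st σ₁ h₁) z.1)))⁻¹ * z.2))
  have key : ∀ ω (l : ℤ) (a : R), F ((σ₁ ^ l) (Quotient.out ω, a)) =
      (σ₂ ^ l) (Quotient.out (e ω), g ω * a) := by
    intro ω l a
    rw [zpow_apply h₁]
    set x := sh σ₁ l (Quotient.out ω) with hx
    have h1 : Quotient.mk (st σ₁ h₁) x = ω := by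
      conv_rhs => rw [← Quotient.out_eq ω]
      exact Quotient.sound ((st σ₁ h₁).iseqv.symm ⟨l, rfl⟩)
    have h2 := hk x
    rw [h1] at h2
    show (σ₂ ^ (k x)) (Quotient.out (e (Quotient.mk (st σ₁ h₁) x)),
      g (Quotient.mk (st σ₁ h₁) x) *
        ((co σ₁ (k x) (Quotient.out (Quotient.mk (st σ₁ h₁) x)))⁻¹ *
          (co σ₁ l (Quotient.out ω) * a))) = _
    rw [h1]
    obtain ⟨j, hj⟩ := sh_inj h₁ hc₁ (h2.trans hx)
    have h3 : k x = l + M * j := by linarith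
    have h4 : co σ₁ (k x) (Quotient.out ω) =
        co σ₁ l (Quotient.out ω) * lb σ₁ M (Quotient.out ω) ^ j := by
      have h5 : (σ₁ ^ (k x)) (Quotient.out ω, 1) = (σ₁ ^ l) ((σ₁ ^ ((M : ℤ) * j))
          (Quotient.out ω, 1)) := by
        rw [h3, zpow_add, Equiv.Perm.mul_apply]
      rw [pow_Mj h₁ hc₁, zpow_apply h₁, zpow_apply h₁] at h5
      have h6 := congrArg Prod.snd h5
      simpa using h6
    rw [h4, h3, zpow_add, Equiv.Perm.mul_apply, pow_Mj h₂ hc₂]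
    congr 2
    rw [← mul_assoc, ← hgj]
    group
  have cov : ∀ z : X₁ × R, ∃ (ω : Quotient (st σ₁ h₁)) (l : ℤ) (a : R),
      z = (σ₁ ^ l) (Quotient.out ω, a) := by
    rintro ⟨x, b⟩
    refine ⟨Quotient.mk (st σ₁ h₁) x, k x,
      (co σ₁ (k x) (Quotient.out (Quotient.mk (st σ₁ h₁) x)))⁻¹ * b, ?_⟩
    rw [zpow_apply h₁, hk x, mul_inv_cancel_left]
  have hinj : Function.Injective F := by
    intro z z' hz
    obtain ⟨ω, l, a, rfl⟩ := cov z
    obtain ⟨ω', l', a', rfl⟩ := cov z'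
    rw [key, key, zpow_apply h₂, zpow_apply h₂] at hz
    have h1 : sh σ₂ l (Quotient.out (e ω)) = sh σ₂ l' (Quotient.out (e ω')) :=
      (Prod.mk.inj hz).1
    have h2 : e ω = e ω' := by
      rw [← Quotient.out_eq (e ω), ← Quotient.out_eq (e ω')]
      exact Quotient.sound ((st σ₂ h₂).iseqv.trans ⟨_, h1⟩
        ((st σ₂ h₂).iseqv.symm ⟨_, rfl⟩))
    have h3 : ω = ω' := e.injective h2
    subst h3
    obtain ⟨j, hj⟩ := sh_inj h₂ hc₂ h1
    have h4 : l = l' + M * j := by linarith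
    have h5 : co σ₂ l (Quotient.out (e ω)) =
        co σ₂ l' (Quotient.out (e ω)) * lb σ₂ M (Quotient.out (e ω)) ^ j := by
      have h5 : (σ₂ ^ l) (Quotient.out (e ω), 1) = (σ₂ ^ l') ((σ₂ ^ ((M : ℤ) * j))
          (Quotient.out (e ω), 1)) := by
        rw [h4, zpow_add, Equiv.Perm.mul_apply]
      rw [pow_Mj h₂ hc₂, zpow_apply h₂, zpow_apply h₂] at h5
      have h6 := congrArg Prod.snd h5
      simpa using h6
    have h6 := congrArg Prod.snd hz
    dsimp only at h6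
    rw [h5, mul_assoc, ← mul_assoc (lb σ₂ M (Quotient.out (e ω)) ^ j), ← hgj] at h6
    have h7 := mul_left_cancel h6
    rw [mul_assoc] at h7
    have h8 := mul_left_cancel h7
    rw [h4, zpow_add, Equiv.Perm.mul_apply, pow_Mj h₁ hc₁, h8]
  have hsurj : Function.Surjective F := by
    rintro ⟨y, b⟩
    obtain ⟨l, hl⟩ : ∃ l : ℤ, sh σ₂ l (Quotient.out (Quotient.mk (st σ₂ h₂) y)) = y :=
      Quotient.exact (Quotient.out_eq (Quotient.mk (st σ₂ h₂) y))
    refine ⟨(σ₁ ^ l) (Quotient.out (e.symm (Quotient.mk (st σ₂ h₂) y)),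
      (g (e.symm (Quotient.mk (st σ₂ h₂) y)))⁻¹ *
        ((co σ₂ l (Quotient.out (Quotient.mk (st σ₂ h₂) y)))⁻¹ * b)), ?_⟩
    rw [key, e.apply_symm_apply, mul_inv_cancel_left, zpow_apply h₂, hl, mul_inv_cancel_left]
  refine ⟨Equiv.ofBijective F ⟨hinj, hsurj⟩, ?_, ?_⟩
  · intro x a b
    show F (x, a * b) = ((F (x, a)).1, (F (x, a)).2 * b)
    obtain ⟨ω, l, a', ha⟩ := cov (x, a)
    have h1 : (x, a * b) = (σ₁ ^ l) (Quotient.out ω, a' * b) := by
      rw [zpow_apply h₁] at ha ⊢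
      have e1 : x = sh σ₁ l (Quotient.out ω) := congrArg Prod.fst ha
      have e2 : a = co σ₁ l (Quotient.out ω) * a' := congrArg Prod.snd ha
      rw [e1, e2, mul_assoc]
    rw [h1, key, ha, key, zpow_apply h₂, zpow_apply h₂]
    simp only [mul_assoc]
  · intro z
    show F (σ₁ z) = σ₂ (F z)
    obtain ⟨ω, l, a, rfl⟩ := cov z
    have h1 : σ₁ ((σ₁ ^ l) (Quotient.out ω, a)) = (σ₁ ^ (1 + l)) (Quotient.out ω, a) := by
      rw [zpow_add, zpow_one, Equiv.Perm.mul_apply]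
    rw [h1, key, key, zpow_add, zpow_one, Equiv.Perm.mul_apply]

end VSp
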