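import Pool.Agent.VSp.Nice
import Pool.Agent.VSp.Coxeter
import Pool.Agent.VSp.Closure
import Pool.Agent.VSp.Types

set_option autoImplicit false

/-! M12. Theorem R: an overgroup in which `c` is conjugate to its inverse. -/

namespace VSp

universe u v w

namespace Rev

/-- Transport of the wreath product along an equivalence of the index sets. -/
def tr {X : Type u} {Y : Type v} (e : X ≃ Y) (R : Type w) [Group R] : EqG X R →* EqG Y R where
  toFun σ := ⟨(Equiv.prodCongr e (Equiv.refl R)).permCongr σ.1, by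
    intro y a b
    have h := σ.2 (e.symm y) a b
    show (e ((σ.1 (e.symm y, a * b)).1), (σ.1 (e.symm y, a * b)).2) =
      (e ((σ.1 (e.symm y, a)).1), (σ.1 (e.symm y, a)).2 * b)
    rw [h]⟩
  map_one' := by
    apply Subtype.ext
    ext z <;> simp [Equiv.permCongr]
  map_mul' σ τ := by
    apply Subtype.ext
    apply Equiv.ext
    intro z
    show (Equiv.prodCongr e (Equiv.refl R)) ((σ.1 * τ.1)
        ((Equiv.prodCongr e (Equiv.refl R)).symm z)) =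
      (Equiv.prodCongr e (Equiv.refl R)) (σ.1 ((Equiv.prodCongr e (Equiv.refl R)).symm
        ((Equiv.prodCongr e (Equiv.refl R)) (τ.1 ((Equiv.prodCongr e (Equiv.refl R)).symm z)))))
    rw [Equiv.symm_apply_apply]
    rfl

lemma tr_injective {X : Type u} {Y : Type v} (e : X ≃ Y) (R : Type w) [Group R] :
    Function.Injective (tr e R) := by
  intro σ τ h
  apply Subtype.ext
  exact (Equiv.permCongr _).injective (congrArg Subtype.val h)

/-- The left component of a homomorphism into a semidirect product whose right component is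
trivial. -/
def lft {A : Type u} {B : Type v} {K : Type w} [Group A] [Group B] [Group K]
    {α : K →* MulAut B} (f : A →* B ⋊[α] K) (h : ∀ a, (f a).right = 1) : A →* B where
  toFun a := (f a).left
  map_one' := by simp
  map_mul' a b := by
    rw [map_mul, SemidirectProduct.mul_left, h, map_one, MulAut.one_apply]

lemma lft_injective {A : Type u} {B : Type v} {K : Type w} [Group A] [Group B] [Group K]
    {α : K →* MulAut B} (f : A →* B ⋊[α] K) (h : ∀ a, (f a).right = 1)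
    (hf : Function.Injective f) : Function.Injective (lft f h) := by
  intro a b hab
  apply hf
  ext
  · exact hab
  · rw [h, h]

/-- In the semidirect product with the group generated by an automorphism `θ` an element whose
image under `θ` is conjugate to its inverse is conjugate to its inverse. -/
lemma isConj_inl {B : Type u} [Group B] (θ : MulAut B) (a : B) (h : IsConj (θ a) a⁻¹) :
    IsConj (SemidirectProduct.inl a : B ⋊[(Subgroup.zpowers θ).subtype] (Subgroup.zpowers θ))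
      (SemidirectProduct.inl a)⁻¹ := by
  have h1 : IsConj (SemidirectProduct.inl a : B ⋊[(Subgroup.zpowers θ).subtype]
      (Subgroup.zpowers θ)) (SemidirectProduct.inl (θ a)) := by
    rw [isConj_iff]
    refine ⟨SemidirectProduct.inr ⟨θ, Subgroup.mem_zpowers θ⟩, ?_⟩
    have := SemidirectProduct.inl_aut (φ := (Subgroup.zpowers θ).subtype)
      ⟨θ, Subgroup.mem_zpowers θ⟩ a
    rw [map_inv] at this
    exact this.symm
  refine h1.trans ?_
  rw [← map_inv]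
  exact (SemidirectProduct.inl : B →* B ⋊[(Subgroup.zpowers θ).subtype]
      (Subgroup.zpowers θ)).map_isConj h

end Rev

open Rev in
theorem exists_reversing {E : Type u} [Group E] (hE : VirtSpecial E) (c : E)
    (hc : ¬ IsOfFinOrder c) :
    ∃ (R : Type) (_ : Group R) (_ : VirtSpecial R) (j : E →* R),
      Function.Injective j ∧ IsConj (j c) (j c)⁻¹ := by
  classical
  obtain ⟨N₀, hN₀, hN₀f, n, Γ, f₀, hf₀⟩ := hE.exists_normal
  have := hN₀
  have := hN₀f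
  -- the order of `c` modulo `N₀`
  set m : ℕ := orderOf (QuotientGroup.mk c : E ⧸ N₀) with hm
  have hmpos : 0 < m := orderOf_pos _
  have hmem : ∀ k : ℤ, c ^ k ∈ N₀ ↔ (m : ℤ) ∣ k := by
    intro k
    rw [hm, orderOf_dvd_iff_zpow_eq_one, ← QuotientGroup.mk_zpow, QuotientGroup.eq_one_iff]
  have hcm : c ^ (m : ℤ) ∈ N₀ := (hmem m).2 (dvd_refl _)
  let s : E ⧸ N₀ → RAAG Γ := fun q => f₀ ⟨q.out⁻¹ * c ^ (m : ℤ) * q.out, by
    have := hN₀.conj_mem _ hcm q.out⁻¹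
    rwa [inv_inv] at this⟩
  obtain ⟨K, _, _, π, hπ⟩ := nice_cover (Set.toFinite (Set.range s)).toFinset
  obtain ⟨T, _, Δ, φ, θ, hφ, hθ, hrev⟩ := reversal (HG π)
  -- the subgroup `N₁`
  let N₁ : Subgroup E := ((π.comp f₀).ker.map N₀.subtype).normalCore
  have hker : ((π.comp f₀).ker).FiniteIndex := inferInstance
  have hmapf : ((π.comp f₀).ker.map N₀.subtype).FiniteIndex := by
    constructor
    rw [Subgroup.index_map_subtype]
    exact Nat.mul_ne_zero hker.index_ne_zero hN₀f.index_ne_zero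
  have hN₁f : N₁.FiniteIndex := Subgroup.finiteIndex_normalCore _
  have hN₁n : N₁.Normal := Subgroup.normalCore_normal _
  have hle : ∀ x ∈ N₁, ∃ h : x ∈ N₀, π (f₀ ⟨x, h⟩) = 1 := by
    intro x hx
    obtain ⟨y, hy, rfl⟩ := Subgroup.normalCore_le _ hx
    exact ⟨y.2, hy⟩
  let ι : N₁ →* N₀ := Subgroup.inclusion (fun x hx => (hle x hx).1)
  have hι : ∀ x : N₁, ((psi π).comp (f₀.comp ι) x).right = 1 := by
    intro x
    show (psi π (f₀ (ι x))).right = 1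
    rw [psi_right]
    exact (hle x.1 x.2).2
  let h₁ : N₁ →* RAAG (HG π) := lft ((psi π).comp (f₀.comp ι)) hι
  have hh₁ : Function.Injective h₁ := by
    apply lft_injective
    intro a b hab
    exact Subgroup.inclusion_injective _ (hf₀ (psi_injective π hab))
  let R₀ := RAAG Δ ⋊[(Subgroup.zpowers (θ : MulAut (RAAG Δ))).subtype]
    (Subgroup.zpowers (θ : MulAut (RAAG Δ)))
  have hθ2 : (θ : MulAut (RAAG Δ)) ^ 2 = 1 := by
    have h1 : (θ.toMonoidHom.comp θ.toMonoidHom) = MonoidHom.id _ := hom_ext fun x => by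
      show θ (θ (of Δ x)) = of Δ x
      rw [hθ, map_inv, hθ, inv_inv]
    rw [pow_two]
    ext x
    exact DFunLike.congr_fun h1 x
  have hQf : Finite (Subgroup.zpowers (θ : MulAut (RAAG Δ))) := by
    have h1 : IsOfFinOrder (θ : MulAut (RAAG Δ)) := isOfFinOrder_iff_pow_eq_one.2 ⟨2, by norm_num, hθ2⟩
    exact (finite_zpowers.2 h1).to_subtype
  have hR₀ : VirtSpecial R₀ := virtSpecial_semidirect Δ _ _
  let f₂ : N₁ →* R₀ := SemidirectProduct.inl.comp (φ.comp h₁)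
  have hf₂ : Function.Injective f₂ :=
    SemidirectProduct.inl_injective.comp (hφ.comp hh₁)
  -- key claim
  have key : ∀ (g : E) (k : ℤ) (hk : g⁻¹ * c ^ k * g ∈ N₁),
      IsConj (f₂ ⟨g⁻¹ * c ^ k * g, hk⟩) (f₂ ⟨g⁻¹ * c ^ k * g, hk⟩)⁻¹ := by
    intro g k hk
    apply isConj_inl
    obtain ⟨hk0, hk1⟩ := hle _ hk
    have hk2 : c ^ k ∈ N₀ := by
      have := hN₀.conj_mem _ hk0 g
      have e1 : g * (g⁻¹ * c ^ k * g) * g⁻¹ = c ^ k := by group
      rwa [e1] at this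
    obtain ⟨k', hk'⟩ := (hmem k).1 hk2
    set q : E ⧸ N₀ := QuotientGroup.mk g with hq
    have hn0 : q.out⁻¹ * g ∈ N₀ := by
      rw [← QuotientGroup.eq, hq, QuotientGroup.out_eq']
    set n₀ : N₀ := ⟨q.out⁻¹ * g, hn0⟩ with hn₀
    have hsq : q.out⁻¹ * c ^ (m : ℤ) * q.out ∈ N₀ := by
      have := hN₀.conj_mem _ hcm q.out⁻¹
      rwa [inv_inv] at this
    have e2 : (⟨g⁻¹ * c ^ k * g, hk0⟩ : N₀) =
        n₀⁻¹ * (⟨q.out⁻¹ * c ^ (m : ℤ) * q.out, hsq⟩ : N₀) ^ k' * n₀⁻¹⁻¹ := by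
      apply Subtype.ext
      show g⁻¹ * c ^ k * g = (q.out⁻¹ * g)⁻¹ * (q.out⁻¹ * c ^ (m : ℤ) * q.out) ^ k' *
        ((q.out⁻¹ * g)⁻¹)⁻¹
      have e3 : (q.out⁻¹ * c ^ (m : ℤ) * q.out) ^ k' = q.out⁻¹ * (c ^ (m : ℤ)) ^ k' * q.out := by
        have := conj_zpow (a := q.out⁻¹) (b := c ^ (m : ℤ)) (i := k')
        rw [inv_inv] at this
        exact this
      rw [e3, ← zpow_mul, ← hk']
      group
    have e4 : f₀ ⟨g⁻¹ * c ^ k * g, hk0⟩ = (f₀ n₀)⁻¹ * (s q) ^ k' * (f₀ n₀)⁻¹⁻¹ := by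
      rw [e2, map_mul, map_mul, map_inv, map_inv, map_inv, map_zpow]
    have e5 : π (s q ^ k') = 1 := by
      rw [e4, map_mul, map_mul, map_inv, map_inv, map_inv, inv_inv] at hk1
      have e8 : π (s q ^ k') = π (f₀ n₀) * ((π (f₀ n₀))⁻¹ * π (s q ^ k') * π (f₀ n₀)) *
          (π (f₀ n₀))⁻¹ := by group
      rw [e8, hk1, mul_one, mul_inv_cancel]
    obtain ⟨u, vs, hv1, hv2, hv3⟩ := hπ (s q) (by
      rw [Set.Finite.mem_toFinset]; exact ⟨q, rfl⟩) ((f₀ n₀)⁻¹) k' e5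
    have e6 : h₁ ⟨g⁻¹ * c ^ k * g, hk⟩ =
        u * (vs.map (fun v => wp (HG π) v.1 ^ v.2)).prod * u⁻¹ := by
      rw [← hv3, ← e4]
      rfl
    have h3 := hrev vs hv1 hv2
    show IsConj (θ (φ (h₁ ⟨g⁻¹ * c ^ k * g, hk⟩))) (φ (h₁ ⟨g⁻¹ * c ^ k * g, hk⟩))⁻¹
    rw [e6]
    set P := (vs.map (fun v => wp (HG π) v.1 ^ v.2)).prod with hP
    have h4 : IsConj (θ (φ (u * P * u⁻¹))) (θ (φ P)) := by
      apply IsConj.symm
      rw [isConj_iff]
      refine ⟨θ (φ u), ?_⟩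
      simp only [map_mul, map_inv]
    have h5 : IsConj (φ P)⁻¹ (φ (u * P * u⁻¹))⁻¹ := by
      rw [isConj_iff]
      refine ⟨φ u, ?_⟩
      simp only [map_mul, map_inv]
      group
    exact h4.trans (h3.trans h5)
  -- induced action
  obtain ⟨Φ, hΦ1, hΦ2, hΦ3⟩ := exists_induced N₁ f₂
  have hΦi := hΦ3 hf₂
  have : Finite (E ⧸ N₁) := inferInstance
  set M : ℕ := orderOf (QuotientGroup.mk c : E ⧸ N₁) with hM
  have hMpos : 0 < M := orderOf_pos _
  have hMmem : ∀ k : ℤ, c ^ k ∈ N₁ ↔ (M : ℤ) ∣ k := by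
    intro k
    rw [hM, orderOf_dvd_iff_zpow_eq_one, ← QuotientGroup.mk_zpow, QuotientGroup.eq_one_iff]
  have hfix : ∀ (k : ℤ) (x : E ⧸ N₁), (c ^ k) • x = x ↔ (M : ℤ) ∣ k := by
    intro k x
    obtain ⟨g, rfl⟩ := QuotientGroup.mk_surjective x
    rw [← hMmem]
    have e1 : (c ^ k) • (QuotientGroup.mk g : E ⧸ N₁) =
        (QuotientGroup.mk (c ^ k) : E ⧸ N₁) * QuotientGroup.mk g := rfl
    rw [e1, mul_eq_right, QuotientGroup.eq_one_iff]
  have hpw : ∀ k : ℤ, ((Φ c : EqG (E ⧸ N₁) R₀) : Equiv.Perm ((E ⧸ N₁) × R₀)) ^ k =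
      ((Φ (c ^ k) : EqG (E ⧸ N₁) R₀) : Equiv.Perm ((E ⧸ N₁) × R₀)) := by
    intro k
    rw [map_zpow, Subgroup.coe_zpow]
  have hpw' : ∀ k : ℤ, (((Φ c)⁻¹ : EqG (E ⧸ N₁) R₀) : Equiv.Perm ((E ⧸ N₁) × R₀)) ^ k =
      ((Φ (c ^ (-k)) : EqG (E ⧸ N₁) R₀) : Equiv.Perm ((E ⧸ N₁) × R₀)) := by
    intro k
    rw [map_zpow, Subgroup.coe_zpow, Subgroup.coe_inv, inv_zpow, zpow_neg]
  have hc1 : ∀ (x : E ⧸ N₁) (k : ℤ),
      ((((Φ c : EqG (E ⧸ N₁) R₀) : Equiv.Perm ((E ⧸ N₁) × R₀)) ^ k) (x, 1)).1 = x ↔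
        (M : ℤ) ∣ k := by
    intro x k
    rw [hpw, hΦ1, hfix]
  have hc2 : ∀ (x : E ⧸ N₁) (k : ℤ),
      (((((Φ c)⁻¹ : EqG (E ⧸ N₁) R₀) : Equiv.Perm ((E ⧸ N₁) × R₀)) ^ k) (x, 1)).1 = x ↔
        (M : ℤ) ∣ k := by
    intro x k
    rw [hpw', hΦ1, hfix, dvd_neg]
  have hlab : ∀ x : E ⧸ N₁,
      ConjClasses.mk ((((Φ c : EqG (E ⧸ N₁) R₀) : Equiv.Perm ((E ⧸ N₁) × R₀)) ^ M) (x, 1)).2 =
      ConjClasses.mk (((((Φ c)⁻¹ : EqG (E ⧸ N₁) R₀) : Equiv.Perm ((E ⧸ N₁) × R₀)) ^ M)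
        (x, 1)).2 := by
    intro x
    have e1 := hpw M
    have e2 := hpw' M
    rw [zpow_natCast] at e1 e2
    rw [e1, e2]
    obtain ⟨g, rfl⟩ := QuotientGroup.mk_surjective x
    have hm1 : c ^ (M : ℤ) ∈ N₁ := (hMmem M).2 (dvd_refl _)
    have hm2 : c ^ (-(M : ℤ)) ∈ N₁ := (hMmem _).2 ((dvd_neg).2 (dvd_refl _))
    have hg1 : g⁻¹ * c ^ (M : ℤ) * g ∈ N₁ := by
      have := hN₁n.conj_mem _ hm1 g⁻¹
      rwa [inv_inv] at this
    have hg2 : g⁻¹ * c ^ (-(M : ℤ)) * g ∈ N₁ := by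
      have := hN₁n.conj_mem _ hm2 g⁻¹
      rwa [inv_inv] at this
    have a1 := hΦ2 _ hm1 g hg1
    have a2 := hΦ2 _ hm2 g hg2
    have a3 := key g M hg1
    have a4 : f₂ ⟨g⁻¹ * c ^ (-(M : ℤ)) * g, hg2⟩ = (f₂ ⟨g⁻¹ * c ^ (M : ℤ) * g, hg1⟩)⁻¹ := by
      rw [← map_inv]
      congr 1
      apply Subtype.ext
      show g⁻¹ * c ^ (-(M : ℤ)) * g = (g⁻¹ * c ^ (M : ℤ) * g)⁻¹
      group
    rw [ConjClasses.mk_eq_mk_iff_isConj]
    refine a1.symm.trans (a3.trans ?_)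
    rw [← a4]
    exact a2
  obtain ⟨Θ, hΘ1, hΘ2⟩ := exists_intertwiner
    ((Φ c : EqG (E ⧸ N₁) R₀) : Equiv.Perm ((E ⧸ N₁) × R₀)) (Φ c).2
    (((Φ c)⁻¹ : EqG (E ⧸ N₁) R₀) : Equiv.Perm ((E ⧸ N₁) × R₀)) ((Φ c)⁻¹).2 M hMpos hc1 hc2
    (by
      intro C
      simp only [hlab])
  have hconj : IsConj (Φ c) (Φ c)⁻¹ := by
    rw [isConj_iff]
    refine ⟨⟨Θ, hΘ1⟩, ?_⟩
    rw [mul_inv_eq_iff_eq_mul]
    apply Subtype.ext
    ext z : 1
    exact hΘ2 z
  have hVR : VirtSpecial (EqG (Fin (Nat.card (E ⧸ N₁))) R₀) := virtSpecial_EqG _ _ hR₀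
  refine ⟨EqG (Fin (Nat.card (E ⧸ N₁))) R₀, inferInstance, hVR,
    (tr (Finite.equivFin (E ⧸ N₁)) R₀).comp Φ, (tr_injective _ _).comp hΦi, ?_⟩
  have := (tr (Finite.equivFin (E ⧸ N₁)) R₀).map_isConj hconj
  rw [map_inv] at this
  exact this

end VSp
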