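import Pool.Agent.VSp.MatchAlg
import Pool.Agent.VSp.Reverse

set_option autoImplicit false

/-! M14. Theorem M: common image of the cyclic group in a virtually special group. -/

namespace VSp

universe u v

namespace Mt

section VV
variable {G : Type u} [Group G] (N : Subgroup G)

/-- Rational homomorphisms with bounded denominators. -/
def VV : Submodule ℚ (N → ℚ) where
  carrier := {r | (∀ x y, r (x * y) = r x + r y) ∧
    ∃ D : ℕ, 0 < D ∧ ∀ x, ∃ z : ℤ, (D : ℚ) * r x = z}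
  zero_mem' := ⟨fun _ _ => by simp, 1, one_pos, fun _ => ⟨0, by simp⟩⟩
  add_mem' := by
    rintro r s ⟨hr, D, hD, hr'⟩ ⟨hs, E, hE, hs'⟩
    refine ⟨fun x y => ?_, D * E, Nat.mul_pos hD hE, fun x => ?_⟩
    · simp only [Pi.add_apply, hr, hs]; ring
    · obtain ⟨z, hz⟩ := hr' x
      obtain ⟨z', hz'⟩ := hs' x
      refine ⟨E * z + D * z', ?_⟩
      push_cast
      rw [Pi.add_apply, ← hz, ← hz']; ring
  smul_mem' := by
    rintro q r ⟨hr, D, hD, hr'⟩
    refine ⟨fun x y => ?_, D * q.den, Nat.mul_pos hD q.den_pos, fun x => ?_⟩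
    · simp only [Pi.smul_apply, hr, smul_eq_mul]; ring
    · obtain ⟨z, hz⟩ := hr' x
      refine ⟨q.num * z, ?_⟩
      push_cast
      rw [Pi.smul_apply, smul_eq_mul, ← hz]
      have : (q.den : ℚ) * q = q.num := by
        rw [mul_comm]; exact Rat.mul_den_eq_num q
      calc (D : ℚ) * q.den * (q * r x) = ((q.den : ℚ) * q) * (D * r x) := by ring
        _ = _ := by rw [this]

variable {N}

lemma VV_mul (r : VV N) (x y : N) : r.1 (x * y) = r.1 x + r.1 y := r.2.1 x y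

lemma VV_one (r : VV N) : r.1 1 = 0 := by
  have := VV_mul r 1 1
  rw [mul_one] at this
  linarith

lemma VV_inv (r : VV N) (x : N) : r.1 x⁻¹ = - r.1 x := by
  have := VV_mul r x⁻¹ x
  rw [inv_mul_cancel, VV_one] at this
  linarith

lemma VV_pow (r : VV N) (x : N) (k : ℕ) : r.1 (x ^ k) = k * r.1 x := by
  induction k with
  | zero => simp [VV_one]
  | succ k ih => rw [pow_succ, VV_mul, ih]; push_cast; ring

variable [hN : N.Normal]

/-- Conjugation on the normal subgroup. -/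
def cj (h : G) (x : N) : N := ⟨h⁻¹ * x.1 * h, by
  have := hN.conj_mem x.1 x.2 h⁻¹
  rwa [inv_inv] at this⟩

lemma cj_mul (h : G) (x y : N) : cj h (x * y) = cj h x * cj h y := by
  apply Subtype.ext
  simp only [cj, Subgroup.coe_mul]; group

lemma cj_cj (g h : G) (x : N) : cj h (cj g x) = cj (g * h) x := by
  apply Subtype.ext
  simp only [cj]; group

lemma cj_pow (h : G) (x : N) (k : ℕ) : cj h (x ^ k) = cj h x ^ k := by
  induction k with
  | zero => apply Subtype.ext; simp [cj]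
  | succ k ih => rw [pow_succ, cj_mul, ih, pow_succ]

lemma cj_mem (r : VV N) (n x : N) : r.1 (cj (n : G) x) = r.1 x := by
  have : cj (n : G) x = n⁻¹ * x * n := by apply Subtype.ext; simp [cj]
  rw [this, VV_mul, VV_mul, VV_inv]; ring

/-- The slope functional `r ↦ r (g⁻¹ x g) / m`. -/
def sl (x : N) (m : ℕ) (g : G) : VV N →ₗ[ℚ] ℚ where
  toFun r := r.1 (cj g x) / m
  map_add' r s := by show ((r.1 + s.1) _) / _ = _; rw [Pi.add_apply, add_div]
  map_smul' q r := by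
    show ((q • r.1) _) / _ = _
    rw [Pi.smul_apply, smul_eq_mul, smul_eq_mul, RingHom.id_apply, mul_div_assoc]

/-- The conjugation action on `VV N`. -/
def ua (h : G) : VV N →ₗ[ℚ] VV N where
  toFun r := ⟨fun x => r.1 (cj h x), fun x y => by
    show r.1 (cj h (x * y)) = r.1 (cj h x) + r.1 (cj h y)
    rw [cj_mul, VV_mul], by
    obtain ⟨D, hD, hr⟩ := r.2.2
    exact ⟨D, hD, fun x => hr _⟩⟩
  map_add' r s := rfl
  map_smul' q r := rfl

lemma ua_ua (g h : G) (r : VV N) : ua g (ua h r) = ua (g * h) r := by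
  apply Subtype.ext
  funext x
  show r.1 (cj h (cj g x)) = r.1 (cj (g * h) x)
  rw [cj_cj]

lemma sl_eq (x : N) (m : ℕ) (g : G) (r : VV N) : sl x m g r = sl x m 1 (ua g r) := by
  show r.1 (cj g x) / m = r.1 (cj g (cj 1 x)) / m
  rw [cj_cj, one_mul]

lemma ua_mem (n : N) (r : VV N) : ua (n : G) r = r := by
  apply Subtype.ext
  funext x
  exact cj_mem r n x

lemma sl_coset (x : N) (m : ℕ) {g g' : G} (h : g⁻¹ * g' ∈ N) : sl x m g = sl x m g' := by
  ext r
  have h1 : g' = g * (⟨g⁻¹ * g', h⟩ : N) := by simp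
  rw [sl_eq, sl_eq x m g', h1, ← ua_ua, ua_mem]

lemma sl_ne_zero (x : N) (m : ℕ) (h1 : sl x m (1 : G) ≠ 0) (g : G) : sl x m g ≠ 0 := by
  intro h
  apply h1
  ext r
  have h2 := LinearMap.congr_fun h (ua g⁻¹ r)
  rw [sl_eq, ua_ua, mul_inv_cancel] at h2
  have h3 : ua (1 : G) r = r := ua_mem (1 : N) r
  rw [h3] at h2
  exact h2

lemma sl_prop [N.FiniteIndex] (x : N) (m : ℕ) (h1 : sl x m (1 : G) ≠ 0) (g g' : G) (t : ℚ)
    (h : sl x m g = t • sl x m g') : t = 1 ∨ t = -1 := by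
  have h3 : ∀ r : VV N, ua (1 : G) r = r := fun r => ua_mem (1 : N) r
  have h2 : ∀ r, sl x m 1 (ua (g * g'⁻¹) r) = t * sl x m 1 r := by
    intro r
    have := LinearMap.congr_fun h (ua g'⁻¹ r)
    rw [sl_eq, ua_ua, LinearMap.smul_apply, sl_eq x m g', ua_ua, mul_inv_cancel, h3] at this
    exact this
  have h4 : ∀ (k : ℕ) (r), sl x m 1 (ua ((g * g'⁻¹) ^ k) r) = t ^ k * sl x m 1 r := by
    intro k
    induction k with
    | zero => intro r; rw [pow_zero, h3]; simp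
    | succ k ih =>
      intro r
      rw [pow_succ, ← ua_ua, ih, h2, pow_succ]; ring
  have h5 : t ^ N.index = 1 := by
    by_contra hne
    apply h1
    ext r
    have h6 := h4 N.index r
    have h7 : ua ((g * g'⁻¹) ^ N.index) r = r :=
      ua_mem (⟨(g * g'⁻¹) ^ N.index, Subgroup.pow_index_mem N _⟩ : N) r
    rw [h7] at h6
    have h8 : (t ^ N.index - 1) * sl x m 1 r = 0 := by linarith
    rcases mul_eq_zero.mp h8 with h9 | h9
    · exact absurd (by linarith) hne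
    · exact h9
  have hidx : N.index ≠ 0 := Subgroup.FiniteIndex.index_ne_zero
  have h6 : |t| ^ N.index = 1 := by rw [← abs_pow, h5, abs_one]
  have h7 : |t| = 1 := (pow_eq_one_iff_of_nonneg (abs_nonneg t) hidx).mp h6
  exact (abs_eq (by norm_num)).mp h7

lemma sl_one_ne_zero (x : N) (m : ℕ) (hm : 0 < m) (r : VV N) (hr : r.1 x ≠ 0) :
    sl x m (1 : G) ≠ 0 := by
  intro h
  have h1 := LinearMap.congr_fun h r
  have h2 : cj (1 : G) x = x := by apply Subtype.ext; simp [cj]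
  have h3 : r.1 (cj (1 : G) x) / m = 0 := h1
  rw [h2, div_eq_zero_iff] at h3
  rcases h3 with h3 | h3
  · exact hr h3
  · exact hm.ne' (by exact_mod_cast h3)

/-- Slopes computed at another power. -/
lemma sl_pow (c : G) (m M : ℕ) (hm : 0 < m) (hc : c ^ m ∈ N) (hc' : c ^ M ∈ N) (g : G)
    (r : VV N) : r.1 (cj g ⟨c ^ M, hc'⟩) = M * sl (⟨c ^ m, hc⟩ : N) m g r := by
  show _ = (M : ℚ) * (r.1 (cj g ⟨c ^ m, hc⟩) / m)
  have h1 : cj g (⟨c ^ M, hc'⟩ : N) ^ m = cj g (⟨c ^ m, hc⟩ : N) ^ M := by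
    rw [← cj_pow, ← cj_pow]
    congr 1
    apply Subtype.ext
    show (c ^ M) ^ m = (c ^ m) ^ M
    rw [← pow_mul, ← pow_mul, mul_comm]
  have h2 := congrArg r.1 h1
  rw [VV_pow, VV_pow] at h2
  have hm' : (m : ℚ) ≠ 0 := by exact_mod_cast hm.ne'
  field_simp
  linarith

/-- The set of points where a rational homomorphism is integral. -/
def intSub (r : VV N) : Subgroup N where
  carrier := {x | ∃ z : ℤ, r.1 x = z}
  one_mem' := ⟨0, by rw [VV_one]; simp⟩
  mul_mem' := by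
    rintro x y ⟨z, hz⟩ ⟨z', hz'⟩
    exact ⟨z + z', by rw [VV_mul, hz, hz']; push_cast; rfl⟩
  inv_mem' := by
    rintro x ⟨z, hz⟩
    exact ⟨-z, by rw [VV_inv, hz]; push_cast; rfl⟩

omit hN in
lemma intSub_finiteIndex (r : VV N) : (intSub r).FiniteIndex := by
  obtain ⟨D, hD, hr⟩ := r.2.2
  choose e he using hr
  have : NeZero D := ⟨hD.ne'⟩
  have hadd : ∀ x y, e (x * y) = e x + e y := by
    intro x y
    have h1 := he (x * y)
    rw [VV_mul, mul_add, he, he] at h1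
    exact_mod_cast h1.symm
  let φ : N →* Multiplicative (ZMod D) :=
    { toFun := fun x => Multiplicative.ofAdd ((e x : ℤ) : ZMod D)
      map_one' := by
        have : e 1 = 0 := by have := hadd 1 1; rw [mul_one] at this; linarith
        rw [this]; simp
      map_mul' := fun x y => by rw [hadd]; push_cast; rfl }
  have hle : φ.ker ≤ intSub r := by
    intro x hx
    have h1 : ((e x : ℤ) : ZMod D) = 0 := by
      have h2 : φ x = 1 := hx
      exact h2
    rw [ZMod.intCast_zmod_eq_zero_iff_dvd] at h1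
    obtain ⟨z, hz⟩ := h1
    refine ⟨z, ?_⟩
    have h2 := he x
    rw [hz] at h2
    push_cast at h2
    exact mul_left_cancel₀ (by exact_mod_cast hD.ne') h2
  have hk : φ.ker.FiniteIndex := Subgroup.finiteIndex_ker φ
  exact Subgroup.finiteIndex_of_le hle

end VV

section Count

/-- Number of points with a given value. -/
noncomputable def cnt {X Z : Type*} (f : X → Z) (z : Z) : ℕ := Nat.card {x // f x = z}

lemma exists_equiv_of_cnt {X Y Z : Type*} [Finite X] [Finite Y] (f : X → Z) (g : Y → Z)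
    (h : ∀ z, cnt f z = cnt g z) : ∃ e : X ≃ Y, ∀ x, g (e x) = f x := by
  have h1 : ∀ z, Nonempty ({x // f x = z} ≃ {y // g y = z}) := fun z => Finite.card_eq.mp (h z)
  refine ⟨(Equiv.sigmaFiberEquiv f).symm.trans ((Equiv.sigmaCongrRight
    (fun z => (h1 z).some)).trans (Equiv.sigmaFiberEquiv g)), fun x => ?_⟩
  exact ((h1 (f x)).some ⟨x, rfl⟩).2

lemma cnt_equiv {X Y Z : Type*} (e : X ≃ Y) (f : Y → Z) (g : X → Z) (h : ∀ x, g x = f (e x))
    (z : Z) : cnt g z = cnt f z :=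
  Nat.card_congr (e.subtypeEquiv fun x => by rw [h])

lemma cnt_comp {X Z W : Type*} {Y : Type*} (e : X ≃ Y) (f : Y → Z) (g : X → Z)
    (h : ∀ x, f (e x) = g x) (κ : Z → W) (w : W) :
    cnt (fun x => κ (g x)) w = cnt (fun y => κ (f y)) w :=
  cnt_equiv e _ _ (fun x => by rw [h]) w

lemma cnt_sum {X Y Z : Type*} [Finite X] [Finite Y] (f : X → Z) (g : Y → Z) (z : Z) :
    cnt (Sum.elim f g) z = cnt f z + cnt g z := by
  classical
  unfold cnt
  rw [← Nat.card_sum]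
  exact Nat.card_congr Equiv.subtypeSum

lemma cnt_prod {K X Z : Type*} (f : X → Z) (g : K × X → Z) (h : ∀ x, g x = f x.2) (z : Z) :
    cnt g z = Nat.card K * cnt f z := by
  unfold cnt
  rw [← Nat.card_prod]
  exact Nat.card_congr
    { toFun := fun x => (x.1.1, ⟨x.1.2, by rw [← h]; exact x.2⟩)
      invFun := fun y => ⟨(y.1, y.2.1), by rw [h]; exact y.2.2⟩
      left_inv := fun _ => rfl
      right_inv := fun _ => rfl }

lemma cnt_const {X Z : Type*} (c z : Z) [Decidable (c = z)] (f : X → Z) (h : ∀ x, f x = c) :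
    cnt f z = if c = z then Nat.card X else 0 := by
  unfold cnt
  split_ifs with hc
  · exact Nat.card_congr (Equiv.subtypeUnivEquiv fun x => by rw [h, hc])
  · have : IsEmpty {x // f x = z} := ⟨fun x => hc (by rw [← h x.1]; exact x.2)⟩
    exact Nat.card_of_isEmpty

/-- Families of pairs. -/
def piProdE {ι : Type*} (Q K : ι → Type*) : (∀ i, Q i × K i) ≃ (∀ i, Q i) × (∀ i, K i) where
  toFun f := (fun i => (f i).1, fun i => (f i).2)
  invFun f := fun i => (f.1 i, f.2 i)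
  left_inv _ := rfl
  right_inv _ := rfl

end Count

section Ident

variable {ι : Type} [Fintype ι] {V : ι → Type u} [∀ i, AddCommGroup (V i)] [∀ i, Module ℚ (V i)]
  {Q : ι → Type u}

/-- The value of a family of functionals on a family of vectors. -/
def vl (l : ∀ i, Q i → V i →ₗ[ℚ] ℚ) (r : ∀ i, V i) (x : ∀ i, Q i) : ℚ := ∏ i, |l i (x i) (r i)|

lemma vl_zero [Nonempty ι] (l : ∀ i, Q i → V i →ₗ[ℚ] ℚ) (x : ∀ i, Q i) : vl l 0 x = 0 := by
  obtain ⟨i⟩ := ‹Nonempty ι›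
  exact Finset.prod_eq_zero (Finset.mem_univ i) (by simp)

lemma vl_nonneg (l : ∀ i, Q i → V i →ₗ[ℚ] ℚ) (r : ∀ i, V i) (x : ∀ i, Q i) : 0 ≤ vl l r x :=
  Finset.prod_nonneg fun _ _ => abs_nonneg _

theorem match_equiv [Nonempty ι] [∀ i, Finite (Q i)] [∀ i, Nonempty (Q i)]
    (l : ∀ i, Q i → V i →ₗ[ℚ] ℚ) (hne : ∀ i g, l i g ≠ 0)
    (hprop : ∀ i g g' (t : ℚ), l i g = t • l i g' → t = 1 ∨ t = -1) :
    ∃ (n : ℕ) (Tp Tq : Type u) (_ : Finite Tp) (_ : Finite Tq) (rp : Tp → ∀ i, V i)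
      (rq : Tq → ∀ i, V i), 0 < n ∧
      ∀ (F K : ι → Type u) [∀ i, Finite (F i)] (E : ∀ i, F i ≃ Q i × K i) (pr : ∀ i, F i → Q i)
      (_ : ∀ i x, pr i x = (E i x).1),
      ∃ e : (Fin n × (∀ i, F i)) ⊕ (Tq × (∀ i, F i)) ≃ Tp × (∀ i, F i),
        ∀ x, vl l (rp (e x).1) (fun i => pr i ((e x).2 i)) =
          Sum.elim (fun _ => 1) (fun y => vl l (rq y.1) (fun i => pr i (y.2 i))) x := by
  classical
  obtain ⟨n, p, q, rp, rm, hn, hid⟩ := matching_identity V Q l hne hprop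
  let A : Fin p × (∀ i, Q i) → ℚ := fun x => vl l (rp x.1) x.2
  let B : Fin q × (∀ i, Q i) → ℚ := fun x => vl l (rm x.1) x.2
  have hAB : ∀ s : ℚ, 0 < s → (if s = 1 then n else 0) + cnt B s = cnt A s := hid
  have hA0 : ∀ s : ℚ, s < 0 → cnt A s = 0 := by
    intro s hs
    have : IsEmpty {x // A x = s} := ⟨fun x => by
      have h1 := vl_nonneg l (rp x.1.1) x.1.2
      have h2 : vl l (rp x.1.1) x.1.2 = s := x.2
      linarith⟩
    exact Nat.card_of_isEmpty
  have hB0 : ∀ s : ℚ, s < 0 → cnt B s = 0 := by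
    intro s hs
    have : IsEmpty {x // B x = s} := ⟨fun x => by
      have h1 := vl_nonneg l (rm x.1.1) x.1.2
      have h2 : vl l (rm x.1.1) x.1.2 = s := x.2
      linarith⟩
    exact Nat.card_of_isEmpty
  let PQ := ∀ i, Q i
  have hgen' : ∀ (k : ℕ) (r : Fin k → ∀ i, V i) (T : Type u) [Finite T] (z : ℚ),
      cnt (fun x : ((PQ × Fin k) ⊕ T) × PQ =>
        vl l (Sum.elim (fun y => r y.2) (fun _ => 0) x.1) x.2) z =
      Nat.card PQ * cnt (fun x : Fin k × PQ => vl l (r x.1) x.2) z +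
        (if (0 : ℚ) = z then Nat.card T * Nat.card PQ else 0) := by
    intro k r T _ z
    rw [cnt_equiv (Equiv.sumProdDistrib (PQ × Fin k) T PQ)
      (Sum.elim (fun x : (PQ × Fin k) × PQ => vl l (r x.1.2) x.2) (fun _ => (0 : ℚ))) _ ?_ z,
      cnt_sum, cnt_const (0 : ℚ) z (fun _ : T × PQ => (0 : ℚ)) (fun _ => rfl), Nat.card_prod]
    · have h1 : cnt (fun x : (PQ × Fin k) × PQ => vl l (r x.1.2) x.2) z =
          cnt (fun x : PQ × (Fin k × PQ) => vl l (r x.2.1) x.2.2) z :=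
        cnt_equiv (Equiv.prodAssoc PQ (Fin k) PQ)
          (fun x : PQ × (Fin k × PQ) => vl l (r x.2.1) x.2.2) _ (fun x => rfl) z
      rw [h1, cnt_prod (K := PQ) (fun x : Fin k × PQ => vl l (r x.1) x.2) _ (fun x => rfl) z]
    · rintro ⟨x | x, y⟩
      · rfl
      · exact vl_zero l y
  let Tp : Type u := (PQ × Fin p) ⊕ {x // B x = 0}
  let Tq : Type u := (PQ × Fin q) ⊕ {x // A x = 0}
  refine ⟨n, Tp, Tq, inferInstance, inferInstance, Sum.elim (fun y => rp y.2) (fun _ => 0),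
    Sum.elim (fun y => rm y.2) (fun _ => 0), hn, ?_⟩
  intro F K _ E pr hE
  let FF := ∀ i, F i
  let KK := ∀ i, K i
  let eF : FF ≃ PQ × KK := (Equiv.piCongrRight E).trans (piProdE Q K)
  have heF : ∀ x : FF, (fun i => pr i (x i)) = (eF x).1 := fun x => funext fun i => hE i (x i)
  -- general count over `T × FF`
  have hgen : ∀ (T : Type u) [Finite T] (r : T → ∀ i, V i) (z : ℚ),
      cnt (fun x : T × FF => vl l (r x.1) (fun i => pr i (x.2 i))) z =
        Nat.card KK * cnt (fun x : T × PQ => vl l (r x.1) x.2) z := by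
    intro T _ r z
    have e1 : T × FF ≃ KK × (T × PQ) :=
      (Equiv.prodCongrRight fun _ : T => eF).trans
        ((Equiv.prodAssoc T PQ KK).symm.trans (Equiv.prodComm _ _))
    rw [cnt_equiv ((Equiv.prodCongrRight fun _ : T => eF).trans
        ((Equiv.prodAssoc T PQ KK).symm.trans (Equiv.prodComm _ _)))
        (fun x : KK × (T × PQ) => vl l (r x.2.1) x.2.2) _
        (fun x => by
          show _ = vl l (r x.1) (eF x.2).1
          rw [← heF])]
    exact cnt_prod (K := KK) (fun x : T × PQ => vl l (r x.1) x.2) _ (fun x => rfl) z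
  have hfin : Finite FF := inferInstance
  have hcard : Nat.card FF = Nat.card KK * Nat.card PQ := by
    rw [Nat.card_congr eF, Nat.card_prod, mul_comm]
  have hfinal := exists_equiv_of_cnt (X := (Fin n × FF) ⊕ (Tq × FF)) (Y := Tp × FF)
    (Sum.elim (fun _ => (1 : ℚ))
      (fun y => vl l (Sum.elim (fun y => rm y.2) (fun _ => 0) y.1) (fun i => pr i (y.2 i))))
    (fun x => vl l (Sum.elim (fun y => rp y.2) (fun _ => 0) x.1) (fun i => pr i (x.2 i))) (by
      intro z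
      rw [cnt_sum, hgen Tp, hgen Tq, hgen' q rm, hgen' p rp,
        cnt_const (1 : ℚ) z (fun _ : Fin n × FF => (1 : ℚ)) (fun _ => rfl), Nat.card_prod, hcard,
        Nat.card_fin]
      show _ + Nat.card KK * (Nat.card PQ * cnt B z + if (0 : ℚ) = z then cnt A 0 * Nat.card PQ
        else 0) = Nat.card KK * (Nat.card PQ * cnt A z + if (0 : ℚ) = z then cnt B 0 * Nat.card PQ
        else 0)
      rcases lt_trichotomy z 0 with hz | hz | hz
      · rw [hA0 z hz, hB0 z hz, if_neg (by linarith), if_neg (by linarith), if_neg (by linarith)]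
        ring
      · subst hz
        rw [if_neg (by norm_num), if_pos rfl, if_pos rfl]; ring
      · rw [← hAB z hz, if_neg hz.ne, if_neg hz.ne]
        by_cases h1 : z = 1
        · rw [if_pos h1.symm, if_pos h1]; ring
        · rw [if_neg (fun h => h1 h.symm), if_neg h1]; ring)
  obtain ⟨e, he⟩ := hfinal
  exact ⟨e, fun x => he x⟩

end Ident



section Blocks

variable {R : Type v} [Group R]

lemma EqG_apply {X : Type*} (σ : EqG X R) (x : X) (a b : R) :
    (σ : Equiv.Perm _) (x, a * b) =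
      (((σ : Equiv.Perm _) (x, a)).1, ((σ : Equiv.Perm _) (x, a)).2 * b) := σ.2 x a b

/-- Transport of equivariant permutations along an equivariant bijection. -/
def EqG.conj {X₁ : Type*} {X₂ : Type*} (Θ : X₁ × R ≃ X₂ × R)
    (hΘ : ∀ x a b, Θ (x, a * b) = ((Θ (x, a)).1, (Θ (x, a)).2 * b)) : EqG X₁ R →* EqG X₂ R where
  toFun σ := ⟨Θ.symm.trans ((σ : Equiv.Perm _).trans Θ), by
    intro x a b
    have h1 : Θ.symm (x, a * b) = ((Θ.symm (x, a)).1, (Θ.symm (x, a)).2 * b) := by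
      rw [Equiv.symm_apply_eq, hΘ]
      rw [Prod.mk.eta, Equiv.apply_symm_apply]
    show Θ ((σ : Equiv.Perm _) (Θ.symm (x, a * b))) = _
    rw [h1, EqG_apply, hΘ]
    rfl⟩
  map_one' := by
    apply Subtype.ext
    ext1 x
    exact Θ.apply_symm_apply x
  map_mul' σ τ := by
    apply Subtype.ext
    ext1 x
    show Θ ((σ : Equiv.Perm _) ((τ : Equiv.Perm _) (Θ.symm x))) =
      Θ ((σ : Equiv.Perm _) (Θ.symm (Θ ((τ : Equiv.Perm _) (Θ.symm x)))))
    rw [Equiv.symm_apply_apply]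

lemma EqG.conj_apply {X₁ : Type*} {X₂ : Type*} (Θ : X₁ × R ≃ X₂ × R)
    (hΘ : ∀ x a b, Θ (x, a * b) = ((Θ (x, a)).1, (Θ (x, a)).2 * b)) (σ : EqG X₁ R) (z : X₁ × R) :
    (EqG.conj Θ hΘ σ : Equiv.Perm _) (Θ z) = Θ ((σ : Equiv.Perm _) z) := by
  show Θ ((σ : Equiv.Perm _) (Θ.symm (Θ z))) = _
  rw [Equiv.symm_apply_apply]

lemma EqG.conj_injective {X₁ : Type*} {X₂ : Type*} (Θ : X₁ × R ≃ X₂ × R)
    (hΘ : ∀ x a b, Θ (x, a * b) = ((Θ (x, a)).1, (Θ (x, a)).2 * b)) :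
    Function.Injective (EqG.conj Θ hΘ) := by
  intro σ τ h
  apply Subtype.ext
  ext1 z
  apply Θ.injective
  rw [← EqG.conj_apply Θ hΘ, ← EqG.conj_apply Θ hΘ, h]

/-- Disjoint union of equivariant actions. -/
def blockHom {G : Type*} [Group G] {S Y : Type*} (Φ : S → (G →* EqG Y R)) :
    G →* EqG (S × Y) R where
  toFun g := ⟨{ toFun := fun p => ((p.1.1, ((Φ p.1.1 g : Equiv.Perm _) (p.1.2, p.2)).1),
                  ((Φ p.1.1 g : Equiv.Perm _) (p.1.2, p.2)).2)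
                invFun := fun p => ((p.1.1, ((Φ p.1.1 g⁻¹ : Equiv.Perm _) (p.1.2, p.2)).1),
                  ((Φ p.1.1 g⁻¹ : Equiv.Perm _) (p.1.2, p.2)).2)
                left_inv := by
                  rintro ⟨⟨s, y⟩, a⟩
                  have h : (Φ s g⁻¹ : Equiv.Perm _) ((Φ s g : Equiv.Perm _) (y, a)) = (y, a) := by
                    rw [map_inv]; exact Equiv.symm_apply_apply _ _
                  show ((s, ((Φ s g⁻¹ : Equiv.Perm _) ((Φ s g : Equiv.Perm _) (y, a))).1),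
                    ((Φ s g⁻¹ : Equiv.Perm _) ((Φ s g : Equiv.Perm _) (y, a))).2) = _
                  rw [h]
                right_inv := by
                  rintro ⟨⟨s, y⟩, a⟩
                  have h : (Φ s g : Equiv.Perm _) ((Φ s g⁻¹ : Equiv.Perm _) (y, a)) = (y, a) := by
                    rw [map_inv]; exact Equiv.apply_symm_apply _ _
                  show ((s, ((Φ s g : Equiv.Perm _) ((Φ s g⁻¹ : Equiv.Perm _) (y, a))).1),
                    ((Φ s g : Equiv.Perm _) ((Φ s g⁻¹ : Equiv.Perm _) (y, a))).2) = _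
                  rw [h] }, by
    rintro ⟨s, y⟩ a b
    have h := EqG_apply (Φ s g) y a b
    show ((s, ((Φ s g : Equiv.Perm _) (y, a * b)).1), ((Φ s g : Equiv.Perm _) (y, a * b)).2) = _
    rw [h]
    rfl⟩
  map_one' := by
    apply Subtype.ext
    ext1 ⟨⟨s, y⟩, a⟩
    show ((s, ((Φ s 1 : Equiv.Perm _) (y, a)).1), ((Φ s 1 : Equiv.Perm _) (y, a)).2) = _
    rw [map_one]
    rfl
  map_mul' g h := by
    apply Subtype.ext
    ext1 ⟨⟨s, y⟩, a⟩
    show ((s, ((Φ s (g * h) : Equiv.Perm _) (y, a)).1),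
      ((Φ s (g * h) : Equiv.Perm _) (y, a)).2) = _
    rw [map_mul]
    rfl

lemma blockHom_apply {G : Type*} [Group G] {S Y : Type*} (Φ : S → (G →* EqG Y R)) (g : G)
    (s : S) (y : Y) (a : R) : (blockHom Φ g : Equiv.Perm _) ((s, y), a) =
      ((s, ((Φ s g : Equiv.Perm _) (y, a)).1), ((Φ s g : Equiv.Perm _) (y, a)).2) := rfl

lemma coe_zpow_hom {G : Type*} [Group G] {X : Type*} (Φ : G →* EqG X R) (c : G) (k : ℤ) :
    (Φ c : Equiv.Perm (X × R)) ^ k = (Φ (c ^ k) : Equiv.Perm (X × R)) := by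
  rw [map_zpow]; rfl

lemma coe_pow_hom {G : Type*} [Group G] {X : Type*} (Φ : G →* EqG X R) (c : G) (k : ℕ) :
    (Φ c : Equiv.Perm (X × R)) ^ k = (Φ (c ^ k) : Equiv.Perm (X × R)) := by
  rw [map_pow]; rfl

lemma block {G : Type u} [Group G] (N : Subgroup G) [hN : N.Normal] (c : G) (M : ℕ)
    (hM : ∀ k : ℤ, c ^ k ∈ N ↔ (M : ℤ) ∣ k) (hcM : c ^ M ∈ N) {S : Type*} (f : S → (N →* R)) :
    ∃ Φ : G →* EqG (S × (G ⧸ N)) R,
      (∀ s, Function.Injective (f s) → Function.Injective Φ) ∧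
      (∀ x (k : ℤ), (((Φ c : Equiv.Perm ((S × (G ⧸ N)) × R)) ^ k) (x, 1)).1 = x ↔ (M : ℤ) ∣ k) ∧
      ∀ s (g : G), IsConj (f s (cj g ⟨c ^ M, hcM⟩))
        (((Φ c : Equiv.Perm ((S × (G ⧸ N)) × R)) ^ M) ((s, (g : G ⧸ N)), 1)).2 := by
  choose Φ h1 h2 h3 using fun s => exists_induced N (f s)
  refine ⟨blockHom Φ, ?_, ?_, ?_⟩
  · intro s hs g g' hg
    apply h3 s hs
    apply Subtype.ext
    ext1 ⟨y, a⟩
    have h := congrArg (fun σ : EqG (S × (G ⧸ N)) R => (σ : Equiv.Perm _) ((s, y), a)) hg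
    have h' : ((s, ((Φ s g : Equiv.Perm _) (y, a)).1), ((Φ s g : Equiv.Perm _) (y, a)).2) =
      ((s, ((Φ s g' : Equiv.Perm _) (y, a)).1), ((Φ s g' : Equiv.Perm _) (y, a)).2) := h
    rw [Prod.mk.injEq, Prod.mk.injEq] at h'
    exact Prod.ext h'.1.2 h'.2
  · rintro ⟨s, y⟩ k
    rw [coe_zpow_hom, blockHom_apply, h1, ← hM]
    obtain ⟨g, rfl⟩ := QuotientGroup.mk_surjective y
    constructor
    · intro h
      have h4 : ((c ^ k * g : G) : G ⧸ N) = (g : G ⧸ N) := (Prod.mk.inj h).2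
      rw [QuotientGroup.eq] at h4
      have h5 := hN.conj_mem _ h4 g
      have h6 : g * ((c ^ k * g)⁻¹ * g) * g⁻¹ = (c ^ k)⁻¹ := by group
      rw [h6] at h5
      simpa using N.inv_mem h5
    · intro h
      show (s, ((c ^ k * g : G) : G ⧸ N)) = _
      congr 1
      rw [QuotientGroup.eq]
      have h5 := hN.conj_mem _ (N.inv_mem h) g⁻¹
      have h6 : g⁻¹ * (c ^ k)⁻¹ * g⁻¹⁻¹ = (c ^ k * g)⁻¹ * g := by group
      rwa [h6] at h5
  · intro s g
    rw [coe_pow_hom, blockHom_apply]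
    exact h2 s (c ^ M) hcM g _

end Blocks

section Final

variable {R : Type} [Group R]

lemma mk_zpow_abs {w : R} (hw : IsConj w w⁻¹) (z : ℤ) :
    ConjClasses.mk (w ^ z) = ConjClasses.mk (w ^ |z|) := by
  rcases abs_choice z with h | h
  · rw [h]
  · rw [h, ConjClasses.mk_eq_mk_iff_isConj]
    obtain ⟨g, hg⟩ := isConj_iff.mp hw
    rw [isConj_iff]
    refine ⟨g, ?_⟩
    rw [← conj_zpow, hg, inv_zpow']

/-- The homomorphism `y ↦ w ^ (s y)` for an integral rational homomorphism `s`. -/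
noncomputable def expHom {G : Type*} [Group G] (w : R) (s : G → ℚ)
    (hs : ∀ x y, s (x * y) = s x + s y) (hi : ∀ x, ∃ z : ℤ, s x = z) : G →* R where
  toFun y := w ^ ⌊s y⌋
  map_one' := by
    have h : s 1 = 0 := by have := hs 1 1; rw [mul_one] at this; linarith
    rw [h]; simp
  map_mul' x y := by
    obtain ⟨z, hz⟩ := hi x
    obtain ⟨z', hz'⟩ := hi y
    have h : s (x * y) = ((z + z' : ℤ) : ℚ) := by rw [hs, hz, hz']; push_cast; rfl
    rw [h, hz, hz', Int.floor_intCast, Int.floor_intCast, Int.floor_intCast, zpow_add]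

end Final


section Real

variable {ι : Type} [Fintype ι] [DecidableEq ι] {G : ι → Type u} [∀ i, Group (G i)]
  (N : ∀ i, Subgroup (G i)) [∀ i, (N i).Normal] (c : ∀ i, G i) (m : ι → ℕ)
  (hcm : ∀ i, c i ^ m i ∈ N i)

/-- The slope functionals, indexed by cosets. -/
noncomputable def lf (i : ι) (q : G i ⧸ N i) : VV (N i) →ₗ[ℚ] ℚ :=
  sl ⟨c i ^ m i, hcm i⟩ (m i) q.out

omit [Fintype ι] [DecidableEq ι] in
lemma lf_mk (i : ι) (g : G i) :
    lf N c m hcm i (g : G i ⧸ N i) = sl ⟨c i ^ m i, hcm i⟩ (m i) g := by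
  refine sl_coset _ _ ?_
  rw [← QuotientGroup.eq]
  exact Quotient.out_eq' _

/-- The product of the slopes of the other factors. -/
noncomputable def coef (i : ι) (r : ∀ j, VV (N j)) (x : ∀ j, G j ⧸ N j) : ℚ :=
  ∏ j ∈ Finset.univ.erase i, lf N c m hcm j (x j) (r j)

lemma vl_eq (i : ι) (r : ∀ j, VV (N j)) (x : ∀ j, G j ⧸ N j) :
    vl (lf N c m hcm) r x = |coef N c m hcm i r x| * |lf N c m hcm i (x i) (r i)| := by
  unfold vl coef
  rw [Finset.abs_prod, mul_comm, Finset.mul_prod_erase Finset.univ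
    (fun j => |lf N c m hcm j (x j) (r j)|) (Finset.mem_univ i)]

lemma coef_congr (i : ι) (r : ∀ j, VV (N j)) (x y : ∀ j, G j ⧸ N j)
    (h : ∀ j, j ≠ i → x j = y j) : coef N c m hcm i r x = coef N c m hcm i r y := by
  unfold coef
  refine Finset.prod_congr rfl fun j hj => ?_
  rw [h j (Finset.ne_of_mem_erase hj)]

lemma type_eq (hm : ∀ i, 0 < m i) {R : Type} [Group R] {w : R} (hw : IsConj w w⁻¹) (i : ι)
    (N' : Subgroup (G i)) [N'.Normal] (hN' : N' ≤ N i) (M : ℕ) (hcM : c i ^ M ∈ N')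
    (r : ∀ j, VV (N j)) (x : ∀ j, G j ⧸ N j) (g : G i) (hx : x i = (g : G i ⧸ N i)) (s : N' → ℚ)
    (hs : ∀ y : N', s y = coef N c m hcm i r x * (r i).1 ⟨y.1, hN' y.2⟩)
    (h1 : ∀ x y, s (x * y) = s x + s y) (h2 : ∀ x, ∃ z : ℤ, s x = z) :
    ConjClasses.mk (expHom w s h1 h2 (cj g ⟨c i ^ M, hcM⟩)) =
      ConjClasses.mk (w ^ ⌊(M : ℚ) * vl (lf N c m hcm) r x⌋) := by
  obtain ⟨z, hz⟩ := h2 (cj g ⟨c i ^ M, hcM⟩)
  have h3 : s (cj g ⟨c i ^ M, hcM⟩) =
      coef N c m hcm i r x * (M * lf N c m hcm i (x i) (r i)) := by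
    rw [hs, hx, lf_mk, ← sl_pow (c i) (m i) M (hm i) (hcm i) (hN' hcM) g (r i)]
    rfl
  have h4 : (M : ℚ) * vl (lf N c m hcm) r x = ((|z| : ℤ) : ℚ) := by
    rw [vl_eq N c m hcm i]
    push_cast
    rw [← hz, h3, abs_mul, abs_mul, Nat.abs_cast]
    ring
  have h5 : expHom w s h1 h2 (cj g ⟨c i ^ M, hcM⟩) = w ^ z := by
    show w ^ ⌊s (cj g ⟨c i ^ M, hcM⟩)⌋ = _
    rw [hz, Int.floor_intCast]
  rw [h4, h5, Int.floor_intCast]
  exact mk_zpow_abs hw z

end Real

/-- Regrouping of the coordinates. -/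
def eTT {ι : Type} [DecidableEq ι] (F : ι → Type u) (i : ι) (T : Type v) :
    (T × (∀ j : {j // j ≠ i}, F j)) × F i ≃ T × (∀ j, F j) :=
  (Equiv.prodAssoc _ _ _).trans (Equiv.prodCongr (Equiv.refl T)
    ((Equiv.prodComm _ _).trans (Equiv.piSplitAt i F).symm))

end Mt

open Mt in
theorem matching {ι : Type} [Finite ι] (G : ι → Type u) [∀ i, Group (G i)]
    (hG : ∀ i, VirtSpecial (G i)) (c : ∀ i, G i) (hc : ∀ i, ¬ IsOfFinOrder (c i)) (i₀ : ι) :
    ∃ (W : Type) (_ : Group W) (_ : VirtSpecial W) (Φ : ∀ i, G i →* W),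
      Function.Injective (Φ i₀) ∧ ∀ i j, Φ i (c i) = Φ j (c j) := by
  classical
  have := Fintype.ofFinite ι
  have : Nonempty ι := ⟨i₀⟩
  obtain ⟨R, hRg, hR, jj, hjj, hw⟩ := exists_reversing (hG i₀) (c i₀) (hc i₀)
  set w : R := jj (c i₀) with hwdef
  have hvrc : ∀ i, Pool.Agent.Helper29.VRC (G i) := fun i => (hG i).vrc
  choose K₀ hK₀ hcK f hf using fun i => (hvrc i (c i)).functional (hc i)
  let N : ∀ i, Subgroup (G i) := fun i => (K₀ i).normalCore
  have hNn : ∀ i, (N i).Normal := fun i => inferInstance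
  have hNf : ∀ i, (N i).FiniteIndex := fun i => inferInstance
  let m : ι → ℕ := fun i => (N i).index
  have hm : ∀ i, 0 < m i := fun i => Nat.pos_of_ne_zero (hNf i).index_ne_zero
  have hcm : ∀ i, c i ^ m i ∈ N i := fun i => Subgroup.pow_index_mem _ _
  have hr₀ : ∀ i, ∃ r : VV (N i), r.1 ⟨c i ^ m i, hcm i⟩ ≠ 0 := by
    intro i
    refine ⟨⟨fun x => ((Multiplicative.toAdd (f i ⟨x.1, (K₀ i).normalCore_le x.2⟩) : ℤ) : ℚ),
      ?_, 1, one_pos, fun x => ⟨_, by rw [Nat.cast_one, one_mul]⟩⟩, ?_⟩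
    · intro x y
      have : (⟨(x * y).1, (K₀ i).normalCore_le (x * y).2⟩ : K₀ i) =
        ⟨x.1, (K₀ i).normalCore_le x.2⟩ * ⟨y.1, (K₀ i).normalCore_le y.2⟩ := rfl
      show ((Multiplicative.toAdd (f i ⟨(x * y).1, (K₀ i).normalCore_le (x * y).2⟩) : ℤ) : ℚ) = _
      rw [this, map_mul, toAdd_mul]
      push_cast; rfl
    · have : (⟨c i ^ m i, (K₀ i).normalCore_le (hcm i)⟩ : K₀ i) = ⟨c i, hcK i⟩ ^ m i := rfl
      show ((Multiplicative.toAdd (f i ⟨c i ^ m i, (K₀ i).normalCore_le (hcm i)⟩) : ℤ) : ℚ) ≠ 0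
      rw [this, map_pow, hf]
      simpa using (hm i).ne'
  let l : ∀ i, (G i ⧸ N i) → VV (N i) →ₗ[ℚ] ℚ := lf N c m hcm
  have hl1 : ∀ i, sl (⟨c i ^ m i, hcm i⟩ : N i) (m i) (1 : G i) ≠ 0 := fun i => by
    obtain ⟨r, hr⟩ := hr₀ i
    exact sl_one_ne_zero _ _ (hm i) r hr
  obtain ⟨n, Tp, Tq, hTp, hTq, rp, rq, hn, hequiv⟩ := match_equiv l
    (fun i q => sl_ne_zero _ _ (hl1 i) _) (fun i q q' t h => sl_prop _ _ (hl1 i) _ _ t h)
  -- the smaller subgroups
  let ZZ : ∀ i, Subgroup (N i) := fun i =>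
    (⨅ y : Tp × (∀ j, G j ⧸ N j), intSub (coef N c m hcm i (rp y.1) y.2 • rp y.1 i)) ⊓
    (⨅ y : Tq × (∀ j, G j ⧸ N j), intSub (coef N c m hcm i (rq y.1) y.2 • rq y.1 i))
  have hZZ : ∀ i, (ZZ i).FiniteIndex := by
    intro i
    have h1 : (⨅ y : Tp × (∀ j, G j ⧸ N j),
        intSub (coef N c m hcm i (rp y.1) y.2 • rp y.1 i)).FiniteIndex :=
      Subgroup.finiteIndex_iInf fun y => intSub_finiteIndex _
    have h2 : (⨅ y : Tq × (∀ j, G j ⧸ N j),
        intSub (coef N c m hcm i (rq y.1) y.2 • rq y.1 i)).FiniteIndex :=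
      Subgroup.finiteIndex_iInf fun y => intSub_finiteIndex _
    exact inferInstance
  let N₀ : ∀ i, Subgroup (G i) := fun i => ((ZZ i).map (N i).subtype).normalCore
  have hN₀f : ∀ i, (N₀ i).FiniteIndex := by
    intro i
    have := Pool.Agent.Helper29.finiteIndex_map_subtype (N i) (hNf i) (ZZ i) (hZZ i)
    exact inferInstance
  obtain ⟨M, N', hM, -, hN'⟩ := Pool.Agent.Helper29.compat hvrc c (Or.inl hc) N₀
    (fun i => inferInstance) hN₀f
  have hN'n : ∀ i, (N' i).Normal := fun i => (hN' i).1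
  have hN'f : ∀ i, (N' i).FiniteIndex := fun i => (hN' i).2.1
  have hN'0 : ∀ i, N' i ≤ (ZZ i).map (N i).subtype := fun i =>
    (hN' i).2.2.1.trans (Subgroup.normalCore_le _)
  have hcyc : ∀ i (k : ℤ), c i ^ k ∈ N' i ↔ (M : ℤ) ∣ k := fun i => (hN' i).2.2.2
  have hcM : ∀ i, c i ^ M ∈ N' i := fun i => by
    have := (hcyc i M).mpr dvd_rfl
    rwa [zpow_natCast] at this
  have hN'N : ∀ i, N' i ≤ N i := by
    intro i y hy
    obtain ⟨z, -, rfl⟩ := hN'0 i hy
    exact z.2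
  have hZmem : ∀ i (y : N' i), (⟨y.1, hN'N i y.2⟩ : N i) ∈ ZZ i := by
    intro i y
    obtain ⟨z, hz, hzy⟩ := hN'0 i y.2
    have : (⟨y.1, hN'N i y.2⟩ : N i) = z := Subtype.ext hzy.symm
    rw [this]; exact hz
  have hintp : ∀ i (t : Tp) (x : ∀ j, G j ⧸ N j) (y : N' i), ∃ z : ℤ,
      coef N c m hcm i (rp t) x * (rp t i).1 ⟨y.1, hN'N i y.2⟩ = z := by
    intro i t x y
    have h1 := (Subgroup.mem_inf.mp (hZmem i y)).1
    rw [Subgroup.mem_iInf] at h1
    exact h1 (t, x)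
  have hintq : ∀ i (t : Tq) (x : ∀ j, G j ⧸ N j) (y : N' i), ∃ z : ℤ,
      coef N c m hcm i (rq t) x * (rq t i).1 ⟨y.1, hN'N i y.2⟩ = z := by
    intro i t x y
    have h1 := (Subgroup.mem_inf.mp (hZmem i y)).2
    rw [Subgroup.mem_iInf] at h1
    exact h1 (t, x)
  -- the final matching of values
  let F : ι → Type u := fun i => G i ⧸ N' i
  have hFf : ∀ i, Finite (F i) := fun i => inferInstanceAs (Finite (G i ⧸ N' i))
  let E : ∀ i, F i ≃ (G i ⧸ N i) × (N i ⧸ (N' i).subgroupOf (N i)) := fun i =>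
    Subgroup.quotientEquivProdOfLE (hN'N i)
  let pr : ∀ i, F i → G i ⧸ N i := fun i x => (E i x).1
  have hpr : ∀ i (g : G i), pr i ((g : G i ⧸ N' i) : F i) = (g : G i ⧸ N i) := fun i g => rfl
  obtain ⟨e, he⟩ := hequiv F (fun i => N i ⧸ (N' i).subgroupOf (N i)) E pr (fun _ _ => rfl)
  let κ : ℚ → ConjClasses R := fun v => ConjClasses.mk (w ^ ⌊(M : ℚ) * v⌋)
  -- the homomorphisms on the blocks
  have hreal : ∀ (i : ι) (T : Type u) (r : T → ∀ j, VV (N j))
      (hint : ∀ (t : T) (x : ∀ j, G j ⧸ N j) (y : N' i), ∃ z : ℤ,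
        coef N c m hcm i (r t) x * (r t i).1 ⟨y.1, hN'N i y.2⟩ = z),
      ∃ fh : T × (∀ j : {j // j ≠ i}, F j) → (N' i →* R), ∀ s (g : G i),
        ConjClasses.mk (fh s (cj g ⟨c i ^ M, hcM i⟩)) =
          κ (vl l (r s.1) (fun j => pr j ((Equiv.piSplitAt i F).symm
            (((g : G i ⧸ N' i) : F i), s.2) j))) := by
    intro i T r hint
    let xx : (∀ j : {j // j ≠ i}, F j) → F i → ∀ j, G j ⧸ N j := fun x y j =>
      pr j ((Equiv.piSplitAt i F).symm (y, x) j)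
    have hadd : ∀ (s : T × (∀ j : {j // j ≠ i}, F j)) (x y : N' i),
        coef N c m hcm i (r s.1) (xx s.2 (((1 : G i) : G i ⧸ N' i) : F i)) *
          (r s.1 i).1 ⟨(x * y).1, hN'N i (x * y).2⟩ =
        coef N c m hcm i (r s.1) (xx s.2 (((1 : G i) : G i ⧸ N' i) : F i)) *
          (r s.1 i).1 ⟨x.1, hN'N i x.2⟩ +
        coef N c m hcm i (r s.1) (xx s.2 (((1 : G i) : G i ⧸ N' i) : F i)) *
          (r s.1 i).1 ⟨y.1, hN'N i y.2⟩ := by
      intro s x y
      have h1 : (⟨(x * y).1, hN'N i (x * y).2⟩ : N i) =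
        ⟨x.1, hN'N i x.2⟩ * ⟨y.1, hN'N i y.2⟩ := rfl
      rw [h1, VV_mul, mul_add]
    refine ⟨fun s => expHom w (fun y : N' i =>
      coef N c m hcm i (r s.1) (xx s.2 (((1 : G i) : G i ⧸ N' i) : F i)) *
        (r s.1 i).1 ⟨y.1, hN'N i y.2⟩) (hadd s) (fun y => hint _ _ y), ?_⟩
    intro s g
    refine type_eq N c m hcm hm hw i (N' i) (hN'N i) M (hcM i) (r s.1)
      (xx s.2 ((g : G i ⧸ N' i) : F i)) g ?_ _ ?_ _ _
    · show pr i ((Equiv.piSplitAt i F).symm (((g : G i ⧸ N' i) : F i), s.2) i) = _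
      have h1 : (Equiv.piSplitAt i F).symm (((g : G i ⧸ N' i) : F i), s.2) i =
          ((g : G i ⧸ N' i) : F i) := by
        simp [Equiv.piSplitAt]
      rw [h1]
      exact hpr i g
    · intro y
      congr 1
      refine coef_congr N c m hcm i _ _ _ fun j hj => ?_
      show pr j _ = pr j _
      congr 1
      simp [Equiv.piSplitAt, hj]
  have hP : ∀ i, ∃ (X : Type u) (_ : Finite X) (Φ : G i →* EqG X R),
      (i = i₀ → Function.Injective Φ) ∧
      (∀ x (k : ℤ), (((Φ (c i) : Equiv.Perm (X × R)) ^ k) (x, 1)).1 = x ↔ (M : ℤ) ∣ k) ∧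
      ∀ C : ConjClasses R, cnt (fun x => ConjClasses.mk
          (((Φ (c i) : Equiv.Perm (X × R)) ^ M) (x, 1)).2) C =
        cnt (fun x : Tp × (∀ j, F j) => κ (vl l (rp x.1) (fun j => pr j (x.2 j)))) C := by
    intro i
    by_cases hi : i = i₀
    · subst hi
      obtain ⟨fh, hfh⟩ := hreal i Tq rq (hintq i)
      let fh' : (Fin n × (∀ j : {j // j ≠ i}, F j)) ⊕ (Tq × (∀ j : {j // j ≠ i}, F j)) →
          (N' i →* R) := Sum.elim (fun _ => jj.comp (N' i).subtype) fh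
      obtain ⟨Φ, h1, h2, h3⟩ := block (N' i) (c i) M (hcyc i) (hcM i) fh'
      refine ⟨((Fin n × (∀ j : {j // j ≠ i}, F j)) ⊕ (Tq × (∀ j : {j // j ≠ i}, F j))) ×
        (G i ⧸ N' i), inferInstance, Φ, fun _ => ?_, h2, ?_⟩
      · refine h1 (Sum.inl (⟨0, hn⟩, fun j => ((1 : G j) : G j ⧸ N' j))) ?_
        exact hjj.comp Subtype.val_injective
      · intro C
        refine cnt_equiv ((Equiv.sumProdDistrib _ _ _).trans
          ((Equiv.sumCongr (eTT F i (Fin n)) (eTT F i Tq)).trans e)) _ _ ?_ C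
        rintro ⟨⟨a, x⟩ | ⟨t, x⟩, y⟩
        · obtain ⟨g, rfl⟩ := QuotientGroup.mk_surjective y
          have h4 := h3 (Sum.inl (a, x)) g
          rw [← ConjClasses.mk_eq_mk_iff_isConj] at h4
          rw [← h4]
          show ConjClasses.mk (jj (g⁻¹ * c i ^ M * g)) = κ _
          have h5 := he (Sum.inl (eTT F i (Fin n) ((a, x), ((g : G i ⧸ N' i) : F i))))
          show _ = κ (vl l (rp (e (Sum.inl (eTT F i (Fin n)
            ((a, x), ((g : G i ⧸ N' i) : F i))))).1) fun j => pr j ((e (Sum.inl (eTT F i (Fin n)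
            ((a, x), ((g : G i ⧸ N' i) : F i))))).2 j))
          rw [h5]
          show _ = ConjClasses.mk (w ^ ⌊(M : ℚ) * 1⌋)
          rw [mul_one, Int.floor_natCast, zpow_natCast, ConjClasses.mk_eq_mk_iff_isConj,
            isConj_iff]
          refine ⟨jj g, ?_⟩
          rw [hwdef, ← map_pow, ← map_inv, ← map_mul, ← map_mul]
          congr 1
          group
        · obtain ⟨g, rfl⟩ := QuotientGroup.mk_surjective y
          have h4 := h3 (Sum.inr (t, x)) g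
          rw [← ConjClasses.mk_eq_mk_iff_isConj] at h4
          rw [← h4]
          show ConjClasses.mk (fh (t, x) (cj g ⟨c i ^ M, hcM i⟩)) = κ _
          rw [hfh]
          have h5 := he (Sum.inr (eTT F i Tq ((t, x), ((g : G i ⧸ N' i) : F i))))
          show _ = κ (vl l (rp (e (Sum.inr (eTT F i Tq
            ((t, x), ((g : G i ⧸ N' i) : F i))))).1) fun j => pr j ((e (Sum.inr (eTT F i Tq
            ((t, x), ((g : G i ⧸ N' i) : F i))))).2 j))
          rw [h5]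
          rfl
    · obtain ⟨fh, hfh⟩ := hreal i Tp rp (hintp i)
      obtain ⟨Φ, h1, h2, h3⟩ := block (N' i) (c i) M (hcyc i) (hcM i) fh
      refine ⟨(Tp × (∀ j : {j // j ≠ i}, F j)) × (G i ⧸ N' i), inferInstance, Φ,
        fun h => absurd h hi, h2, ?_⟩
      intro C
      refine cnt_equiv (eTT F i Tp) _ _ ?_ C
      rintro ⟨⟨t, x⟩, y⟩
      obtain ⟨g, rfl⟩ := QuotientGroup.mk_surjective y
      have h4 := h3 (t, x) g
      rw [← ConjClasses.mk_eq_mk_iff_isConj] at h4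
      rw [← h4, hfh]
      rfl
  choose X hXf Φ hΦinj hΦcyc hΦcnt using hP
  let k : ℕ := Nat.card (X i₀)
  let e₀ : X i₀ ≃ Fin k := Finite.equivFin (X i₀)
  let Θ₀ : X i₀ × R ≃ Fin k × R := Equiv.prodCongr e₀ (Equiv.refl R)
  have hΘ₀ : ∀ x a b, Θ₀ (x, a * b) = ((Θ₀ (x, a)).1, (Θ₀ (x, a)).2 * b) := fun _ _ _ => rfl
  let σ : EqG (Fin k) R := EqG.conj Θ₀ hΘ₀ (Φ i₀ (c i₀))
  have hσ : ∀ (j : ℤ) (x : X i₀), ((σ : Equiv.Perm (Fin k × R)) ^ j) (e₀ x, 1) =
      Θ₀ (((Φ i₀ (c i₀) : Equiv.Perm (X i₀ × R)) ^ j) (x, 1)) := by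
    intro j x
    have h1 : (σ : Equiv.Perm (Fin k × R)) ^ j =
      (((EqG.conj Θ₀ hΘ₀).comp (Φ i₀) (c i₀ ^ j) : EqG (Fin k) R) : Equiv.Perm (Fin k × R)) := by
      rw [map_zpow]; rfl
    rw [h1, coe_zpow_hom]
    exact EqG.conj_apply Θ₀ hΘ₀ _ (x, 1)
  have hσ' : ∀ (x : X i₀), ((σ : Equiv.Perm (Fin k × R)) ^ M) (e₀ x, 1) =
      Θ₀ (((Φ i₀ (c i₀) : Equiv.Perm (X i₀ × R)) ^ M) (x, 1)) := by
    intro x
    have := hσ M x
    rwa [zpow_natCast, zpow_natCast] at this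
  have hint : ∀ i, ∃ Θ : X i × R ≃ Fin k × R,
      (∀ x a b, Θ (x, a * b) = ((Θ (x, a)).1, (Θ (x, a)).2 * b)) ∧
      ∀ z, Θ ((Φ i (c i) : Equiv.Perm (X i × R)) z) = (σ : Equiv.Perm (Fin k × R)) (Θ z) := by
    intro i
    refine exists_intertwiner (Φ i (c i) : Equiv.Perm (X i × R)) (Φ i (c i)).2
      (σ : Equiv.Perm (Fin k × R)) σ.2 M hM (hΦcyc i) ?_ ?_
    · intro x j
      obtain ⟨x, rfl⟩ := e₀.surjective x
      rw [hσ]
      show e₀ _ = e₀ x ↔ _
      rw [e₀.apply_eq_iff_eq]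
      exact hΦcyc i₀ x j
    · intro C
      have h1 := (hΦcnt i C).trans (hΦcnt i₀ C).symm
      refine h1.trans ?_
      refine cnt_equiv e₀ _ _ (fun x => ?_) C
      rw [hσ']
      rfl
  choose Θ hΘ1 hΘ2 using hint
  refine ⟨EqG (Fin k) R, inferInstance, virtSpecial_EqG (Fin k) R hR,
    fun i => (EqG.conj (Θ i) (hΘ1 i)).comp (Φ i), ?_, ?_⟩
  · exact (EqG.conj_injective (Θ i₀) (hΘ1 i₀)).comp (hΦinj i₀ rfl)
  · have h1 : ∀ i, (EqG.conj (Θ i) (hΘ1 i)).comp (Φ i) (c i) = σ := by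
      intro i
      apply Subtype.ext
      ext1 z
      obtain ⟨z, rfl⟩ := (Θ i).surjective z
      exact (EqG.conj_apply (Θ i) (hΘ1 i) _ z).trans (hΘ2 i z)
    intro i j
    exact (h1 i).trans (h1 j).symm

end VSp
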