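import Mathlib

set_option autoImplicit false

/-! M13. The algebraic identity behind the matching of slopes. -/

open Finset Polynomial

namespace VSp

namespace MatchAlg

/-- Newton: if all high unit differences at `0` vanish, a function on `ℕ` is polynomial. -/
theorem exists_poly {L : Type*} [Field L] [CharZero L] (f : ℕ → L) (s : ℕ)
    (h : ∀ j, s ≤ j → ((fwdDiff (1 : ℕ))^[j] f) 0 = 0) :
    ∃ p : L[X], ∀ k : ℕ, f k = p.eval (k : L) := by
  refine ⟨∑ j ∈ range s, C (((fwdDiff (1 : ℕ))^[j] f) 0 / (j.factorial : L)) *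
    descPochhammer L j, ?_⟩
  intro k
  have h1 := shift_eq_sum_fwdDiff_iter (1 : ℕ) f k 0
  simp only [smul_eq_mul, mul_one, zero_add] at h1
  rw [h1, eval_finsetSum]
  have h2 : ∑ j ∈ range (k + 1), k.choose j • ((fwdDiff (1 : ℕ))^[j] f) 0
      = ∑ j ∈ range (max s (k + 1)), k.choose j • ((fwdDiff (1 : ℕ))^[j] f) 0 := by
    apply Finset.sum_subset
    · exact Finset.range_mono (le_max_right _ _)
    · intro j _ hj
      rw [Finset.mem_range, not_lt] at hj
      rw [Nat.choose_eq_zero_of_lt (by omega), zero_smul]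
  have h3 : ∑ j ∈ range s, k.choose j • ((fwdDiff (1 : ℕ))^[j] f) 0
      = ∑ j ∈ range (max s (k + 1)), k.choose j • ((fwdDiff (1 : ℕ))^[j] f) 0 := by
    apply Finset.sum_subset
    · exact Finset.range_mono (le_max_left _ _)
    · intro j _ hj
      rw [Finset.mem_range, not_lt] at hj
      rw [h j hj, smul_zero]
  rw [h2, ← h3]
  apply Finset.sum_congr rfl
  intro j _
  rw [eval_mul, eval_C, descPochhammer_eval_eq_descFactorial, Nat.descFactorial_eq_factorial_mul_choose]
  have : (j.factorial : L) ≠ 0 := Nat.cast_ne_zero.2 j.factorial_ne_zero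
  push_cast
  field_simp
  rw [nsmul_eq_mul, mul_comm]

/-- A multiplicative function on `ℕ` which is polynomial is a power. -/
theorem pow_of_poly {L : Type*} [Field L] [CharZero L] (f : ℕ → L) (p : L[X])
    (hp : ∀ k : ℕ, f k = p.eval (k : L)) (h0 : f 0 = 0) (h1 : f 1 = 1)
    (hm : ∀ k, f (2 * k) = f 2 * f k) : ∃ d : ℕ, 1 ≤ d ∧ ∀ k : ℕ, f k = (k : L) ^ d := by
  have hinf : Set.Infinite (Set.range (fun k : ℕ => (k : L))) :=
    Set.infinite_range_of_injective Nat.cast_injective
  have hcomp : p.comp (C 2 * X) = C (f 2) * p := by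
    apply Polynomial.eq_of_infinite_eval_eq
    apply hinf.mono
    rintro _ ⟨k, rfl⟩
    simp only [Set.mem_ofPred_eq, eval_comp, eval_mul, eval_C, eval_X]
    rw [← hp k, ← hm k, hp]
    push_cast
    ring_nf
  have hc : ∀ j, p.coeff j * 2 ^ j = f 2 * p.coeff j := by
    intro j
    have := congrArg (fun q => q.coeff j) hcomp
    simp only [coeff_C_mul, comp_C_mul_X_coeff] at this
    exact this
  have hp0 : p ≠ 0 := by
    intro h
    have := hp 1
    rw [h, h1, eval_zero] at this
    exact one_ne_zero this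
  obtain ⟨j, hj⟩ : ∃ j, p.coeff j ≠ 0 := by
    by_contra hcon
    push Not at hcon
    exact hp0 (Polynomial.ext (by simpa using hcon))
  have hf2 : f 2 = 2 ^ j := by
    have := hc j
    rw [mul_comm] at this
    exact (mul_right_cancel₀ hj this).symm
  have hother : ∀ i, i ≠ j → p.coeff i = 0 := by
    intro i hij
    by_contra hi
    have h2 : (2 : L) ^ i = 2 ^ j := by
      have := hc i
      rw [mul_comm, hf2] at this
      exact mul_right_cancel₀ hi this
    have h3 : (2 : ℕ) ^ i = 2 ^ j := by exact_mod_cast h2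
    exact hij (Nat.pow_right_injective le_rfl h3)
  have hpe : p = C (p.coeff j) * X ^ j := by
    ext i
    rw [coeff_C_mul, coeff_X_pow]
    by_cases hij : i = j
    · simp [hij]
    · simp [hij, hother i hij]
  have hcj : p.coeff j = 1 := by
    have := hp 1
    rw [h1, hpe] at this
    simp only [Nat.cast_one, eval_mul, eval_C, eval_pow, eval_X, one_pow, mul_one] at this
    exact this.symm
  refine ⟨j, ?_, ?_⟩
  · rcases Nat.eq_zero_or_pos j with hj0 | hj0
    · exfalso
      have := hp 0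
      rw [h0, hpe, hcj, hj0] at this
      simp at this
    · exact hj0
  · intro k
    rw [hp k, hpe, hcj]
    simp

/-- Iterated differences along a list. -/
def D {M L : Type*} [AddCommMonoid M] [AddCommGroup L] (vs : List M) (f : M → L) : M → L :=
  vs.foldr (fun v f => fwdDiff v f) f

theorem D_nil {M L : Type*} [AddCommMonoid M] [AddCommGroup L] (f : M → L) : D [] f = f := rfl

theorem D_cons {M L : Type*} [AddCommMonoid M] [AddCommGroup L] (v : M) (vs : List M) (f : M → L) :
    D (v :: vs) f = fwdDiff v (D vs f) := rfl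

theorem D_comp {M N L : Type*} [AddCommMonoid M] [AddCommMonoid N] [AddCommGroup L]
    (l : M →+ N) (f : N → L) (vs : List M) :
    D vs (fun r => f (l r)) = fun r => D (vs.map l) f (l r) := by
  induction vs with
  | nil => rfl
  | cons v vs ih =>
    rw [D_cons, ih, List.map_cons, D_cons]
    funext r
    simp only [fwdDiff, map_add]

theorem D_zero_fun {M L : Type*} [AddCommMonoid M] [AddCommGroup L] (vs : List M) :
    D vs (fun _ : M => (0 : L)) = fun _ => 0 := by
  induction vs with
  | nil => rfl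
  | cons v vs ih => rw [D_cons, ih]; funext r; simp [fwdDiff]

theorem D_of_zero_mem {M L : Type*} [AddCommMonoid M] [AddCommGroup L] (vs : List M) (f : M → L)
    (h : (0 : M) ∈ vs) : D vs f = fun _ => 0 := by
  induction vs with
  | nil => simp at h
  | cons v vs ih =>
    rw [D_cons]
    rcases List.mem_cons.1 h with h | h
    · funext r; simp [fwdDiff, ← h]
    · rw [ih h]; funext r; simp [fwdDiff]

theorem D_replicate {M L : Type*} [AddCommMonoid M] [AddCommGroup L] (v : M) (s : ℕ) (f : M → L) :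
    D (List.replicate s v) f = (fwdDiff v)^[s] f := by
  induction s with
  | zero => rfl
  | succ s ih => rw [List.replicate_succ, D_cons, ih, Function.iterate_succ_apply']

theorem D_sum {M L ι : Type*} [AddCommMonoid M] [AddCommGroup L] (t : Finset ι) (vs : List M)
    (f : ι → M → L) :
    D vs (fun r => ∑ g ∈ t, f g r) = fun r => ∑ g ∈ t, D vs (f g) r := by
  induction vs with
  | nil => rfl
  | cons v vs ih =>
    rw [D_cons, ih]
    funext r
    simp only [fwdDiff, D_cons, Finset.sum_sub_distrib]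

theorem iter_cast {L : Type*} [AddCommGroup L] (f : ℚ → L) (j : ℕ) (y : ℕ) :
    ((fwdDiff (1 : ℕ))^[j] (fun k : ℕ => f k)) y = ((fwdDiff (1 : ℚ))^[j] f) (y : ℚ) := by
  induction j generalizing f with
  | zero => rfl
  | succ j ih =>
    rw [Function.iterate_succ_apply, Function.iterate_succ_apply, ← ih]
    have : (fwdDiff (1 : ℕ) fun k : ℕ => f (k : ℚ)) = fun k : ℕ => fwdDiff (1 : ℚ) f (k : ℚ) := by
      funext k
      simp [fwdDiff]
    rw [this]

/-- The heart of (7.1). -/
theorem key {V L ι : Type*} [AddCommGroup V] [Module ℚ V] [Field L] [CharZero L] [Fintype ι]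
    (ψ : ℚ → L) (h0 : ψ 0 = 0) (h1 : ψ 1 = 1) (hmul : ∀ x y, ψ (x * y) = ψ x * ψ y)
    (hneg : ∀ x, ψ (-x) = ψ x) (l : ι → V →ₗ[ℚ] ℚ) (g1 : ι) (hl : ∀ g, l g ≠ 0)
    (hpm : ∀ (g g' : ι) (c : ℚ), l g = c • l g' → c = 1 ∨ c = -1) :
    ¬ ∀ r, ∑ g, ψ (l g r) = 0 := by
  classical
  intro hsum
  -- choose directions
  have hv : ∀ g, ¬ (l g = l g1 ∨ l g = - l g1) → ∃ v, l g v = 0 ∧ l g1 v = 1 := by
    intro g hg
    obtain ⟨u, hu⟩ : ∃ u, l g u ≠ 0 := by
      by_contra hcon
      push Not at hcon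
      exact hl g (LinearMap.ext hcon)
    by_contra hcon
    push Not at hcon
    have hker : ∀ w, l g w = 0 → l g1 w = 0 := by
      intro w hw
      by_contra hw1
      apply hcon ((l g1 w)⁻¹ • w)
      · rw [map_smul, hw, smul_zero]
      · rw [map_smul, smul_eq_mul, inv_mul_cancel₀ hw1]
    have heq : l g1 = (l g1 u / l g u) • l g := by
      ext w
      have := hker (w - (l g w / l g u) • u) (by
        rw [map_sub, map_smul, smul_eq_mul, div_mul_cancel₀ _ hu, sub_self])
      rw [map_sub, map_smul, sub_eq_zero, smul_eq_mul] at this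
      rw [this, LinearMap.smul_apply, smul_eq_mul]
      ring
    rcases hpm g1 g _ heq with hc | hc
    · rw [hc, one_smul] at heq
      exact hg (Or.inl heq.symm)
    · rw [hc, neg_one_smul] at heq
      exact hg (Or.inr (by rw [heq, neg_neg]))
  choose! v hv0 hv1 using hv
  set S : Finset ι := Finset.univ.filter (fun g => ¬ (l g = l g1 ∨ l g = - l g1)) with hS
  set T : Finset ι := Finset.univ.filter (fun g => l g = l g1 ∨ l g = - l g1) with hT
  set vs : List V := S.toList.map v with hvs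
  set s := S.card with hs
  have hones : vs.map (l g1).toAddMonoidHom = List.replicate s 1 := by
    rw [hvs, List.map_map, List.eq_replicate_iff]
    constructor
    · simp [hs]
    · intro b hb
      rw [List.mem_map] at hb
      obtain ⟨g, hg, rfl⟩ := hb
      rw [Finset.mem_toList, hS, Finset.mem_filter] at hg
      exact hv1 g hg.2
  have hzero : ∀ x : ℚ, ((fwdDiff (1 : ℚ))^[s] ψ) x = 0 := by
    intro x
    obtain ⟨u, hu⟩ : ∃ u, l g1 u ≠ 0 := by
      by_contra hcon
      push Not at hcon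
      exact hl g1 (LinearMap.ext hcon)
    have hx : l g1 ((x / l g1 u) • u) = x := by
      rw [map_smul, smul_eq_mul, div_mul_cancel₀ _ hu]
    have h2 : D vs (fun r => ∑ g, ψ (l g r)) ((x / l g1 u) • u) = 0 := by
      rw [show (fun r => ∑ g, ψ (l g r)) = fun _ => (0 : L) from funext hsum, D_zero_fun]
    rw [D_sum] at h2
    have h3 : ∀ g, D vs (fun r => ψ (l g r)) ((x / l g1 u) • u)
        = if g ∈ T then ((fwdDiff (1 : ℚ))^[s] ψ) x else 0 := by
      intro g
      by_cases hg : l g = l g1 ∨ l g = - l g1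
      · rw [if_pos (by rw [hT, Finset.mem_filter]; exact ⟨Finset.mem_univ _, hg⟩)]
        have h4 : (fun r => ψ (l g r)) = fun r => ψ ((l g1).toAddMonoidHom r) := by
          funext r
          rcases hg with hg | hg
          · rw [hg]; rfl
          · rw [hg, LinearMap.neg_apply, hneg]; rfl
        rw [h4, D_comp, hones, D_replicate]
        show ((fwdDiff (1 : ℚ))^[s] ψ) (l g1 ((x / l g1 u) • u)) = _
        rw [hx]
      · rw [if_neg (by rw [hT, Finset.mem_filter]; exact fun h => hg h.2)]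
        have h5 : D vs (fun r => ψ ((l g).toAddMonoidHom r)) = fun _ => 0 := by
          rw [D_comp, D_of_zero_mem]
          rw [List.mem_map]
          refine ⟨v g, ?_, hv0 g hg⟩
          rw [hvs, List.mem_map]
          exact ⟨g, by rw [Finset.mem_toList, hS, Finset.mem_filter]; exact ⟨Finset.mem_univ _, hg⟩, rfl⟩
        exact congrFun h5 _
    simp only [h3] at h2
    rw [Finset.sum_ite_mem, Finset.univ_inter, Finset.sum_const, nsmul_eq_mul] at h2
    rcases mul_eq_zero.1 h2 with h6 | h6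
    · exfalso
      rw [Nat.cast_eq_zero, Finset.card_eq_zero] at h6
      have : g1 ∈ T := by rw [hT, Finset.mem_filter]; exact ⟨Finset.mem_univ _, Or.inl rfl⟩
      rw [h6] at this
      simp at this
    · exact h6
  have hz : ∀ j, s ≤ j → ((fwdDiff (1 : ℕ))^[j] (fun k : ℕ => ψ k)) 0 = 0 := by
    intro j hj
    rw [iter_cast]
    obtain ⟨i, rfl⟩ := Nat.exists_eq_add_of_le' hj
    rw [Function.iterate_add_apply]
    rw [show (fwdDiff (1 : ℚ))^[s] ψ = fun _ => 0 from funext hzero, ← D_replicate, D_zero_fun]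
  obtain ⟨p, hp⟩ := exists_poly (fun k : ℕ => ψ k) s hz
  obtain ⟨d, hd, hpow⟩ := pow_of_poly (fun k : ℕ => ψ k) p hp (by simpa using h0) (by simpa using h1)
    (by intro k; have := hmul 2 k; push_cast; exact this)
  have habs : ∀ x : ℚ, ψ x = ((|x| ^ d : ℚ) : L) := by
    have hnonneg : ∀ x : ℚ, 0 ≤ x → ψ x = ((x ^ d : ℚ) : L) := by
      intro x hx
      obtain ⟨n, hn⟩ : ∃ n : ℕ, (n : ℤ) = x.num := ⟨x.num.toNat, Int.toNat_of_nonneg (Rat.num_nonneg.2 hx)⟩
      have hden : (x.den : ℚ) ≠ 0 := Nat.cast_ne_zero.2 x.den_nz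
      have hdenL : ((x.den : ℕ) : L) ≠ 0 := Nat.cast_ne_zero.2 x.den_nz
      have hxn : x * x.den = n := by
        have := Rat.mul_den_eq_num x
        rw [this, ← hn]; simp
      have h7 := hmul x x.den
      rw [hxn, hpow n, hpow x.den] at h7
      have h8 : ((x ^ d : ℚ) : L) * (x.den : L) ^ d = (n : L) ^ d := by
        have : (x ^ d : ℚ) * (x.den : ℚ) ^ d = (n : ℚ) ^ d := by rw [← mul_pow, hxn]
        exact_mod_cast congrArg (fun q : ℚ => (q : L)) this
      rw [← h8] at h7
      exact (mul_right_cancel₀ (pow_ne_zero _ hdenL) h7).symm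
    intro x
    rcases abs_choice x with h | h
    · rw [h]
      exact hnonneg x (by rw [← h]; exact abs_nonneg x)
    · rw [← hneg, h]
      exact hnonneg (-x) (by rw [← h]; exact abs_nonneg x)
  obtain ⟨u, hu⟩ : ∃ u, l g1 u ≠ 0 := by
    by_contra hcon
    push Not at hcon
    exact hl g1 (LinearMap.ext hcon)
  have hfin := hsum u
  simp only [habs] at hfin
  rw [← Rat.cast_sum, Rat.cast_eq_zero] at hfin
  have hpos : 0 < ∑ g, |l g u| ^ d := by
    apply Finset.sum_pos' (fun g _ => by positivity)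
    exact ⟨g1, Finset.mem_univ _, by positivity⟩
  exact hpos.ne' hfin

/-- Positive rationals. -/
abbrev Pos := {q : ℚ // 0 < q}

/-- The rational group ring of the multiplicative group of positive rationals. -/
abbrev Rg := MonoidAlgebra ℚ Pos

/-- The class of the absolute value (zero for zero). -/
noncomputable def br (x : ℚ) : Rg :=
  if h : x = 0 then 0 else MonoidAlgebra.single ⟨|x|, abs_pos.2 h⟩ 1

theorem br_zero : br 0 = 0 := by simp [br]

theorem br_of_ne {x : ℚ} (h : x ≠ 0) : br x = MonoidAlgebra.single ⟨|x|, abs_pos.2 h⟩ 1 := by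
  simp [br, h]

theorem br_one : br 1 = 1 := by
  rw [br_of_ne one_ne_zero, MonoidAlgebra.one_def]
  congr 1

theorem br_neg (x : ℚ) : br (-x) = br x := by
  by_cases h : x = 0
  · simp [h]
  · rw [br_of_ne h, br_of_ne (neg_ne_zero.2 h)]
    congr 1
    exact Subtype.ext (abs_neg x)

theorem br_mul (x y : ℚ) : br (x * y) = br x * br y := by
  by_cases hx : x = 0
  · simp [hx, br_zero]
  by_cases hy : y = 0
  · simp [hy, br_zero]
  rw [br_of_ne hx, br_of_ne hy, br_of_ne (mul_ne_zero hx hy), MonoidAlgebra.single_mul_single,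
    mul_one]
  congr 1
  exact Subtype.ext (abs_mul x y)

/-- The element `κ_r`. -/
noncomputable def kap {V ι : Type*} [AddCommGroup V] [Module ℚ V] [Fintype ι]
    (l : ι → V →ₗ[ℚ] ℚ) (r : V) : Rg := ∑ g, br (l g r)

theorem br_mul_kap {V ι : Type*} [AddCommGroup V] [Module ℚ V] [Fintype ι]
    (l : ι → V →ₗ[ℚ] ℚ) (c : ℚ) (r : V) : br c * kap l r = kap l (c • r) := by
  simp only [kap, Finset.mul_sum, map_smul, smul_eq_mul, br_mul]

theorem span_eq_top {V ι : Type*} [AddCommGroup V] [Module ℚ V] [Fintype ι]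
    (l : ι → V →ₗ[ℚ] ℚ) (g1 : ι) (hl : ∀ g, l g ≠ 0)
    (hpm : ∀ (g g' : ι) (c : ℚ), l g = c • l g' → c = 1 ∨ c = -1) :
    Ideal.span (Set.range (kap l)) = ⊤ := by
  by_contra hne
  obtain ⟨M, hM, hle⟩ := Ideal.exists_le_maximal _ hne
  let _ := Ideal.Quotient.field M
  have : CharZero (Rg ⧸ M) := algebraRat.charZero (Rg ⧸ M)
  refine key (fun x => Ideal.Quotient.mk M (br x)) ?_ ?_ ?_ ?_ l g1 hl hpm ?_
  · simp only [br_zero, map_zero]
  · simp only [br_one, map_one]
  · intro x y; simp only [br_mul, map_mul]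
  · intro x; simp only [br_neg]
  · intro r
    rw [← map_sum, Ideal.Quotient.eq_zero_iff_mem]
    exact hle (Ideal.subset_span ⟨r, rfl⟩)

/-- Integral relation property. -/
def Pr {V ι : Type*} [AddCommGroup V] [Module ℚ V] [Fintype ι]
    (l : ι → V →ₗ[ℚ] ℚ) (x : Rg) : Prop :=
  ∃ a : ℕ, 1 ≤ a ∧ ∃ P M : Multiset V,
    (a : Rg) * x + (M.map (kap l)).sum = (P.map (kap l)).sum

section

variable {V ι : Type*} [AddCommGroup V] [Module ℚ V] [Fintype ι] (l : ι → V →ₗ[ℚ] ℚ)

theorem Pr_zero : Pr l 0 := ⟨1, le_rfl, 0, 0, by simp⟩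

theorem Pr_add {x y : Rg} (hx : Pr l x) (hy : Pr l y) : Pr l (x + y) := by
  obtain ⟨a, ha, P, M, h⟩ := hx
  obtain ⟨b, hb, P', M', h'⟩ := hy
  refine ⟨a * b, Nat.mul_pos ha hb, b • P + a • P', b • M + a • M', ?_⟩
  simp only [Multiset.map_add, Multiset.sum_add, Multiset.map_nsmul, Multiset.sum_nsmul, ← h, ← h',
    nsmul_eq_mul]
  push_cast
  ring

theorem Pr_br {x : Rg} (s : ℚ) (hx : Pr l x) : Pr l (br s * x) := by
  obtain ⟨a, ha, P, M, h⟩ := hx
  refine ⟨a, ha, P.map (s • ·), M.map (s • ·), ?_⟩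
  rw [Multiset.map_map, Multiset.map_map]
  have h1 : ∀ Q : Multiset V, (Q.map (kap l ∘ (s • ·))).sum = br s * (Q.map (kap l)).sum := by
    intro Q
    rw [← Multiset.sum_map_mul_left]
    congr 1
    apply Multiset.map_congr rfl
    intro r _
    exact (br_mul_kap l s r).symm
  rw [h1, h1, ← h]
  ring

theorem Pr_rat {x : Rg} (q : ℚ) (hx : Pr l x) : Pr l (q • x) := by
  obtain ⟨a, ha, P, M, h⟩ := hx
  have hq : (q.den : ℚ) * q = q.num := by rw [mul_comm]; exact Rat.mul_den_eq_num q
  have hx' : (a : Rg) * x = (P.map (kap l)).sum - (M.map (kap l)).sum := by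
    rw [← h]; ring
  have hmain : ((a * q.den : ℕ) : Rg) * (q • x)
      = (q.num : Rg) * ((P.map (kap l)).sum - (M.map (kap l)).sum) := by
    rw [← hx']
    have h2 : (q.num : Rg) = (q.den : Rg) * algebraMap ℚ Rg q := by
      have := congrArg (algebraMap ℚ Rg) hq
      rw [map_mul, map_natCast, map_intCast] at this
      exact this.symm
    rw [h2, Algebra.smul_def]
    push_cast
    ring
  rcases Int.eq_nat_or_neg q.num with ⟨n, hn | hn⟩
  · refine ⟨a * q.den, Nat.mul_pos ha q.den_pos, n • P, n • M, ?_⟩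
    rw [hmain, hn]
    simp only [Multiset.map_nsmul, Multiset.sum_nsmul, nsmul_eq_mul]
    push_cast
    ring
  · refine ⟨a * q.den, Nat.mul_pos ha q.den_pos, n • M, n • P, ?_⟩
    rw [hmain, hn]
    simp only [Multiset.map_nsmul, Multiset.sum_nsmul, nsmul_eq_mul]
    push_cast
    ring

theorem Pr_mul {x : Rg} (c : Rg) (hx : Pr l x) : Pr l (c * x) := by
  induction c using MonoidAlgebra.induction_linear with
  | zero => simpa using Pr_zero l
  | add f g hf hg => rw [add_mul]; exact Pr_add l hf hg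
  | single s q =>
    have h1 : (MonoidAlgebra.single s q : Rg) = q • br (s : ℚ) := by
      rw [br_of_ne s.2.ne', MonoidAlgebra.smul_single, smul_eq_mul, mul_one]
      congr 1
      exact Subtype.ext (abs_of_pos s.2).symm
    rw [h1, smul_mul_assoc]
    exact Pr_rat l q (Pr_br l _ hx)

theorem Pr_one (g1 : ι) (hl : ∀ g, l g ≠ 0)
    (hpm : ∀ (g g' : ι) (c : ℚ), l g = c • l g' → c = 1 ∨ c = -1) : Pr l 1 := by
  have h1 : (1 : Rg) ∈ Ideal.span (Set.range (kap l)) := by
    rw [span_eq_top l g1 hl hpm]; trivial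
  refine Submodule.span_induction (p := fun x _ => Pr l x) ?_ (Pr_zero l) ?_ ?_ h1
  · rintro _ ⟨r, rfl⟩
    exact ⟨1, le_rfl, {r}, 0, by simp⟩
  · intro x y _ _ hx hy
    exact Pr_add l hx hy
  · intro c x _ hx
    exact Pr_mul l c hx

end

theorem br_apply (x : ℚ) (s : Pos) : (br x).coeff s = if |x| = s then 1 else 0 := by
  by_cases hx : x = 0
  · rw [hx, br_zero, abs_zero, if_neg s.2.ne]; rfl
  · rw [br_of_ne hx, MonoidAlgebra.coeff_single, Finsupp.single_apply]
    by_cases h : |x| = s
    · rw [if_pos h, if_pos (Subtype.ext h)]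
    · rw [if_neg h, if_neg (fun h' => h (congrArg Subtype.val h'))]

section Family

variable {ι : Type} [DecidableEq ι] {V : ι → Type*} [∀ i, AddCommGroup (V i)]
    [∀ i, Module ℚ (V i)] {Q : ι → Type*} [∀ i, Fintype (Q i)]
    (l : ∀ i, Q i → V i →ₗ[ℚ] ℚ)

/-- Product over a finite set of indices. -/
noncomputable def K (S : Finset ι) (r : ∀ i, V i) : Rg := ∏ i ∈ S, kap (l i) (r i)

theorem K_update {S : Finset ι} {j : ι} (hj : j ∉ S) (r : ∀ i, V i) (r' : V j) :
    K l (insert j S) (Function.update r j r') = K l S r * kap (l j) r' := by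
  rw [K, Finset.prod_insert hj, Function.update_self, mul_comm]
  congr 1
  apply Finset.prod_congr rfl
  intro i hi
  have : i ≠ j := fun h => hj (h ▸ hi)
  rw [Function.update_of_ne this]

theorem fam [∀ i, Nonempty (Q i)] (hl : ∀ i g, l i g ≠ 0)
    (hpm : ∀ i g g' (t : ℚ), l i g = t • l i g' → t = 1 ∨ t = -1) (S : Finset ι) :
    ∃ a : ℕ, 1 ≤ a ∧ ∃ P M : Multiset (∀ i, V i),
      (a : Rg) + (M.map (K l S)).sum = (P.map (K l S)).sum := by
  induction S using Finset.induction_on with
  | empty => exact ⟨1, le_rfl, {0}, 0, by simp [K]⟩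
  | insert j S hj ih =>
    obtain ⟨a, ha, P, M, h⟩ := ih
    obtain ⟨b, hb, P', M', h'⟩ := Pr_one (l j) (Classical.arbitrary (Q j)) (hl j) (hpm j)
    have hprod : ∀ (Q₁ : Multiset (∀ i, V i)) (Q₂ : Multiset (V j)),
        (((Q₁ ×ˢ Q₂).map (fun x => Function.update x.1 j x.2)).map (K l (insert j S))).sum
        = (Q₁.map (K l S)).sum * (Q₂.map (kap (l j))).sum := by
      intro Q₁ Q₂
      rw [Multiset.map_map]
      simp only [Function.comp_def, K_update l hj]
      induction Q₁ using Multiset.induction_on with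
      | empty => simp
      | cons r Q₁ ih =>
        rw [Multiset.map_cons, Multiset.sum_cons, add_mul, ← ih, Multiset.cons_product,
          Multiset.map_add, Multiset.sum_add, Multiset.map_map, ← Multiset.sum_map_mul_left]
        rfl
    refine ⟨a * b, Nat.mul_pos ha hb,
      (P ×ˢ P').map (fun x => Function.update x.1 j x.2) +
        (M ×ˢ M').map (fun x => Function.update x.1 j x.2),
      (P ×ˢ M').map (fun x => Function.update x.1 j x.2) +
        (M ×ˢ P').map (fun x => Function.update x.1 j x.2), ?_⟩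
    rw [Multiset.map_add, Multiset.map_add, Multiset.sum_add, Multiset.sum_add, hprod, hprod,
      hprod, hprod, ← h, ← h']
    push_cast
    ring

theorem K_univ [Fintype ι] (r : ∀ i, V i) :
    K l Finset.univ r = ∑ x : (∀ i, Q i), br (∏ i, l i (x i) (r i)) := by
  classical
  rw [K]
  simp only [kap]
  rw [Finset.prod_univ_sum, Fintype.piFinset_univ]
  apply Finset.sum_congr rfl
  intro x _
  have : ∀ T : Finset ι, ∏ i ∈ T, br (l i (x i) (r i)) = br (∏ i ∈ T, l i (x i) (r i)) := by
    intro T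
    induction T using Finset.induction_on with
    | empty => simp [br_one]
    | insert j T hj ih => rw [Finset.prod_insert hj, Finset.prod_insert hj, ih, br_mul]
  exact this _

end Family

end MatchAlg

universe u v

open MatchAlg in
theorem matching_identity {ι : Type} [Fintype ι] (V : ι → Type u) [∀ i, AddCommGroup (V i)]
    [∀ i, Module ℚ (V i)] (Q : ι → Type v) [∀ i, Finite (Q i)] [∀ i, Nonempty (Q i)]
    (l : ∀ i, Q i → V i →ₗ[ℚ] ℚ) (hne : ∀ i g, l i g ≠ 0)
    (hprop : ∀ i g g' (t : ℚ), l i g = t • l i g' → t = 1 ∨ t = -1) :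
    ∃ (n p q : ℕ) (rp : Fin p → ∀ i, V i) (rm : Fin q → ∀ i, V i), 0 < n ∧
      ∀ s : ℚ, 0 < s →
        (if s = 1 then n else 0) +
          Nat.card {x : Fin q × (∀ i, Q i) // ∏ i, |l i (x.2 i) (rm x.1 i)| = s} =
        Nat.card {x : Fin p × (∀ i, Q i) // ∏ i, |l i (x.2 i) (rp x.1 i)| = s} := by
  classical
  let _ : ∀ i, Fintype (Q i) := fun i => Fintype.ofFinite (Q i)
  obtain ⟨a, ha, P, M, h⟩ := fam l hne hprop Finset.univ
  obtain ⟨LP, rfl⟩ := Quot.exists_rep P
  obtain ⟨LM, rfl⟩ := Quot.exists_rep M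
  refine ⟨a, LP.length, LM.length, LP.get, LM.get, ha, ?_⟩
  intro s hs
  have hcard : ∀ L : List (∀ i, V i),
      ((Nat.card {x : Fin L.length × (∀ i, Q i) // ∏ i, |l i (x.2 i) (L.get x.1 i)| = s} : ℕ) : ℚ)
      = (((L : Multiset (∀ i, V i)).map (K l Finset.univ)).sum).coeff ⟨s, hs⟩ := by
    intro L
    rw [Nat.card_eq_fintype_card, Fintype.card_subtype, Finset.card_filter, Fintype.sum_prod_type]
    push_cast
    have h1 : (((L : Multiset (∀ i, V i)).map (K l Finset.univ)).sum)
        = ∑ i : Fin L.length, K l Finset.univ (L.get i) := by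
      rw [Multiset.map_coe, Multiset.sum_coe, ← List.sum_ofFn]
      conv_lhs => rw [← List.ofFn_get L, List.map_ofFn]
      rfl
    rw [h1, MonoidAlgebra.coeff_sum, Finset.sum_apply']
    apply Finset.sum_congr rfl
    intro i _
    rw [K_univ, MonoidAlgebra.coeff_sum, Finset.sum_apply']
    apply Finset.sum_congr rfl
    intro x _
    rw [br_apply, Finset.abs_prod]
  have hev := congrArg (fun x : Rg => x.coeff ⟨s, hs⟩) h
  simp only [MonoidAlgebra.coeff_add, Finsupp.add_apply] at hev
  have h3 : ((a : Rg).coeff ⟨s, hs⟩ : ℚ) = ((if s = 1 then a else 0 : ℕ) : ℚ) := by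
    rw [MonoidAlgebra.natCast_def, MonoidAlgebra.coeff_single, Finsupp.single_apply]
    by_cases h1 : s = 1
    · rw [if_pos h1, if_pos (Subtype.ext h1.symm)]
    · rw [if_neg h1, if_neg (fun h' => h1 (congrArg Subtype.val h').symm), Nat.cast_zero]
  have h4 := hcard LP
  have h5 := hcard LM
  have h6 : (((if s = 1 then a else 0) +
      Nat.card {x : Fin LM.length × (∀ i, Q i) // ∏ i, |l i (x.2 i) (LM.get x.1 i)| = s} : ℕ) : ℚ)
      = ((Nat.card {x : Fin LP.length × (∀ i, Q i) //
        ∏ i, |l i (x.2 i) (LP.get x.1 i)| = s} : ℕ) : ℚ) := by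
    rw [h4, Nat.cast_add, h5, ← h3]
    exact hev
  exact_mod_cast h6

end VSp
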