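import Pool.Agent.VSp.Match

set_option autoImplicit false

/-! Theorem M for elements of finite order. -/

namespace VSp

universe u v

open Mt in
/-- Elements of the same finite order have a common image. -/
theorem matching_fin {ι : Type} [Finite ι] (G : ι → Type u) [∀ i, Group (G i)]
    (hG : ∀ i, VirtSpecial (G i)) (c : ∀ i, G i) (m : ℕ) (hm : 0 < m)
    (hc : ∀ i, orderOf (c i) = m) (i₀ : ι) :
    ∃ (W : Type) (_ : Group W) (_ : VirtSpecial W) (Φ : ∀ i, G i →* W),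
      Function.Injective (Φ i₀) ∧ ∀ i j, Φ i (c i) = Φ j (c j) := by
  classical
  have := Fintype.ofFinite ι
  choose N hN hNf n Γ f hf using fun i => (hG i).exists_normal
  have hcm : ∀ i, c i ^ m = 1 := fun i => by rw [← hc i]; exact pow_orderOf_eq_one _
  have hcN : ∀ i (k : ℤ), c i ^ k ∈ N i ↔ (m : ℤ) ∣ k := by
    intro i k
    constructor
    · intro hk
      have h1 : c i ^ k = 1 := by
        by_contra hne
        have h2 : f i ⟨c i ^ k, hk⟩ ≠ 1 := by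
          intro h3
          have h4 : (⟨c i ^ k, hk⟩ : N i) = 1 := hf i (by rw [h3, map_one])
          exact hne (congrArg Subtype.val h4)
        apply pow_ne_one _ h2 m hm
        rw [← map_pow]
        have h3 : (⟨c i ^ k, hk⟩ : N i) ^ m = 1 := by
          apply Subtype.ext
          show (c i ^ k) ^ m = 1
          rw [← zpow_natCast, ← zpow_mul, mul_comm, zpow_mul, zpow_natCast, hcm i, one_zpow]
        rw [h3, map_one]
      rw [← hc i]
      exact orderOf_dvd_iff_zpow_eq_one.mpr h1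
    · rintro ⟨k', rfl⟩
      rw [zpow_mul, zpow_natCast, hcm i, one_zpow]
      exact (N i).one_mem
  have hcmN : ∀ i, c i ^ m ∈ N i := fun i => by rw [hcm i]; exact (N i).one_mem
  let R : Type := RAAG (Γ i₀)
  have hR : VirtSpecial R := virtSpecial_RAAG _
  let d : ι → ℕ := fun i => ∏ j ∈ Finset.univ.erase i, Nat.card (G j ⧸ N j)
  let k : ℕ := ∏ j, Nat.card (G j ⧸ N j)
  have hd : ∀ i, d i * Nat.card (G i ⧸ N i) = k := fun i =>
    Finset.prod_erase_mul Finset.univ (fun j => Nat.card (G j ⧸ N j)) (Finset.mem_univ i)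
  have hcpos : ∀ i, 0 < Nat.card (G i ⧸ N i) := fun i => by
    have : Finite (G i ⧸ N i) := Subgroup.finite_quotient_of_finiteIndex
    exact Nat.card_pos
  have hdpos : ∀ i, 0 < d i := fun i => Finset.prod_pos fun j _ => hcpos j
  have hP : ∀ i, ∃ Φ : G i →* EqG (Fin (d i) × (G i ⧸ N i)) R,
      (i = i₀ → Function.Injective Φ) ∧
      (∀ x (l : ℤ), (((Φ (c i) : Equiv.Perm ((Fin (d i) × (G i ⧸ N i)) × R)) ^ l) (x, 1)).1 = x ↔
        (m : ℤ) ∣ l) := by
    intro i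
    by_cases hi : i = i₀
    · subst hi
      obtain ⟨Φ, h1, h2, -⟩ := block (N i) (c i) m (hcN i) (hcmN i)
        (fun _ : Fin (d i) => (f i : N i →* RAAG (Γ i)))
      exact ⟨Φ, fun _ => h1 ⟨0, hdpos i⟩ (hf i), h2⟩
    · obtain ⟨Φ, -, h2, -⟩ := block (N i) (c i) m (hcN i) (hcmN i)
        (fun _ : Fin (d i) => (1 : N i →* R))
      exact ⟨Φ, fun h => absurd h hi, h2⟩
  choose Φ hΦinj hΦcyc using hP
  have hfin : ∀ i, Finite (G i ⧸ N i) := fun i => Subgroup.finite_quotient_of_finiteIndex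
  have hcard : ∀ i, Nat.card (Fin (d i) × (G i ⧸ N i)) = k := fun i => by
    rw [Nat.card_prod, Nat.card_fin, hd]
  have hlab : ∀ i (x : Fin (d i) × (G i ⧸ N i)),
      (((Φ i (c i) : Equiv.Perm ((Fin (d i) × (G i ⧸ N i)) × R)) ^ m) (x, 1)) = (x, 1) := by
    intro i x
    rw [coe_pow_hom, hcm i, map_one]
    rfl
  let e₀ : (Fin (d i₀) × (G i₀ ⧸ N i₀)) ≃ Fin k :=
    (Finite.equivFin _).trans (finCongr (hcard i₀))
  let Θ₀ : (Fin (d i₀) × (G i₀ ⧸ N i₀)) × R ≃ Fin k × R := Equiv.prodCongr e₀ (Equiv.refl R)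
  have hΘ₀ : ∀ x a b, Θ₀ (x, a * b) = ((Θ₀ (x, a)).1, (Θ₀ (x, a)).2 * b) := fun _ _ _ => rfl
  let σ : EqG (Fin k) R := EqG.conj Θ₀ hΘ₀ (Φ i₀ (c i₀))
  have hσ : ∀ (j : ℤ) (x : Fin (d i₀) × (G i₀ ⧸ N i₀)),
      ((σ : Equiv.Perm (Fin k × R)) ^ j) (e₀ x, 1) =
      Θ₀ (((Φ i₀ (c i₀) : Equiv.Perm ((Fin (d i₀) × (G i₀ ⧸ N i₀)) × R)) ^ j) (x, 1)) := by
    intro j x
    have h1 : (σ : Equiv.Perm (Fin k × R)) ^ j =
      (((EqG.conj Θ₀ hΘ₀).comp (Φ i₀) (c i₀ ^ j) : EqG (Fin k) R) : Equiv.Perm (Fin k × R)) := by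
      rw [map_zpow]; rfl
    rw [h1, coe_zpow_hom]
    exact EqG.conj_apply Θ₀ hΘ₀ _ (x, 1)
  have hint : ∀ i, ∃ Θ : (Fin (d i) × (G i ⧸ N i)) × R ≃ Fin k × R,
      (∀ x a b, Θ (x, a * b) = ((Θ (x, a)).1, (Θ (x, a)).2 * b)) ∧
      ∀ z, Θ ((Φ i (c i) : Equiv.Perm ((Fin (d i) × (G i ⧸ N i)) × R)) z) =
        (σ : Equiv.Perm (Fin k × R)) (Θ z) := by
    intro i
    refine exists_intertwiner (Φ i (c i) : Equiv.Perm ((Fin (d i) × (G i ⧸ N i)) × R))
      (Φ i (c i)).2 (σ : Equiv.Perm (Fin k × R)) σ.2 m hm (hΦcyc i) ?_ ?_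
    · intro x j
      obtain ⟨x, rfl⟩ := e₀.surjective x
      rw [hσ]
      show e₀ _ = e₀ x ↔ _
      rw [e₀.apply_eq_iff_eq]
      exact hΦcyc i₀ x j
    · intro C
      have h1 : cnt (fun x : Fin (d i) × (G i ⧸ N i) => ConjClasses.mk
          (((Φ i (c i) : Equiv.Perm ((Fin (d i) × (G i ⧸ N i)) × R)) ^ m) (x, 1)).2) C =
          if ConjClasses.mk (1 : R) = C then k else 0 := by
        rw [cnt_const (ConjClasses.mk (1 : R)) C _ (fun x => by rw [hlab]), hcard]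
      have h2 : cnt (fun x : Fin k => ConjClasses.mk
          (((σ : Equiv.Perm (Fin k × R)) ^ m) (x, 1)).2) C =
          if ConjClasses.mk (1 : R) = C then k else 0 := by
        rw [cnt_const (ConjClasses.mk (1 : R)) C _ (fun x => ?_), Nat.card_fin]
        obtain ⟨x, rfl⟩ := e₀.surjective x
        have h3 := hσ m x
        rw [zpow_natCast, zpow_natCast, hlab] at h3
        rw [h3]
        rfl
      exact h1.trans h2.symm
  choose Θ hΘ1 hΘ2 using hint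
  refine ⟨EqG (Fin k) R, inferInstance, virtSpecial_EqG (Fin k) R hR,
    fun i => (EqG.conj (Θ i) (hΘ1 i)).comp (Φ i), ?_, ?_⟩
  · exact (EqG.conj_injective (Θ i₀) (hΘ1 i₀)).comp (hΦinj i₀ rfl)
  · have h1 : ∀ i, (EqG.conj (Θ i) (hΘ1 i)).comp (Φ i) (c i) = σ := by
      intro i
      apply Subtype.ext
      ext1 z
      obtain ⟨z, rfl⟩ := (Θ i).surjective z
      exact (EqG.conj_apply (Θ i) (hΘ1 i) _ z).trans (hΘ2 i z)
    intro i j
    exact (h1 i).trans (h1 j).symm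

end VSp
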