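import Pool.Agent.VSp.Cover

set_option autoImplicit false

/-! M5. Equalising the periods by the tower of levels. -/

namespace VSp

variable {V : Type} {Γ : SimpleGraph V}

section Aux

variable {K : Type} [Group K] (π : RAAG Γ →* K) (a : List (V × Bool))

/-- The letter crossed by the `t`-th edge of `a`. -/
def hl (t : Fin a.length) : HV π := hp π (π (bs Γ a t)) (a.get t).1

/-- The sign of the `t`-th letter. -/
def ep (a : List (V × Bool)) (t : Fin a.length) : ℤ := cond (a.get t).2 1 (-1)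

lemma smul_hl (g : RAAG Γ) (t : Fin a.length) :
    π g • hl π a t = hp π (π (g * bs Γ a t)) (a.get t).1 := by
  unfold hl
  rw [smul_hp, map_mul]

lemma tw_bs_zero (p : V × Bool) (w : List (V × Bool)) (h : 0 < (p :: w).length) :
    bs Γ (p :: w) ⟨0, h⟩ = cond p.2 1 (sgn Γ p.1 p.2) := by
  obtain ⟨z, b⟩ := p
  cases b
  · show wp Γ [(z, false)] = sgn Γ z false
    rw [wp_cons, wp_nil, mul_one]
  · show wp Γ [] = 1
    exact wp_nil

lemma tw_bs_succ (p : V × Bool) (w : List (V × Bool)) (t : Fin w.length) :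
    bs Γ (p :: w) (Fin.succ t) = sgn Γ p.1 p.2 * bs Γ w t := by
  show (if (w.get t).2 then wp Γ (p :: w.take t) else wp Γ (p :: w.take (t + 1))) =
    sgn Γ p.1 p.2 * (if (w.get t).2 then wp Γ (w.take t) else wp Γ (w.take (t + 1)))
  rw [wp_cons, wp_cons]
  split_ifs <;> rfl

open Classical in
lemma cv_sum (h : HV π) :
    cv π (wp Γ a) h = ∑ t : Fin a.length, if hl π a t = h then ep a t else 0 := by
  induction a generalizing h with
  | nil =>
    rw [wp_nil, cv_one]
    rfl
  | cons p w ih =>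
    rw [wp_cons, cv_mul, ih]
    show _ = ∑ t : Fin (w.length + 1), if hl π (p :: w) t = h then ep (p :: w) t else 0
    rw [Fin.sum_univ_succ]
    congr 1
    · obtain ⟨z, b⟩ := p
      rw [cv_sgn, Pi.single_apply]
      have h0 : hl π ((z, b) :: w) (0 : Fin (w.length + 1)) =
          hp π (cond b 1 (π (of Γ z))⁻¹) z := by
        show hp π (π (bs Γ ((z, b) :: w) ⟨0, Nat.succ_pos _⟩)) z = _
        rw [tw_bs_zero]
        cases b
        · show hp π (π (of Γ z)⁻¹) z = _
          rw [map_inv]; rfl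
        · show hp π (π 1) z = _
          rw [map_one]; rfl
      have h1 : ep ((z, b) :: w) (0 : Fin (w.length + 1)) = cond b 1 (-1) := rfl
      rw [h0, h1]
      by_cases hh : h = hp π (cond b 1 (π (of Γ z))⁻¹) z
      · rw [if_pos hh, if_pos hh.symm]
      · rw [if_neg hh, if_neg (fun h' => hh h'.symm)]
    · refine Finset.sum_congr rfl fun t _ => ?_
      have h0 : hl π (p :: w) t.succ = π (sgn Γ p.1 p.2) • hl π w t := by
        rw [smul_hl]
        show hp π (π (bs Γ (p :: w) t.succ)) (w.get t).1 = _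
        rw [tw_bs_succ]
      have h1 : ep (p :: w) t.succ = ep w t := rfl
      rw [h0, h1]
      by_cases hh : hl π w t = (π (sgn Γ p.1 p.2))⁻¹ • h
      · rw [if_pos hh, if_pos (by rw [hh, smul_inv_smul])]
      · rw [if_neg hh, if_neg (fun h' => hh (by rw [← h', inv_smul_smul]))]

lemma exists_of_cv_ne (h : HV π) (hne : cv π (wp Γ a) h ≠ 0) : ∃ t, hl π a t = h := by
  classical
  by_contra hcon
  push Not at hcon
  apply hne
  rw [cv_sum]
  exact Finset.sum_eq_zero fun t _ => if_neg (hcon t)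

variable {a} in
lemma sep_smul (hs : Sep π a) {s t : Fin a.length} {k : ℤ}
    (h : (π (wp Γ a)) ^ k • hl π a s = hl π a t) : s = t := by
  apply hs s t k
  rw [← smul_hl, map_zpow]
  exact h

variable {a} in
lemma cv_hl (hs : Sep π a) (t : Fin a.length) : cv π (wp Γ a) (hl π a t) = ep a t := by
  classical
  rw [cv_sum, Finset.sum_eq_single t]
  · rw [if_pos rfl]
  · intro s _ hst
    apply if_neg
    intro h
    apply hst
    apply sep_smul π hs (k := 0)
    rw [zpow_zero, one_smul]
    exact h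
  · intro h
    exact absurd (Finset.mem_univ t) h

lemma tw_cv_pow (g : RAAG Γ) (k : ℕ) (h : HV π) :
    cv π (g ^ k) h = ∑ j ∈ Finset.range k, cv π g (((π g) ^ j)⁻¹ • h) := by
  induction k with
  | zero => rw [pow_zero, cv_one]; rfl
  | succ k ih => rw [pow_succ, cv_mul, ih, Finset.sum_range_succ, map_pow]

lemma cv_pow_mul (g : RAAG Γ) (e m : ℕ) (h : HV π) (hfix : (π g) ^ e • h = h) :
    cv π (g ^ (e * m)) h = m * cv π (g ^ e) h := by
  induction m with
  | zero => rw [mul_zero, pow_zero, cv_one]; simp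
  | succ m ih =>
    rw [mul_add, mul_one, pow_add, cv_mul, ih]
    have h1 : (π (g ^ (e * m)))⁻¹ • h = h := by
      rw [inv_smul_eq_iff, map_pow]
      have : ∀ m : ℕ, (π g) ^ (e * m) • h = h := by
        intro m
        induction m with
        | zero => rw [mul_zero, pow_zero, one_smul]
        | succ m ih2 => rw [mul_add, mul_one, pow_add, mul_smul, hfix, ih2]
      exact (this m).symm
    rw [h1]
    push_cast
    ring

/-- The period of the `t`-th letter under the powers of `a`. -/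
noncomputable def per (t : Fin a.length) : ℕ := MulAction.period (π (wp Γ a)) (hl π a t)

variable {a} in
lemma cv_per (hs : Sep π a) (t : Fin a.length) (hpos : 0 < per π a t) :
    cv π (wp Γ a ^ per π a t) (hl π a t) = ep a t := by
  rw [tw_cv_pow, Finset.sum_eq_single 0]
  · rw [pow_zero, inv_one, one_smul, cv_hl π hs]
  · intro j hj hj0
    by_contra hne
    obtain ⟨s, hsj⟩ := exists_of_cv_ne π a _ hne
    have h1 : (π (wp Γ a)) ^ j • hl π a s = hl π a t := by
      rw [hsj, smul_inv_smul]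
    have h2 : s = t := sep_smul π hs (k := (j : ℤ)) (by rw [zpow_natCast]; exact h1)
    subst h2
    have h3 : per π a s ∣ j := MulAction.pow_smul_eq_iff_period_dvd.1 h1
    have h4 := Nat.le_of_dvd (Nat.pos_of_ne_zero hj0) h3
    have h5 := Finset.mem_range.1 hj
    omega
  · intro h
    exact absurd (Finset.mem_range.2 hpos) h

variable {a} in
lemma dvd_of_cv [Finite K] (hs : Sep π a) (n : ℕ) (s : Fin a.length) (k : ℕ)
    (hk : per π a s ∣ k)
    (h0 : ((cv π (wp Γ a ^ k) (hl π a s) : ℤ) : ZMod n) = 0) : n * per π a s ∣ k := by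
  have hpos : 0 < per π a s := by
    have h1 : per π a s ∣ orderOf (π (wp Γ a)) := MulAction.period_dvd_orderOf _ _
    exact Nat.pos_of_dvd_of_pos h1 (orderOf_pos _)
  obtain ⟨m, rfl⟩ := hk
  have hfix : (π (wp Γ a)) ^ per π a s • hl π a s = hl π a s := MulAction.pow_period_smul _ _
  rw [cv_pow_mul π _ _ _ _ hfix, cv_per π hs s hpos, ZMod.intCast_zmod_eq_zero_iff_dvd] at h0
  have h2 : (n : ℤ) ∣ m := by
    have h3 : ep a s = 1 ∨ ep a s = -1 := by
      unfold ep
      cases (a.get s).2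
      · exact Or.inr rfl
      · exact Or.inl rfl
    rcases h3 with h3 | h3
    · rwa [h3, mul_one] at h0
    · rw [h3, mul_neg, mul_one] at h0
      exact (dvd_neg.1 h0)
  have h3 : n ∣ m := Int.natCast_dvd_natCast.1 h2
  rw [mul_comm n]
  exact Nat.mul_dvd_mul_left _ h3

variable {a} in
/-- Lower bound of the periods at the next level. -/
lemma key_lower [Finite K] (hs : Sep π a) (n : ℕ) (hn : orderOf (π (wp Γ a)) ∣ n)
    (s t : Fin a.length) (hadj : ¬ Γ.Adj (a.get t).1 (a.get s).1) :
    n * per π a s ∣ per (up π n) a t := by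
  set k := per (up π n) a t with hkdef
  have hk : (up π n (wp Γ a)) ^ k • hl (up π n) a t = hl (up π n) a t :=
    MulAction.pow_period_smul _ _
  rw [← map_pow, smul_hl] at hk
  obtain ⟨h1, h2⟩ := level_up π n _ _ _ hk
  have h3 : (π (wp Γ a)) ^ k • hl π a t = hl π a t := by
    rw [← map_pow, smul_hl]; exact h1
  have hna : ∀ s : Fin a.length, ¬ Γ.Adj (a.get t).1 (a.get s).1 →
      ((cv π (wp Γ a ^ k * bs Γ a t) (hl π a s) : ℤ) : ZMod n) =
        ((cv π (bs Γ a t) (hl π a s) : ℤ) : ZMod n) := by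
    intro s hs'
    apply h2
    intro hadj'
    exact hs' hadj'.1
  have hkt : per π a t ∣ k := MulAction.pow_smul_eq_iff_period_dvd.1 h3
  have h4 : n * per π a t ∣ k := by
    apply dvd_of_cv π hs n t k hkt
    have h5 := hna t (Γ.loopless.irrefl _)
    rw [cv_mul, map_pow] at h5
    have h6 : ((π (wp Γ a)) ^ k)⁻¹ • hl π a t = hl π a t := by
      rw [inv_smul_eq_iff, h3]
    rw [h6, Int.cast_add] at h5
    exact add_eq_right.1 h5
  have h5 : orderOf (π (wp Γ a)) ∣ k := hn.trans ((Dvd.intro _ rfl).trans h4)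
  have h6 : (π (wp Γ a)) ^ k = 1 := orderOf_dvd_iff_pow_eq_one.1 h5
  apply dvd_of_cv π hs n s k
  · exact (MulAction.period_dvd_orderOf _ _).trans h5
  · have h7 := hna s hadj
    rw [cv_mul, map_pow, h6, inv_one, one_smul, Int.cast_add] at h7
    exact add_eq_right.1 h7

/-- Upper bound of the order at the next level. -/
lemma key_upper (n E : ℕ) (hn : orderOf (π (wp Γ a)) ∣ n)
    (hE : ∀ s, per π a s ∣ E) : orderOf (up π n (wp Γ a)) ∣ n * E := by
  apply orderOf_dvd_of_pow_eq_one
  rw [← map_pow, up_eq_one_iff]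
  constructor
  · rw [map_pow]
    exact orderOf_dvd_iff_pow_eq_one.1 (hn.trans (Dvd.intro _ rfl))
  · intro h
    by_cases hfix : (π (wp Γ a)) ^ E • h = h
    · rw [mul_comm n E, cv_pow_mul π _ _ _ _ hfix]
      push_cast
      simp
    · have h0 : cv π (wp Γ a ^ (n * E)) h = 0 := by
        rw [tw_cv_pow]
        refine Finset.sum_eq_zero fun j _ => ?_
        by_contra hne
        obtain ⟨s, hsj⟩ := exists_of_cv_ne π a _ hne
        apply hfix
        have h1 : (π (wp Γ a)) ^ j • hl π a s = h := by rw [hsj, smul_inv_smul]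
        have h2 : (π (wp Γ a)) ^ E • hl π a s = hl π a s :=
          MulAction.pow_smul_eq_iff_period_dvd.2 (hE s)
        rw [← h1, smul_smul, ← pow_add, add_comm, pow_add, mul_smul, h2]
      rw [h0]
      exact Int.cast_zero

variable {a} in
lemma sep_up (hs : Sep π a) (n : ℕ) : Sep (up π n) a := by
  intro t t' k h
  apply hs t t' k
  have hz : (a.get t).1 = (a.get t').1 := congrArg Sigma.fst h
  rw [← hz] at h ⊢
  exact (level_up π n _ _ _ h).1

end Aux

/-- Positions reachable in `i` steps of non-commutation. -/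
def Rch (Γ : SimpleGraph V) (a : List (V × Bool)) : ℕ → Fin a.length → Fin a.length → Prop
  | 0, s, t => s = t
  | i + 1, s, t => ∃ u, Rch Γ a i s u ∧ ¬ Γ.Adj (a.get t).1 (a.get u).1

lemma Rch.succ {a : List (V × Bool)} {i : ℕ} {s t : Fin a.length} (h : Rch Γ a i s t) :
    Rch Γ a (i + 1) s t := ⟨t, h, Γ.loopless.irrefl _⟩

lemma Rch.mono {a : List (V × Bool)} {i j : ℕ} (hij : i ≤ j) {s t : Fin a.length}
    (h : Rch Γ a i s t) : Rch Γ a j s t := by
  induction hij with
  | refl => exact h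
  | step _ ih => exact ih.succ

lemma exists_rch {a : List (V × Bool)} (ha : Good Γ a) (s t : Fin a.length) :
    ∃ i, Rch Γ a i s t := by
  have key : ∀ y, Relation.ReflTransGen (fun x y => (∃ b, (y, b) ∈ a) ∧ ¬ Γ.Adj x y)
      (a.get s).1 y → (∃ u : Fin a.length, (a.get u).1 = y) ∧
        ∀ t : Fin a.length, (a.get t).1 = y → ∃ i, Rch Γ a i s t := by
    intro y hy
    induction hy with
    | refl =>
      refine ⟨⟨s, rfl⟩, fun t ht => ⟨1, s, rfl, ?_⟩⟩
      rw [ht]
      exact Γ.loopless.irrefl _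
    | @tail x y _ hxy ih =>
      obtain ⟨⟨u, hu⟩, hall⟩ := ih
      obtain ⟨⟨b, hb⟩, hnadj⟩ := hxy
      obtain ⟨v, hv⟩ := List.mem_iff_get.1 hb
      refine ⟨⟨v, by rw [hv]⟩, fun t ht => ?_⟩
      obtain ⟨i, hi⟩ := hall u hu
      refine ⟨i + 1, u, hi, ?_⟩
      rw [ht, hu]
      exact fun h => hnadj h.symm
  exact (key _ (ha.conn (a.get s) (List.get_mem a s) (a.get t) (List.get_mem a t))).2 t rfl

lemma exists_rch_all (F : List (List (V × Bool))) (hF : ∀ a ∈ F, Good Γ a) :
    ∃ N, ∀ a ∈ F, ∀ s t : Fin a.length, Rch Γ a N s t := by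
  have one : ∀ a, Good Γ a → ∃ N, ∀ s t : Fin a.length, Rch Γ a N s t := by
    intro a ha
    choose i hi using exists_rch ha
    refine ⟨∑ s, ∑ t, i s t, fun s t => (hi s t).mono ?_⟩
    calc i s t ≤ ∑ t, i s t :=
          Finset.single_le_sum (f := fun t => i s t) (fun _ _ => Nat.zero_le _) (Finset.mem_univ t)
      _ ≤ ∑ s, ∑ t, i s t :=
          Finset.single_le_sum (f := fun s => ∑ t, i s t) (fun _ _ => Nat.zero_le _)
            (Finset.mem_univ s)
  induction F with
  | nil => exact ⟨0, fun a ha => absurd ha List.not_mem_nil⟩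
  | cons b F ih =>
    obtain ⟨N, hN⟩ := ih fun a ha => hF a (List.mem_cons_of_mem _ ha)
    obtain ⟨M, hM⟩ := one b (hF b List.mem_cons_self)
    refine ⟨max N M, fun a ha s t => ?_⟩
    rcases List.mem_cons.1 ha with rfl | ha
    · exact (hM s t).mono (le_max_right _ _)
    · exact (hN a ha s t).mono (le_max_left _ _)

lemma tower_aux [Finite V] (F : List (List (V × Bool)))
    {K : Type} [Group K] [Finite K] (π : RAAG Γ →* K) (hs : ∀ a ∈ F, Sep π a) (i : ℕ) :
    ∃ (K' : Type) (_ : Group K') (_ : Finite K') (π' : RAAG Γ →* K') (C : ℕ), ∀ a ∈ F,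
      Sep π' a ∧ (∀ s, per π' a s ∣ C * Finset.univ.lcm (per π a)) ∧
      (i ≠ 0 → orderOf (π' (wp Γ a)) ∣ C * Finset.univ.lcm (per π a)) ∧
      ∀ s t, Rch Γ a i s t → C * per π a s ∣ per π' a t := by
  induction i with
  | zero =>
    refine ⟨K, inferInstance, inferInstance, π, 1, fun a ha => ⟨hs a ha, fun s => ?_,
      fun h => absurd rfl h, fun s t h => ?_⟩⟩
    · rw [one_mul]
      exact Finset.dvd_lcm (Finset.mem_univ s)
    · rw [one_mul, show s = t from h]
  | succ i ih =>
    obtain ⟨K', hG, hfin, π', C, hall⟩ := ih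
    have hcard : NeZero (Nat.card K') := ⟨Nat.card_pos.ne'⟩
    refine ⟨Multiplicative (HV π' → ZMod (Nat.card K')) ⋊[vecAct π' (Nat.card K')] K',
      inferInstance, finite_up π' _, up π' (Nat.card K'), Nat.card K' * C, fun a ha => ?_⟩
    obtain ⟨h1, h2, h3, h4⟩ := hall a ha
    have hord : orderOf (π' (wp Γ a)) ∣ Nat.card K' := orderOf_dvd_natCard _
    have hup : orderOf (up π' (Nat.card K') (wp Γ a)) ∣
        Nat.card K' * C * Finset.univ.lcm (per π a) := by
      rw [mul_assoc]
      exact key_upper π' a _ _ hord h2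
    refine ⟨sep_up π' h1 _, fun s => ?_, fun _ => hup, ?_⟩
    · exact (MulAction.period_dvd_orderOf _ _).trans hup
    · rintro s t ⟨u, hu, hadj⟩
      have h5 := h4 s u hu
      have h6 := key_lower π' h1 _ hord u t hadj
      rw [mul_assoc]
      exact (Nat.mul_dvd_mul_left _ h5).trans h6

theorem tower [Finite V] (F : List (List (V × Bool))) (hF : ∀ a ∈ F, Good Γ a)
    {K : Type} [Group K] [Finite K] (π : RAAG Γ →* K) (hs : ∀ a ∈ F, Sep π a) :
    ∃ (K' : Type) (_ : Group K') (_ : Finite K') (π' : RAAG Γ →* K'), ∀ a ∈ F, DL π' a := by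
  obtain ⟨N, hN⟩ := exists_rch_all F hF
  obtain ⟨K', hG, hfin, π', C, hall⟩ := tower_aux F π hs (N + 1)
  refine ⟨K', hG, hfin, π', fun a ha => ?_⟩
  obtain ⟨h1, h2, h3, h4⟩ := hall a ha
  have h5 : ∀ t, C * Finset.univ.lcm (per π a) ∣ per π' a t := by
    intro t
    have h6 : ∀ s, C * per π a s ∣ per π' a t := fun s => h4 s t (hN a ha s t).succ
    have h7 : C ∣ per π' a t := (Dvd.intro _ rfl).trans (h6 t)
    obtain ⟨q, hq⟩ := h7
    rw [hq]
    apply Nat.mul_dvd_mul_left
    apply Finset.lcm_dvd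
    intro s _
    have h8 := h6 s
    have hpos : 0 < per π' a t := by
      have h9 : per π' a t ∣ orderOf (π' (wp Γ a)) := MulAction.period_dvd_orderOf _ _
      exact Nat.pos_of_dvd_of_pos h9 (orderOf_pos _)
    have hC : 0 < C := by
      rcases Nat.eq_zero_or_pos C with h | h
      · rw [hq, h, zero_mul] at hpos
        exact absurd hpos (lt_irrefl _)
      · exact h
    rw [hq] at h8
    exact Nat.dvd_of_mul_dvd_mul_left hC h8
  intro t t' k h
  have ht : t = t' := h1 t t' k h
  refine ⟨ht, ?_⟩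
  subst ht
  have h6 : (π' (wp Γ a)) ^ k • hl π' a t = hl π' a t := by
    rw [← map_zpow, smul_hl]
    exact h
  have h7 : ((per π' a t : ℕ) : ℤ) ∣ k := MulAction.zpow_smul_eq_iff_period_dvd.1 h6
  have h8 : orderOf (π' (wp Γ a)) ∣ per π' a t := (h3 (Nat.succ_ne_zero _)).trans (h5 t)
  rw [map_zpow]
  apply orderOf_dvd_iff_zpow_eq_one.1
  exact (Int.natCast_dvd_natCast.2 h8).trans h7

end VSp
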