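import Pool.Agent.VSp.Good
import Pool.Agent.VSp.First
import Pool.Agent.VSp.Tower

set_option autoImplicit false

/-! M9. A finite cover in which finitely many given elements become products of distinct
letters. -/

namespace VSp

section

variable {V : Type} {Γ : SimpleGraph V} {K : Type} [Group K] (π : RAAG Γ →* K)

lemma bs_zero (p : V × Bool) (w : List (V × Bool)) :
    bs Γ (p :: w) ⟨0, Nat.succ_pos _⟩ = cond p.2 1 (of Γ p.1)⁻¹ := by
  obtain ⟨z, b⟩ := p
  cases b
  · show wp Γ [(z, false)] = _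
    rw [wp_cons, wp_nil, mul_one]
    rfl
  · rfl

lemma bs_succ (p : V × Bool) (w : List (V × Bool)) (t : Fin w.length) :
    bs Γ (p :: w) t.succ = sgn Γ p.1 p.2 * bs Γ w t := by
  show (if (w.get t).2 then wp Γ (p :: w.take t) else wp Γ (p :: w.take (t + 1))) =
    sgn Γ p.1 p.2 * (if (w.get t).2 then wp Γ (w.take t) else wp Γ (w.take (t + 1)))
  split
  · exact wp_cons _ _
  · exact wp_cons _ _

lemma bs_mem (a : List (V × Bool)) (t : Fin a.length) : bs Γ a t ∈ sub Γ (spt a) := by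
  unfold bs
  split
  · exact wp_mem_sub _ _ fun p hp => fst_mem_spt (List.mem_of_mem_take hp)
  · exact wp_mem_sub _ _ fun p hp => fst_mem_spt (List.mem_of_mem_take hp)

/-- The letters of the crossing word. -/
lemma cr_fst (k : K) (w : List (V × Bool)) : (cr π k w).map Prod.fst =
    List.ofFn fun t : Fin w.length => hp π (k * π (bs Γ w t)) (w.get t).1 := by
  induction w generalizing k with
  | nil => simp [cr]
  | cons p w ih =>
    obtain ⟨z, b⟩ := p
    rw [cr_cons, List.map_cons, ih]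
    show _ = List.ofFn fun t : Fin (w.length + 1) =>
      hp π (k * π (bs Γ ((z, b) :: w) t)) (((z, b) :: w).get t).1
    rw [List.ofFn_succ]
    congr 1
    · have h0 := bs_zero (Γ := Γ) (z, b) w
      show _ = hp π (k * π (bs Γ ((z, b) :: w) ⟨0, _⟩)) z
      rw [h0]
      cases b
      · simp
      · simp
    · congr 1
      funext t
      rw [bs_succ, map_mul, mul_assoc]
      rfl

lemma wp_replicate (n : ℕ) (a : List (V × Bool)) :
    wp Γ (List.replicate n a).flatten = wp Γ a ^ n := by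
  induction n with
  | zero => simp [wp_nil]
  | succ n ih => rw [List.replicate_succ, List.flatten_cons, wp_append, ih, pow_succ']

lemma cr_replicate_fst (k : K) (n : ℕ) (a : List (V × Bool)) :
    (cr π k (List.replicate n a).flatten).map Prod.fst =
      (List.range n).flatMap fun j =>
        List.ofFn fun t : Fin a.length => hp π (k * π (wp Γ a ^ j * bs Γ a t)) (a.get t).1 := by
  induction n with
  | zero => simp [cr]
  | succ n ih =>
    rw [List.replicate_succ', List.flatten_append, cr_append, List.map_append, ih,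
      List.range_succ, List.flatMap_append]
    congr 1
    rw [List.flatten_singleton, cr_fst, wp_replicate, List.flatMap_singleton]
    congr 1
    funext t
    rw [map_mul, mul_assoc]

lemma hp_left (k k' c : K) (z z' : V) (h : hp π (c * k) z = hp π (c * k') z') :
    hp π k z = hp π k' z' := by
  have := congrArg (fun a => c⁻¹ • a) h
  simpa [smul_hp, inv_mul_cancel_left] using this

lemma nodup_cr {a : List (V × Bool)} (hDL : DL π a) (k : K) :
    ((cr π k (List.replicate (orderOf (π (wp Γ a))) a).flatten).map Prod.fst).Nodup := by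
  rw [cr_replicate_fst, List.nodup_flatMap]
  have key : ∀ (i j : ℕ) (t t' : Fin a.length),
      hp π (k * π (wp Γ a ^ i * bs Γ a t)) (a.get t).1 =
        hp π (k * π (wp Γ a ^ j * bs Γ a t')) (a.get t').1 →
      t = t' ∧ π (wp Γ a) ^ ((i : ℤ) - j) = 1 := by
    intro i j t t' h
    have h1 := hp_left π _ _ _ _ _ h
    have h2 : hp π (π (wp Γ a) ^ j * π (wp Γ a ^ ((i : ℤ) - j) * bs Γ a t)) (a.get t).1 =
        hp π (π (wp Γ a) ^ j * π (bs Γ a t')) (a.get t').1 := by
      have e1 : π (wp Γ a) ^ j * π (wp Γ a ^ ((i : ℤ) - j) * bs Γ a t) =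
          π (wp Γ a ^ i * bs Γ a t) := by
        rw [← map_pow, ← map_mul]
        congr 1
        rw [← mul_assoc, ← zpow_natCast, ← zpow_add, ← zpow_natCast]
        congr 2
        ring
      rw [e1, h1, map_mul, map_pow]
    have h3 := hDL t t' ((i : ℤ) - j) (hp_left π _ _ _ _ _ h2)
    refine ⟨h3.1, ?_⟩
    rw [← map_zpow]
    exact h3.2
  refine ⟨fun i _ => ?_, ?_⟩
  · rw [List.nodup_ofFn]
    intro t t' h
    exact (key i i t t' h).1
  · have hr : (List.range (orderOf (π (wp Γ a)))).Pairwise (· < ·) := List.pairwise_lt_range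
    refine List.Pairwise.imp_of_mem ?_ hr
    intro i j hi hj hij
    rw [Function.onFun, List.disjoint_left]
    intro x hx hx'
    rw [List.mem_ofFn] at hx hx'
    obtain ⟨t, rfl⟩ := hx
    obtain ⟨t', ht'⟩ := hx'
    have h1 := (key j i t' t ht').2
    have h2 := orderOf_dvd_iff_zpow_eq_one.2 h1
    have hj' := List.mem_range.1 hj
    have h3 := Int.le_of_dvd (by omega) h2
    omega

/-- Bases and letters along a crossing word. -/
lemma nc_mem_cr (k : K) (w : List (V × Bool)) (p : HV π × Bool) (hp' : p ∈ cr π k w) :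
    ∃ b ∈ sub Γ (spt w), p.1.1 ∈ spt w ∧ p.1 = hp π (k * π b) p.1.1 := by
  have h1 : p.1 ∈ (cr π k w).map Prod.fst := List.mem_map_of_mem hp'
  rw [cr_fst, List.mem_ofFn] at h1
  obtain ⟨t, ht⟩ := h1
  refine ⟨bs Γ w t, bs_mem w t, ?_, ?_⟩
  · rw [← ht]
    exact fst_mem_spt (List.get_mem w t)
  · conv_lhs => rw [← ht]
    rw [← ht]
    rfl

lemma adj_cr (k : K) (w w' : List (V × Bool)) (h : ∀ p ∈ w, ∀ q ∈ w', Γ.Adj p.1 q.1)
    (p q : HV π × Bool) (hp' : p ∈ cr π k w) (hq' : q ∈ cr π k w') : (HG π).Adj p.1 q.1 := by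
  obtain ⟨b, hb, ⟨c, hc⟩, hpb⟩ := nc_mem_cr π k w p hp'
  obtain ⟨b', hb', ⟨c', hc'⟩, hqb⟩ := nc_mem_cr π k w' q hq'
  have hcomm : Commute b b' := commute_sub (L := spt w) (L' := spt w')
    (by rintro x ⟨d, hx⟩ y ⟨e, hy⟩; exact h _ hx _ hy) b b' hb hb'
  refine ⟨h _ hc _ hc', k * π (b * b'), ?_, ?_⟩
  · rw [hpb, map_mul, ← mul_assoc]
    show hp π (k * π b * π b') p.1.1 = _
    rw [hp_lk]
    refine sub_mono ?_ hb'
    rintro y ⟨e, hy⟩
    exact h _ hc _ hy
  · rw [hqb, hcomm.eq, map_mul, ← mul_assoc]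
    show hp π (k * π b' * π b) q.1.1 = _
    rw [hp_lk]
    refine sub_mono ?_ hb
    rintro y ⟨e, hy⟩
    exact (h _ hy _ hc').symm

lemma spt_replicate (n : ℕ) (a : List (V × Bool)) :
    ∀ p ∈ (List.replicate n a).flatten, p ∈ a := by
  intro p hp
  rw [List.mem_flatten] at hp
  obtain ⟨l, hl, hp⟩ := hp
  rw [List.eq_of_mem_replicate hl] at hp
  exact hp

open SemidirectProduct in
/-- The image of a power of a good word. -/
lemma psi_zpow {a : List (V × Bool)} (k q : ℤ) (hk : k = orderOf (π (wp Γ a)) * q) :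
    psi π (wp Γ a ^ k) =
      inl (wp (HG π) (cr π 1 (List.replicate (orderOf (π (wp Γ a))) a).flatten) ^ q) := by
  have h1 : psi π (wp Γ a ^ orderOf (π (wp Γ a))) =
      inl (wp (HG π) (cr π 1 (List.replicate (orderOf (π (wp Γ a))) a).flatten)) := by
    rw [← wp_replicate, psi_wp, wp_replicate, map_pow, pow_orderOf_eq_one]
    rfl
  rw [hk, zpow_mul, zpow_natCast, map_zpow, h1, map_zpow]

lemma prod_zpow (as : List (List (V × Bool))) (k : ℤ)
    (h : as.Pairwise (fun a b => ∀ p ∈ a, ∀ q ∈ b, Γ.Adj p.1 q.1)) :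
    (as.map (wp Γ)).prod ^ k = (as.map fun a => wp Γ a ^ k).prod := by
  induction as with
  | nil => simp
  | cons a as ih =>
    rw [List.pairwise_cons] at h
    rw [List.map_cons, List.prod_cons, List.map_cons, List.prod_cons, Commute.mul_zpow, ih h.2]
    refine Commute.list_prod_right _ _ fun g hg => ?_
    rw [List.mem_map] at hg
    obtain ⟨b, hb, rfl⟩ := hg
    refine commute_sub (L := spt a) (L' := spt b) ?_ _ _
      (wp_mem_sub _ _ fun p hp => fst_mem_spt hp) (wp_mem_sub _ _ fun p hp => fst_mem_spt hp)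
    rintro x ⟨d, hx⟩ y ⟨e, hy⟩
    exact h.1 b hb _ hx _ hy

/-- The factors of a power in the kernel are in the kernel. -/
lemma factor_eq_one (as : List (List (V × Bool))) (hg : ∀ a ∈ as, a ≠ [])
    (hDL : ∀ a ∈ as, DL π a) (k : ℤ)
    (h : as.Pairwise (fun a b => ∀ p ∈ a, ∀ q ∈ b, Γ.Adj p.1 q.1))
    (h1 : π (as.map fun a => wp Γ a ^ k).prod = 1) (a : List (V × Bool)) (ha : a ∈ as) :
    π (wp Γ a ^ k) = 1 := by
  obtain ⟨l₁, l₂, rfl⟩ := List.append_of_mem ha
  rw [List.pairwise_append, List.pairwise_cons] at h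
  set M : Subgroup (RAAG Γ) := sub Γ {z | ∀ p ∈ a, Γ.Adj p.1 z} with hM
  have hP₁ : (l₁.map fun a => wp Γ a ^ k).prod ∈ M := by
    refine Subgroup.list_prod_mem _ fun g hg' => ?_
    rw [List.mem_map] at hg'
    obtain ⟨b, hb, rfl⟩ := hg'
    refine zpow_mem (wp_mem_sub _ _ fun p hp q hq => ?_) k
    exact (h.2.2 b hb a List.mem_cons_self p hp q hq).symm
  have hP₂ : (l₂.map fun a => wp Γ a ^ k).prod ∈ M := by
    refine Subgroup.list_prod_mem _ fun g hg' => ?_
    rw [List.mem_map] at hg'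
    obtain ⟨b, hb, rfl⟩ := hg'
    refine zpow_mem (wp_mem_sub _ _ fun p hp q hq => ?_) k
    exact h.2.1.1 b hb q hq p hp
  set P₁ := (l₁.map fun a => wp Γ a ^ k).prod with hP₁d
  set P₂ := (l₂.map fun a => wp Γ a ^ k).prod with hP₂d
  rw [List.map_append, List.prod_append, List.map_cons, List.prod_cons] at h1
  have hcM : ∀ g ∈ M, ∀ g' ∈ sub Γ (spt a), Commute g' g := by
    intro g hg' g' hg''
    refine commute_sub (L := spt a) (L' := {z | ∀ p ∈ a, Γ.Adj p.1 z}) ?_ g' g hg'' hg'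
    rintro x ⟨d, hx⟩ y hy
    exact hy _ hx
  have hlk : ∀ g ∈ M, ∀ p ∈ a, g ∈ lk Γ p.1 := by
    intro g hg' p hp
    have hsub : {z | ∀ p ∈ a, Γ.Adj p.1 z} ⊆ {z | Γ.Adj p.1 z} := fun z hz => hz p hp
    exact sub_mono hsub hg'
  -- write the power as an element of `M`
  have hz : π (wp Γ a ^ k) = π (P₁⁻¹ * P₂⁻¹) := by
    have h2 : π P₁ * (π (wp Γ a ^ k) * π P₂) = 1 := by
      rw [← map_mul, ← map_mul]
      exact h1
    rw [map_mul, map_inv, map_inv]
    have h3 : π (wp Γ a ^ k) * π P₂ = (π P₁)⁻¹ := eq_inv_of_mul_eq_one_right h2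
    rw [← h3, mul_inv_cancel_right]
  set z₀ := P₁⁻¹ * P₂⁻¹ with hz₀
  have hz₀M : z₀ ∈ M := mul_mem (inv_mem hP₁) (inv_mem hP₂)
  have hne := hg a ha
  have hlen : 0 < a.length := List.length_pos_of_ne_nil hne
  have h4 := hDL a ha ⟨0, hlen⟩ ⟨0, hlen⟩ k (by
    rw [map_mul, hz, ← map_mul, ← (hcM z₀ hz₀M _ (bs_mem a ⟨0, hlen⟩)).eq, map_mul]
    exact hp_lk π _ _ (hlk z₀ hz₀M _ (List.get_mem a ⟨0, hlen⟩)) _)
  exact h4.2

end

section

variable {V : Type} {Γ : SimpleGraph V}

open SemidirectProduct in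
theorem nice_cover [Finite V] (S : Finset (RAAG Γ)) :
    ∃ (K : Type) (_ : Group K) (_ : Finite K) (π : RAAG Γ →* K),
      ∀ g ∈ S, ∀ (x : RAAG Γ) (k : ℤ), π (g ^ k) = 1 →
        ∃ (u : RAAG (HG π)) (vs : List (List (HV π × Bool) × ℤ)),
          (∀ v ∈ vs, (v.1.map Prod.fst).Nodup) ∧
          vs.Pairwise (fun v v' => ∀ p ∈ v.1, ∀ q ∈ v'.1, (HG π).Adj p.1 q.1) ∧
          (psi π (x * g ^ k * x⁻¹)).left =
            u * (vs.map (fun v => wp (HG π) v.1 ^ v.2)).prod * u⁻¹ := by
  classical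
  have hgood : ∀ g : RAAG Γ, ∃ (x : RAAG Γ) (as : List (List (V × Bool))),
      (∀ a ∈ as, Good Γ a) ∧ as.Pairwise (fun a b => ∀ p ∈ a, ∀ q ∈ b, Γ.Adj p.1 q.1) ∧
      g = x * (as.map (wp Γ)).prod * x⁻¹ := by
    intro g
    by_cases hg : g = 1
    · exact ⟨1, [], by simp, List.Pairwise.nil, by simp [hg]⟩
    · obtain ⟨x, as, _, h1, h2, h3⟩ := exists_good g hg
      exact ⟨x, as, h1, h2, h3⟩
  choose y as has hpw hgy using hgood
  set F : List (List (V × Bool)) := S.toList.flatMap as with hF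
  have hFg : ∀ a ∈ F, Good Γ a := by
    intro a ha
    rw [hF, List.mem_flatMap] at ha
    obtain ⟨g, _, ha⟩ := ha
    exact has g a ha
  obtain ⟨K₀, _, _, π₀, h₀⟩ := first_level F hFg
  obtain ⟨K, _, _, π, hDL⟩ := tower F hFg π₀ h₀
  refine ⟨K, inferInstance, inferInstance, π, ?_⟩
  intro g hg x k hgk
  have hDL' : ∀ a ∈ as g, DL π a := fun a ha => hDL a (by
    rw [hF, List.mem_flatMap]
    exact ⟨g, Finset.mem_toList.2 hg, ha⟩)
  have hgk' : g ^ k = y g * ((as g).map fun a => wp Γ a ^ k).prod * (y g)⁻¹ := by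
    conv_lhs => rw [hgy g]
    rw [conj_zpow, prod_zpow _ _ (hpw g)]
  have h1 : π ((as g).map fun a => wp Γ a ^ k).prod = 1 := by
    rw [hgk', map_mul, map_mul, map_inv, mul_inv_eq_one, mul_eq_left] at hgk
    exact hgk
  have h2 := factor_eq_one π (as g) (fun a ha => (has g a ha).ne) hDL' k (hpw g) h1
  set o : List (V × Bool) → ℕ := fun a => orderOf (π (wp Γ a)) with ho
  have hdvd : ∀ a ∈ as g, k = o a * (k / o a) := by
    intro a ha
    have h3 := h2 a ha
    rw [map_zpow] at h3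
    exact (Int.mul_ediv_cancel' (orderOf_dvd_iff_zpow_eq_one.2 h3)).symm
  set W : K → List (V × Bool) → List (HV π × Bool) := fun κ a =>
    cr π κ (List.replicate (o a) a).flatten with hW
  have h3 : psi π ((as g).map fun a => wp Γ a ^ k).prod =
      inl (((as g).map fun a => wp (HG π) (W 1 a) ^ (k / o a)).prod) := by
    rw [map_list_prod, map_list_prod, List.map_map, List.map_map]
    congr 1
    refine List.map_congr_left fun a ha => ?_
    exact psi_zpow π k (k / o a) (hdvd a ha)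
  obtain ⟨X, hX⟩ : ∃ X, X = x * y g := ⟨_, rfl⟩
  have h4 : x * g ^ k * x⁻¹ = X * ((as g).map fun a => wp Γ a ^ k).prod * X⁻¹ := by
    rw [hgk', hX]
    group
  refine ⟨(psi π X).left, (as g).map fun a => (W (π X) a, k / o a), ?_, ?_, ?_⟩
  · intro v hv
    rw [List.mem_map] at hv
    obtain ⟨a, ha, rfl⟩ := hv
    exact nodup_cr π (hDL' a ha) (π X)
  · rw [List.pairwise_map]
    refine (hpw g).imp ?_
    intro a b hab p hp q hq
    refine adj_cr π (π X) _ _ ?_ p q hp hq
    intro p' hp' q' hq'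
    exact hab p' (spt_replicate _ _ _ hp') q' (spt_replicate _ _ _ hq')
  · rw [h4, map_mul, map_mul, h3, map_inv, List.map_map]
    have h5 : psi π X = inl (psi π X).left * inr (π X) := by
      rw [← psi_right π X]
      exact (inl_left_mul_inr_right _).symm
    have h6 : ∀ L : RAAG (HG π), psi π X * inl L * (psi π X)⁻¹ =
        inl ((psi π X).left * actHom K (HG π) (π X) L * (psi π X).left⁻¹) := by
      intro L
      conv_lhs => rw [h5]
      rw [mul_inv_rev]
      calc inl (psi π X).left * inr (π X) * inl L * ((inr (π X))⁻¹ * (inl (psi π X).left)⁻¹)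
          = inl (psi π X).left * (inr (π X) * inl L * inr (π X)⁻¹) *
              (inl (psi π X).left)⁻¹ := by
            rw [map_inv]
            group
        _ = _ := by
            rw [← inl_aut, ← map_inv, ← map_mul, ← map_mul]
    rw [h6, left_inl, map_list_prod, List.map_map]
    congr 3
    refine List.map_congr_left fun a _ => ?_
    show actHom K (HG π) (π X) (wp (HG π) (W 1 a) ^ (k / o a)) = wp (HG π) (W (π X) a) ^ (k / o a)
    rw [map_zpow, hW]
    simp only [act_wp_cr, mul_one]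

end

end VSp
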