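import Pool.Agent.VSp.ParabE

set_option autoImplicit false

/-! M6, last part: cyclic subgroups are virtually parabolic. -/

namespace VSp

universe u v

namespace PF

open PB

section Prod

variable {W X : Type} (Δ : SimpleGraph W)

/-- The join of `Δ` with a complete graph on `X`. -/
def jg (X : Type) : SimpleGraph (W ⊕ X) where
  Adj a b := match a, b with
    | Sum.inl x, Sum.inl y => Δ.Adj x y
    | Sum.inl _, Sum.inr _ => True
    | Sum.inr _, Sum.inl _ => True
    | Sum.inr x, Sum.inr y => x ≠ y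
  symm := ⟨by
    rintro (a | a) (b | b) h
    · exact SimpleGraph.Adj.symm (G := Δ) h
    · trivial
    · trivial
    · exact Ne.symm h⟩
  loopless := ⟨by
    rintro (a | a) h
    · exact Δ.loopless.irrefl a h
    · exact h rfl⟩

/-- inclusion of the first factor -/
def i1 (X : Type) : RAAG Δ →* RAAG (jg Δ X) :=
  lift (fun x => of (jg Δ X) (Sum.inl x)) (fun _ _ h => of_comm _ (show (jg Δ X).Adj _ _ from h))

lemma i1_of (x : W) : i1 Δ X (of Δ x) = of (jg Δ X) (Sum.inl x) := lift_of _ _ _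

/-- projection to the first factor -/
def r1 (X : Type) : RAAG (jg Δ X) →* RAAG Δ :=
  lift (fun a => Sum.elim (fun x => of Δ x) (fun _ => 1) a) (by
    rintro (a | a) (b | b) h
    · exact of_comm Δ h
    · exact Commute.one_right _
    · exact Commute.one_left _
    · exact Commute.one_right _)

lemma r1_inl (x : W) : r1 Δ X (of _ (Sum.inl x)) = of Δ x := lift_of _ _ _
lemma r1_inr (x : X) : r1 Δ X (of _ (Sum.inr x)) = 1 := lift_of _ _ _

open Classical in
/-- projection to the second factor -/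
noncomputable def r2 (X : Type) : RAAG (jg Δ X) →* Multiplicative (X → ℤ) :=
  lift (fun a => Sum.elim (fun _ => 1) (fun x => Multiplicative.ofAdd (Pi.single x 1)) a)
    (fun _ _ _ => Commute.all _ _)

lemma r2_inl (x : W) : r2 Δ X (of _ (Sum.inl x)) = 1 := lift_of _ _ _
open Classical in
lemma r2_inr (x : X) : r2 Δ X (of _ (Sum.inr x)) = Multiplicative.ofAdd (Pi.single x 1) :=
  lift_of _ _ _

lemma r1_i1 (g : RAAG Δ) : r1 Δ X (i1 Δ X g) = g := by
  have : (r1 Δ X).comp (i1 Δ X) = MonoidHom.id _ := hom_ext fun x => by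
    rw [MonoidHom.comp_apply, i1_of, r1_inl]; rfl
  exact DFunLike.congr_fun this g

lemma r2_i1 (g : RAAG Δ) : r2 Δ X (i1 Δ X g) = 1 := by
  have : (r2 Δ X).comp (i1 Δ X) = 1 := hom_ext fun x => by
    rw [MonoidHom.comp_apply, i1_of, r2_inl]; rfl
  exact DFunLike.congr_fun this g

/-- inclusion of one coordinate -/
noncomputable def ci (x : X) : Multiplicative ℤ →* RAAG (jg Δ X) :=
  zpowersHom _ (of (jg Δ X) (Sum.inr x))

lemma ci_comm : Pairwise fun x y : X => ∀ a b, Commute (ci Δ x a) (ci Δ y b) := by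
  intro x y hxy a b
  have : Commute (of (jg Δ X) (Sum.inr x)) (of (jg Δ X) (Sum.inr y)) :=
    of_comm _ (show (jg Δ X).Adj _ _ from hxy)
  simp only [ci, zpowersHom_apply]
  exact this.zpow_zpow _ _

/-- inclusion of the second factor -/
noncomputable def i2 [Fintype X] : (X → Multiplicative ℤ) →* RAAG (jg Δ X) :=
  MonoidHom.noncommPiCoprod (fun x => ci Δ x) (ci_comm Δ)

lemma i2_single [Fintype X] [DecidableEq X] (x : X) (a : Multiplicative ℤ) :
    i2 Δ (Pi.mulSingle x a) = ci Δ x a := by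
  unfold i2
  rw [MonoidHom.noncommPiCoprod_mulSingle]

lemma i2_i1_comm [Fintype X] (g : RAAG Δ) (v : X → Multiplicative ℤ) :
    Commute (i1 Δ X g) (i2 Δ v) := by
  classical
  have h1 : ∀ w : W, ∀ v : X → Multiplicative ℤ, Commute (of (jg Δ X) (Sum.inl w)) (i2 Δ v) := by
    intro w v
    have h2 : (MulAut.conj (of (jg Δ X) (Sum.inl w))).toMonoidHom.comp (i2 Δ) = i2 Δ := by
      apply MonoidHom.pi_ext
      intro x a
      rw [MonoidHom.comp_apply, i2_single]
      have h3 : Commute (of (jg Δ X) (Sum.inl w)) (ci Δ x a) := by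
        rw [ci, zpowersHom_apply]
        exact (of_comm (jg Δ X) (show (jg Δ X).Adj (Sum.inl w) (Sum.inr x) from trivial)).zpow_right _
      show of (jg Δ X) (Sum.inl w) * ci Δ x a * (of (jg Δ X) (Sum.inl w))⁻¹ = _
      rw [h3.eq, mul_inv_cancel_right]
    have h4 := DFunLike.congr_fun h2 v
    have h5 : of (jg Δ X) (Sum.inl w) * i2 Δ v * (of (jg Δ X) (Sum.inl w))⁻¹ = i2 Δ v := h4
    exact mul_inv_eq_iff_eq_mul.1 h5
  have h2 : (MulAut.conj (i2 Δ v)).toMonoidHom.comp (i1 Δ X) = i1 Δ X := by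
    apply hom_ext
    intro x
    rw [MonoidHom.comp_apply, i1_of]
    show i2 Δ v * of (jg Δ X) (Sum.inl x) * (i2 Δ v)⁻¹ = _
    rw [← (h1 x v).eq, mul_inv_cancel_right]
  have h4 := DFunLike.congr_fun h2 g
  have h5 : i2 Δ v * i1 Δ X g * (i2 Δ v)⁻¹ = i1 Δ X g := h4
  exact (mul_inv_eq_iff_eq_mul.1 h5 : i2 Δ v * i1 Δ X g = i1 Δ X g * i2 Δ v).symm

lemma r1_i2 [Fintype X] (v : X → Multiplicative ℤ) : r1 Δ X (i2 Δ v) = 1 := by
  classical
  have : (r1 Δ X).comp (i2 Δ) = 1 := by
    apply MonoidHom.pi_ext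
    intro x a
    rw [MonoidHom.comp_apply, i2_single, ci, zpowersHom_apply, map_zpow, r1_inr, one_zpow]
    rfl
  exact DFunLike.congr_fun this v

lemma r2_i2 [Fintype X] (v : X → Multiplicative ℤ) (x : X) :
    Multiplicative.toAdd (r2 Δ X (i2 Δ v)) x = Multiplicative.toAdd (v x) := by
  classical
  let e : Multiplicative (X → ℤ) →* (X → Multiplicative ℤ) :=
    { toFun := fun f x => Multiplicative.ofAdd (Multiplicative.toAdd f x)
      map_one' := rfl
      map_mul' := fun _ _ => rfl }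
  have : (e.comp (r2 Δ X)).comp (i2 Δ) = MonoidHom.id _ := by
    apply MonoidHom.pi_ext
    intro x a
    rw [MonoidHom.comp_apply, i2_single, ci, zpowersHom_apply, MonoidHom.comp_apply, map_zpow,
      r2_inr]
    funext y
    show Multiplicative.ofAdd (Multiplicative.toAdd
      ((Multiplicative.ofAdd (Pi.single x (1 : ℤ)) : Multiplicative (X → ℤ)) ^
        Multiplicative.toAdd a) y) = (Pi.mulSingle x a : X → Multiplicative ℤ) y
    rw [toAdd_zpow, toAdd_ofAdd, Pi.smul_apply]
    by_cases h : y = x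
    · subst h
      simp
    · rw [Pi.single_eq_of_ne h, Pi.mulSingle_eq_of_ne h]
      simp
  have h1 := congrFun (DFunLike.congr_fun this v) x
  exact congrArg Multiplicative.toAdd h1

end Prod

section Core

variable {V : Type} {Γ : SimpleGraph V} {K : Type} [Group K] {π : RAAG Γ →* K}

lemma act_fix {L : Set (HV π)} (κ : K) (hκ : ∀ h ∈ L, κ • h = h) (x : RAAG (HG π))
    (hx : x ∈ sub (HG π) L) : actHom K (HG π) κ x = x := by
  have : sub (HG π) L ≤
      (MonoidHom.eqLocus (actHom K (HG π) κ).toMonoidHom (MonoidHom.id (RAAG (HG π)))) := by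
    unfold sub
    rw [Subgroup.closure_le]
    rintro _ ⟨h, hh, rfl⟩
    show actHom K (HG π) κ (of _ h) = of _ h
    rw [actHom_of, hκ h hh]
  exact this hx

/-- the letters of `b` are fixed by powers of an adjacent word -/
lemma fix_letter {a b : List (V × Bool)} (hab : ∀ p ∈ a, ∀ q ∈ b, Γ.Adj p.1 q.1) (k m : ℤ)
    (t : Fin b.length) :
    π (wp Γ a ^ k) • hp π (π (wp Γ b ^ m * bs Γ b t)) (b.get t).1 =
      hp π (π (wp Γ b ^ m * bs Γ b t)) (b.get t).1 := by
  have hb : wp Γ b ^ m * bs Γ b t ∈ sub Γ {x | ∃ e, (x, e) ∈ b} := by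
    refine Subgroup.mul_mem _ (Subgroup.zpow_mem _
      (wp_mem_sub {x | ∃ e, (x, e) ∈ b} _ fun p hp => ⟨p.2, hp⟩) _) ?_
    unfold bs
    split
    · exact wp_mem_sub _ _ fun p hp => ⟨p.2, List.mem_of_mem_take hp⟩
    · exact wp_mem_sub _ _ fun p hp => ⟨p.2, List.mem_of_mem_take hp⟩
  have ha : wp Γ a ^ k ∈ sub Γ {x | ∃ e, (x, e) ∈ a} :=
    Subgroup.zpow_mem _ (wp_mem_sub {x | ∃ e, (x, e) ∈ a} _ fun p hp => ⟨p.2, hp⟩) _
  have hc : Commute (wp Γ a ^ k) (wp Γ b ^ m * bs Γ b t) := by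
    refine commute_sub ?_ _ _ ha hb
    rintro x ⟨e, hx⟩ y ⟨e', hy⟩
    exact hab _ hx _ hy
  have hl : wp Γ a ^ k ∈ lk Γ (b.get t).1 := by
    refine sub_mono ?_ ha
    rintro x ⟨e, hx⟩
    exact (hab _ hx _ (List.get_mem b t)).symm
  rw [smul_hp, ← map_mul, hc.eq, map_mul, hp_lk π _ _ hl]

lemma prod_zpow (as : List (List (V × Bool))) (k : ℤ)
    (h : as.Pairwise (fun a b => ∀ p ∈ a, ∀ q ∈ b, Γ.Adj p.1 q.1)) :
    (as.map (wp Γ)).prod ^ k = (as.map fun a => wp Γ a ^ k).prod := by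
  induction as with
  | nil => simp
  | cons a as ih =>
    rw [List.pairwise_cons] at h
    rw [List.map_cons, List.prod_cons, List.map_cons, List.prod_cons, Commute.mul_zpow, ih h.2]
    refine Commute.list_prod_right _ _ fun g hg => ?_
    rw [List.mem_map] at hg
    obtain ⟨b, hb, rfl⟩ := hg
    refine commute_sub (L := {x | ∃ e, (x, e) ∈ a}) (L' := {x | ∃ e, (x, e) ∈ b}) ?_ _ _
      (wp_mem_sub _ _ fun p hp => ⟨p.2, hp⟩) (wp_mem_sub _ _ fun p hp => ⟨p.2, hp⟩)
    rintro x ⟨d, hx⟩ y ⟨e, hy⟩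
    exact h.1 b hb _ hx _ hy

lemma prod_zpow' (as : List (List (V × Bool))) (f : List (V × Bool) → ℤ) (k : ℤ)
    (h : as.Pairwise (fun a b => ∀ p ∈ a, ∀ q ∈ b, Γ.Adj p.1 q.1)) :
    (as.map fun a => wp Γ a ^ f a).prod ^ k = (as.map fun a => (wp Γ a ^ f a) ^ k).prod := by
  induction as with
  | nil => simp
  | cons a as ih =>
    rw [List.pairwise_cons] at h
    rw [List.map_cons, List.prod_cons, List.map_cons, List.prod_cons, Commute.mul_zpow, ih h.2]
    refine Commute.list_prod_right _ _ fun g hg => ?_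
    rw [List.mem_map] at hg
    obtain ⟨b, hb, rfl⟩ := hg
    refine commute_sub (L := {x | ∃ e, (x, e) ∈ a}) (L' := {x | ∃ e, (x, e) ∈ b}) ?_ _ _
      (Subgroup.zpow_mem _ (wp_mem_sub {x | ∃ e, (x, e) ∈ a} _ fun p hp => ⟨p.2, hp⟩) _)
      (Subgroup.zpow_mem _ (wp_mem_sub {x | ∃ e, (x, e) ∈ b} _ fun p hp => ⟨p.2, hp⟩) _)
    rintro x ⟨d, hx⟩ y ⟨e, hy⟩
    exact h.1 b hb _ hx _ hy

lemma psi_prod_mem (as : List (List (V × Bool))) (hne : ∀ a ∈ as, a ≠ [])
    (hpw : as.Pairwise (fun a b => ∀ p ∈ a, ∀ q ∈ b, Γ.Adj p.1 q.1)) (k : ℤ) :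
    (psi π (as.map fun a => wp Γ a ^ k).prod).left ∈ sub (HG π) (Lset π as) := by
  induction as with
  | nil =>
    rw [List.map_nil, List.prod_nil, map_one]
    exact Subgroup.one_mem _
  | cons a as ih =>
    rw [List.pairwise_cons] at hpw
    have hne' : ∀ b ∈ as, b ≠ [] := fun b hb => hne b (by simp [hb])
    have ih' := ih hne' hpw.2
    rw [List.map_cons, List.prod_cons, map_mul, SemidirectProduct.mul_left, psi_right]
    have hfix : ∀ h ∈ Lset π as, π (wp Γ a ^ k) • h = h := by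
      rintro h ⟨b, hb, t, m, rfl⟩
      exact fix_letter (hpw.1 b hb) k m t
    rw [act_fix _ hfix _ ih']
    have hsub : Lset π as ⊆ Lset π (a :: as) := by
      rintro h ⟨b, hb, t, m, rfl⟩
      exact ⟨b, by simp [hb], t, m, rfl⟩
    refine Subgroup.mul_mem _ ?_ (sub_mono hsub ih')
    rw [← pt_mul_length a (hne a (by simp))]
    exact psi_pt_mem π a (hne a (by simp)) _
      (fun T => (Lset_lam π (a :: as) hne _).2 ⟨a, by simp, T, rfl⟩) _

lemma cv_zpow (g : RAAG Γ) (hg : π g = 1) (k : ℤ) (h : HV π) :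
    cv π (g ^ k) h = k * cv π g h := by
  induction k using Int.induction_on with
  | zero => rw [zpow_zero, cv_one]; simp
  | succ n ih =>
    rw [zpow_add_one, cv_mul, map_zpow, hg, one_zpow, inv_one, one_smul, ih]
    ring
  | pred n ih =>
    rw [zpow_sub_one, cv_mul, map_zpow, hg, one_zpow, inv_one, one_smul, ih, cv_inv, hg, one_smul]
    ring

/-- The crossing number of `a ^ l` at the first letter of `a`. -/
lemma cv_first_ne [Finite K] {a : List (V × Bool)} (ha : a ≠ []) (hd : DL π a) (l : ℕ)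
    (hl : 0 < l) (ho : orderOf (π (wp Γ a)) ∣ l) : cv π (wp Γ a ^ (l : ℤ)) (lam π a ha 0) ≠ 0 := by
  intro h0
  have hm := per_pos π a ha
  have h1 := cv_pt π ha hd ((a.length : ℤ) * l) 0 le_rfl hm
  rw [pt_mul_length a ha, h0, mul_zero] at h1
  obtain ⟨j, rfl⟩ := ho
  have h2 : (a.length : ℤ) * ((orderOf (π (wp Γ a)) * j : ℕ) : ℤ) - 0 =
      0 + PB.per π a * j := by
    rw [PB.per]; push_cast; ring
  rw [h2, cc_add_mul hm, cc_zero_of hm (by omega) le_rfl] at h1
  have : (j : ℤ) ≠ 0 := by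
    intro hj
    rw [Int.natCast_eq_zero] at hj
    rw [hj, mul_zero] at hl
    exact lt_irrefl _ hl
  omega

/-- Equality of the exponents. -/
lemma exps_eq [Finite V] [Finite K] (as : List (List (V × Bool))) (hg : ∀ a ∈ as, Good Γ a)
    (hpw : as.Pairwise (fun a b => ∀ p ∈ a, ∀ q ∈ b, Γ.Adj p.1 q.1))
    (hd : ∀ a ∈ as, DL π a) (l : ℕ) (hl : 0 < l) (ho : ∀ x : K, x ^ l = 1)
    (J : List (V × Bool) → ℤ) (g : RAAG Γ) (hgJ : g = (as.map (fun a => wp Γ a ^ J a)).prod)
    (hgπ : π g = 1)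
    (hchi : ∀ h h' : HV π, cv π g h * cv π ((as.map (wp Γ)).prod ^ (l : ℤ)) h' =
      cv π g h' * cv π ((as.map (wp Γ)).prod ^ (l : ℤ)) h)
    (a b : List (V × Bool)) (ha : a ∈ as) (hb : b ∈ as) : J a = J b := by
  have hne : ∀ a ∈ as, a ≠ [] := fun a ha => (hg a ha).ne
  have hnodup : as.Nodup := by
    refine (hpw.imp_of_mem ?_)
    rintro a b ha hb hab rfl
    obtain ⟨p, hp⟩ := List.exists_mem_of_ne_nil a (hne a ha)
    exact Γ.irrefl (hab p hp p hp)
  have hker : ∀ a : List (V × Bool), π (wp Γ a ^ (l : ℤ)) = 1 := by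
    intro a
    rw [map_zpow, zpow_natCast]
    exact ho _
  -- values at the letters, for products with arbitrary exponents
  have hval : ∀ (f : List (V × Bool) → ℤ) (c : List (V × Bool)) (hc : c ∈ as),
      cv π ((as.map (fun a => (wp Γ a ^ (l : ℤ)) ^ f a)).prod) (lam π c (hne c hc) 0) =
        f c * cv π (wp Γ c ^ (l : ℤ)) (lam π c (hne c hc) 0) := by
    intro f c hc
    rw [cv_list_prod π _ (by
      intro y hy
      obtain ⟨d, _, rfl⟩ := List.mem_map.1 hy
      rw [map_zpow, hker, one_zpow]), List.map_map]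
    rw [sum_single_of_nodup as hnodup c hc]
    · exact cv_zpow _ (hker c) _ _
    · intro d hdm hdc
      show cv π ((wp Γ d ^ (l : ℤ)) ^ f d) _ = 0
      rw [← zpow_mul, ← pt_mul_length d (hne d hdm)]
      exact cv_pt_off π d (hne d hdm) _ _ (fun T => lam_ne as hne hpw hc hdm (Ne.symm hdc) 0 T)
  have hκ : ∀ (c : List (V × Bool)) (hc : c ∈ as),
      cv π (wp Γ c ^ (l : ℤ)) (lam π c (hne c hc) 0) ≠ 0 := fun c hc =>
    cv_first_ne (hne c hc) (hd c hc) l hl (orderOf_dvd_iff_pow_eq_one.2 (ho _))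
  have hg1 : g ^ (l : ℤ) = (as.map (fun a => (wp Γ a ^ (l : ℤ)) ^ J a)).prod := by
    rw [hgJ, prod_zpow']
    · congr 1
      refine List.map_congr_left fun c _ => ?_
      rw [← zpow_mul, ← zpow_mul, mul_comm]
    · exact hpw
  have hP1 : ((as.map (wp Γ)).prod ^ (l : ℤ)) =
      (as.map (fun a => (wp Γ a ^ (l : ℤ)) ^ (1 : ℤ))).prod := by
    rw [prod_zpow as l hpw]
    simp
  have e1 := hval J a ha
  have e2 := hval J b hb
  have e3 := hval (fun _ => 1) a ha
  have e4 := hval (fun _ => 1) b hb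
  rw [← hg1, cv_zpow g hgπ] at e1 e2
  rw [← hP1, one_mul] at e3 e4
  have e5 := hchi (lam π a (hne a ha) 0) (lam π b (hne b hb) 0)
  rw [e3, e4] at e5
  have h1 := hκ a ha
  have h2 := hκ b hb
  set κa := cv π (wp Γ a ^ (l : ℤ)) (lam π a (hne a ha) 0)
  set κb := cv π (wp Γ b ^ (l : ℤ)) (lam π b (hne b hb) 0)
  have h3 : J a * (κa * κb) = J b * (κa * κb) := by
    calc J a * (κa * κb) = (J a * κa) * κb := by ring
      _ = (l * cv π g (lam π a (hne a ha) 0)) * κb := by rw [e1]
      _ = l * (cv π g (lam π a (hne a ha) 0) * κb) := by ring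
      _ = l * (cv π g (lam π b (hne b hb) 0) * κa) := by rw [e5]
      _ = (l * cv π g (lam π b (hne b hb) 0)) * κa := by ring
      _ = (J b * κb) * κa := by rw [e2]
      _ = J b * (κa * κb) := by ring
  exact mul_right_cancel₀ (mul_ne_zero h1 h2) h3

end Core

end PF

open PB PF in
theorem parabolic {V : Type} {Γ : SimpleGraph V} [Finite V] (g : RAAG Γ) (hg : g ≠ 1) :
    ∃ (N : Subgroup (RAAG Γ)) (_ : N.FiniteIndex) (n : ℕ) (Γ' : SimpleGraph (Fin n))
      (f : N →* RAAG Γ') (L : Set (Fin n)), Function.Injective f ∧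
      ∀ x : N, f x ∈ sub Γ' L ↔ (x : RAAG Γ) ∈ Subgroup.zpowers g := by
  classical
  obtain ⟨x, as, hasne, hgood, hpw, hgx⟩ := exists_good g hg
  obtain ⟨K₀, _, _, π₀, hsep⟩ := first_level as hgood
  obtain ⟨K, _, _, π, hd⟩ := tower as hgood π₀ hsep
  have hne : ∀ a ∈ as, a ≠ [] := fun a ha => (hgood a ha).ne
  set K' := Multiplicative (HV π → ZMod 2) ⋊[vecAct π 2] K with hK'
  have : Finite K' := finite_up π 2
  set π' : RAAG Γ →* K' := up π 2 with hπ'
  have : Finite (HV π) := finite_HV π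
  have : Finite (HV π') := finite_HV π'
  set P := (as.map (wp Γ)).prod with hP
  set X := HV π × HV π with hX
  have : Fintype X := Fintype.ofFinite _
  set l : ℕ := Nat.card K' with hl
  have hlpos : 0 < l := Nat.card_pos
  have hpowK' : ∀ y : K', y ^ l = 1 := fun y => pow_card_eq_one'
  have hker : ∀ y : RAAG Γ, π' y = 1 → π y = 1 := by
    intro y hy
    rw [hπ', up_eq_one_iff] at hy
    exact hy.1
  have hpowK : ∀ y : K, y ^ l = 1 := by
    intro y
    have h1 := hpowK' ⟨1, y⟩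
    have h2 := congrArg (fun z : K' => SemidirectProduct.rightHom z) h1
    simp only [map_pow, map_one] at h2
    exact h2
  set v : HV π → ℤ := cv π (P ^ (l : ℤ)) with hv
  set N : Subgroup (RAAG Γ) := π'.ker with hN
  -- the homomorphism before conjugation
  let f0 : N →* RAAG (HG π') :=
    { toFun := fun n => (psi π' n.1).left
      map_one' := by
        show (psi π' 1).left = 1
        rw [map_one]; rfl
      map_mul' := by
        intro n n'
        show (psi π' (n.1 * n'.1)).left = _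
        rw [map_mul, SemidirectProduct.mul_left, psi_right, (MonoidHom.mem_ker).1 n.2, map_one]
        rfl }
  let χ : N →* (X → Multiplicative ℤ) :=
    { toFun := fun n p => Multiplicative.ofAdd (cv π n.1 p.1 * v p.2 - cv π n.1 p.2 * v p.1)
      map_one' := by
        funext p
        show Multiplicative.ofAdd (cv π 1 p.1 * v p.2 - cv π 1 p.2 * v p.1) = 1
        rw [cv_one]
        simp
      map_mul' := by
        intro n n'
        funext p
        show Multiplicative.ofAdd (cv π (n.1 * n'.1) p.1 * v p.2 - cv π (n.1 * n'.1) p.2 * v p.1) =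
          Multiplicative.ofAdd _ * Multiplicative.ofAdd _
        rw [← ofAdd_add, cv_mul, cv_mul, hker _ ((MonoidHom.mem_ker).1 n.2), inv_one, one_smul,
          one_smul]
        congr 1
        ring }
  -- conjugation
  let cj : N →* N :=
    { toFun := fun n => ⟨x⁻¹ * n.1 * x, by
        refine (MonoidHom.mem_ker).2 ?_
        rw [map_mul, map_mul, (MonoidHom.mem_ker).1 n.2, map_inv]
        simp⟩
      map_one' := by ext; simp
      map_mul' := by
        intro n n'
        ext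
        show x⁻¹ * (n.1 * n'.1) * x = (x⁻¹ * n.1 * x) * (x⁻¹ * n'.1 * x)
        group }
  let F0 : N →* RAAG (jg (HG π') X) :=
    { toFun := fun n => i1 (HG π') X (f0 n) * i2 (HG π') (χ n)
      map_one' := by rw [map_one, map_one, map_one, map_one, one_mul]
      map_mul' := by
        intro n n'
        rw [map_mul, map_mul, map_mul, map_mul]
        have := i2_i1_comm (HG π') (f0 n') (χ n)
        rw [mul_assoc, mul_assoc, ← mul_assoc (i1 (HG π') X (f0 n')), this.eq, mul_assoc] }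
  have hr1 : ∀ n, r1 (HG π') X (F0 n) = f0 n := by
    intro n
    show r1 (HG π') X (i1 (HG π') X (f0 n) * i2 (HG π') (χ n)) = _
    rw [map_mul, r1_i1, r1_i2, mul_one]
  have hr2 : ∀ n p, Multiplicative.toAdd (r2 (HG π') X (F0 n)) p =
      Multiplicative.toAdd (χ n p) := by
    intro n p
    show Multiplicative.toAdd (r2 (HG π') X (i1 (HG π') X (f0 n) * i2 (HG π') (χ n))) p = _
    rw [map_mul, r2_i1, one_mul, r2_i2]
  set L0 : Set (HV π') := PB.Lset π' as with hL0
  -- membership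
  have hmem : ∀ n : N, F0 n ∈ sub (jg (HG π') X) (Sum.inl '' L0) ↔
      f0 n ∈ sub (HG π') L0 ∧ χ n = 1 := by
    intro n
    constructor
    · intro h
      constructor
      · rw [← hr1 n]
        have h1 : sub (jg (HG π') X) (Sum.inl '' L0) ≤ (sub (HG π') L0).comap (r1 (HG π') X) := by
          unfold sub
          rw [Subgroup.closure_le]
          rintro _ ⟨_, ⟨y, hy, rfl⟩, rfl⟩
          rw [SetLike.mem_coe, Subgroup.mem_comap, r1_inl]
          exact of_mem_sub hy
        exact h1 h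
      · have h1 : sub (jg (HG π') X) (Sum.inl '' L0) ≤ (r2 (HG π') X).ker := by
          unfold sub
          rw [Subgroup.closure_le]
          rintro _ ⟨_, ⟨y, hy, rfl⟩, rfl⟩
          show _ ∈ (r2 (HG π') X).ker
          rw [MonoidHom.mem_ker, r2_inl]
        have h2 := (MonoidHom.mem_ker).1 (h1 h)
        funext p
        have h3 := hr2 n p
        rw [h2] at h3
        exact Multiplicative.toAdd.injective h3.symm
    · rintro ⟨h1, h2⟩
      show i1 (HG π') X (f0 n) * i2 (HG π') (χ n) ∈ _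
      rw [h2, map_one, mul_one]
      have h3 : sub (HG π') L0 ≤ (sub (jg (HG π') X) (Sum.inl '' L0)).comap (i1 (HG π') X) := by
        conv_lhs => unfold sub
        rw [Subgroup.closure_le]
        rintro _ ⟨y, hy, rfl⟩
        rw [SetLike.mem_coe, Subgroup.mem_comap, i1_of]
        exact of_mem_sub ⟨y, hy, rfl⟩
      exact h3 h1
  -- the main equivalence
  have hmain : ∀ n : N, (f0 n ∈ sub (HG π') L0 ∧ χ n = 1) ↔ (n : RAAG Γ) ∈ Subgroup.zpowers P := by
    intro n
    have hnπ' : π' n.1 = 1 := (MonoidHom.mem_ker).1 n.2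
    have hnπ : π n.1 = 1 := hker _ hnπ'
    have hPl : π' (P ^ (l : ℤ)) = 1 := by rw [map_zpow, zpow_natCast]; exact hpowK' _
    constructor
    · rintro ⟨h1, h2⟩
      obtain ⟨J, hJ⟩ := PB.parab_core as hgood hpw hd n.1 hnπ' h1
      have hchi : ∀ h h' : HV π, cv π n.1 h * cv π ((as.map (wp Γ)).prod ^ (l : ℤ)) h' =
          cv π n.1 h' * cv π ((as.map (wp Γ)).prod ^ (l : ℤ)) h := by
        intro h h'
        have h3 := congrFun h2 (h, h')
        have h4 : cv π n.1 h * v h' - cv π n.1 h' * v h = 0 :=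
          congrArg Multiplicative.toAdd h3
        exact sub_eq_zero.1 h4
      have hJJ : ∀ a ∈ as, ∀ b ∈ as, J a = J b := fun a ha b hb =>
        exps_eq as hgood hpw hd l hlpos hpowK J n.1 hJ hnπ hchi a b ha hb
      obtain ⟨a, ha⟩ := List.exists_mem_of_ne_nil as hasne
      refine ⟨J a, ?_⟩
      show P ^ J a = n.1
      rw [hP, prod_zpow as (J a) hpw, hJ]
      congr 1
      refine List.map_congr_left fun b hb => ?_
      rw [hJJ a ha b hb]
    · rintro ⟨k, hk⟩
      have hk' : P ^ k = n.1 := hk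
      constructor
      · show (psi π' n.1).left ∈ _
        rw [← hk', hP, prod_zpow as k hpw]
        exact psi_prod_mem as hne hpw k
      · funext p
        show Multiplicative.ofAdd (cv π n.1 p.1 * v p.2 - cv π n.1 p.2 * v p.1) = 1
        have h3 : ∀ h, (l : ℤ) * cv π n.1 h = k * v h := by
          intro h
          rw [← cv_zpow n.1 hnπ, ← hk', hv, ← cv_zpow _ (hker _ hPl), ← zpow_mul, ← zpow_mul,
            mul_comm]
        have hl0 : (l : ℤ) ≠ 0 := by exact_mod_cast hlpos.ne'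
        have h4 : (l : ℤ) * (cv π n.1 p.1 * v p.2 - cv π n.1 p.2 * v p.1) = 0 := by
          have e1 := h3 p.1
          have e2 := h3 p.2
          linear_combination v p.2 * e1 - v p.1 * e2
        have h5 : cv π n.1 p.1 * v p.2 - cv π n.1 p.2 * v p.1 = 0 :=
          (mul_eq_zero.1 h4).resolve_left hl0
        rw [h5]
        rfl
  -- transport to `Fin n`
  have : Finite (HV π' ⊕ X) := inferInstance
  obtain ⟨n, ⟨e⟩⟩ := Finite.exists_equiv_fin (HV π' ⊕ X)
  let iso : jg (HG π') X ≃g (jg (HG π') X).comap e.symm :=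
    (SimpleGraph.Iso.comap e.symm (jg (HG π') X)).symm
  let Θ : RAAG (jg (HG π') X) ≃* RAAG ((jg (HG π') X).comap e.symm) := mapIso iso
  refine ⟨N, inferInstance, n, (jg (HG π') X).comap e.symm,
    (Θ.toMonoidHom.comp F0).comp cj, iso '' (Sum.inl '' L0), ?_, ?_⟩
  · intro n₁ n₂ h
    have h1 : F0 (cj n₁) = F0 (cj n₂) := Θ.injective h
    have h2 : f0 (cj n₁) = f0 (cj n₂) := by rw [← hr1, ← hr1, h1]
    have h3 : psi π' (cj n₁).1 = psi π' (cj n₂).1 := by
      refine SemidirectProduct.ext h2 ?_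
      rw [psi_right, psi_right, (MonoidHom.mem_ker).1 (cj n₁).2,
        (MonoidHom.mem_ker).1 (cj n₂).2]
    have h4 : x⁻¹ * n₁.1 * x = x⁻¹ * n₂.1 * x := psi_injective π' h3
    exact Subtype.ext (mul_left_cancel (mul_right_cancel h4))
  · intro n₁
    have h1 : ((Θ.toMonoidHom.comp F0).comp cj) n₁ ∈
        sub ((jg (HG π') X).comap e.symm) (iso '' (Sum.inl '' L0)) ↔
        F0 (cj n₁) ∈ sub (jg (HG π') X) (Sum.inl '' L0) := by
      have h2 : sub ((jg (HG π') X).comap e.symm) (iso '' (Sum.inl '' L0)) =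
          (sub (jg (HG π') X) (Sum.inl '' L0)).map Θ.toMonoidHom := by
        unfold sub
        rw [MonoidHom.map_closure]
        congr 1
        ext y
        constructor
        · rintro ⟨_, ⟨z, hz, rfl⟩, rfl⟩
          exact ⟨of _ z, ⟨z, hz, rfl⟩, mapIso_of iso z⟩
        · rintro ⟨_, ⟨z, hz, rfl⟩, rfl⟩
          exact ⟨iso z, ⟨z, hz, rfl⟩, (mapIso_of iso z).symm⟩
      rw [h2]
      constructor
      · rintro ⟨y, hy, hy2⟩
        have : y = F0 (cj n₁) := Θ.injective hy2
        rwa [← this]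
      · intro h
        exact ⟨F0 (cj n₁), h, rfl⟩
    rw [h1, hmem, hmain]
    show x⁻¹ * n₁.1 * x ∈ Subgroup.zpowers P ↔ n₁.1 ∈ Subgroup.zpowers g
    constructor
    · rintro ⟨k, hk⟩
      refine ⟨k, ?_⟩
      show g ^ k = n₁.1
      have hk' : P ^ k = x⁻¹ * n₁.1 * x := hk
      rw [hgx, conj_zpow, hk']
      group
    · rintro ⟨k, hk⟩
      refine ⟨k, ?_⟩
      show P ^ k = x⁻¹ * n₁.1 * x
      have hk' : g ^ k = n₁.1 := hk
      rw [← hk', hgx, conj_zpow]
      group

end VSp
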