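import Pool.Agent.VSp.Good
import Pool.Agent.VSp.First
import Pool.Agent.VSp.Tower

set_option autoImplicit false

/-! M6, part A: paths and crossing numbers. -/

namespace VSp.PB

universe u v

section Step

variable {V : Type u} {Γ : SimpleGraph V} {K : Type v} [Group K] (π : RAAG Γ →* K)

/-- sign of a Boolean -/
def eps (b : Bool) : ℤ := cond b 1 (-1)

@[simp] lemma eps_true : eps true = 1 := rfl
@[simp] lemma eps_false : eps false = -1 := rfl
lemma eps_mul_self (b : Bool) : eps b * eps b = 1 := by cases b <;> rfl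
lemma eps_not (b : Bool) : eps (!b) = - eps b := by cases b <;> rfl

/-- The letter crossed by the step from `q` to `q * sgn z b`. -/
def cl (q : RAAG Γ) (z : V) (b : Bool) : HV π :=
  hp π (π (cond b q (q * sgn Γ z b))) z

open Classical in
lemma cv_step (q : RAAG Γ) (z : V) (b : Bool) (h : HV π) :
    cv π (q * sgn Γ z b) h = cv π q h + if h = cl π q z b then eps b else 0 := by
  rw [cv_mul, cv_sgn]
  congr 1
  have key : (π q)⁻¹ • h = hp π (cond b 1 (π (of Γ z))⁻¹) z ↔ h = cl π q z b := by
    rw [inv_smul_eq_iff, smul_hp, cl]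
    cases b
    · simp [sgn]
    · simp
  rw [Pi.single_apply]
  simp only [key]
  cases b <;> rfl

end Step

/-- Ceiling division of `x` by `m`. -/
def cc (m : ℤ) (x : ℤ) : ℤ := (x + m - 1) / m

lemma cc_succ {m : ℤ} (hm : 0 < m) (x : ℤ) : cc m (x + 1) = cc m x + if m ∣ x then 1 else 0 := by
  unfold cc
  split_ifs with h
  · obtain ⟨k, rfl⟩ := h
    have h1 : m * k + 1 + m - 1 = m * (k + 1) := by ring
    have h2 : m * k + m - 1 = (m - 1) + m * k := by ring
    rw [h1, Int.mul_ediv_cancel_left _ hm.ne', h2, Int.add_mul_ediv_left _ _ hm.ne',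
      Int.ediv_eq_zero_of_lt (by omega) (by omega)]
    ring
  · have h3 := Int.emod_add_mul_ediv x m
    have h4 := Int.emod_nonneg x hm.ne'
    have h5 := Int.emod_lt_of_pos x hm
    have h6 : x % m ≠ 0 := fun h7 => h (Int.dvd_of_emod_eq_zero h7)
    have h8 : x + 1 + m - 1 = (x % m) + m * (x / m + 1) := by
      rw [mul_add]; linarith
    have h9 : x + m - 1 = (x % m - 1) + m * (x / m + 1) := by
      rw [mul_add]; linarith
    have h10 : (x % m - 1) / m = 0 := Int.ediv_eq_zero_of_lt (by omega) (by omega)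
    rw [h8, h9, Int.add_mul_ediv_left _ _ hm.ne', Int.add_mul_ediv_left _ _ hm.ne',
      Int.ediv_eq_zero_of_lt h4 h5, h10]
    ring

lemma cc_zero_of {m : ℤ} (hm : 0 < m) {x : ℤ} (h0 : -m < x) (h1 : x ≤ 0) : cc m x = 0 := by
  unfold cc
  exact Int.ediv_eq_zero_of_lt (by omega) (by omega)

lemma cc_add_mul {m : ℤ} (hm : 0 < m) (x j : ℤ) : cc m (x + m * j) = cc m x + j := by
  unfold cc
  have : x + m * j + m - 1 = (x + m - 1) + m * j := by ring
  rw [this, Int.add_mul_ediv_left _ _ hm.ne']

lemma cc_one_of {m : ℤ} (hm : 0 < m) {x : ℤ} (h0 : 0 < x) (h1 : x ≤ m) : cc m x = 1 := by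
  have h2 := cc_add_mul hm (x - m) 1
  rw [show x - m + m * 1 = x by ring] at h2
  have h3 : cc m (x - m) = 0 := cc_zero_of hm (by omega) (by omega)
  rw [h3] at h2
  simpa using h2

/-- The letters crossed by the paths `a ^ ∞`, `a ∈ as`. -/
def Lset {V : Type u} {Γ : SimpleGraph V} {K : Type v} [Group K] (π : RAAG Γ →* K)
    (as : List (List (V × Bool))) : Set (HV π) :=
  {h | ∃ a ∈ as, ∃ (t : Fin a.length) (k : ℤ),
    h = hp π (π (wp Γ a ^ k * bs Γ a t)) (a.get t).1}

section Path

variable {V : Type u} {Γ : SimpleGraph V}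

/-- The `T`-th letter of the periodic word. -/
def lt (a : List (V × Bool)) (ha : a ≠ []) (T : ℤ) : V × Bool :=
  a.get ⟨(T % (a.length : ℤ)).toNat, by
    have h : (0 : ℤ) < a.length := by exact_mod_cast List.length_pos_iff.2 ha
    have h1 := Int.emod_lt_of_pos T h
    have h2 := Int.emod_nonneg T h.ne'
    omega⟩

/-- The position index. -/
def idx (a : List (V × Bool)) (ha : a ≠ []) (T : ℤ) : Fin a.length :=
  ⟨(T % (a.length : ℤ)).toNat, by
    have h : (0 : ℤ) < a.length := by exact_mod_cast List.length_pos_iff.2 ha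
    have h1 := Int.emod_lt_of_pos T h
    have h2 := Int.emod_nonneg T h.ne'
    omega⟩

lemma lt_eq (a : List (V × Bool)) (ha : a ≠ []) (T : ℤ) : lt a ha T = a.get (idx a ha T) := rfl

/-- The `T`-th vertex of the bi-infinite path. -/
def pt (Γ : SimpleGraph V) (a : List (V × Bool)) (T : ℤ) : RAAG Γ :=
  wp Γ a ^ (T / (a.length : ℤ)) * wp Γ (a.take (T % (a.length : ℤ)).toNat)

lemma pt_zero (a : List (V × Bool)) : pt Γ a 0 = 1 := by
  simp [pt, wp_nil]

lemma pt_succ (a : List (V × Bool)) (ha : a ≠ []) (T : ℤ) :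
    pt Γ a (T + 1) = pt Γ a T * sgn Γ (lt a ha T).1 (lt a ha T).2 := by
  have h : (0 : ℤ) < a.length := by exact_mod_cast List.length_pos_iff.2 ha
  have h1 := Int.emod_lt_of_pos T h
  have h2 := Int.emod_nonneg T h.ne'
  have h3 := Int.emod_add_mul_ediv T a.length
  set n : ℤ := (a.length : ℤ) with hn
  have hlt : (T % n).toNat < a.length := by omega
  have htake : wp Γ (a.take ((T % n).toNat + 1)) =
      wp Γ (a.take (T % n).toNat) * sgn Γ (lt a ha T).1 (lt a ha T).2 := by
    rw [List.take_succ_eq_append_getElem hlt, wp_append, wp_cons, wp_nil, mul_one]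
    rfl
  by_cases hlast : T % n + 1 = n
  · have h4 : T + 1 = 0 + n * (T / n + 1) := by rw [mul_add]; linarith
    have h5 : (T + 1) / n = T / n + 1 := by
      rw [h4, Int.add_mul_ediv_left _ _ h.ne']; simp
    have h6 : (T + 1) % n = 0 := by rw [h4]; simp
    have h7 : (T % n).toNat + 1 = a.length := by omega
    rw [pt, pt, ← hn, h5, h6, zpow_add_one]
    have h8 : wp Γ a = wp Γ (a.take (T % n).toNat) * sgn Γ (lt a ha T).1 (lt a ha T).2 := by
      rw [← htake, h7, List.take_length]
    simp only [Int.toNat_zero, List.take_zero, wp_nil, mul_one]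
    rw [mul_assoc, ← h8]
  · have h4 : T + 1 = (T % n + 1) + n * (T / n) := by linarith
    have h5 : (T + 1) / n = T / n := by
      rw [h4, Int.add_mul_ediv_left _ _ h.ne', Int.ediv_eq_zero_of_lt (by omega) (by omega)]
      simp
    have h6 : (T + 1) % n = T % n + 1 := by
      rw [h4, Int.add_mul_emod_self_left, Int.emod_eq_of_lt (by omega) (by omega)]
    have h7 : (T % n + 1).toNat = (T % n).toNat + 1 := by omega
    rw [pt, pt, ← hn, h5, h6, h7, htake, mul_assoc]

lemma pt_mul_length (a : List (V × Bool)) (ha : a ≠ []) (k : ℤ) :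
    pt Γ a (a.length * k) = wp Γ a ^ k := by
  have h : (0 : ℤ) < a.length := by exact_mod_cast List.length_pos_iff.2 ha
  simp [pt, Int.mul_ediv_cancel_left _ h.ne', wp_nil]

/-- The base of the `T`-th edge. -/
lemma base_eq (a : List (V × Bool)) (ha : a ≠ []) (T : ℤ) :
    cond (lt a ha T).2 (pt Γ a T) (pt Γ a (T + 1)) =
      wp Γ a ^ (T / (a.length : ℤ)) * bs Γ a (idx a ha T) := by
  have h : (0 : ℤ) < a.length := by exact_mod_cast List.length_pos_iff.2 ha
  have h1 := Int.emod_lt_of_pos T h
  have h2 := Int.emod_nonneg T h.ne'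
  rw [lt_eq, bs]
  have hv : ((idx a ha T : Fin a.length) : ℕ) = (T % (a.length : ℤ)).toNat := rfl
  by_cases hb : (a.get (idx a ha T)).2 = true
  · rw [hb]
    simp only [cond_true, if_true]
    rw [pt, hv]
  · have hb' : (a.get (idx a ha T)).2 = false := by simpa using hb
    rw [hb']
    simp only [cond_false, Bool.false_eq_true, if_false]
    rw [pt_succ a ha, pt, mul_assoc, ← hv, List.take_succ_eq_append_getElem (idx a ha T).2,
      wp_append, wp_cons, wp_nil, mul_one]
    rfl

variable {K : Type v} [Group K] (π : RAAG Γ →* K)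

/-- The letter crossed at time `T`. -/
def lam (a : List (V × Bool)) (ha : a ≠ []) (T : ℤ) : HV π :=
  cl π (pt Γ a T) (lt a ha T).1 (lt a ha T).2

lemma lam_eq (a : List (V × Bool)) (ha : a ≠ []) (T : ℤ) :
    lam π a ha T = hp π (π (wp Γ a ^ (T / (a.length : ℤ)) * bs Γ a (idx a ha T)))
      (a.get (idx a ha T)).1 := by
  rw [lam, cl, ← pt_succ, base_eq]
  rfl

open Classical in
lemma cv_pt_succ (a : List (V × Bool)) (ha : a ≠ []) (T : ℤ) (h : HV π) :
    cv π (pt Γ a (T + 1)) h = cv π (pt Γ a T) h +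
      if h = lam π a ha T then eps (lt a ha T).2 else 0 := by
  rw [pt_succ a ha, cv_step]
  rfl

/-- The period. -/
noncomputable def per (a : List (V × Bool)) : ℤ := orderOf (π (wp Γ a)) * (a.length : ℤ)

lemma per_pos [Finite K] (a : List (V × Bool)) (ha : a ≠ []) : 0 < per π a := by
  have h : (0 : ℤ) < a.length := by exact_mod_cast List.length_pos_iff.2 ha
  have h1 : 0 < orderOf (π (wp Γ a)) := orderOf_pos _
  unfold per
  positivity

lemma lt_period (a : List (V × Bool)) (ha : a ≠ []) {T T' : ℤ} (h : per π a ∣ T - T') :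
    lt a ha T = lt a ha T' := by
  have h1 : (a.length : ℤ) ∣ T - T' := Dvd.dvd.trans (Dvd.intro_left _ rfl) h
  have h2 : T % (a.length : ℤ) = T' % (a.length : ℤ) :=
    Int.emod_eq_emod_iff_emod_sub_eq_zero.2 (Int.emod_eq_zero_of_dvd h1)
  simp only [lt, h2]

/-- Under (DL) the letters are periodic with exact period `per`. -/
lemma lam_eq_iff {a : List (V × Bool)} (ha : a ≠ []) (hd : DL π a) (T T' : ℤ) :
    lam π a ha T = lam π a ha T' ↔ per π a ∣ T - T' := by
  have h : (0 : ℤ) < a.length := by exact_mod_cast List.length_pos_iff.2 ha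
  have h3 := Int.emod_add_mul_ediv T a.length
  have h3' := Int.emod_add_mul_ediv T' a.length
  have h1 := Int.emod_lt_of_pos T h
  have h2 := Int.emod_nonneg T h.ne'
  have h1' := Int.emod_lt_of_pos T' h
  have h2' := Int.emod_nonneg T' h.ne'
  rw [lam_eq, lam_eq]
  constructor
  · intro heq
    have heq2 : hp π (π (wp Γ a ^ (T / (a.length : ℤ) - T' / (a.length : ℤ)) *
        bs Γ a (idx a ha T))) (a.get (idx a ha T)).1 =
        hp π (π (bs Γ a (idx a ha T'))) (a.get (idx a ha T')).1 := by
      have := congrArg (fun x => (π (wp Γ a ^ (T' / (a.length : ℤ))))⁻¹ • x) heq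
      simp only [smul_hp, ← map_inv, ← map_mul] at this
      rw [← mul_assoc, ← mul_assoc, inv_mul_cancel, one_mul, ← zpow_neg, ← zpow_add] at this
      rw [show T / (a.length : ℤ) - T' / (a.length : ℤ) =
        -(T' / (a.length : ℤ)) + T / (a.length : ℤ) by ring]
      exact this
    obtain ⟨h4, h5⟩ := hd _ _ _ heq2
    have h6 : (T % (a.length : ℤ)) = (T' % (a.length : ℤ)) := by
      have := congrArg (fun x : Fin a.length => ((x : ℕ) : ℤ)) h4
      simp only [idx] at this
      omega
    rw [map_zpow, ← orderOf_dvd_iff_zpow_eq_one] at h5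
    obtain ⟨c, hc⟩ := h5
    refine ⟨c, ?_⟩
    rw [per, ← h3, ← h3', h6]
    linear_combination (a.length : ℤ) * hc
  · rintro ⟨c, hc⟩
    rw [per] at hc
    have h6 : T % (a.length : ℤ) = T' % (a.length : ℤ) := by
      rw [Int.emod_eq_emod_iff_emod_sub_eq_zero, hc, mul_right_comm]
      simp
    have h7 : idx a ha T = idx a ha T' := by
      simp only [idx, h6]
    have h8 : T / (a.length : ℤ) = T' / (a.length : ℤ) + orderOf (π (wp Γ a)) * c := by
      have : (a.length : ℤ) * (T / (a.length : ℤ)) =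
          (a.length : ℤ) * (T' / (a.length : ℤ) + orderOf (π (wp Γ a)) * c) := by
        rw [h6] at h3
        linear_combination hc + h3 - h3'
      exact mul_left_cancel₀ h.ne' this
    rw [h7, h8, zpow_add, map_mul, map_mul, map_mul]
    congr 2
    rw [map_zpow, map_zpow, zpow_mul, zpow_natCast, pow_orderOf_eq_one, one_zpow, mul_one]

/-- Crossing numbers along the path of `a`. -/
lemma cv_pt [Finite K] {a : List (V × Bool)} (ha : a ≠ []) (hd : DL π a) (T T' : ℤ)
    (h0 : 0 ≤ T') (h1 : T' < per π a) :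
    eps (lt a ha T').2 * cv π (pt Γ a T) (lam π a ha T') = cc (per π a) (T - T') := by
  classical
  have hm := per_pos π a ha
  have hstep : ∀ S : ℤ, eps (lt a ha T').2 * cv π (pt Γ a (S + 1)) (lam π a ha T') -
      cc (per π a) (S + 1 - T') =
      eps (lt a ha T').2 * cv π (pt Γ a S) (lam π a ha T') - cc (per π a) (S - T') := by
    intro S
    rw [cv_pt_succ π a ha, show S + 1 - T' = S - T' + 1 by ring, cc_succ hm, mul_add]
    by_cases hS : per π a ∣ S - T'
    · have h2 : lam π a ha T' = lam π a ha S := ((lam_eq_iff π ha hd _ _).2 hS).symm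
      rw [if_pos h2, if_pos hS, lt_period π a ha hS, eps_mul_self]
      ring
    · have h2 : lam π a ha T' ≠ lam π a ha S := fun h =>
        hS ((lam_eq_iff π ha hd _ _).1 h.symm)
      rw [if_neg h2, if_neg hS]
      ring
  have h00 : eps (lt a ha T').2 * cv π (pt Γ a 0) (lam π a ha T') - cc (per π a) (0 - T') = 0 := by
    rw [pt_zero, cv_one, cc_zero_of hm (by omega) (by omega)]
    simp
  have key : eps (lt a ha T').2 * cv π (pt Γ a T) (lam π a ha T') - cc (per π a) (T - T') = 0 := by
    induction T using Int.induction_on with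
    | zero => exact h00
    | succ n ih => rw [hstep, ih]
    | pred n ih =>
      have := hstep (-(n : ℤ) - 1)
      rw [sub_add_cancel] at this
      rw [← this, ih]
  linarith

/-- The crossing vector of the path vanishes off the letters of the path. -/
lemma cv_pt_off (a : List (V × Bool)) (ha : a ≠ []) (T : ℤ) (h : HV π)
    (hh : ∀ T', h ≠ lam π a ha T') : cv π (pt Γ a T) h = 0 := by
  classical
  have hstep : ∀ S : ℤ, cv π (pt Γ a (S + 1)) h = cv π (pt Γ a S) h := by
    intro S
    rw [cv_pt_succ π a ha, if_neg (hh S), add_zero]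
  induction T using Int.induction_on with
  | zero => rw [pt_zero, cv_one]; rfl
  | succ n ih => rw [hstep, ih]
  | pred n ih =>
    have := hstep (-(n : ℤ) - 1)
    rw [sub_add_cancel] at this
    rw [← this, ih]

end Path

end VSp.PB
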