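import Pool.Agent.VSp.ParabA

set_option autoImplicit false

/-! M6, part B: the invariant. -/

namespace VSp.PB

universe u v

variable {V : Type u} {Γ : SimpleGraph V} {K : Type v} [Group K] (π : RAAG Γ →* K)

/-- The state of `g` at the letter of time `T`. -/
noncomputable def St (a : List (V × Bool)) (ha : a ≠ []) (g : RAAG Γ) (T : ℤ) : ℤ :=
  eps (lt a ha T).2 * cv π g (lam π a ha T)

/-- The invariant. -/
def Inv (a : List (V × Bool)) (ha : a ≠ []) (g : RAAG Γ) : Prop :=
  ∀ T T' : ℤ, 0 ≤ T → T < T' → T' < per π a →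
    ¬ (HG π).Adj (lam π a ha T) (lam π a ha T') →
    St π a ha g T' ≤ St π a ha g T ∧ St π a ha g T ≤ St π a ha g T' + 1

lemma Inv_one (a : List (V × Bool)) (ha : a ≠ []) : Inv π a ha 1 := by
  intro T T' _ _ _ _
  simp [St, cv_one]

open Classical in
lemma St_step (a : List (V × Bool)) (ha : a ≠ []) (q : RAAG Γ) (z : V) (b : Bool) (T : ℤ) :
    St π a ha (q * sgn Γ z b) T = St π a ha q T +
      if lam π a ha T = cl π q z b then eps (lt a ha T).2 * eps b else 0 := by
  rw [St, cv_step, mul_add, St]
  split_ifs <;> simp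

lemma lam_fst (a : List (V × Bool)) (ha : a ≠ []) (T : ℤ) :
    (lam π a ha T).1 = (lt a ha T).1 := rfl

lemma cl_fst (q : RAAG Γ) (z : V) (b : Bool) : (cl π q z b).1 = z := rfl

/-- The lower state of a crossing. -/
def lo (q : RAAG Γ) (z : V) (b : Bool) (e : Bool) : RAAG Γ := if b = e then q else q * sgn Γ z b

/-- The upper state of a crossing. -/
def hi (q : RAAG Γ) (z : V) (b : Bool) (e : Bool) : RAAG Γ := if b = e then q * sgn Γ z b else q

variable {π}

lemma cross_data (a : List (V × Bool)) (ha : a ≠ []) (q : RAAG Γ) (z : V) (b : Bool) (T : ℤ)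
    (hcl : cl (up π 2) q z b = lam (up π 2) a ha T) :
    z = (lt a ha T).1 ∧ cl π q z b = lam π a ha T ∧
      ∀ h', ¬ (HG π).Adj (lam π a ha T) h' →
        ((cv π (cond b q (q * sgn Γ z b)) h' : ℤ) : ZMod 2) =
        ((cv π (cond (lt a ha T).2 (pt Γ a T) (pt Γ a (T + 1))) h' : ℤ) : ZMod 2) := by
  have hz : z = (lt a ha T).1 := congrArg Sigma.fst hcl
  subst hz
  have h2 : lam (up π 2) a ha T = hp (up π 2) (up π 2
      (cond (lt a ha T).2 (pt Γ a T) (pt Γ a (T + 1)))) (lt a ha T).1 := by
    rw [lam, cl, pt_succ a ha]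
  rw [cl, h2] at hcl
  obtain ⟨h3, h4⟩ := level_up π 2 _ _ _ hcl
  have h5 : cl π q (lt a ha T).1 b = lam π a ha T := by
    rw [cl, h3, lam, cl, pt_succ a ha]
  refine ⟨rfl, h5, ?_⟩
  intro h' hh'
  apply h4
  rw [← h5] at hh'
  exact hh'

lemma cross_lo [Finite K] (a : List (V × Bool)) (ha : a ≠ []) (hd : DL π a) (q : RAAG Γ)
    (z : V) (b : Bool) (T : ℤ)
    (hcl : cl (up π 2) q z b = lam (up π 2) a ha T) (T' : ℤ) (h0 : 0 ≤ T') (h1 : T' < per π a)
    (hnc : ¬ (HG π).Adj (lam π a ha T) (lam π a ha T')) :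
    (2 : ℤ) ∣ St π a ha (lo q z b (lt a ha T).2) T' - cc (per π a) (T - T') := by
  classical
  obtain ⟨hz, h5, h6⟩ := cross_data a ha q z b T hcl
  have hm := per_pos π a ha
  have h7 := h6 _ hnc
  rw [ZMod.intCast_eq_intCast_iff_dvd_sub] at h7
  have hpar : ∀ (e : Bool) (x : ℤ), (2 : ℤ) ∣ eps e * x - x := by
    intro e x
    cases e
    · exact ⟨-x, by simp [eps]; ring⟩
    · exact ⟨0, by simp [eps]⟩
  have hT := cv_pt π ha hd T T' h0 h1
  have hT1 := cv_pt π ha hd (T + 1) T' h0 h1
  have hstep := St_step π a ha q z b T'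
  have hcc : cc (per π a) (T + 1 - T') = cc (per π a) (T - T') +
      if lam π a ha T' = cl π q z b then 1 else 0 := by
    rw [show T + 1 - T' = T - T' + 1 by ring, cc_succ hm, h5]
    congr 1
    have : per π a ∣ T - T' ↔ lam π a ha T' = lam π a ha T := by
      rw [← lam_eq_iff π ha hd T T', eq_comm]
    simp only [this]
  have hsgn : lam π a ha T' = cl π q z b → (lt a ha T').2 = (lt a ha T).2 := by
    intro h
    rw [h5, lam_eq_iff π ha hd] at h
    rw [lt_period π a ha h]
  have e1 := hpar (lt a ha T').2 (cv π q (lam π a ha T'))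
  have e2 := hpar (lt a ha T').2 (cv π (q * sgn Γ z b) (lam π a ha T'))
  have e3 := hpar (lt a ha T').2 (cv π (pt Γ a T) (lam π a ha T'))
  have e4 := hpar (lt a ha T').2 (cv π (pt Γ a (T + 1)) (lam π a ha T'))
  have s1 : St π a ha q T' = eps (lt a ha T').2 * cv π q (lam π a ha T') := rfl
  have s2 : St π a ha (q * sgn Γ z b) T' =
      eps (lt a ha T').2 * cv π (q * sgn Γ z b) (lam π a ha T') := rfl
  rcases hb : b with _ | _ <;> rcases he : (lt a ha T).2 with _ | _ <;>
    simp only [hb, he, lo, if_true, cond_true, cond_false, reduceCtorEq,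
      if_false] at * <;> try omega
  · by_cases hl : lam π a ha T' = cl π q z false
    · rw [if_pos hl] at hstep hcc
      rw [hsgn hl] at hstep hT hT1 e1 e2 e3 e4 s1 s2
      simp only [eps_false] at hstep hT hT1 e1 e2 e3 e4 s1 s2
      omega
    · rw [if_neg hl] at hstep hcc
      omega
  · by_cases hl : lam π a ha T' = cl π q z true
    · rw [if_pos hl] at hstep hcc
      rw [hsgn hl] at hstep hT hT1 e1 e2 e3 e4 s1 s2
      simp only [eps_false, eps_true] at hstep hT hT1 e1 e2 e3 e4 s1 s2
      omega
    · rw [if_neg hl] at hstep hcc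
      omega

open Classical in
lemma hi_lo [Finite K] (a : List (V × Bool)) (ha : a ≠ []) (hd : DL π a) (q : RAAG Γ)
    (z : V) (b : Bool) (T : ℤ) (h5 : cl π q z b = lam π a ha T) (T' : ℤ) :
    St π a ha (hi q z b (lt a ha T).2) T' = St π a ha (lo q z b (lt a ha T).2) T' +
      if per π a ∣ T - T' then 1 else 0 := by
  have hstep := St_step π a ha q z b T'
  rw [h5] at hstep
  have hiff : lam π a ha T' = lam π a ha T ↔ per π a ∣ T - T' := by
    rw [← lam_eq_iff π ha hd T T', eq_comm]
  simp only [hiff] at hstep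
  by_cases hp : per π a ∣ T - T'
  · rw [if_pos hp] at hstep ⊢
    rw [← lt_period π a ha hp] at hstep
    rcases hb : b with _ | _ <;> rcases he : (lt a ha T).2 with _ | _ <;>
      simp only [hb, he, lo, hi, if_true, reduceCtorEq, if_false, eps_true, eps_false] at hstep ⊢ <;>
      omega
  · rw [if_neg hp] at hstep ⊢
    rcases hb : b with _ | _ <;> rcases he : (lt a ha T).2 with _ | _ <;>
      simp only [hb, he, lo, hi, if_true, reduceCtorEq, if_false] at hstep ⊢ <;>
      omega

/-- One crossing: exactness and preservation of the invariant. -/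
lemma cross_step [Finite K] (a : List (V × Bool)) (ha : a ≠ []) (hd : DL π a) (q : RAAG Γ)
    (z : V) (b : Bool) (T : ℤ)
    (hcl : cl (up π 2) q z b = lam (up π 2) a ha T) (hinv : Inv π a ha q) :
    Inv π a ha (q * sgn Γ z b) ∧
    ∀ T', 0 ≤ T' → T' < per π a → T' ≠ T % per π a →
      ¬ (HG π).Adj (lam π a ha T) (lam π a ha T') →
      St π a ha (lo q z b (lt a ha T).2) T' =
        St π a ha (lo q z b (lt a ha T).2) (T % per π a) +
          if T' < T % per π a then 1 else 0 := by
  classical
  obtain ⟨hz, h5, -⟩ := cross_data a ha q z b T hcl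
  have hm := per_pos π a ha
  set m := per π a with hmdef
  set s := T % m with hs
  have hs0 : 0 ≤ s := Int.emod_nonneg T hm.ne'
  have hs1 : s < m := Int.emod_lt_of_pos T hm
  have hTs : m ∣ T - s := by
    rw [hs]; exact Int.dvd_self_sub_emod
  have hlam : lam π a ha T = lam π a ha s := (lam_eq_iff π ha hd _ _).2 hTs
  set F := St π a ha (lo q z b (lt a ha T).2) with hF
  set G := St π a ha (hi q z b (lt a ha T).2) with hG
  obtain ⟨j, hj⟩ := hTs
  have hccs : ∀ T', cc m (T - T') = cc m (s - T') + j := by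
    intro T'
    rw [← cc_add_mul hm]
    congr 1
    linarith
  have hcong : ∀ T', 0 ≤ T' → T' < m → ¬ (HG π).Adj (lam π a ha s) (lam π a ha T') →
      (2 : ℤ) ∣ F T' - (j + if T' < s then 1 else 0) := by
    intro T' h0 h1 hnc
    have := cross_lo a ha hd q z b T hcl T' h0 h1 (by rw [hlam]; exact hnc)
    rw [← hmdef, hccs] at this
    have h8 : cc m (s - T') = if T' < s then 1 else 0 := by
      split_ifs with h9
      · exact cc_one_of hm (by omega) (by omega)
      · exact cc_zero_of hm (by omega) (by omega)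
    rw [h8] at this
    rw [show j + (if T' < s then (1 : ℤ) else 0) = (if T' < s then (1 : ℤ) else 0) + j by ring]
    exact this
  have hself := hcong s hs0 hs1 ((HG π).irrefl)
  have hGF : ∀ T', 0 ≤ T' → T' < m → G T' = F T' + if T' = s then 1 else 0 := by
    intro T' h0 h1
    have h8 := hi_lo a ha hd q z b T h5 T'
    rw [← hmdef] at h8
    have h9 : m ∣ T - T' ↔ T' = s := by
      constructor
      · intro h
        rw [hs]
        have h10 : T % m = T' % m := Int.emod_eq_emod_iff_emod_sub_eq_zero.2
          (Int.emod_eq_zero_of_dvd h)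
        rw [h10, Int.emod_eq_of_lt h0 h1]
      · rintro rfl
        exact ⟨j, hj⟩
    simp only [h9] at h8
    exact h8
  have hGs := hGF s hs0 hs1
  simp only [if_true] at hGs
  -- exactness from either invariant
  have hexact : ∀ T', 0 ≤ T' → T' < m → T' ≠ s → ¬ (HG π).Adj (lam π a ha s) (lam π a ha T') →
      F T' = F s + if T' < s then 1 else 0 := by
    intro T' h0 h1 hne hnc
    have hnc' : ¬ (HG π).Adj (lam π a ha T') (lam π a ha s) := fun h => hnc h.symm
    have hc1 := hcong T' h0 h1 hnc
    have hGT := hGF T' h0 h1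
    rw [if_neg hne] at hGT
    simp only [lt_irrefl, if_false, add_zero] at hself
    by_cases hbe : b = (lt a ha T).2
    · -- forward: lower state is `q`
      have hFq : F = St π a ha q := by rw [hF, lo, if_pos hbe]
      rcases lt_or_gt_of_ne hne with hlt | hgt
      · have := hinv T' s h0 hlt hs1 hnc'
        rw [← hFq] at this
        rw [if_pos hlt] at hc1 ⊢
        omega
      · have := hinv s T' hs0 hgt h1 hnc
        rw [← hFq] at this
        rw [if_neg (by omega)] at hc1 ⊢
        omega
    · have hGq : G = St π a ha q := by rw [hG, hi, if_neg hbe]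
      rcases lt_or_gt_of_ne hne with hlt | hgt
      · have := hinv T' s h0 hlt hs1 hnc'
        rw [← hGq] at this
        rw [if_pos hlt] at hc1 ⊢
        omega
      · have := hinv s T' hs0 hgt h1 hnc
        rw [← hGq] at this
        rw [if_neg (by omega)] at hc1 ⊢
        omega
  refine ⟨?_, ?_⟩
  · -- the invariant at the other end
    intro T₁ T₂ h0 hlt h1 hnc
    have hq := hinv T₁ T₂ h0 hlt h1 hnc
    by_cases hbe : b = (lt a ha T).2
    · have hFq : F = St π a ha q := by rw [hF, lo, if_pos hbe]
      have hGq' : G = St π a ha (q * sgn Γ z b) := by rw [hG, hi, if_pos hbe]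
      rw [← hFq] at hq
      rw [← hGq']
      rw [hGF T₁ h0 (by omega), hGF T₂ (by omega) h1]
      by_cases e1 : T₁ = s
      · have h10 := hexact T₂ (by omega) h1 (by omega) (by rw [← e1]; exact hnc)
        rw [if_neg (by omega)] at h10
        rw [if_pos e1, if_neg (by omega), h10, e1]
        omega
      · by_cases e2 : T₂ = s
        · have h10 := hexact T₁ h0 (by omega) e1 (by rw [← e2]; exact fun h => hnc h.symm)
          rw [if_pos (by omega)] at h10
          rw [if_neg e1, if_pos e2, h10, e2]
          omega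
        · rw [if_neg e1, if_neg e2]
          omega
    · have hGq : G = St π a ha q := by rw [hG, hi, if_neg hbe]
      have hFq' : F = St π a ha (q * sgn Γ z b) := by rw [hF, lo, if_neg hbe]
      rw [← hGq, hGF T₁ h0 (by omega), hGF T₂ (by omega) h1] at hq
      rw [← hFq']
      by_cases e1 : T₁ = s
      · have h10 := hexact T₂ (by omega) h1 (by omega) (by rw [← e1]; exact hnc)
        rw [if_neg (by omega)] at h10
        rw [h10, e1]
        omega
      · by_cases e2 : T₂ = s
        · have h10 := hexact T₁ h0 (by omega) e1 (by rw [← e2]; exact fun h => hnc h.symm)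
          rw [if_pos (by omega)] at h10
          rw [h10, e2]
          omega
        · rw [if_neg e1, if_neg e2] at hq
          omega
  · intro T' h0 h1 hne hnc
    rw [hlam] at hnc
    exact hexact T' h0 h1 hne hnc

end VSp.PB
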