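import Pool.Agent.VSp.ParabB

set_option autoImplicit false

/-! M6, part C: the core statement. -/

namespace VSp.PB

universe u v

section Words

variable {V : Type u} {Γ : SimpleGraph V} {K : Type v} [Group K] (π : RAAG Γ →* K)

lemma cr_eq_cl (k : K) (q : RAAG Γ) (hk : k = π q) (z : V) (b : Bool) :
    hp π (cond b k (k * (π (of Γ z))⁻¹)) z = cl π q z b := by
  subst hk
  cases b
  · simp [cl, sgn]
  · simp [cl]

lemma cr_getElem (w : List (V × Bool)) (q : RAAG Γ) (i : ℕ) (hi : i < w.length)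
    (hi' : i < (cr π (π q) w).length) :
    (cr π (π q) w)[i] = (cl π (q * wp Γ (w.take i)) (w[i]).1 (w[i]).2, (w[i]).2) := by
  induction w generalizing q i with
  | nil => simp at hi
  | cons p w ih =>
    obtain ⟨z, b⟩ := p
    cases i with
    | zero =>
      have h1 : (cr π (π q) ((z, b) :: w))[0] =
          (hp π (cond b (π q) (π q * (π (of Γ z))⁻¹)) z, b) := by
        simp only [cr_cons, List.getElem_cons_zero]
      rw [h1, cr_eq_cl π (π q) q rfl]
      simp [wp_nil]
    | succ i =>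
      have hi2 : i < w.length := by simpa using hi
      have hi3 : i < (cr π (π (q * sgn Γ z b)) w).length := by rw [cr_length]; exact hi2
      have h1 : (cr π (π q) ((z, b) :: w))[i + 1] = (cr π (π (q * sgn Γ z b)) w)[i] := by
        simp only [cr_cons, List.getElem_cons_succ, map_mul]
      rw [h1, ih _ i hi2 hi3]
      simp only [List.getElem_cons_succ, List.take_succ_cons, wp_cons, mul_assoc]

lemma cr_one_getElem (w : List (V × Bool)) (i : ℕ) (hi : i < w.length)
    (hi' : i < (cr π 1 w).length) :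
    (cr π 1 w)[i] = (cl π (wp Γ (w.take i)) (w[i]).1 (w[i]).2, (w[i]).2) := by
  have h := cr_getElem π w 1 i hi (by rw [map_one]; exact hi')
  simp only [map_one, one_mul] at h
  exact h

lemma wp_take_succ (w : List (V × Bool)) (i : ℕ) (hi : i < w.length) :
    wp Γ (w.take (i + 1)) = wp Γ (w.take i) * sgn Γ (w[i]).1 (w[i]).2 := by
  rw [List.take_succ_eq_append_getElem hi, wp_append, wp_cons, wp_nil, mul_one]

end Words

section Core

variable {V : Type} {Γ : SimpleGraph V} {K : Type} [Group K] {π : RAAG Γ →* K}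

/-- Every crossing of the word `w` at the next level is a letter of one of the paths. -/
def Follows (π : RAAG Γ →* K) (as : List (List (V × Bool))) (hne : ∀ a ∈ as, a ≠ [])
    (w : List (V × Bool)) : Prop :=
  ∀ (i : ℕ) (hi : i < w.length), ∃ (a : List (V × Bool)) (h : a ∈ as) (T : ℤ),
    cl (up π 2) (wp Γ (w.take i)) (w[i]).1 (w[i]).2 = lam (up π 2) a (hne a h) T

lemma Lset_lam {K' : Type} [Group K'] (π : RAAG Γ →* K') (as : List (List (V × Bool)))
    (hne : ∀ a ∈ as, a ≠ []) (h : HV π) :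
    h ∈ Lset π as ↔ ∃ (a : List (V × Bool)) (ha : a ∈ as) (T : ℤ), h = lam π a (hne a ha) T := by
  constructor
  · rintro ⟨a, ha, t, k, rfl⟩
    refine ⟨a, ha, (a.length : ℤ) * k + (t : ℕ), ?_⟩
    have hl : (0 : ℤ) < a.length := by exact_mod_cast List.length_pos_iff.2 (hne a ha)
    have ht : ((t : ℕ) : ℤ) < a.length := by exact_mod_cast t.2
    have h1 : ((a.length : ℤ) * k + (t : ℕ)) / (a.length : ℤ) = k := by
      rw [add_comm, Int.add_mul_ediv_left _ _ hl.ne', Int.ediv_eq_zero_of_lt (by omega) ht]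
      simp
    have h2 : idx a (hne a ha) ((a.length : ℤ) * k + (t : ℕ)) = t := by
      apply Fin.ext
      simp only [idx]
      rw [add_comm, Int.add_mul_emod_self_left, Int.emod_eq_of_lt (by omega) ht]
      simp
    rw [lam_eq, h1, h2]
  · rintro ⟨a, ha, T, rfl⟩
    exact ⟨a, ha, idx a (hne a ha) T, T / (a.length : ℤ), by rw [lam_eq]⟩

lemma follows_of_mem (as : List (List (V × Bool))) (hne : ∀ a ∈ as, a ≠ []) (w : List (V × Bool))
    (hw : Red Γ w) (h2 : (psi (up π 2) (wp Γ w)).left ∈ sub (HG (up π 2)) (Lset (up π 2) as)) :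
    Follows π as hne w := by
  rw [psi_wp] at h2
  have h3 := ((cr_red (up π 2) 1 w hw).mem_sub_iff _).1 h2
  intro i hi
  have hi' : i < (cr (up π 2) 1 w).length := by rw [cr_length]; exact hi
  have h4 := h3 _ (List.getElem_mem hi')
  rw [cr_one_getElem (up π 2) w i hi hi'] at h4
  exact (Lset_lam (up π 2) as hne _).1 h4

/-- letters of different words are adjacent -/
lemma lam_adj (as : List (List (V × Bool))) (hne : ∀ a ∈ as, a ≠ [])
    (hpw : as.Pairwise (fun a b => ∀ p ∈ a, ∀ q ∈ b, Γ.Adj p.1 q.1))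
    {a b : List (V × Bool)} (ha : a ∈ as) (hb : b ∈ as) (hab : a ≠ b) (T T' : ℤ) :
    (HG π).Adj (lam π a (hne a ha) T) (lam π b (hne b hb) T') := by
  have hadj : ∀ p ∈ a, ∀ q ∈ b, Γ.Adj p.1 q.1 := by
    have hsymm : Std.Symm (fun a b : List (V × Bool) => ∀ p ∈ a, ∀ q ∈ b, Γ.Adj p.1 q.1) :=
      ⟨fun x y h p hp q hq => (h q hq p hp).symm⟩
    exact hpw.forall ha hb hab
  have hpa : ∀ S : ℤ, (lt a (hne a ha) S) ∈ a := fun S => List.get_mem _ _
  have hpb : ∀ S : ℤ, (lt b (hne b hb) S) ∈ b := fun S => List.get_mem _ _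
  have hwa : ∀ (L : Set V), (∀ p ∈ a, p.1 ∈ L) → ∀ S : ℤ, pt Γ a S ∈ sub Γ L := by
    intro L hL S
    refine Subgroup.mul_mem _ (Subgroup.zpow_mem _ (wp_mem_sub _ _ hL) _)
      (wp_mem_sub _ _ fun p hp => hL p (List.mem_of_mem_take hp))
  have hwb : ∀ (L : Set V), (∀ p ∈ b, p.1 ∈ L) → ∀ S : ℤ, pt Γ b S ∈ sub Γ L := by
    intro L hL S
    refine Subgroup.mul_mem _ (Subgroup.zpow_mem _ (wp_mem_sub _ _ hL) _)
      (wp_mem_sub _ _ fun p hp => hL p (List.mem_of_mem_take hp))
  set A := cond (lt a (hne a ha) T).2 (pt Γ a T) (pt Γ a (T + 1)) with hA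
  set B := cond (lt b (hne b hb) T').2 (pt Γ b T') (pt Γ b (T' + 1)) with hB
  have hlamA : lam π a (hne a ha) T = hp π (π A) (lt a (hne a ha) T).1 := by
    rw [lam, cl, ← pt_succ]
  have hlamB : lam π b (hne b hb) T' = hp π (π B) (lt b (hne b hb) T').1 := by
    rw [lam, cl, ← pt_succ]
  have hAmem : A ∈ lk Γ (lt b (hne b hb) T').1 := by
    have : ∀ p ∈ a, p.1 ∈ {z | Γ.Adj (lt b (hne b hb) T').1 z} :=
      fun p hp => (hadj p hp _ (hpb T')).symm
    rw [hA]
    cases (lt a (hne a ha) T).2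
    · exact hwa _ this _
    · exact hwa _ this _
  have hBmem : B ∈ lk Γ (lt a (hne a ha) T).1 := by
    have : ∀ p ∈ b, p.1 ∈ {z | Γ.Adj (lt a (hne a ha) T).1 z} :=
      fun p hp => (hadj _ (hpa T) p hp)
    rw [hB]
    cases (lt b (hne b hb) T').2
    · exact hwb _ this _
    · exact hwb _ this _
  have hAB : Commute A B := by
    have hma : ∀ p ∈ a, p.1 ∈ {x : V | ∃ e, (x, e) ∈ a} := fun p hp => ⟨p.2, hp⟩
    have hmb : ∀ p ∈ b, p.1 ∈ {x : V | ∃ e, (x, e) ∈ b} := fun p hp => ⟨p.2, hp⟩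
    have h1 : A ∈ sub Γ {x : V | ∃ e, (x, e) ∈ a} := by
      rw [hA]
      cases (lt a (hne a ha) T).2
      · exact hwa _ hma _
      · exact hwa _ hma _
    have h2 : B ∈ sub Γ {x : V | ∃ e, (x, e) ∈ b} := by
      rw [hB]
      cases (lt b (hne b hb) T').2
      · exact hwb _ hmb _
      · exact hwb _ hmb _
    refine commute_sub ?_ A B h1 h2
    rintro x ⟨e, hx⟩ y ⟨e', hy⟩
    exact hadj _ hx _ hy
  refine ⟨?_, π (A * B), ?_, ?_⟩
  · exact hadj _ (hpa T) _ (hpb T')
  · show hp π (π (A * B)) (lam π a (hne a ha) T).1 = lam π a (hne a ha) T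
    rw [hlamA, hp_fst, hp_eq_iff]
    refine ⟨B⁻¹, Subgroup.inv_mem _ hBmem, ?_⟩
    rw [map_inv, map_mul]
    group
  · show hp π (π (A * B)) (lam π b (hne b hb) T').1 = lam π b (hne b hb) T'
    rw [hlamB, hp_fst, hp_eq_iff]
    refine ⟨A⁻¹, Subgroup.inv_mem _ hAmem, ?_⟩
    rw [hAB.eq, map_inv, map_mul]
    group

lemma lam_ne (as : List (List (V × Bool))) (hne : ∀ a ∈ as, a ≠ [])
    (hpw : as.Pairwise (fun a b => ∀ p ∈ a, ∀ q ∈ b, Γ.Adj p.1 q.1))
    {a b : List (V × Bool)} (ha : a ∈ as) (hb : b ∈ as) (hab : a ≠ b) (T T' : ℤ) :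
    lam π a (hne a ha) T ≠ lam π b (hne b hb) T' := by
  intro h
  have := lam_adj (π := π) as hne hpw ha hb hab T T'
  rw [h] at this
  exact (HG π).irrefl this

variable [Finite K]

/-- The invariant holds along the whole word, with exactness at each crossing. -/
lemma inv_word (as : List (List (V × Bool))) (hne : ∀ a ∈ as, a ≠ [])
    (hpw : as.Pairwise (fun a b => ∀ p ∈ a, ∀ q ∈ b, Γ.Adj p.1 q.1))
    (hd : ∀ a ∈ as, DL π a) (w : List (V × Bool)) (hf : Follows π as hne w) :
    ∀ i, i ≤ w.length → ∀ a (ha : a ∈ as), Inv π a (hne a ha) (wp Γ (w.take i)) := by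
  classical
  intro i
  induction i with
  | zero =>
    intro _ a ha
    rw [List.take_zero, wp_nil]
    exact Inv_one π a _
  | succ i ih =>
    intro hi a ha
    have hi' : i < w.length := hi
    rw [wp_take_succ w i hi']
    obtain ⟨a', ha', T, hT⟩ := hf i hi'
    by_cases haa : a' = a
    · subst haa
      exact (cross_step a' (hne a' ha') (hd a' ha') _ _ _ T hT (ih (by omega) a' ha')).1
    · have h5 := (cross_data a' (hne a' ha') _ _ _ T hT).2.1
      have hst : ∀ S, St π a (hne a ha) (wp Γ (w.take i) * sgn Γ (w[i]).1 (w[i]).2) S =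
          St π a (hne a ha) (wp Γ (w.take i)) S := by
        intro S
        rw [St_step, h5, if_neg, add_zero]
        exact lam_ne as hne hpw ha ha' (Ne.symm haa) S T
      intro T₁ T₂ h0 hlt h1 hnc
      rw [hst, hst]
      exact ih (by omega) a ha T₁ T₂ h0 hlt h1 hnc

end Core

end VSp.PB
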