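import Pool.Agent.VSp.ParabC

set_option autoImplicit false

/-! M6, part D: reduced words with zero crossing vector are empty. -/

namespace VSp.PB

variable {V : Type} {Γ : SimpleGraph V} {K : Type} [Group K] {π : RAAG Γ →* K}

/-- The letter crossed at step `i` of the word. -/
def wl (π : RAAG Γ →* K) (w : List (V × Bool)) (i : ℕ) (hi : i < w.length) : HV π :=
  cl π (wp Γ (w.take i)) (w[i]).1 (w[i]).2

open Classical in
lemma cv_take_succ (w : List (V × Bool)) (i : ℕ) (hi : i < w.length) (h : HV π) :
    cv π (wp Γ (w.take (i + 1))) h = cv π (wp Γ (w.take i)) h +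
      if h = wl π w i hi then eps (w[i]).2 else 0 := by
  rw [wp_take_succ w i hi, cv_step]
  rfl

/-- Zero net crossing and at least one crossing give two opposite crossings. -/
lemma exists_opposite (w : List (V × Bool)) (i j : ℕ) (hj : j ≤ w.length) (h : HV π)
    (hz : cv π (wp Γ (w.take i)) h = cv π (wp Γ (w.take j)) h)
    (l : ℕ) (hil : i ≤ l) (hlj : l < j) (hl : wl π w l (by omega) = h) :
    ∃ (l₁ l₂ : ℕ) (h₁ : l₁ < w.length) (h₂ : l₂ < w.length), i ≤ l₁ ∧ l₁ < l₂ ∧ l₂ < j ∧
      wl π w l₁ h₁ = h ∧ wl π w l₂ h₂ = h ∧ (w[l₁]).2 ≠ (w[l₂]).2 := by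
  classical
  have hlw : l < w.length := by omega
  by_cases hsame : ∀ (l' : ℕ) (hl' : l' < w.length), i ≤ l' → l' < j → wl π w l' hl' = h →
      (w[l']).2 = (w[l]).2
  · exfalso
    set e := eps (w[l]).2 with he
    have hmono : ∀ d, i + d ≤ j →
        (0 ≤ e * (cv π (wp Γ (w.take (i + d))) h - cv π (wp Γ (w.take i)) h)) ∧
        (l < i + d → 1 ≤ e * (cv π (wp Γ (w.take (i + d))) h - cv π (wp Γ (w.take i)) h)) := by
      intro d
      induction d with
      | zero =>
        intro _
        simp only [add_zero, sub_self, mul_zero, le_refl, true_and]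
        intro h1
        omega
      | succ d ih =>
        intro hd
        obtain ⟨ih1, ih2⟩ := ih (by omega)
        have hdw : i + d < w.length := by omega
        have hst := cv_take_succ (π := π) w (i + d) hdw h
        rw [show i + (d + 1) = i + d + 1 by ring, hst]
        by_cases hc : h = wl π w (i + d) hdw
        · rw [if_pos hc, hsame (i + d) hdw (by omega) (by omega) hc.symm, ← he]
          have hee : e * e = 1 := eps_mul_self _
          have : e * (cv π (wp Γ (w.take (i + d))) h + e - cv π (wp Γ (w.take i)) h) =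
              e * (cv π (wp Γ (w.take (i + d))) h - cv π (wp Γ (w.take i)) h) + 1 := by
            linear_combination hee
          rw [this]
          constructor
          · linarith
          · intro _; linarith
        · rw [if_neg hc, add_zero]
          refine ⟨ih1, fun h1 => ih2 ?_⟩
          rcases Nat.lt_or_ge l (i + d) with h2 | h2
          · exact h2
          · exfalso
            have h3 : i + d = l := by omega
            subst h3
            exact hc hl.symm
    have h4 := (hmono (j - i) (by omega)).2 (by omega)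
    rw [show i + (j - i) = j by omega, ← hz, sub_self, mul_zero] at h4
    omega
  · push Not at hsame
    obtain ⟨l', hl', hil', hlj', hw', hne⟩ := hsame
    have hll : l' ≠ l := by
      rintro rfl
      exact hne rfl
    rcases lt_or_gt_of_ne hll with h1 | h1
    · exact ⟨l', l, hl', hlw, hil', h1, hlj, hw', hl, hne⟩
    · exact ⟨l, l', hlw, hl', hil, h1, hlj', hl, hw', hne.symm⟩

variable [Finite K]

/-- There is no pair of opposite crossings of the same letter. -/
lemma no_opposite (as : List (List (V × Bool))) (hne : ∀ a ∈ as, a ≠ [])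
    (hpw : as.Pairwise (fun a b => ∀ p ∈ a, ∀ q ∈ b, Γ.Adj p.1 q.1))
    (hd : ∀ a ∈ as, DL π a) (w : List (V × Bool)) (hw : Red Γ w) (hf : Follows π as hne w) :
    ∀ (d i : ℕ) (h₂ : i + d + 1 < w.length),
      wl π w i (by omega) = wl π w (i + d + 1) h₂ → (w[i]).2 = (w[i + d + 1]).2 := by
  classical
  intro d
  induction d using Nat.strong_induction_on with
  | _ d ih =>
  intro i h₂ heq
  by_contra hsgn
  have hi : i < w.length := by omega
  set h := wl π w i hi with hh
  -- shorter pairs do not exist
  have hshort : ∀ (l₁ l₂ : ℕ) (h₁ : l₁ < w.length) (h₂ : l₂ < w.length), l₁ < l₂ →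
      l₂ - l₁ < d + 1 → wl π w l₁ h₁ = wl π w l₂ h₂ → (w[l₁]).2 = (w[l₂]).2 := by
    intro l₁ l₂ h₁ h₂' hlt hd' hww
    have h3 := ih (l₂ - l₁ - 1) (by omega) l₁ (by omega)
    have h4 : l₁ + (l₂ - l₁ - 1) + 1 = l₂ := by omega
    have h5 : wl π w l₁ h₁ = wl π w (l₁ + (l₂ - l₁ - 1) + 1) (by omega) := by
      rw [hww]
      congr 1
      exact h4.symm
    have h6 := h3 h5
    rw [h6]
    congr 2
  -- no crossing of `h` in between
  have hno : ∀ (l : ℕ) (hl : l < w.length), i < l → l < i + d + 1 → wl π w l hl ≠ h := by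
    intro l hl h1 h2 h3
    have e1 := hshort i l hi hl h1 (by omega) (by rw [h3])
    have e2 := hshort l (i + d + 1) hl h₂ h2 (by omega) (by rw [h3, heq])
    exact hsgn (e1.trans e2)
  have hconst : ∀ k, i + 1 + k ≤ i + d + 1 →
      cv π (wp Γ (w.take (i + 1 + k))) h = cv π (wp Γ (w.take (i + 1))) h := by
    intro k
    induction k with
    | zero => intro _; rfl
    | succ k ihk =>
      intro hk
      have hkw : i + 1 + k < w.length := by omega
      rw [show i + 1 + (k + 1) = i + 1 + k + 1 by ring, cv_take_succ w _ hkw,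
        if_neg (fun h7 => hno _ hkw (by omega) (by omega) h7.symm), add_zero]
      exact ihk (by omega)
  have hconst' : cv π (wp Γ (w.take (i + d + 1))) h = cv π (wp Γ (w.take (i + 1))) h := by
    have := hconst d (by omega)
    rw [show i + 1 + d = i + d + 1 by ring] at this
    exact this
  -- all crossings in between are adjacent to `h`
  have hadj : ∀ (l : ℕ) (hl : l < w.length), i < l → l < i + d + 1 →
      (HG π).Adj h (wl π w l hl) := by
    intro l hl h1 h2
    by_contra hnadj
    obtain ⟨a, ha, T, hT⟩ := hf i hi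
    obtain ⟨a', ha', T', hT'⟩ := hf (i + d + 1) h₂
    obtain ⟨b, hb, S, hS⟩ := hf l hl
    have e1 : h = lam π a (hne a ha) T := (cross_data a (hne a ha) _ _ _ T hT).2.1
    have e2 : wl π w (i + d + 1) h₂ = lam π a' (hne a' ha') T' :=
      (cross_data a' (hne a' ha') _ _ _ T' hT').2.1
    have e3 : wl π w l hl = lam π b (hne b hb) S := (cross_data b (hne b hb) _ _ _ S hS).2.1
    have hab : a = b := by
      by_contra hab
      apply hnadj
      rw [e1, e3]
      exact lam_adj as hne hpw ha hb hab T S
    subst hab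
    have haa : a = a' := by
      by_contra haa
      exact lam_ne as hne hpw ha ha' haa T T' (by rw [← e1, ← e2, heq])
    subst haa
    have hda := hd a ha
    have han := hne a ha
    have hm := per_pos π a han
    have hTT : per π a ∣ T' - T := (lam_eq_iff π han hda _ _).1 (by rw [← e2, ← e1, ← heq])
    have hs : T' % per π a = T % per π a :=
      Int.emod_eq_emod_iff_emod_sub_eq_zero.2 (Int.emod_eq_zero_of_dvd hTT)
    have hlt : lt a han T' = lt a han T := lt_period π a han hTT
    set m := per π a with hmdef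
    set s := T % m with hsdef
    set S' := S % m with hS'def
    have hS0 : 0 ≤ S' := Int.emod_nonneg S hm.ne'
    have hS1 : S' < m := Int.emod_lt_of_pos S hm
    have hSS : lam π a han S' = lam π a han S :=
      (lam_eq_iff π han hda _ _).2 (by
        rw [← hmdef, hS'def]
        exact (dvd_neg.2 Int.dvd_self_sub_emod |>.trans (by rw [neg_sub])))
    have hss : lam π a han s = lam π a han T :=
      (lam_eq_iff π han hda _ _).2 (by
        rw [← hmdef, hsdef]
        exact (dvd_neg.2 Int.dvd_self_sub_emod |>.trans (by rw [neg_sub])))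
    have hlts : lt a han s = lt a han T := lt_period π a han (by
        rw [← hmdef, hsdef]
        exact (dvd_neg.2 Int.dvd_self_sub_emod |>.trans (by rw [neg_sub])))
    have hSne : S' ≠ s := by
      intro h3
      apply hno l hl h1 h2
      rw [e3, ← hSS, h3, hss, e1]
    have hnadj' : ¬ (HG π).Adj (lam π a han T) (lam π a han S') := by
      rw [hSS, ← e3, ← e1]; exact hnadj
    have hTT' : lam π a han T' = lam π a han T := (lam_eq_iff π han hda _ _).2 hTT
    have hnadj2 : ¬ (HG π).Adj (lam π a han T') (lam π a han S') := by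
      rw [hTT']; exact hnadj'
    have hinv1 := inv_word as hne hpw hd w hf i (by omega) a ha
    have hinv2 := inv_word as hne hpw hd w hf (i + d + 1) (by omega) a ha
    have hex1 := (cross_step a han hda _ _ _ T hT hinv1).2 S' hS0 hS1 hSne hnadj'
    have hex2 := (cross_step a han hda _ _ _ T' hT' hinv2).2 S' hS0 hS1
      (by rw [← hmdef, hs]; exact hSne) hnadj2
    rw [← hmdef, hs, hlt] at hex2
    rw [← hmdef, ← hsdef] at hex1
    -- states
    set e := (lt a han T).2 with hedef
    have hstS : ∀ (k : ℕ) (hk : k < w.length), wl π w k hk = h →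
        St π a han (wp Γ (w.take (k + 1))) S' = St π a han (wp Γ (w.take k)) S' := by
      intro k hk hkh
      rw [wp_take_succ w k hk, St_step, if_neg, add_zero]
      intro h3
      apply hno l hl h1 h2
      rw [e3, ← hSS, h3]
      exact hkh
    have hsts : ∀ (k : ℕ) (hk : k < w.length), wl π w k hk = h →
        St π a han (wp Γ (w.take (k + 1))) s = St π a han (wp Γ (w.take k)) s +
          eps e * eps (w[k]).2 := by
      intro k hk hkh
      rw [wp_take_succ w k hk, St_step, if_pos, hlts]
      rw [hss, ← e1]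
      exact hkh.symm
    have a1 := hstS i hi rfl
    have a2 := hstS (i + d + 1) h₂ heq.symm
    have b1 := hsts i hi rfl
    have b2 := hsts (i + d + 1) h₂ heq.symm
    have c1 : St π a han (wp Γ (w.take (i + d + 1))) s = St π a han (wp Γ (w.take (i + 1))) s := by
      rw [St, St, hss, ← e1, hconst']
    have r1 : wp Γ (w.take (i + 1)) = wp Γ (w.take i) * sgn Γ (w[i]).1 (w[i]).2 :=
      wp_take_succ w i hi
    have r2 : wp Γ (w.take (i + d + 1 + 1)) =
        wp Γ (w.take (i + d + 1)) * sgn Γ (w[i + d + 1]).1 (w[i + d + 1]).2 :=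
      wp_take_succ w (i + d + 1) h₂
    have goal : St π a han (wp Γ (w.take (i + 1))) S' =
        St π a han (wp Γ (w.take (i + d + 1))) S' := by
      simp only [lo, ← r1] at hex1
      simp only [lo, ← r2] at hex2
      rcases h6 : (w[i]).2 with _ | _ <;> rcases h7 : (w[i + d + 1]).2 with _ | _ <;>
        rcases h8 : e with _ | _ <;> simp only [h6, h7, h8, if_true, if_false, reduceCtorEq,
          eps_true, eps_false, not_true_eq_false, not_false_eq_true] at * <;> omega
    have goal2 : cv π (wp Γ (w.take (i + 1))) (wl π w l hl) =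
        cv π (wp Γ (w.take (i + d + 1))) (wl π w l hl) := by
      rw [St, St, hSS, ← e3] at goal
      have h9 : eps (lt a han S').2 ≠ 0 := by
        cases (lt a han S').2 <;> simp [eps]
      exact mul_left_cancel₀ h9 goal
    obtain ⟨l₁, l₂, h₁', h₂', g1, g2, g3, g4, g5, g6⟩ :=
      exists_opposite w (i + 1) (i + d + 1) (by omega) (wl π w l hl) goal2 l (by omega) h2 rfl
    exact g6 (hshort l₁ l₂ h₁' h₂' g2 (by omega) (by rw [g4, g5]))
  -- the pinch
  have hred := cr_red π 1 w hw
  set cw := cr π 1 w with hc
  have hcl : cw.length = w.length := cr_length π 1 w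
  have hget : ∀ (k : ℕ) (hk : k < w.length) (hk' : k < cw.length), cw[k] =
      (wl π w k hk, (w[k]).2) := fun k hk hk' => cr_one_getElem π w k hk hk'
  have hdrop1 : cw.drop i = cw[i]'(by omega) :: cw.drop (i + 1) := List.drop_eq_getElem_cons (by omega)
  have hsplit : cw = cw.take i ++ (h, (w[i]).2) ::
      ((cw.drop (i + 1)).take d ++ (h, !(w[i]).2) :: cw.drop (i + d + 1 + 1)) := by
    have h1 : cw = cw.take i ++ cw.drop i := (List.take_append_drop i cw).symm
    have h2 : cw.drop (i + 1) = (cw.drop (i + 1)).take d ++ (cw.drop (i + 1)).drop d :=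
      (List.take_append_drop d _).symm
    have h3 : (cw.drop (i + 1)).drop d = cw.drop (i + d + 1) := by
      rw [List.drop_drop]; congr 1; omega
    have h4 : cw.drop (i + d + 1) = cw[i + d + 1]'(by omega) :: cw.drop (i + d + 1 + 1) :=
      List.drop_eq_getElem_cons (by omega)
    have h5 : cw[i + d + 1]'(by omega) = (h, !(w[i]).2) := by
      rw [hget _ h₂]
      have : (w[i + d + 1]).2 = !(w[i]).2 := Bool.eq_not.mpr (Ne.symm hsgn)
      rw [this, ← heq]
    have h6 : cw[i]'(by omega) = (h, (w[i]).2) := hget i hi _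
    rw [h3, h4, h5] at h2
    rw [hdrop1, h6, h2] at h1
    exact h1
  refine hred.no_pinch hsplit ?_
  refine wp_mem_sub _ _ ?_
  intro p hp
  obtain ⟨k, hk, rfl⟩ := List.getElem_of_mem hp
  have hk1 : k < d := by
    have := hk
    simp only [List.length_take, List.length_drop] at this
    omega
  have h8 : ((cw.drop (i + 1)).take d)[k] = (wl π w (i + 1 + k) (by omega),
      (w[i + 1 + k]).2) := by
    rw [List.getElem_take, List.getElem_drop]
    exact hget _ (by omega) _
  rw [h8]
  exact hadj (i + 1 + k) (by omega) (by omega) (by omega)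

/-- A reduced word with zero crossing vector is empty. -/
lemma eq_nil_of_cv_zero (as : List (List (V × Bool))) (hne : ∀ a ∈ as, a ≠ [])
    (hpw : as.Pairwise (fun a b => ∀ p ∈ a, ∀ q ∈ b, Γ.Adj p.1 q.1))
    (hd : ∀ a ∈ as, DL π a) (w : List (V × Bool)) (hw : Red Γ w) (hf : Follows π as hne w)
    (hz : ∀ h, cv π (wp Γ w) h = 0) : w = [] := by
  by_contra hwn
  have hlen : 0 < w.length := List.length_pos_iff.2 hwn
  obtain ⟨l₁, l₂, h₁, h₂, g1, g2, g3, g4, g5, g6⟩ :=
    exists_opposite (π := π) w 0 w.length le_rfl (wl π w 0 hlen) (by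
      rw [List.take_zero, List.take_length, wp_nil, cv_one, hz]; rfl) 0 le_rfl hlen rfl
  have h3 := no_opposite as hne hpw hd w hw hf (l₂ - l₁ - 1) l₁ (by omega)
  have h4 : l₁ + (l₂ - l₁ - 1) + 1 = l₂ := by omega
  have h5 : wl π w l₁ h₁ = wl π w (l₁ + (l₂ - l₁ - 1) + 1) (by omega) := by
    rw [g4, ← g5]
    congr 1
    exact h4.symm
  apply g6
  have h6 := h3 h5
  rw [h6]
  congr 2

end VSp.PB
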