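import Pool.Agent.VSp.ParabD

set_option autoImplicit false

/-! M6, part E: `parab_core`. -/

namespace VSp.PB

universe u v

section PsiStep

variable {V : Type u} {Γ : SimpleGraph V} {K : Type v} [Group K] (π : RAAG Γ →* K)

lemma psi_step (q : RAAG Γ) (z : V) (b : Bool) :
    (psi π (q * sgn Γ z b)).left = (psi π q).left * sgn (HG π) (cl π q z b) b := by
  have h1 : sgn Γ z b = wp Γ [(z, b)] := by rw [wp_cons, wp_nil, mul_one]
  rw [h1, map_mul, SemidirectProduct.mul_left, psi_wp, psi_right]
  show _ * actHom K (HG π) (π q) (wp (HG π) (cr π 1 [(z, b)])) = _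
  rw [act_wp_cr, mul_one, cr_cons, wp_cons, cr_eq_cl π (π q) q rfl]
  show _ * (_ * wp (HG π) []) = _
  rw [wp_nil, mul_one]

lemma sgn_mem {L : Set V} {x : V} (h : x ∈ L) (b : Bool) : sgn Γ x b ∈ sub Γ L := by
  cases b
  · exact Subgroup.inv_mem _ (of_mem_sub h)
  · exact of_mem_sub h

lemma psi_pt_mem (a : List (V × Bool)) (ha : a ≠ []) (L : Set (HV π))
    (hL : ∀ T, lam π a ha T ∈ L) (T : ℤ) : (psi π (pt Γ a T)).left ∈ sub (HG π) L := by
  have hstep : ∀ S : ℤ, (psi π (pt Γ a (S + 1))).left = (psi π (pt Γ a S)).left *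
      sgn (HG π) (lam π a ha S) (lt a ha S).2 := by
    intro S
    rw [pt_succ a ha, psi_step]
    rfl
  induction T using Int.induction_on with
  | zero => rw [pt_zero, map_one]; exact Subgroup.one_mem _
  | succ n ih =>
    rw [hstep]
    exact Subgroup.mul_mem _ ih (sgn_mem (hL _) _)
  | pred n ih =>
    have := hstep (-(n : ℤ) - 1)
    rw [sub_add_cancel] at this
    rw [this] at ih
    exact (Subgroup.mul_mem_cancel_right _ (sgn_mem (hL _) _)).1 ih

lemma cv_list_prod (l : List (RAAG Γ)) (hl : ∀ x ∈ l, π x = 1) (h : HV π) :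
    cv π l.prod h = (l.map (fun x => cv π x h)).sum := by
  induction l with
  | nil => rw [List.prod_nil, cv_one]; rfl
  | cons x l ih =>
    rw [List.prod_cons, cv_mul, hl x (by simp), inv_one, one_smul,
      ih (fun y hy => hl y (by simp [hy]))]
    simp

lemma sum_single_of_nodup {α : Type*} (l : List α) (hl : l.Nodup) (a : α) (ha : a ∈ l)
    (f : α → ℤ) (hf : ∀ b ∈ l, b ≠ a → f b = 0) : (l.map f).sum = f a := by
  induction l with
  | nil => simp at ha
  | cons x l ih =>
    rw [List.map_cons, List.sum_cons]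
    rw [List.nodup_cons] at hl
    rcases List.mem_cons.1 ha with rfl | ha'
    · have : (l.map f).sum = 0 := by
        apply List.sum_eq_zero
        intro y hy
        obtain ⟨b, hb, rfl⟩ := List.mem_map.1 hy
        exact hf b (by simp [hb]) (fun h => hl.1 (h ▸ hb))
      rw [this, add_zero]
    · have hxa : x ≠ a := fun h => hl.1 (h ▸ ha')
      rw [hf x (by simp) hxa, zero_add]
      exact ih hl.2 ha' (fun b hb hne => hf b (by simp [hb]) hne)

end PsiStep

section Final

variable {V : Type} {Γ : SimpleGraph V} {K : Type} [Group K] {π : RAAG Γ →* K}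

/-- letters crossed by `g` lie in the union of the letters of the paths -/
lemma cv_off (as : List (List (V × Bool))) (hne : ∀ a ∈ as, a ≠ []) (w : List (V × Bool))
    (hf : Follows π as hne w) (h : HV π)
    (hh : ∀ a (ha : a ∈ as) (T : ℤ), h ≠ lam π a (hne a ha) T) : cv π (wp Γ w) h = 0 := by
  classical
  have : ∀ i, i ≤ w.length → cv π (wp Γ (w.take i)) h = 0 := by
    intro i
    induction i with
    | zero => intro _; rw [List.take_zero, wp_nil, cv_one]; rfl
    | succ i ih =>
      intro hi
      have hi' : i < w.length := hi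
      rw [cv_take_succ w i hi', ih (by omega), zero_add, if_neg]
      obtain ⟨a, ha, T, hT⟩ := hf i hi'
      have := (cross_data a (hne a ha) _ _ _ T hT).2.1
      rw [wl, this]
      exact hh a ha T
  have h1 := this w.length le_rfl
  rwa [List.take_length] at h1

/-- Connectedness: the state is constant on the letters of `a`. -/
lemma St_const [Finite K] (a : List (V × Bool)) (hg : Good Γ a) (hd : DL π a) (g : RAAG Γ)
    (hinv : Inv π a hg.ne g) (hev : ∀ h, (2 : ℤ) ∣ cv π g h) (T T' : ℤ) :
    St π a hg.ne g T = St π a hg.ne g T' := by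
  have hm := per_pos π a hg.ne
  -- reduce to a period
  have hmod : ∀ S : ℤ, St π a hg.ne g S = St π a hg.ne g (S % per π a) := by
    intro S
    have h1 : per π a ∣ S - S % per π a := Int.dvd_self_sub_emod
    rw [St, St, (lam_eq_iff π hg.ne hd _ _).2 h1, lt_period π a hg.ne h1]
  have heven : ∀ S : ℤ, (2 : ℤ) ∣ St π a hg.ne g S := fun S => Dvd.dvd.mul_left (hev _) _
  -- non-adjacent letters have the same state
  have hnc : ∀ S S' : ℤ, ¬ Γ.Adj (lt a hg.ne S).1 (lt a hg.ne S').1 →
      St π a hg.ne g S = St π a hg.ne g S' := by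
    intro S S' hadj
    rw [hmod S, hmod S']
    set s := S % per π a with hs
    set s' := S' % per π a with hs'
    have e1 := heven s
    have e2 := heven s'
    have a0 : 0 ≤ s := Int.emod_nonneg S hm.ne'
    have a1 : s < per π a := Int.emod_lt_of_pos S hm
    have b0 : 0 ≤ s' := Int.emod_nonneg S' hm.ne'
    have b1 : s' < per π a := Int.emod_lt_of_pos S' hm
    have l1 : lt a hg.ne s = lt a hg.ne S :=
      (lt_period π a hg.ne (Int.dvd_self_sub_emod)).symm
    have l2 : lt a hg.ne s' = lt a hg.ne S' :=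
      (lt_period π a hg.ne (Int.dvd_self_sub_emod)).symm
    have hadj' : ¬ Γ.Adj (lt a hg.ne s).1 (lt a hg.ne s').1 := by rw [l1, l2]; exact hadj
    have hH : ¬ (HG π).Adj (lam π a hg.ne s) (lam π a hg.ne s') := fun h => hadj' h.1
    rcases lt_trichotomy s s' with h | h | h
    · have := hinv s s' a0 h b1 hH
      omega
    · rw [h]
    · have := hinv s' s b0 h a1 (fun h2 => hH h2.symm)
      omega
  -- every letter of `a` occurs at some time
  have hocc : ∀ p ∈ a, ∃ S : ℤ, lt a hg.ne S = p := by
    intro p hp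
    obtain ⟨i, hi⟩ := List.mem_iff_get.1 hp
    refine ⟨(i : ℕ), ?_⟩
    have h1 : ((i : ℕ) : ℤ) < a.length := by exact_mod_cast i.2
    rw [lt_eq]
    have : idx a hg.ne ((i : ℕ) : ℤ) = i := by
      apply Fin.ext
      simp only [idx]
      rw [Int.emod_eq_of_lt (by omega) h1]
      simp
    rw [this, hi]
  have hmem : ∀ S : ℤ, lt a hg.ne S ∈ a := fun S => List.get_mem _ _
  have hchain := hg.conn _ (hmem T) _ (hmem T')
  -- walk along the chain
  have key : ∀ y, Relation.ReflTransGen (fun x y => (∃ b, (y, b) ∈ a) ∧ ¬ Γ.Adj x y)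
      (lt a hg.ne T).1 y → ∀ S : ℤ, (lt a hg.ne S).1 = y →
      St π a hg.ne g T = St π a hg.ne g S := by
    intro y hy
    induction hy with
    | refl =>
      intro S hS
      apply hnc
      rw [hS]
      exact Γ.irrefl
    | tail h1 h2 ih =>
      rename_i x y
      intro S hS
      obtain ⟨⟨b, hb⟩, hxy⟩ := h2
      -- a time with letter `x`
      rcases Relation.ReflTransGen.cases_tail h1 with h3 | ⟨z, h3, ⟨b', hb'⟩, h4⟩
      · subst h3
        apply hnc
        rw [hS]
        exact hxy
      · obtain ⟨R, hR⟩ := hocc _ hb'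
        rw [ih R (by rw [hR])]
        apply hnc
        rw [hR, hS]
        exact hxy
  exact key _ hchain T' rfl

theorem parab_core [Finite V] (as : List (List (V × Bool))) (hg : ∀ a ∈ as, Good Γ a)
    (hpw : as.Pairwise (fun a b => ∀ p ∈ a, ∀ q ∈ b, Γ.Adj p.1 q.1))
    [Finite K] (hd : ∀ a ∈ as, DL π a)
    (g : RAAG Γ) (h1 : up π 2 g = 1)
    (h2 : (psi (up π 2) g).left ∈ sub (HG (up π 2)) (Lset (up π 2) as)) :
    ∃ J : List (V × Bool) → ℤ, g = (as.map (fun a => wp Γ a ^ J a)).prod := by
  classical
  have hne : ∀ a ∈ as, a ≠ [] := fun a ha => (hg a ha).ne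
  obtain ⟨w, hw, hred⟩ := exists_red g
  have hfol : Follows π as hne w := follows_of_mem as hne w hred (by rw [hw]; exact h2)
  rw [up_eq_one_iff] at h1
  obtain ⟨h1π, h1c⟩ := h1
  have hev : ∀ h, (2 : ℤ) ∣ cv π g h := fun h => by
    have := h1c h
    rwa [ZMod.intCast_zmod_eq_zero_iff_dvd] at this
  have hinv : ∀ a (ha : a ∈ as), Inv π a (hne a ha) g := by
    intro a ha
    have := inv_word as hne hpw hd w hfol w.length le_rfl a ha
    rwa [List.take_length, hw] at this
  have hnodup : as.Nodup := by
    refine (hpw.imp_of_mem ?_)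
    rintro a b ha hb hab rfl
    obtain ⟨p, hp⟩ := List.exists_mem_of_ne_nil a (hne a ha)
    exact Γ.irrefl (hab p hp p hp)
  -- the exponents
  let Jf : List (V × Bool) → ℤ := fun a =>
    if h : a ∈ as then (orderOf (π (wp Γ a)) : ℤ) * St π a (hne a h) g 0 else 0
  have hJ : ∀ a (h : a ∈ as), Jf a = (orderOf (π (wp Γ a)) : ℤ) * St π a (hne a h) g 0 :=
    fun a h => dif_pos h
  have hpow : ∀ a (h : a ∈ as), wp Γ a ^ Jf a =
      pt Γ a (per π a * St π a (hne a h) g 0) := by
    intro a h
    rw [hJ a h, per, ← pt_mul_length a (hne a h)]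
    congr 1
    ring
  have hpi : ∀ a (h : a ∈ as), π (wp Γ a ^ Jf a) = 1 := by
    intro a h
    rw [hJ a h, map_zpow, zpow_mul, zpow_natCast, pow_orderOf_eq_one, one_zpow]
  -- crossing vector of the powers
  have hcvon : ∀ a (h : a ∈ as) (T : ℤ), cv π (wp Γ a ^ Jf a) (lam π a (hne a h) T) =
      cv π g (lam π a (hne a h) T) := by
    intro a h T
    have hm := per_pos π a (hne a h)
    -- reduce `T` to a period
    have hper : per π a ∣ T - T % per π a := Int.dvd_self_sub_emod
    rw [(lam_eq_iff π (hne a h) (hd a h) _ _).2 hper]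
    set T' := T % per π a
    have t0 : 0 ≤ T' := Int.emod_nonneg T hm.ne'
    have t1 : T' < per π a := Int.emod_lt_of_pos T hm
    have e1 := cv_pt π (hne a h) (hd a h) (per π a * St π a (hne a h) g 0) T' t0 t1
    rw [show per π a * St π a (hne a h) g 0 - T' = -T' + per π a * St π a (hne a h) g 0 by ring,
      cc_add_mul hm, cc_zero_of hm (by omega) (by omega), zero_add] at e1
    rw [hpow a h]
    have e2 : St π a (hne a h) g T' = St π a (hne a h) g 0 :=
      St_const a (hg a h) (hd a h) g (hinv a h) hev T' 0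
    have h9 : eps (lt a (hne a h) T').2 ≠ 0 := by
      cases (lt a (hne a h) T').2 <;> simp [eps]
    exact mul_left_cancel₀ h9 (e1.trans e2.symm)
  have hcvoff : ∀ a (h : a ∈ as) (x : HV π), (∀ T, x ≠ lam π a (hne a h) T) →
      cv π (wp Γ a ^ Jf a) x = 0 := by
    intro a h x hx
    rw [hpow a h]
    exact cv_pt_off π a (hne a h) _ x hx
  set P := (as.map (fun a => wp Γ a ^ Jf a)).prod with hP
  have hPpi : π P = 1 := by
    rw [hP, map_list_prod, List.map_map]
    apply List.prod_eq_one
    intro x hx
    obtain ⟨a, ha, rfl⟩ := List.mem_map.1 hx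
    exact hpi a ha
  have hPcv : ∀ x, cv π P x = cv π g x := by
    intro x
    rw [hP, cv_list_prod π _ (by
      intro y hy
      obtain ⟨a, ha, rfl⟩ := List.mem_map.1 hy
      exact hpi a ha), List.map_map]
    by_cases hx : ∃ (a : List (V × Bool)) (h : a ∈ as) (T : ℤ), x = lam π a (hne a h) T
    · obtain ⟨a, ha, T, rfl⟩ := hx
      rw [sum_single_of_nodup as hnodup a ha]
      · exact hcvon a ha T
      · intro b hb hba
        exact hcvoff b hb _ (fun T' => lam_ne as hne hpw ha hb (Ne.symm hba) T T')
    · push Not at hx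
      have h3 : cv π g x = 0 := by
        rw [← hw]
        exact cv_off as hne w hfol x hx
      rw [h3]
      apply List.sum_eq_zero
      intro y hy
      obtain ⟨a, ha, rfl⟩ := List.mem_map.1 hy
      exact hcvoff a ha x (hx a ha)
  have hPup : up π 2 P = 1 := by
    rw [up_eq_one_iff]
    refine ⟨hPpi, fun x => ?_⟩
    rw [hPcv]
    exact h1c x
  -- the quotient
  have hupg : up π 2 g = 1 := by rw [up_eq_one_iff]; exact ⟨h1π, h1c⟩
  have hPleft : (psi (up π 2) P).left ∈ sub (HG (up π 2)) (Lset (up π 2) as) := by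
    have hgen : ∀ l : List (List (V × Bool)), (∀ a ∈ l, a ∈ as) →
        (psi (up π 2) (l.map (fun a => wp Γ a ^ Jf a)).prod).left ∈
          sub (HG (up π 2)) (Lset (up π 2) as) := by
      intro l
      induction l with
      | nil =>
        intro _
        rw [List.map_nil, List.prod_nil, map_one]
        exact Subgroup.one_mem _
      | cons a l ih =>
        intro hl
        have ha : a ∈ as := hl a (by simp)
        have hupa : up π 2 (wp Γ a ^ Jf a) = 1 := by
          rw [up_eq_one_iff]
          refine ⟨hpi a ha, fun x => ?_⟩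
          by_cases hx : ∃ T : ℤ, x = lam π a (hne a ha) T
          · obtain ⟨T, rfl⟩ := hx
            rw [hcvon a ha]
            exact h1c _
          · push Not at hx
            rw [hcvoff a ha x hx]
            simp
        rw [List.map_cons, List.prod_cons, map_mul, SemidirectProduct.mul_left, psi_right, hupa,
          map_one]
        refine Subgroup.mul_mem _ ?_ (ih fun b hb => hl b (by simp [hb]))
        rw [hpow a ha]
        exact psi_pt_mem (up π 2) a (hne a ha) _
          (fun T => (Lset_lam (up π 2) as hne _).2 ⟨a, ha, T, rfl⟩) _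
    exact hgen as (fun a ha => ha)
  have hquot : g * P⁻¹ = 1 := by
    obtain ⟨w', hw', hred'⟩ := exists_red (g * P⁻¹)
    have hleft : (psi (up π 2) (g * P⁻¹)).left ∈ sub (HG (up π 2)) (Lset (up π 2) as) := by
      rw [map_mul, SemidirectProduct.mul_left, psi_right, hupg, map_one, map_inv,
        SemidirectProduct.inv_left, psi_right, hPup, inv_one, map_one]
      exact Subgroup.mul_mem _ h2 (Subgroup.inv_mem _ hPleft)
    have hfol' : Follows π as hne w' := follows_of_mem as hne w' hred' (by rw [hw']; exact hleft)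
    have hz : ∀ h, cv π (wp Γ w') h = 0 := by
      intro h
      rw [hw', cv_mul, h1π, inv_one, one_smul, cv_inv, hPpi, one_smul, hPcv]
      ring
    have := eq_nil_of_cv_zero as hne hpw hd w' hred' hfol' hz
    rw [← hw', this, wp_nil]
  exact ⟨Jf, mul_inv_eq_one.1 hquot⟩

end Final

end VSp.PB
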