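import Pool.Agent.VSp.Defs

set_option autoImplicit false

/-! M1. Words, special subgroups, retractions, one-letter Britton lemma. -/

namespace VSp

universe u v

variable {V : Type u} {Γ : SimpleGraph V}

lemma wp_nil : wp Γ [] = 1 := rfl

lemma wp_cons (p : V × Bool) (w : List (V × Bool)) :
    wp Γ (p :: w) = sgn Γ p.1 p.2 * wp Γ w := by
  rw [wp, wp, List.map_cons, List.prod_cons]

lemma wp_append (w w' : List (V × Bool)) : wp Γ (w ++ w') = wp Γ w * wp Γ w' := by
  rw [wp, wp, wp, List.map_append, List.prod_append]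

lemma sgn_not (x : V) (b : Bool) : sgn Γ x (!b) = (sgn Γ x b)⁻¹ := by
  cases b
  · show of Γ x = ((of Γ x)⁻¹)⁻¹
    rw [inv_inv]
  · rfl

lemma wp_invRev (w : List (V × Bool)) : wp Γ (FreeGroup.invRev w) = (wp Γ w)⁻¹ := by
  induction w with
  | nil => show (1 : RAAG Γ) = 1⁻¹; rw [inv_one]
  | cons p w ih =>
    have h : FreeGroup.invRev (p :: w) = FreeGroup.invRev w ++ [(p.1, !p.2)] := by
      simp [FreeGroup.invRev]
    rw [h, wp_append, ih, wp_cons, wp_cons, wp_nil, mul_one, sgn_not, mul_inv_rev]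

lemma wp_surj (g : RAAG Γ) : ∃ w, wp Γ w = g := by
  classical
  obtain ⟨x, rfl⟩ := PresentedGroup.mk_surjective (rels Γ) g
  have h : ∀ w : List (V × Bool), wp Γ w = PresentedGroup.mk (rels Γ) (FreeGroup.mk w) := by
    intro w
    induction w with
    | nil =>
      rw [wp_nil, ← FreeGroup.one_eq_mk, map_one]
      rfl
    | cons p w ih =>
      have h1 : FreeGroup.mk (p :: w) = FreeGroup.mk [p] * FreeGroup.mk w := rfl
      rw [wp_cons, ih, h1, map_mul]
      obtain ⟨x, b⟩ := p
      cases b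
      · rfl
      · rfl
  exact ⟨x.toWord, by rw [h, FreeGroup.mk_toWord]⟩

lemma exists_red (g : RAAG Γ) : ∃ w, wp Γ w = g ∧ Red Γ w := by
  classical
  have h : ∃ n, ∃ w : List (V × Bool), wp Γ w = g ∧ w.length = n := by
    obtain ⟨w, hw⟩ := wp_surj g
    exact ⟨_, w, hw, rfl⟩
  obtain ⟨w, hw, hn⟩ := Nat.find_spec h
  refine ⟨w, hw, fun w' hw' => ?_⟩
  rw [hn]
  exact Nat.find_min' h ⟨w', hw'.trans hw, rfl⟩

/-- `hom_ext` for words: image of a word under a hom. -/
lemma map_wp {G : Type v} [Group G] (f : RAAG Γ →* G) (w : List (V × Bool)) :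
    f (wp Γ w) = (w.map fun p => cond p.2 (f (of Γ p.1)) (f (of Γ p.1))⁻¹).prod := by
  induction w with
  | nil => rw [wp_nil, map_one, List.map_nil, List.prod_nil]
  | cons p w ih =>
    rw [wp_cons, map_mul, ih, List.map_cons, List.prod_cons]
    obtain ⟨x, b⟩ := p
    cases b
    · show f ((of Γ x)⁻¹) * _ = _
      rw [map_inv]
      rfl
    · rfl

lemma sub_mono {L L' : Set V} (h : L ⊆ L') : sub Γ L ≤ sub Γ L' :=
  Subgroup.closure_mono (Set.image_mono h)

lemma of_mem_sub {L : Set V} {x : V} (h : x ∈ L) : of Γ x ∈ sub Γ L :=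
  Subgroup.subset_closure ⟨x, h, rfl⟩

lemma sgn_mem_sub {L : Set V} {x : V} (h : x ∈ L) (b : Bool) : sgn Γ x b ∈ sub Γ L := by
  cases b
  · exact Subgroup.inv_mem _ (of_mem_sub h)
  · exact of_mem_sub h

lemma wp_mem_sub (L : Set V) (w : List (V × Bool)) (h : ∀ p ∈ w, p.1 ∈ L) :
    wp Γ w ∈ sub Γ L := by
  induction w with
  | nil => exact Subgroup.one_mem _
  | cons p w ih =>
    rw [wp_cons]
    exact Subgroup.mul_mem _ (sgn_mem_sub (h p (List.mem_cons_self)) _)
      (ih fun q hq => h q (List.mem_cons_of_mem _ hq))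

lemma exists_word_of_mem_sub (L : Set V) (g : RAAG Γ) (hg : g ∈ sub Γ L) :
    ∃ w, (∀ p ∈ w, p.1 ∈ L) ∧ wp Γ w = g := by
  unfold sub at hg
  induction hg using Subgroup.closure_induction with
  | mem x hx =>
    obtain ⟨z, hz, rfl⟩ := hx
    refine ⟨[(z, true)], fun p hp => ?_, ?_⟩
    · rw [List.mem_singleton.mp hp]; exact hz
    · rw [wp_cons, wp_nil, mul_one]; rfl
  | one => exact ⟨[], fun p hp => absurd hp List.not_mem_nil, rfl⟩
  | mul x y _ _ hx hy =>
    obtain ⟨w, h1, rfl⟩ := hx
    obtain ⟨w', h2, rfl⟩ := hy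
    refine ⟨w ++ w', fun p hp => ?_, wp_append _ _⟩
    rcases List.mem_append.mp hp with h | h
    · exact h1 p h
    · exact h2 p h
  | inv x _ hx =>
    obtain ⟨w, h1, rfl⟩ := hx
    refine ⟨FreeGroup.invRev w, fun p hp => ?_, wp_invRev w⟩
    simp only [FreeGroup.invRev, List.mem_reverse, List.mem_map] at hp
    obtain ⟨q, hq, rfl⟩ := hp
    exact h1 q hq


/-- If every letter of `L` commutes with every letter of `L'`, the special subgroups commute. -/
lemma commute_sub {L L' : Set V} (h : ∀ x ∈ L, ∀ y ∈ L', Γ.Adj x y) (g g' : RAAG Γ)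
    (hg : g ∈ sub Γ L) (hg' : g' ∈ sub Γ L') : Commute g g' := by
  have h1 : sub Γ L' ≤ Subgroup.centralizer (sub Γ L : Set (RAAG Γ)) := by
    rw [sub, Subgroup.closure_le]
    rintro _ ⟨y, hy, rfl⟩
    rw [SetLike.mem_coe, Subgroup.mem_centralizer_iff]
    intro a ha
    have h2 : sub Γ L ≤ Subgroup.centralizer {of Γ y} := by
      rw [sub, Subgroup.closure_le]
      rintro _ ⟨x, hx, rfl⟩
      rw [SetLike.mem_coe, Subgroup.mem_centralizer_iff]
      rintro _ rfl
      exact (of_comm Γ (h x hx y hy)).symm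
    exact (Subgroup.mem_centralizer_iff.mp (h2 ha) _ rfl).symm
  exact Subgroup.mem_centralizer_iff.mp (h1 hg') g hg

lemma commute_of_lk (y : V) (g : RAAG Γ) (hg : g ∈ lk Γ y) : Commute (of Γ y) g :=
  commute_sub (L := {y}) (L' := {z | Γ.Adj y z}) (by
    rintro _ rfl z hz
    exact hz) _ _ (of_mem_sub rfl) hg

open Classical in
/-- The retraction onto a special subgroup: kill the letters outside `L`. -/
noncomputable def retr (Γ : SimpleGraph V) (L : Set V) : RAAG Γ →* RAAG Γ :=
  lift (fun x => if x ∈ L then of Γ x else 1) (by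
    intro x y h
    by_cases hx : x ∈ L
    · by_cases hy : y ∈ L
      · simpa [hx, hy] using of_comm Γ h
      · simp [hy]
    · simp [hx])

lemma retr_of_mem {L : Set V} {x : V} (h : x ∈ L) : retr Γ L (of Γ x) = of Γ x := by
  rw [retr, lift_of, if_pos h]

lemma retr_of_notMem {L : Set V} {x : V} (h : x ∉ L) : retr Γ L (of Γ x) = 1 := by
  rw [retr, lift_of, if_neg h]

lemma retr_mem (L : Set V) (g : RAAG Γ) : retr Γ L g ∈ sub Γ L := by
  obtain ⟨w, rfl⟩ := wp_surj g
  induction w with
  | nil => rw [wp_nil, map_one]; exact Subgroup.one_mem _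
  | cons p w ih =>
    rw [wp_cons, map_mul]
    refine Subgroup.mul_mem _ ?_ ih
    have h1 : retr Γ L (of Γ p.1) ∈ sub Γ L := by
      by_cases h : p.1 ∈ L
      · rw [retr_of_mem h]; exact of_mem_sub h
      · rw [retr_of_notMem h]; exact Subgroup.one_mem _
    obtain ⟨x, b⟩ := p
    cases b
    · show retr Γ L ((of Γ x)⁻¹) ∈ _
      rw [map_inv]
      exact Subgroup.inv_mem _ h1
    · exact h1

lemma retr_eq_self_iff (L : Set V) (g : RAAG Γ) : retr Γ L g = g ↔ g ∈ sub Γ L := by
  constructor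
  · intro h
    rw [← h]
    exact retr_mem L g
  · intro h
    unfold sub at h
    induction h using Subgroup.closure_induction with
    | mem x hx =>
      obtain ⟨z, hz, rfl⟩ := hx
      exact retr_of_mem hz
    | one => exact map_one _
    | mul x y _ _ hx hy => rw [map_mul, hx, hy]
    | inv x _ hx => rw [map_inv, hx]

/-- Finite version: membership in several special subgroups. -/
lemma sub_inter (L L' : Set V) (g : RAAG Γ) (h : g ∈ sub Γ L) (h' : g ∈ sub Γ L') :
    g ∈ sub Γ (L ∩ L') := by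
  rw [← (retr_eq_self_iff L' g).mpr h']
  unfold sub at h
  clear h'
  induction h using Subgroup.closure_induction with
  | mem x hx =>
    obtain ⟨z, hz, rfl⟩ := hx
    by_cases h1 : z ∈ L'
    · rw [retr_of_mem h1]; exact of_mem_sub ⟨hz, h1⟩
    · rw [retr_of_notMem h1]; exact Subgroup.one_mem _
  | one => rw [map_one]; exact Subgroup.one_mem _
  | mul x y _ _ hx hy => rw [map_mul]; exact Subgroup.mul_mem _ hx hy
  | inv x _ hx => rw [map_inv]; exact Subgroup.inv_mem _ hx

section HNN

variable (y : V)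

/-- The link of a letter, in the subgroup generated by the other letters. -/
def lkb (Γ : SimpleGraph V) (y : V) : Subgroup (sub Γ {z | z ≠ y}) :=
  (lk Γ y).subgroupOf (sub Γ {z | z ≠ y})

/-- The one-letter HNN extension. -/
abbrev HN (Γ : SimpleGraph V) (y : V) : Type _ :=
  HNNExtension (sub Γ {z | z ≠ y}) (lkb Γ y) (lkb Γ y) (MulEquiv.refl _)

open Classical in
/-- The images of the letters in the HNN extension. -/
noncomputable def hnnLet (Γ : SimpleGraph V) (y z : V) : HN Γ y :=
  if h : z ≠ y then HNNExtension.of ⟨of Γ z, of_mem_sub h⟩ else HNNExtension.t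

lemma hnnLet_self : hnnLet Γ y y = HNNExtension.t := by
  rw [hnnLet, dif_neg (not_not.mpr rfl)]

lemma hnnLet_of_ne {z : V} (h : z ≠ y) :
    hnnLet Γ y z = HNNExtension.of ⟨of Γ z, of_mem_sub h⟩ := by
  rw [hnnLet, dif_pos h]

lemma hnnLet_t {z : V} (h : Γ.Adj y z) : Commute (hnnLet Γ y y) (hnnLet Γ y z) := by
  have hz : z ≠ y := fun hzy => Γ.loopless.irrefl y (by rw [hzy] at h; exact h)
  rw [hnnLet_self, hnnLet_of_ne y hz]
  exact HNNExtension.t_mul_of (A := lkb Γ y) (B := lkb Γ y) (φ := MulEquiv.refl _)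
    ⟨⟨of Γ z, of_mem_sub hz⟩, Subgroup.mem_subgroupOf.mpr (of_mem_sub h)⟩

/-- The map to the one-letter HNN extension. -/
noncomputable def toHNN (Γ : SimpleGraph V) (y : V) : RAAG Γ →* HN Γ y :=
  lift (hnnLet Γ y) (by
    intro x x' h
    by_cases hx : x = y
    · subst hx
      exact hnnLet_t x h
    · by_cases hx' : x' = y
      · subst hx'
        exact (hnnLet_t x' h.symm).symm
      · rw [hnnLet_of_ne y hx, hnnLet_of_ne y hx']
        refine Commute.map (f := (HNNExtension.of : _ →* HN Γ y)) ?_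
        exact Subtype.ext (of_comm Γ h))

lemma toHNN_of (z : V) : toHNN Γ y (of Γ z) = hnnLet Γ y z := lift_of _ _ z

lemma toHNN_sub (g : RAAG Γ) (hg : g ∈ sub Γ {z | z ≠ y}) :
    toHNN Γ y g = HNNExtension.of ⟨g, hg⟩ := by
  induction hg using Subgroup.closure_induction with
  | mem x hx =>
    obtain ⟨z, hz, rfl⟩ := hx
    rw [toHNN_of, hnnLet_of_ne y hz]
  | one => rw [map_one]; exact (map_one _).symm
  | mul a b ha hb iha ihb => rw [map_mul, iha, ihb, ← map_mul]; rfl
  | inv a ha iha => rw [map_inv, iha, ← map_inv]; rfl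

/-- signs -/
def sg (b : Bool) : ℤˣ := cond b 1 (-1)

lemma toHNN_sgn (b : Bool) : toHNN Γ y (sgn Γ y b) = HNNExtension.t ^ ((sg b : ℤˣ) : ℤ) := by
  cases b
  · show toHNN Γ y (of Γ y)⁻¹ = _
    rw [map_inv, toHNN_of, hnnLet_self]
    simp [sg]
  · show toHNN Γ y (of Γ y) = _
    rw [toHNN_of, hnnLet_self]
    simp [sg]

end HNN

lemma exists_lift_list {G : Type v} [Group G] (H : Subgroup G) (L : List (Bool × G))
    (h : ∀ p ∈ L, p.2 ∈ H) : ∃ M : List (Bool × H), L = M.map (fun p => (p.1, (p.2 : G))) := by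
  induction L with
  | nil => exact ⟨[], rfl⟩
  | cons p L ih =>
    obtain ⟨M, hM⟩ := ih fun q hq => h q (List.mem_cons_of_mem _ hq)
    exact ⟨(p.1, ⟨p.2, h p List.mem_cons_self⟩) :: M, by rw [List.map_cons, ← hM]⟩

/-- One-letter Britton lemma. -/
theorem britton (y : V) (g₀ : RAAG Γ) (h₀ : g₀ ∈ sub Γ {z | z ≠ y})
    (L : List (Bool × RAAG Γ)) (hL : L ≠ []) (hmem : ∀ p ∈ L, p.2 ∈ sub Γ {z | z ≠ y})
    (hchain : L.IsChain (fun p q => q.1 = !p.1 → p.2 ∉ lk Γ y)) :
    g₀ * (L.map (fun p => sgn Γ y p.1 * p.2)).prod ∉ sub Γ {z | z ≠ y} := by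
  intro hcon
  obtain ⟨M, rfl⟩ := exists_lift_list _ L hmem
  rw [List.isChain_map] at hchain
  let w : HNNExtension.NormalWord.ReducedWord (sub Γ {z | z ≠ y}) (lkb Γ y) (lkb Γ y) :=
    { head := ⟨g₀, h₀⟩
      toList := M.map fun p => (sg p.1, p.2)
      chain := by
        rw [List.isChain_map]
        refine hchain.imp fun a b hab ha => ?_
        have ha' : a.2 ∈ lkb Γ y := by
          have h1 : ∀ u : ℤˣ, HNNExtension.toSubgroup (lkb Γ y) (lkb Γ y) u = lkb Γ y := by
            intro u
            unfold HNNExtension.toSubgroup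
            split_ifs <;> rfl
          rw [h1] at ha
          exact ha
        by_contra hne
        refine hab ?_ (Subgroup.mem_subgroupOf.mp ha')
        obtain ⟨a1, a2⟩ := a
        obtain ⟨b1, b2⟩ := b
        cases a1 <;> cases b1
        · exact absurd rfl hne
        · rfl
        · rfl
        · exact absurd rfl hne }
  have hprod : w.prod (MulEquiv.refl _) = toHNN Γ y (g₀ * ((M.map (fun p =>
      (p.1, (p.2 : RAAG Γ)))).map (fun p => sgn Γ y p.1 * p.2)).prod) := by
    rw [map_mul, map_list_prod, toHNN_sub y g₀ h₀]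
    show HNNExtension.of _ * _ = _
    congr 2
    rw [List.map_map, List.map_map, List.map_map]
    refine List.map_congr_left fun p _ => ?_
    show HNNExtension.t ^ ((sg p.1 : ℤˣ) : ℤ) * HNNExtension.of p.2 =
      toHNN Γ y (sgn Γ y p.1 * (p.2 : RAAG Γ))
    rw [map_mul, toHNN_sgn, toHNN_sub y _ p.2.2]
  have h1 := HNNExtension.ReducedWord.toList_eq_nil_of_mem_of_range (MulEquiv.refl _) w (by
    rw [hprod, toHNN_sub y _ hcon]
    exact ⟨_, rfl⟩)
  have h2 : M = [] := List.map_eq_nil_iff.mp h1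
  rw [h2] at hL
  exact hL rfl

open Classical in
/-- Splitting of a word at the occurrences of a letter. -/
noncomputable def spl (y : V) :
    List (V × Bool) → List (V × Bool) × List (Bool × List (V × Bool))
  | [] => ([], [])
  | p :: w => if p.1 = y then ([], (p.2, (spl y w).1) :: (spl y w).2)
      else (p :: (spl y w).1, (spl y w).2)

lemma spl_cons_self (y : V) (b : Bool) (w : List (V × Bool)) :
    spl y ((y, b) :: w) = ([], (b, (spl y w).1) :: (spl y w).2) := by
  rw [spl, if_pos rfl]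

lemma spl_cons_ne (y : V) (p : V × Bool) (h : p.1 ≠ y) (w : List (V × Bool)) :
    spl y (p :: w) = (p :: (spl y w).1, (spl y w).2) := by
  rw [spl, if_neg h]

lemma spl_wp (y : V) (w : List (V × Bool)) : wp Γ w = wp Γ (spl y w).1 *
    ((spl y w).2.map (fun p => sgn Γ y p.1 * wp Γ p.2)).prod := by
  induction w with
  | nil => rw [spl, wp_nil, List.map_nil, List.prod_nil, mul_one]
  | cons p w ih =>
    by_cases h : p.1 = y
    · obtain ⟨z, b⟩ := p
      have h' : z = y := h
      subst h'
      rw [spl_cons_self, wp_cons, ih, List.map_cons, List.prod_cons, wp_nil, one_mul, mul_assoc]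
    · rw [spl_cons_ne y p h, wp_cons, wp_cons, ih, mul_assoc]

lemma spl_free (y : V) (w : List (V × Bool)) : (∀ p ∈ (spl y w).1, p.1 ≠ y) ∧
    ∀ q ∈ (spl y w).2, ∀ p ∈ q.2, p.1 ≠ y := by
  induction w with
  | nil =>
    rw [spl]
    exact ⟨fun p hp => absurd hp List.not_mem_nil, fun p hp => absurd hp List.not_mem_nil⟩
  | cons p w ih =>
    by_cases h : p.1 = y
    · obtain ⟨z, b⟩ := p
      have h' : z = y := h
      subst h'
      rw [spl_cons_self]
      refine ⟨fun p hp => absurd hp List.not_mem_nil, fun q hq => ?_⟩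
      rcases List.mem_cons.mp hq with rfl | hq
      · exact ih.1
      · exact ih.2 q hq
    · rw [spl_cons_ne y p h]
      refine ⟨fun q hq => ?_, ih.2⟩
      rcases List.mem_cons.mp hq with rfl | hq
      · exact h
      · exact ih.1 q hq

lemma spl_head (y : V) (w : List (V × Bool)) (q : Bool × List (V × Bool))
    (hq : q ∈ (spl y w).2.head?) : ∃ w₂, w = (spl y w).1 ++ (y, q.1) :: w₂ := by
  induction w with
  | nil => rw [spl] at hq; exact absurd hq (by simp)
  | cons p w ih =>
    by_cases h : p.1 = y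
    · obtain ⟨z, b⟩ := p
      have h' : z = y := h
      subst h'
      rw [spl_cons_self] at hq ⊢
      rw [List.head?_cons, Option.mem_some_iff] at hq
      subst hq
      exact ⟨w, rfl⟩
    · rw [spl_cons_ne y p h] at hq ⊢
      obtain ⟨w₂, hw₂⟩ := ih hq
      refine ⟨w₂, ?_⟩
      rw [List.cons_append, ← hw₂]

lemma spl_last (y : V) (w : List (V × Bool)) (q : Bool × List (V × Bool))
    (hq : q ∈ (spl y w).2.getLast?) : ∃ w₁, w = w₁ ++ (y, q.1) :: q.2 := by
  induction w with
  | nil => rw [spl] at hq; exact absurd hq (by simp)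
  | cons p w ih =>
    by_cases h : p.1 = y
    · obtain ⟨z, b⟩ := p
      have h' : z = y := h
      subst h'
      rw [spl_cons_self] at hq
      by_cases hn : (spl z w).2 = []
      · rw [hn, List.getLast?_singleton, Option.mem_some_iff] at hq
        subst hq
        refine ⟨[], ?_⟩
        rw [List.nil_append]
        congr 1
        have h2 : ∀ w : List (V × Bool), (spl z w).2 = [] → w = (spl z w).1 := by
          intro w
          induction w with
          | nil => intro _; rw [spl]
          | cons p w ih' =>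
            intro h3
            by_cases h : p.1 = z
            · obtain ⟨z', b'⟩ := p
              have h' : z' = z := h
              subst h'
              rw [spl_cons_self] at h3
              exact absurd h3 (List.cons_ne_nil _ _)
            · rw [spl_cons_ne z p h] at h3 ⊢
              exact congrArg (List.cons p) (ih' h3)
        exact h2 w hn
      · rw [List.getLast?_cons_of_ne_nil hn] at hq
        obtain ⟨w₁, hw₁⟩ := ih hq
        exact ⟨(z, b) :: w₁, by rw [List.cons_append, ← hw₁]⟩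
    · rw [spl_cons_ne y p h] at hq
      obtain ⟨w₁, hw₁⟩ := ih hq
      exact ⟨p :: w₁, by rw [List.cons_append, ← hw₁]⟩

lemma spl_nil (y : V) (w : List (V × Bool)) (h : (spl y w).2 = []) : ∀ p ∈ w, p.1 ≠ y := by
  induction w with
  | nil => intro p hp; exact absurd hp List.not_mem_nil
  | cons p w ih =>
    by_cases hp : p.1 = y
    · obtain ⟨z, b⟩ := p
      have h' : z = y := hp
      subst h'
      rw [spl_cons_self] at h
      exact absurd h (List.cons_ne_nil _ _)
    · rw [spl_cons_ne y p hp] at h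
      intro q hq
      rcases List.mem_cons.mp hq with rfl | hq
      · exact hp
      · exact ih h q hq

lemma spl_chain (y : V) (w : List (V × Bool))
    (hnp : ∀ (w₁ : List (V × Bool)) (e : Bool) (u w₂ : List (V × Bool)),
      w = w₁ ++ (y, e) :: (u ++ (y, !e) :: w₂) → (∀ p ∈ u, p.1 ≠ y) → wp Γ u ∉ lk Γ y) :
    (spl y w).2.IsChain (fun p q => q.1 = !p.1 → wp Γ p.2 ∉ lk Γ y) := by
  induction w with
  | nil => rw [spl]; exact List.isChain_nil
  | cons p w ih =>
    have ih' := ih fun w₁ e u w₂ h => hnp (p :: w₁) e u w₂ (by rw [h, List.cons_append])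
    by_cases hp : p.1 = y
    · obtain ⟨z, b⟩ := p
      have h' : z = y := hp
      subst h'
      rw [spl_cons_self, List.isChain_cons]
      refine ⟨fun q hq hqb => ?_, ih'⟩
      obtain ⟨w₂, hw₂⟩ := spl_head z w q hq
      have hqb' : q.1 = !b := hqb
      rw [hqb'] at hw₂
      refine hnp [] b (spl z w).1 w₂ ?_ (spl_free z w).1
      rw [List.nil_append, ← hw₂]
    · rw [spl_cons_ne y p hp]
      exact ih'

/-- One-letter Britton lemma for words. -/
theorem britton_word (y : V) (w : List (V × Bool)) (hy : ∃ b, (y, b) ∈ w)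
    (hnp : ∀ (w₁ : List (V × Bool)) (e : Bool) (u w₂ : List (V × Bool)),
      w = w₁ ++ (y, e) :: (u ++ (y, !e) :: w₂) → (∀ p ∈ u, p.1 ≠ y) → wp Γ u ∉ lk Γ y) :
    wp Γ w ∉ sub Γ {z | z ≠ y} := by
  have h1 := britton y (wp Γ (spl y w).1) (wp_mem_sub _ _ (spl_free y w).1)
    ((spl y w).2.map fun p => (p.1, wp Γ p.2)) (by
      intro h
      obtain ⟨b, hb⟩ := hy
      exact spl_nil y w (List.map_eq_nil_iff.mp h) _ hb rfl) (by
      intro p hp
      obtain ⟨q, hq, rfl⟩ := List.mem_map.mp hp
      exact wp_mem_sub _ _ ((spl_free y w).2 q hq)) (by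
      rw [List.isChain_map]
      exact spl_chain y w hnp)
  rw [spl_wp y w]
  rw [List.map_map] at h1
  exact h1

lemma sgn_comm (y : V) (e : Bool) (g : RAAG Γ) (hg : g ∈ lk Γ y) : Commute (sgn Γ y e) g := by
  cases e
  · exact (commute_of_lk y g hg).inv_left
  · exact commute_of_lk y g hg

lemma pinch_eq {y : V} {e : Bool} {w₁ u w₂ : List (V × Bool)} (hu : wp Γ u ∈ lk Γ y) :
    wp Γ (w₁ ++ (y, e) :: (u ++ (y, !e) :: w₂)) = wp Γ (w₁ ++ (u ++ w₂)) := by
  rw [wp_append, wp_cons, wp_append, wp_cons, wp_append, wp_append, sgn_not]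
  have h := (sgn_comm y e (wp Γ u) hu).eq
  show wp Γ w₁ * (sgn Γ y e * (wp Γ u * ((sgn Γ y e)⁻¹ * wp Γ w₂))) = _
  rw [← mul_assoc (sgn Γ y e), h, mul_assoc, mul_inv_cancel_left]

theorem Red.no_pinch {w : List (V × Bool)} (hw : Red Γ w) {y : V} {e : Bool}
    {w₁ u w₂ : List (V × Bool)} (h : w = w₁ ++ (y, e) :: (u ++ (y, !e) :: w₂)) :
    wp Γ u ∉ lk Γ y := by
  intro hu
  have h1 := hw (w₁ ++ (u ++ w₂)) (by rw [h, pinch_eq hu])
  rw [h] at h1
  simp only [List.length_append, List.length_cons] at h1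
  omega

/-- Every element outside `sub {z ≠ y}` has a pinch-free expression with respect to `y`. -/
theorem exists_britton_form (y : V) (g : RAAG Γ) (hg : g ∉ sub Γ {z | z ≠ y}) :
    ∃ (g₀ : RAAG Γ) (L : List (Bool × RAAG Γ)), g₀ ∈ sub Γ {z | z ≠ y} ∧ L ≠ [] ∧
      (∀ p ∈ L, p.2 ∈ sub Γ {z | z ≠ y}) ∧
      L.IsChain (fun p q => q.1 = !p.1 → p.2 ∉ lk Γ y) ∧
      g = g₀ * (L.map (fun p => sgn Γ y p.1 * p.2)).prod := by
  obtain ⟨w, rfl, hw⟩ := exists_red g
  refine ⟨wp Γ (spl y w).1, (spl y w).2.map fun p => (p.1, wp Γ p.2),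
    wp_mem_sub _ _ (spl_free y w).1, ?_, ?_, ?_, ?_⟩
  · intro h
    apply hg
    have h1 : (spl y w).2 = [] := List.map_eq_nil_iff.mp h
    exact wp_mem_sub _ _ (spl_nil y w h1)
  · intro p hp
    obtain ⟨q, hq, rfl⟩ := List.mem_map.mp hp
    exact wp_mem_sub _ _ ((spl_free y w).2 q hq)
  · rw [List.isChain_map]
    exact spl_chain y w fun w₁ e u w₂ h _ => hw.no_pinch h
  · rw [List.map_map]
    exact spl_wp y w

theorem Red.notMem {w : List (V × Bool)} (hw : Red Γ w) {y : V} (h : ∃ b, (y, b) ∈ w) :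
    wp Γ w ∉ sub Γ {z | z ≠ y} :=
  britton_word y w h fun _ _ _ _ h1 _ => hw.no_pinch h1

theorem Red.mem_sub_iff {w : List (V × Bool)} (hw : Red Γ w) (L : Set V) :
    wp Γ w ∈ sub Γ L ↔ ∀ p ∈ w, p.1 ∈ L := by
  constructor
  · intro h p hp
    by_contra hpL
    refine hw.notMem (y := p.1) ⟨p.2, hp⟩ (sub_mono ?_ h)
    intro z hz hzp
    exact hpL (hzp ▸ hz)
  · exact wp_mem_sub L w

theorem Red.of_append {w₁ u w₂ : List (V × Bool)} (hw : Red Γ (w₁ ++ u ++ w₂)) : Red Γ u := by
  intro u' hu'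
  have h1 := hw (w₁ ++ u' ++ w₂) (by
    rw [wp_append, wp_append, wp_append, wp_append, hu'])
  simp only [List.length_append] at h1
  omega

/-- A RAAG is torsion-free. -/
theorem pow_ne_one (g : RAAG Γ) (hg : g ≠ 1) (n : ℕ) (hn : 0 < n) : g ^ n ≠ 1 := by
  classical
  -- a word of minimal length in the conjugacy class
  have hex : ∃ m, ∃ (w : List (V × Bool)) (x : RAAG Γ), wp Γ w = x * g * x⁻¹ ∧ w.length = m := by
    obtain ⟨w, hw⟩ := wp_surj g
    exact ⟨_, w, 1, by rw [hw, one_mul, inv_one, mul_one], rfl⟩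
  obtain ⟨w, x, hw, hm⟩ := Nat.find_spec hex
  have hmin : ∀ (w' : List (V × Bool)) (x' : RAAG Γ), wp Γ w' = x' * g * x'⁻¹ →
      w.length ≤ w'.length := by
    intro w' x' h
    rw [hm]
    exact Nat.find_min' hex ⟨w', x', h, rfl⟩
  cases w with
  | nil =>
    exfalso
    apply hg
    rw [wp_nil] at hw
    have h1 : x * g = x := mul_inv_eq_one.mp hw.symm
    exact mul_eq_left.mp h1
  | cons p w' =>
    obtain ⟨y, e⟩ := p
    obtain ⟨L, hL⟩ : ∃ L, L = (spl y ((y, e) :: w')).2.map fun p => (p.1, wp Γ p.2) :=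
      ⟨_, rfl⟩
    have hLne : L ≠ [] := by
      rw [hL, spl_cons_self]
      exact List.cons_ne_nil _ _
    have hLhead : ∀ q ∈ L.head?, q.1 = e := by
      intro q hq
      rw [hL, spl_cons_self, List.map_cons, List.head?_cons, Option.mem_some_iff] at hq
      rw [← hq]
    have hLmem : ∀ q ∈ L, q.2 ∈ sub Γ {z | z ≠ y} := by
      intro q hq
      rw [hL] at hq
      obtain ⟨q', hq', rfl⟩ := List.mem_map.mp hq
      exact wp_mem_sub _ _ ((spl_free y _).2 q' hq')
    have hLwp : wp Γ ((y, e) :: w') = (L.map (fun p => sgn Γ y p.1 * p.2)).prod := by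
      rw [spl_wp y ((y, e) :: w'), hL, List.map_map, spl_cons_self, wp_nil, one_mul]
      rfl
    have hLchain : L.IsChain (fun p q => q.1 = !p.1 → p.2 ∉ lk Γ y) := by
      rw [hL, List.isChain_map]
      refine spl_chain y _ fun w₁ e' u w₂ h _ hu => ?_
      have h1 := hmin (w₁ ++ (u ++ w₂)) x (by rw [← hw, h, pinch_eq hu])
      rw [h] at h1
      simp only [List.length_append, List.length_cons] at h1
      omega
    have hLcyc : ∀ p ∈ L.getLast?, ∀ q ∈ L.head?, q.1 = !p.1 → p.2 ∉ lk Γ y := by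
      intro p hp q hq hqp hu
      rw [hLhead q hq] at hqp
      rw [hL, List.getLast?_map, Option.mem_def, Option.map_eq_some_iff] at hp
      obtain ⟨p', hp', rfl⟩ := hp
      obtain ⟨w₁, hw₁⟩ := spl_last y _ p' hp'
      have hqp' : e = !p'.1 := hqp
      cases w₁ with
      | nil =>
        rw [List.nil_append] at hw₁
        have h1 := (List.cons.inj hw₁).1
        have h2 : e = p'.1 := congrArg Prod.snd h1
        rw [h2] at hqp'
        cases h3 : p'.1 <;> rw [h3] at hqp' <;> exact Bool.noConfusion hqp'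
      | cons a m =>
        rw [List.cons_append] at hw₁
        obtain ⟨h1, h2⟩ := List.cons.inj hw₁
        have hp1 : p'.1 = !e := by rw [hqp', Bool.not_not]
        rw [hp1] at h2
        have hc := (sgn_comm y e (wp Γ p'.2) hu).eq
        have h3 := hmin (m ++ p'.2) ((sgn Γ y e)⁻¹ * x) (by
          have h4 : wp Γ ((y, e) :: w') = sgn Γ y e * (wp Γ m * ((sgn Γ y e)⁻¹ * wp Γ p'.2)) := by
            rw [h2, wp_cons, wp_append, wp_cons, sgn_not]
          calc wp Γ (m ++ p'.2) = wp Γ m * wp Γ p'.2 := wp_append _ _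
            _ = (sgn Γ y e)⁻¹ * (sgn Γ y e * (wp Γ m * ((sgn Γ y e)⁻¹ * wp Γ p'.2))) *
                sgn Γ y e := by
              rw [inv_mul_cancel_left, mul_assoc, mul_assoc, ← hc, inv_mul_cancel_left]
            _ = (sgn Γ y e)⁻¹ * (x * g * x⁻¹) * sgn Γ y e := by rw [← hw, h4]
            _ = (sgn Γ y e)⁻¹ * x * g * ((sgn Γ y e)⁻¹ * x)⁻¹ := by
              rw [mul_inv_rev, inv_inv]
              simp only [mul_assoc])
        rw [h2] at h3
        simp only [List.length_append, List.length_cons] at h3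
        omega
    -- the powers
    have hpow : ∀ n : ℕ, (((List.replicate n L).flatten).map
        (fun p => sgn Γ y p.1 * p.2)).prod = wp Γ ((y, e) :: w') ^ n := by
      intro n
      induction n with
      | zero => rw [pow_zero]; rfl
      | succ n ih =>
        rw [List.replicate_succ, List.flatten_cons, List.map_append, List.prod_append, ih,
          pow_succ', hLwp]
    have hchain : ∀ n : ℕ, ((List.replicate n L).flatten).IsChain
        (fun p q => q.1 = !p.1 → p.2 ∉ lk Γ y) := by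
      intro n
      induction n with
      | zero => exact List.isChain_nil
      | succ n ih =>
        rw [List.replicate_succ, List.flatten_cons, List.isChain_append]
        refine ⟨hLchain, ih, fun p hp q hq => hLcyc p hp q ?_⟩
        cases n with
        | zero => exact absurd hq (by simp)
        | succ n =>
          rw [List.replicate_succ, List.flatten_cons, List.head?_append_of_ne_nil _ hLne] at hq
          exact hq
    have h1 := britton y 1 (Subgroup.one_mem _) ((List.replicate n L).flatten) (by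
      intro h
      rw [List.flatten_eq_nil_iff] at h
      exact hLne (h L (List.mem_replicate.mpr ⟨hn.ne', rfl⟩))) (by
      intro q hq
      obtain ⟨l, hl, hql⟩ := List.mem_flatten.mp hq
      rw [(List.mem_replicate.mp hl).2] at hql
      exact hLmem q hql) (hchain n)
    rw [one_mul, hpow] at h1
    intro h2
    apply h1
    rw [hw, conj_pow, h2, mul_one, mul_inv_cancel]
    exact Subgroup.one_mem _

end VSp
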